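import Pool.Agent.H60.MCG.Stage

namespace MCG

open Matrix

/-- Clifford matrices modulo three -/
def BL_v : Fin 5 → Matrix (Fin 4) (Fin 4) (ZMod 3) := 
  ![!![0, 0, 1, 0; 0, 0, 0, 1; 1, 0, 0, 0; 0, 1, 0, 0],
    !![1, 0, 1, 2; 0, 1, 2, 1; 1, 1, 2, 0; 1, 1, 0, 2],
    !![1, 0, 0, 0; 0, 1, 0, 0; 0, 0, 2, 0; 0, 0, 0, 2],
    !![1, 0, 0, 0; 0, 1, 1, 0; 0, 0, 2, 0; 2, 0, 0, 2],
    !![0, 0, 0, 1; 0, 0, 2, 0; 0, 2, 0, 0; 1, 0, 0, 0]]

theorem BL_sq : ∀ i, BL_v i * BL_v i = 1 := by decide +kernel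

theorem BL_braid : ∀ i j : Fin 5, (i : ℕ) + 1 = j →
    BL_v i * BL_v j * BL_v i = BL_v j * BL_v i * BL_v j := by decide +kernel

theorem BL_anti : ∀ i j : Fin 5, (i : ℕ) + 1 < j → BL_v i * BL_v j = -(BL_v j * BL_v i) := by
  decide +kernel

/-- the product of the first three -/
def BL_c : Matrix (Fin 4) (Fin 4) (ZMod 3) := 
  !![1, 1, 1, 0; 1, 1, 0, 1; 1, 0, 2, 1; 0, 1, 1, 2]

theorem BL_c_eq : BL_v 0 * BL_v 1 * BL_v 2 = BL_c := by decide +kernel

/-- the square -/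
def BL_d : Matrix (Fin 4) (Fin 4) (ZMod 3) := 
  !![0, 2, 0, 2; 2, 0, 2, 0; 0, 2, 0, 1; 2, 0, 1, 0]

theorem BL_d_eq : BL_c * BL_c = BL_d := by decide +kernel

theorem BL_e_eq : BL_d * BL_d = -1 := by decide +kernel

/-- the group -/
abbrev BLG : Type := (Matrix (Fin 4) (Fin 4) (ZMod 3))ˣ

/-- the generators -/
def BL_u (i : Fin 5) : BLG := ⟨BL_v i, BL_v i, BL_sq i, BL_sq i⟩

theorem BL_u_sq (i : Fin 5) : BL_u i * BL_u i = 1 := Units.ext (BL_sq i)

/-- the signs -/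
def BL_ε (x : ZMod 2) : BLG := if x = 0 then 1 else -1

theorem BL_zmod2 : ∀ x : ZMod 2, x = 0 ∨ x = 1 := by decide

theorem BL_ε_zero : BL_ε 0 = 1 := by simp [BL_ε]
theorem BL_ε_one : BL_ε 1 = -1 := by
  rw [BL_ε, if_neg (by decide)]

theorem BL_ε_add (x y : ZMod 2) : BL_ε (x + y) = BL_ε x * BL_ε y := by
  rcases BL_zmod2 x with rfl | rfl <;> rcases BL_zmod2 y with rfl | rfl
  · rw [add_zero, BL_ε_zero, one_mul]
  · rw [zero_add, BL_ε_zero, one_mul]
  · rw [add_zero, BL_ε_zero, mul_one]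
  · rw [show (1 : ZMod 2) + 1 = 0 by decide, BL_ε_zero, BL_ε_one, neg_mul_neg, one_mul]

theorem BL_ne : (1 : BLG) ≠ -1 := by
  intro h
  have h2 := congrArg Units.val h
  rw [Units.val_one, Units.val_neg, Units.val_one] at h2
  revert h2
  decide +kernel

theorem BL_ε_inj {x y : ZMod 2} (h : BL_ε x = BL_ε y) : x = y := by
  rcases BL_zmod2 x with rfl | rfl <;> rcases BL_zmod2 y with rfl | rfl
  · rfl
  · rw [BL_ε_zero, BL_ε_one] at h
    exact absurd h BL_ne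
  · rw [BL_ε_zero, BL_ε_one] at h
    exact absurd h.symm BL_ne
  · rfl

theorem BL_ε_comm (x : ZMod 2) (g : BLG) : BL_ε x * g = g * BL_ε x := by
  rcases BL_zmod2 x with rfl | rfl
  · rw [BL_ε_zero, one_mul, mul_one]
  · rw [BL_ε_one, neg_mul, mul_neg, one_mul, mul_one]

/-- the subgroup of signs -/
def BL_Z : Subgroup BLG where
  carrier := {g | ∃ x, g = BL_ε x}
  one_mem' := ⟨0, BL_ε_zero.symm⟩
  mul_mem' := by
    rintro _ _ ⟨x, rfl⟩ ⟨y, rfl⟩
    exact ⟨x + y, (BL_ε_add x y).symm⟩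
  inv_mem' := by
    rintro _ ⟨x, rfl⟩
    refine ⟨x, inv_eq_of_mul_eq_one_right ?_⟩
    rw [← BL_ε_add, CharTwo.add_self_eq_zero, BL_ε_zero]

instance : BL_Z.Normal where
  conj_mem := by
    rintro _ ⟨x, rfl⟩ g
    refine ⟨x, ?_⟩
    rw [← BL_ε_comm, mul_assoc, mul_inv_cancel, mul_one]

theorem BL_pow4 (x : BLG) : x ^ 4 = (x * x) * (x * x) := by
  rw [← pow_two, ← pow_two, ← pow_mul]

theorem BL_rel (r : FreeGroup (Fin 5)) (hr : r ∈ wRels) : FreeGroup.lift BL_u r ∈ BL_Z := by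
  rcases hr with ((⟨i, j, hij, rfl⟩ | ⟨i, j, hij, rfl⟩) | hr')
  · refine ⟨0, ?_⟩
    rw [BL_ε_zero, map_mul, map_inv, mul_inv_eq_one]
    simp only [map_mul, FreeGroup.lift_apply_of]
    exact Units.ext (BL_braid i j hij)
  · refine ⟨1, ?_⟩
    rw [BL_ε_one, map_mul, map_inv, mul_inv_eq_iff_eq_mul]
    simp only [map_mul, FreeGroup.lift_apply_of]
    refine Units.ext ?_
    rw [neg_mul, one_mul, Units.val_neg]
    exact BL_anti i j hij
  · rw [Set.mem_singleton_iff] at hr'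
    subst hr'
    refine ⟨1, ?_⟩
    have hw : FreeGroup.lift BL_u (wWord FreeGroup.of) = 1 := by
      simp only [wWord, map_mul, FreeGroup.lift_apply_of]
      rw [mul_assoc _ (BL_u 0) (BL_u 0), BL_u_sq, mul_one, mul_assoc _ (BL_u 1) (BL_u 1), BL_u_sq,
        mul_one, mul_assoc _ (BL_u 2) (BL_u 2), BL_u_sq, mul_one, BL_u_sq]
    rw [BL_ε_one, map_mul, map_inv, mul_inv_eq_iff_eq_mul]
    rw [map_mul, map_mul, map_mul, map_inv, hw, inv_one, mul_one, mul_one]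
    simp only [map_pow, map_mul, FreeGroup.lift_apply_of]
    rw [BL_u_sq, mul_one, BL_pow4]
    refine Units.ext ?_
    have h1 : ((BL_u 0 * BL_u 1 * BL_u 2 : BLG) : Matrix (Fin 4) (Fin 4) (ZMod 3)) = BL_c := BL_c_eq
    rw [Units.val_mul, Units.val_mul, h1, BL_d_eq, BL_e_eq, Units.val_neg, Units.val_one]

/-- the projective representation -/
noncomputable def BL_φ : W →* BLG ⧸ BL_Z :=
  PresentedGroup.toGroup (f := fun i => (QuotientGroup.mk' BL_Z) (BL_u i)) (by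
    intro r hr
    have h : FreeGroup.lift (fun i => (QuotientGroup.mk' BL_Z) (BL_u i))
        = (QuotientGroup.mk' BL_Z).comp (FreeGroup.lift BL_u) := by
      ext i
      simp
    rw [h, MonoidHom.comp_apply]
    exact (QuotientGroup.eq_one_iff _).2 (BL_rel r hr))

theorem BL_φ_tw (i : Fin 5) : BL_φ (tw i) = QuotientGroup.mk' BL_Z (BL_u i) :=
  PresentedGroup.toGroup.of _

/-- the section -/
noncomputable def BL_s (w : W) : BLG := (BL_φ w).out

theorem BL_mk_s (w : W) : QuotientGroup.mk' BL_Z (BL_s w) = BL_φ w := Quotient.out_eq' _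

theorem BL_exists {g h : BLG} (e : QuotientGroup.mk' BL_Z g = QuotientGroup.mk' BL_Z h) :
    ∃ x, g = BL_ε x * h := by
  obtain ⟨x, hx⟩ := (QuotientGroup.eq (s := BL_Z)).1 e.symm
  refine ⟨x, ?_⟩
  rw [BL_ε_comm, ← hx, mul_inv_cancel_left]

theorem BL_exists_coc (a b : W) : ∃ x, BL_s a * BL_s b = BL_ε x * BL_s (a * b) :=
  BL_exists (by rw [map_mul, BL_mk_s, BL_mk_s, BL_mk_s, map_mul])

/-- the cocycle -/
noncomputable def BL_θ (a b : W) : ZMod 2 := (BL_exists_coc a b).choose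

theorem BL_θ_spec (a b : W) : BL_s a * BL_s b = BL_ε (BL_θ a b) * BL_s (a * b) :=
  (BL_exists_coc a b).choose_spec

/-- a cocycle on `W` detecting the commutator of the first and third twist (it comes from the
double cover of the symmetric group on six letters) -/
theorem W_theta : ∃ θ : Coc W (ZMod 2), θ.f (tw 0) (tw 2) - θ.f (tw 2) (tw 0) = 1 := by
  refine ⟨⟨BL_θ, ?_⟩, ?_⟩
  · intro a b c
    refine BL_ε_inj ?_
    have h1 : BL_s a * BL_s b * BL_s c =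
        BL_ε (BL_θ a b + BL_θ (a * b) c) * BL_s (a * b * c) := by
      rw [BL_θ_spec, mul_assoc, BL_θ_spec, ← mul_assoc, ← BL_ε_add]
    have h2 : BL_s a * (BL_s b * BL_s c) =
        BL_ε (BL_θ b c + BL_θ a (b * c)) * BL_s (a * (b * c)) := by
      rw [BL_θ_spec, ← mul_assoc, ← BL_ε_comm, mul_assoc, BL_θ_spec, ← mul_assoc, ← BL_ε_add]
    rw [← mul_assoc, ← mul_assoc, h1] at h2
    exact mul_right_cancel h2
  · change BL_θ (tw 0) (tw 2) - BL_θ (tw 2) (tw 0) = 1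
    have hcomm : tw 0 * tw 2 = tw 2 * tw 0 := by
      have := PresentedGroup.one_of_mem (rels := wRels)
        (x := FreeGroup.of 0 * FreeGroup.of 2 * (FreeGroup.of 2 * FreeGroup.of 0)⁻¹)
        (Or.inl (Or.inr ⟨0, 2, by decide, rfl⟩))
      rw [map_mul, map_inv, mul_inv_eq_one, map_mul, map_mul] at this
      exact this
    obtain ⟨x, hx⟩ := BL_exists (g := BL_s (tw 0)) (h := BL_u 0) (by rw [BL_mk_s, BL_φ_tw])
    obtain ⟨y, hy⟩ := BL_exists (g := BL_s (tw 2)) (h := BL_u 2) (by rw [BL_mk_s, BL_φ_tw])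
    have h1 := BL_θ_spec (tw 0) (tw 2)
    have h2 := BL_θ_spec (tw 2) (tw 0)
    have hu : BL_u 0 * BL_u 2 = BL_ε 1 * (BL_u 2 * BL_u 0) := by
      refine Units.ext ?_
      rw [BL_ε_one, neg_mul, one_mul, Units.val_neg]
      exact BL_anti 0 2 (by decide)
    have h3 : BL_s (tw 0) * BL_s (tw 2) = BL_ε 1 * (BL_s (tw 2) * BL_s (tw 0)) := by
      rw [hx, hy]
      calc BL_ε x * BL_u 0 * (BL_ε y * BL_u 2) = BL_ε x * BL_ε y * (BL_u 0 * BL_u 2) := by
            rw [mul_assoc, ← mul_assoc (BL_u 0), ← BL_ε_comm y (BL_u 0)]; simp only [mul_assoc]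
        _ = BL_ε 1 * (BL_ε y * BL_u 2 * (BL_ε x * BL_u 0)) := by
            rw [hu, mul_assoc (BL_ε y), ← mul_assoc (BL_u 2), ← BL_ε_comm x (BL_u 2)]
            rw [← mul_assoc, ← BL_ε_comm 1, mul_assoc (BL_ε 1)]
            congr 1
            rw [BL_ε_comm x (BL_ε y)]
            simp only [mul_assoc]
    rw [h1, h2, ← mul_assoc, ← BL_ε_add, ← hcomm] at h3
    have h4 := BL_ε_inj (mul_right_cancel h3)
    rw [h4, add_sub_cancel_right]

end MCG
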