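import Pool.Agent.H60.MCG.Hom

open Finsupp

namespace MCG

variable {G : Type} [Group G]

/-- the set of kernel elements of a central extension that are products of commutators is
trivial on every map from second homology -/
theorem Coc.incl_mem_commutator {A : Type} [AddCommGroup A] (c : Coc G A) {z : Q G}
    (hz : z ∈ H G) :
    c.incl (Multiplicative.ofAdd (Q.lift c.f c.coc z)) ∈ commutator c.Ext := by
  classical
  let β : G → Additive (Abelianization c.Ext) := fun g => Additive.ofMul (Abelianization.of ⟨0, g⟩)
  let j : A →+ Additive (Abelianization c.Ext) :=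
    { toFun := fun x => Additive.ofMul (Abelianization.of (c.incl (Multiplicative.ofAdd x)))
      map_zero' := by
        rw [ofAdd_zero, map_one, map_one]; rfl
      map_add' := by
        intro x y
        rw [ofAdd_add, map_mul, map_mul]; rfl }
  let B : (G →₀ ℤ) →+ Additive (Abelianization c.Ext) :=
    Finsupp.liftAddHom (fun g => zmultiplesHom _ (β g))
  have hB : ∀ g, B (single g 1) = β g := by
    intro g
    simp [B]
  have key : j.comp (Q.lift c.f c.coc) = B.comp (dQ G) := by
    refine Q.hom_ext ?_
    intro a b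
    rw [AddMonoidHom.comp_apply, AddMonoidHom.comp_apply, Q.lift_sym, dQ, Q.lift_sym, map_add,
      map_sub, hB, hB, hB]
    have h1 : c.incl (Multiplicative.ofAdd (c.f a b)) * ⟨0, a * b⟩ = (⟨0, a⟩ : c.Ext) * ⟨0, b⟩ := by
      refine Ext.ext' ?_ (by simp)
      simp [c.f_one_left]
    have h2 := congrArg (fun x => Additive.ofMul (Abelianization.of x)) h1
    simp only [map_mul, ofMul_mul] at h2
    have h3 : j (c.f a b) + β (a * b) = β a + β b := h2
    rw [← sub_eq_iff_eq_add.2 h3.symm]
    abel
  have hz' : dQ G z = 0 := hz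
  have h := DFunLike.congr_fun key z
  rw [AddMonoidHom.comp_apply, AddMonoidHom.comp_apply, hz', map_zero] at h
  rw [← Abelianization.ker_of]
  exact h

theorem exists_of_mem_commutator {e : (univ G).Ext} (he : e ∈ commutator (univ G).Ext)
    (h1 : e.g = 1) : ∃ z ∈ H G, e = (univ G).incl (Multiplicative.ofAdd z) := by
  classical
  have hsym : ∀ a b : G, dQ G (sym a b) = single b 1 - single (a * b) 1 + single a 1 := by
    intro a b
    rw [dQ, Q.lift_sym]
  let D : (univ G).Ext →* Multiplicative (G →₀ ℤ) :=
    MonoidHom.mk' (fun x => Multiplicative.ofAdd (dQ G x.a + single x.g 1)) (by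
      intro x y
      rw [← ofAdd_add]
      congr 1
      have : (univ G).f x.g y.g = sym x.g y.g := rfl
      simp only [Coc.mul_a, Coc.mul_g, this, map_add, hsym]
      abel)
  have hD : D e = 1 := by
    have : e ∈ D.ker := Abelianization.commutator_subset_ker D he
    exact this
  have hD' : dQ G e.a + single e.g 1 = 0 := hD
  rw [h1] at hD'
  refine ⟨e.a + sym 1 1, ?_, ?_⟩
  · rw [H, AddMonoidHom.mem_ker, map_add, hsym, mul_one, sub_self, zero_add]
    exact hD'
  · refine Coc.Ext.ext' ?_ h1
    have : (univ G).f 1 1 = sym 1 1 := rfl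
    rw [Coc.incl_a, this, toAdd_ofAdd, add_sub_cancel_right]

/-- comparison maps between cocycle extensions -/
def Coc.map {G' A A' : Type} [Group G'] [AddCommGroup A] [AddCommGroup A'] (c : Coc G A)
    (c' : Coc G' A') (f : G →* G') (q : A →+ A') (h : ∀ a b, q (c.f a b) = c'.f (f a) (f b)) :
    c.Ext →* c'.Ext where
  toFun x := ⟨q x.a, f x.g⟩
  map_one' := by
    refine Ext.ext' ?_ (map_one f)
    simp [h]
  map_mul' x y := by
    refine Ext.ext' ?_ (map_mul f _ _)
    simp [h]

/-- the universal extension maps to every central extension -/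
theorem IsCentral.exists_lift {K E G' : Type} [AddCommGroup K] [Group E] [Group G']
    {i : Multiplicative K →* E} {p : E →* G'} (hE : IsCentral i p) (f : G →* G') :
    ∃ (φ : (univ G).Ext →* E) (q : Q G →+ K),
      (∀ x, p (φ x) = f x.g) ∧
      (∀ z, φ ((univ G).incl (Multiplicative.ofAdd z)) = i (Multiplicative.ofAdd (q z))) := by
  classical
  choose s hs using hE.surj
  have hk : ∀ a b : G', ∃ k : K, i (Multiplicative.ofAdd k) = s a * s b * (s (a * b))⁻¹ := by
    intro a b
    obtain ⟨k, hk⟩ := (hE.exact (s a * s b * (s (a * b))⁻¹)).1 (by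
      rw [map_mul, map_mul, map_inv, hs, hs, hs, mul_inv_cancel])
    exact ⟨Multiplicative.toAdd k, hk⟩
  choose k hk using hk
  have hmul : ∀ a b, i (Multiplicative.ofAdd (k a b)) * s (a * b) = s a * s b := by
    intro a b
    rw [hk, inv_mul_cancel_right]
  have hcoc : ∀ a b c, k a b + k (a * b) c = k b c + k a (b * c) := by
    intro a b c
    apply Multiplicative.ofAdd.injective
    apply hE.inj
    rw [ofAdd_add, ofAdd_add, map_mul, map_mul]
    have h1 : i (Multiplicative.ofAdd (k a b)) * i (Multiplicative.ofAdd (k (a * b) c)) *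
        s (a * b * c) = s a * s b * s c := by
      rw [mul_assoc, hmul, ← mul_assoc, hmul]
    have h2 : i (Multiplicative.ofAdd (k b c)) * i (Multiplicative.ofAdd (k a (b * c))) *
        s (a * (b * c)) = s a * s b * s c := by
      rw [mul_assoc, hmul, ← mul_assoc, hE.central, mul_assoc, hmul, mul_assoc]
    rw [← mul_assoc a b c] at h2
    exact mul_right_cancel (h1.trans h2.symm)
  let q : Q G →+ K := Q.lift (fun a b => k (f a) (f b)) (by
    intro a b c
    rw [map_mul, map_mul]
    exact hcoc _ _ _)
  have hq : ∀ a b, q (sym a b) = k (f a) (f b) := by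
    intro a b
    simp [q]
  let φ : (univ G).Ext →* E :=
    MonoidHom.mk' (fun x => i (Multiplicative.ofAdd (q x.a)) * s (f x.g)) (by
      intro x y
      have : (univ G).f x.g y.g = sym x.g y.g := rfl
      rw [Coc.mul_a, Coc.mul_g, this, q.map_add, q.map_add, hq, f.map_mul, ofAdd_add, ofAdd_add,
        i.map_mul, i.map_mul, mul_assoc, hmul, mul_assoc, mul_assoc]
      congr 1
      rw [← mul_assoc, ← mul_assoc, hE.central])
  refine ⟨φ, q, ?_, ?_⟩
  · intro x
    have h1 : p (i (Multiplicative.ofAdd (q x.a))) = 1 := (hE.exact _).2 ⟨_, rfl⟩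
    change p (i (Multiplicative.ofAdd (q x.a)) * s (f x.g)) = f x.g
    rw [map_mul, h1, one_mul, hs]
  · intro z
    change i (Multiplicative.ofAdd (q (((univ G).incl (Multiplicative.ofAdd z)).a))) *
      s (f 1) = i (Multiplicative.ofAdd (q z))
    have : (univ G).f 1 1 = sym 1 1 := rfl
    rw [Coc.incl_a, this, toAdd_ofAdd, map_sub, hq, map_one, ofAdd_sub, map_div, hk, mul_one]
    simp

end MCG
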