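import Pool.Agent.H60.MCG.BaseUp
import Pool.Agent.H60.MCG.BaseLow
import Pool.Agent.H60.MCG.Ext

namespace MCG

/-- the cocycle with values in a quotient -/
private noncomputable def bsCoq (T : AddSubgroup (Q W)) : Coc W (Q W ⧸ T) :=
  ⟨fun a b => QuotientAddGroup.mk' T (sym a b), by
    intro a b c
    rw [← map_add, ← map_add, sym_cocycle]⟩

private theorem bs_lift (T : AddSubgroup (Q W)) (x : Q W) :
    Q.lift (bsCoq T).f (bsCoq T).coc x = QuotientAddGroup.mk' T x := by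
  have : Q.lift (bsCoq T).f (bsCoq T).coc = QuotientAddGroup.mk' T :=
    Q.hom_ext (by intro a b; simp [bsCoq])
  exact DFunLike.congr_fun this x

private theorem bs_comm : tw 0 * tw 2 = tw 2 * tw 0 := by
  have h1 : FreeGroup.of 0 * FreeGroup.of 2 * (FreeGroup.of 2 * FreeGroup.of 0)⁻¹ ∈ wRels :=
    Or.inl (Or.inr ⟨0, 2, by decide, rfl⟩)
  have h2 := PresentedGroup.one_of_mem h1
  rw [map_mul, map_inv, mul_inv_eq_one] at h2
  simp only [map_mul] at h2
  exact h2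

/-- The second homology of the mapping class group of genus two with one boundary curve. -/
theorem exists_HW : Nonempty (H W ≃+ ZMod 2) := by
  obtain ⟨θ, hθ⟩ := W_theta
  set ξ : Q W := sym (tw 0) (tw 2) - sym (tw 2) (tw 0) with hξdef
  have hξ : ξ ∈ H W := by
    rw [H, AddMonoidHom.mem_ker, hξdef, map_sub]
    simp only [dQ, Q.lift_sym]
    rw [bs_comm]
    abel
  set Θ : Q W →+ ZMod 2 := Q.lift θ.f θ.coc with hΘ
  have hΘξ : Θ ξ = 1 := by rw [hξdef, map_sub, hΘ, Q.lift_sym, Q.lift_sym, hθ]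
  have h2ξ : (2 : ℤ) • ξ = 0 := by
    have hcomm : (⟨0, tw 0⟩ : (univ W).Ext) * ⟨0, tw 2⟩ * (⟨0, tw 0⟩ : (univ W).Ext)⁻¹
        * (⟨0, tw 2⟩ : (univ W).Ext)⁻¹ = (univ W).incl (Multiplicative.ofAdd ξ) := by
      rw [mul_inv_eq_iff_eq_mul, mul_inv_eq_iff_eq_mul, mul_assoc]
      refine Coc.Ext.ext' ?_ ?_
      · simp only [Coc.mul_a, Coc.mul_g, Coc.incl_a, Coc.incl_g, toAdd_ofAdd, Coc.f_one_left]
        simp only [univ, hξdef]
        abel
      · simp only [Coc.mul_g, Coc.incl_g, one_mul]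
        exact bs_comm
    have h := W_sq (univ W).isCentral (fun k => (⟨0, tw k⟩ : (univ W).Ext)) (fun k => rfl)
    rw [hcomm, ← map_pow, ← map_one (univ W).incl] at h
    have h2 := (univ W).isCentral.inj h
    have h3 : (2 : ℕ) • ξ = 0 := h2
    rw [two_zsmul, ← two_nsmul]
    exact h3
  have hgen : ∀ x ∈ H W, ∃ n : ℤ, x = n • ξ := by
    intro x hx
    set T := AddSubgroup.zmultiples ξ with hT
    have hξT : QuotientAddGroup.mk' T ξ = 0 :=
      (QuotientAddGroup.eq_zero_iff _).2 (AddSubgroup.mem_zmultiples ξ)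
    have h1 := Coc.incl_mem_commutator (bsCoq T) hx
    rw [bs_lift] at h1
    have hc : (⟨0, tw 0⟩ : (bsCoq T).Ext) * ⟨0, tw 2⟩ = ⟨0, tw 2⟩ * ⟨0, tw 0⟩ := by
      refine Coc.Ext.ext' ?_ ?_
      · have h5 : (bsCoq T).f (tw 0) (tw 2) = (bsCoq T).f (tw 2) (tw 0) := by
          rw [hξdef, map_sub] at hξT
          exact sub_eq_zero.1 hξT
        simp only [Coc.mul_a, h5]
      · exact bs_comm
    have h2 := W_upper (bsCoq T).isCentral (fun k => (⟨0, tw k⟩ : (bsCoq T).Ext)) (fun k => rfl) hc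
      _ h1
    have h3 : QuotientAddGroup.mk' T x = 0 := h2
    have h4 : x ∈ T := (QuotientAddGroup.eq_zero_iff _).1 h3
    obtain ⟨n, hn⟩ := AddSubgroup.mem_zmultiples_iff.1 h4
    exact ⟨n, hn.symm⟩
  refine ⟨AddEquiv.ofBijective (Θ.comp (H W).subtype) ⟨?_, ?_⟩⟩
  · rw [injective_iff_map_eq_zero]
    rintro ⟨x, hx⟩ h
    obtain ⟨n, rfl⟩ := hgen x hx
    have h2 : Θ (n • ξ) = 0 := h
    rw [map_zsmul, hΘξ] at h2
    have h1 : ((n : ℤ) : ZMod 2) = 0 := by simpa using h2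
    rw [ZMod.intCast_zmod_eq_zero_iff_dvd] at h1
    obtain ⟨m, rfl⟩ := h1
    refine Subtype.ext ?_
    show (((2 : ℕ) : ℤ) * m) • ξ = 0
    rw [mul_comm, mul_smul]
    have : ((2 : ℕ) : ℤ) • ξ = 0 := by simpa using h2ξ
    rw [this, smul_zero]
  · intro a
    refine ⟨⟨(a.val : ℤ) • ξ, (H W).zsmul_mem hξ _⟩, ?_⟩
    show Θ ((a.val : ℤ) • ξ) = a
    rw [map_zsmul, hΘξ]
    simp

end MCG
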