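import Pool.Agent.H60.MCG.Stage

namespace MCG

section bu

/-- the twists satisfy the braid relations -/
private theorem bu_braid (i j : Fin 5) (h : (i : ℕ) + 1 = j) :
    tw i * tw j * tw i = tw j * tw i * tw j := by
  have h1 : FreeGroup.of i * FreeGroup.of j * FreeGroup.of i *
        (FreeGroup.of j * FreeGroup.of i * FreeGroup.of j)⁻¹ ∈ wRels :=
    Or.inl (Or.inl ⟨i, j, h, rfl⟩)
  have h2 := PresentedGroup.one_of_mem h1
  rw [map_mul, map_inv, mul_inv_eq_one] at h2
  simp only [map_mul] at h2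
  exact h2

private theorem bu_comm (i j : Fin 5) (h : (i : ℕ) + 1 < j) :
    tw i * tw j = tw j * tw i := by
  have h1 : FreeGroup.of i * FreeGroup.of j * (FreeGroup.of j * FreeGroup.of i)⁻¹ ∈ wRels :=
    Or.inl (Or.inr ⟨i, j, h, rfl⟩)
  have h2 := PresentedGroup.one_of_mem h1
  rw [map_mul, map_inv, mul_inv_eq_one] at h2
  simp only [map_mul] at h2
  exact h2

private theorem bu_conj {G : Type} [Group G] {a b : G} (h : a * b * a = b * a * b) :
    (a * b) * a * (a * b)⁻¹ = b := by
  rw [h]; group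

/-- half twist -/
private theorem bu_half1 {G : Type} [Group G] {a b c : G} (hab : a * b * a = b * a * b)
    (hbc : b * c * b = c * b * c) (hac : a * c = c * a) :
    (a * b * c * (a * b * a)) * a = c * (a * b * c * (a * b * a)) := by
  have h1 : a * b * c * b = c * (a * b * c) := by
    calc a * b * c * b = a * (b * c * b) := by group
      _ = a * (c * b * c) := by rw [hbc]
      _ = (a * c) * b * c := by group
      _ = (c * a) * b * c := by rw [hac]
      _ = c * (a * b * c) := by group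
  have h2 : a * b * a * a = b * (a * b * a) := by
    calc a * b * a * a = (b * a * b) * a := by rw [hab]
      _ = b * (a * b * a) := by group
  calc (a * b * c * (a * b * a)) * a = (a * b * c) * (a * b * a * a) := by group
    _ = (a * b * c) * (b * (a * b * a)) := by rw [h2]
    _ = (a * b * c * b) * (a * b * a) := by group
    _ = (c * (a * b * c)) * (a * b * a) := by rw [h1]
    _ = c * (a * b * c * (a * b * a)) := by group

private theorem bu_half2 {G : Type} [Group G] {a b c : G} (hab : a * b * a = b * a * b)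
    (hbc : b * c * b = c * b * c) (hac : a * c = c * a) :
    (a * b * c * (a * b * a)) * c = a * (a * b * c * (a * b * a)) := by
  have h0 : a * b * c * (a * b * a) = (a * b * a) * (c * b * a) := by
    calc a * b * c * (a * b * a) = a * b * (c * a) * b * a := by group
      _ = a * b * (a * c) * b * a := by rw [hac]
      _ = (a * b * a) * (c * b * a) := by group
  calc (a * b * c * (a * b * a)) * c = (a * b * a) * (c * b * a) * c := by rw [h0]
    _ = (a * b * a) * (c * b * (a * c)) := by group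
    _ = (a * b * a) * (c * b * (c * a)) := by rw [hac]
    _ = (a * b * a) * ((c * b * c) * a) := by group
    _ = (a * b * a) * ((b * c * b) * a) := by rw [hbc]
    _ = a * (b * a * b) * (c * b * a) := by group
    _ = a * (a * b * a) * (c * b * a) := by rw [hab]
    _ = a * ((a * b * a) * (c * b * a)) := by group
    _ = a * (a * b * c * (a * b * a)) := by rw [h0]

end bu

variable {K E : Type} [AddCommGroup K] [Group E] {i : Multiplicative K →* E} {p : E →* W}

private theorem bu_diff (hE : IsCentral i p) {a b : E} (h : p a = p b) : ∃ k, a = i k * b := by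
  have h1 : p (a * b⁻¹) = 1 := by rw [map_mul, map_inv, h, mul_inv_cancel]
  obtain ⟨k, hk⟩ := (hE.exact _).1 h1
  exact ⟨k, by rw [hk]; group⟩

/-- the commutator does not depend on the lifts -/
private theorem bu_cmt_lift (hE : IsCentral i p) {a a' b b' : E} (ha : p a = p a')
    (hb : p b = p b') : a * b * a⁻¹ * b⁻¹ = a' * b' * a'⁻¹ * b'⁻¹ := by
  obtain ⟨k, rfl⟩ := bu_diff hE ha
  obtain ⟨l, rfl⟩ := bu_diff hE hb
  have hk : ∀ e, i k * e = e * i k := fun e => hE.central k e
  have hl : ∀ e, i l * e = e * i l := fun e => hE.central l e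
  calc i k * a' * (i l * b') * (i k * a')⁻¹ * (i l * b')⁻¹
      = i k * (a' * (i l * b') * a'⁻¹) * (i k)⁻¹ * b'⁻¹ * (i l)⁻¹ := by group
    _ = (a' * (i l * b') * a'⁻¹) * i k * (i k)⁻¹ * b'⁻¹ * (i l)⁻¹ := by rw [hk]
    _ = a' * (i l * (b' * a'⁻¹ * b'⁻¹)) * (i l)⁻¹ := by group
    _ = a' * ((b' * a'⁻¹ * b'⁻¹) * i l) * (i l)⁻¹ := by rw [hl]
    _ = a' * b' * a'⁻¹ * b'⁻¹ := by group

private theorem bu_cmt_central (hE : IsCentral i p) {a b : E} (h : p a * p b = p b * p a) (g : E) :
    g * (a * b * a⁻¹ * b⁻¹) * g⁻¹ = a * b * a⁻¹ * b⁻¹ := by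
  have h1 : p (a * b * a⁻¹ * b⁻¹) = 1 := by
    rw [map_mul, map_mul, map_mul, h, map_inv, map_inv]; group
  obtain ⟨k, hk⟩ := (hE.exact _).1 h1
  rw [← hk, ← hE.central]; group

/-- conjugation invariance -/
private theorem bu_cmt_conj (hE : IsCentral i p) {a b a' b' : E} (h : p a * p b = p b * p a) (g : E)
    (ha : p a' = p g * p a * (p g)⁻¹) (hb : p b' = p g * p b * (p g)⁻¹) :
    a' * b' * a'⁻¹ * b'⁻¹ = a * b * a⁻¹ * b⁻¹ := by
  rw [← bu_cmt_central hE h g,
    bu_cmt_lift hE (a := a') (a' := g * a * g⁻¹) (b := b') (b' := g * b * g⁻¹)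
      (by rw [ha]; simp) (by rw [hb]; simp)]
  group

/-- the commutator of lifts of the first and third twist has order at most two -/
theorem W_sq (hE : IsCentral i p) (t : Fin 5 → E) (ht : ∀ k, p (t k) = tw k) :
    (t 0 * t 2 * (t 0)⁻¹ * (t 2)⁻¹) ^ 2 = 1 := by
  have b01 := bu_braid 0 1 rfl
  have b12 := bu_braid 1 2 rfl
  have c02 := bu_comm 0 2 (by decide)
  have e1 := bu_half1 b01 b12 c02
  have e2 := bu_half2 b01 b12 c02
  set g : E := t 0 * t 1 * t 2 * (t 0 * t 1 * t 0) with hg
  have hpg : p g = tw 0 * tw 1 * tw 2 * (tw 0 * tw 1 * tw 0) := by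
    rw [hg]; simp only [map_mul, ht]
  have h1 := bu_cmt_conj hE (a := t 0) (b := t 2) (a' := t 2) (b' := t 0)
    (by rw [ht, ht]; exact c02) g
    (by rw [ht, ht, hpg, e1, mul_inv_cancel_right])
    (by rw [ht, ht, hpg, e2, mul_inv_cancel_right])
  have h2 : t 2 * t 0 * (t 2)⁻¹ * (t 0)⁻¹ = (t 0 * t 2 * (t 0)⁻¹ * (t 2)⁻¹)⁻¹ := by group
  rw [h2] at h1
  rw [pow_two]
  nth_rewrite 1 [← h1]
  rw [inv_mul_cancel]

private theorem bu_next (hE : IsCentral i p) (a : E) (j k : Fin 5) (hjk : (j : ℕ) + 1 = k)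
    (ha : p a = tw j) : ∃ b, p b = tw k ∧ a * b * a = b * a * b := by
  obtain ⟨s, hs⟩ := hE.surj (tw k)
  have hb := bu_conj (bu_braid j k hjk)
  refine ⟨(a * s) * a * (a * s)⁻¹, ?_, ?_⟩
  · rw [map_mul, map_mul, map_inv, map_mul, ha, hs, hb]
  · have h1 : p ((a * s) * a * (a * s)⁻¹) = p s := by
      rw [map_mul, map_mul, map_inv, map_mul, ha, hs, hb]
    obtain ⟨z, hz⟩ := bu_diff hE h1
    set b := (a * s) * a * (a * s)⁻¹ with hbdef
    have hc := hE.central z
    have h3 : (a * b) * a * (a * b)⁻¹ = b := by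
      calc (a * b) * a * (a * b)⁻¹ = (a * (i z * s)) * a * (a * (i z * s))⁻¹ := by rw [← hz]
        _ = a * (i z * (s * a * s⁻¹)) * (i z)⁻¹ * a⁻¹ := by group
        _ = a * ((s * a * s⁻¹) * i z) * (i z)⁻¹ * a⁻¹ := by rw [hc]
        _ = (a * s) * a * (a * s)⁻¹ := by group
    calc a * b * a = ((a * b) * a * (a * b)⁻¹) * (a * b) := by group
      _ = b * (a * b) := by rw [h3]
      _ = b * a * b := by group

private theorem bu_of_cmt {G : Type} [Group G] {a b : G} (h : a * b * a⁻¹ * b⁻¹ = 1) :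
    a * b = b * a := by
  calc a * b = (a * b * a⁻¹ * b⁻¹) * (b * a) := by group
    _ = b * a := by rw [h, one_mul]

private theorem bu_lifts (hE : IsCentral i p) (t : Fin 5 → E) (ht : ∀ k, p (t k) = tw k)
    (hc : t 0 * t 2 = t 2 * t 0) : ∃ s : Fin 5 → E, (∀ k, p (s k) = tw k) ∧ TRel s := by
  obtain ⟨s1, q1, b01⟩ := bu_next hE (t 0) 0 1 rfl (ht 0)
  obtain ⟨s2, q2, b12⟩ := bu_next hE s1 1 2 rfl q1
  obtain ⟨s3, q3, b23⟩ := bu_next hE s2 2 3 rfl q2
  obtain ⟨s4, q4, b34⟩ := bu_next hE s3 3 4 rfl q3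
  have q0 := ht 0
  have v01 := bu_conj (bu_braid 0 1 rfl)
  have v12 := bu_conj (bu_braid 1 2 rfl)
  have v23 := bu_conj (bu_braid 2 3 rfl)
  have v34 := bu_conj (bu_braid 3 4 rfl)
  have k02 := bu_comm 0 2 (by decide)
  have k03 := bu_comm 0 3 (by decide)
  have k04 := bu_comm 0 4 (by decide)
  have k13 := bu_comm 1 3 (by decide)
  have k14 := bu_comm 1 4 (by decide)
  have k24 := bu_comm 2 4 (by decide)
  -- conjugation by `x y` fixes `z` if `x`, `y` commute with `z`
  have fixc : ∀ x y z : W, x * z = z * x → y * z = z * y → (x * y) * z * (x * y)⁻¹ = z := by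
    intro x y z h1 h2
    calc (x * y) * z * (x * y)⁻¹ = x * (y * z) * (x * y)⁻¹ := by group
      _ = x * (z * y) * (x * y)⁻¹ := by rw [h2]
      _ = (x * z) * y * (x * y)⁻¹ := by group
      _ = (z * x) * y * (x * y)⁻¹ := by rw [h1]
      _ = z := by group
  have c02 : t 0 * s2 * (t 0)⁻¹ * s2⁻¹ = 1 := by
    rw [bu_cmt_lift hE (a := t 0) (a' := t 0) (b := s2) (b' := t 2) rfl (by rw [q2, ht 2]), hc]
    group
  have c03 : t 0 * s3 * (t 0)⁻¹ * s3⁻¹ = 1 := by
    rw [bu_cmt_conj hE (a := t 0) (b := s2) (by rw [q0, q2]; exact k02) (s2 * s3)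
      (by rw [map_mul, q0, q2, q3, fixc _ _ _ k02.symm k03.symm])
      (by rw [map_mul, q2, q3, v23]), c02]
  have c04 : t 0 * s4 * (t 0)⁻¹ * s4⁻¹ = 1 := by
    rw [bu_cmt_conj hE (a := t 0) (b := s3) (by rw [q0, q3]; exact k03) (s3 * s4)
      (by rw [map_mul, q0, q3, q4, fixc _ _ _ k03.symm k04.symm])
      (by rw [map_mul, q3, q4, v34]), c03]
  have c13 : s1 * s3 * s1⁻¹ * s3⁻¹ = 1 := by
    rw [bu_cmt_conj hE (a := t 0) (b := s3) (by rw [q0, q3]; exact k03) (t 0 * s1)
      (by rw [map_mul, q0, q1, v01])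
      (by rw [map_mul, q0, q1, q3, fixc _ _ _ k03 k13]), c03]
  have c14 : s1 * s4 * s1⁻¹ * s4⁻¹ = 1 := by
    rw [bu_cmt_conj hE (a := t 0) (b := s4) (by rw [q0, q4]; exact k04) (t 0 * s1)
      (by rw [map_mul, q0, q1, v01])
      (by rw [map_mul, q0, q1, q4, fixc _ _ _ k04 k14]), c04]
  have c24 : s2 * s4 * s2⁻¹ * s4⁻¹ = 1 := by
    rw [bu_cmt_conj hE (a := s1) (b := s4) (by rw [q1, q4]; exact k14) (s1 * s2)
      (by rw [map_mul, q1, q2, v12])
      (by rw [map_mul, q1, q2, q4, fixc _ _ _ k14 k24]), c14]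
  refine ⟨![t 0, s1, s2, s3, s4], ?_, ?_⟩
  · intro k
    fin_cases k
    · exact q0
    · exact q1
    · exact q2
    · exact q3
    · exact q4
  · exact ⟨b01, b12, b23, b34, bu_of_cmt c02, bu_of_cmt c03, bu_of_cmt c04, bu_of_cmt c13,
      bu_of_cmt c14, bu_of_cmt c24⟩

/-- central extensions of `W` in which lifts of the first and third twist commute -/
theorem W_upper (hE : IsCentral i p) (t : Fin 5 → E) (ht : ∀ k, p (t k) = tw k)
    (hc : t 0 * t 2 = t 2 * t 0) : ∀ k, i k ∈ commutator E → k = 1 := by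
  obtain ⟨s, hs, hrel⟩ := bu_lifts hE t ht hc
  let φ : FreeGroup (Fin 5) →* E := FreeGroup.lift s
  let dg : FreeGroup (Fin 5) →* Multiplicative ℤ := FreeGroup.lift (fun _ => Multiplicative.ofAdd 1)
  have hpφ : ∀ f, p (φ f) = PresentedGroup.mk wRels f := by
    intro f
    have : p.comp φ = PresentedGroup.mk wRels := by
      ext k
      simp only [MonoidHom.comp_apply, φ, FreeGroup.lift_apply_of, hs]
      rfl
    exact DFunLike.congr_fun this f
  set rel : FreeGroup (Fin 5) := (FreeGroup.of 0 * FreeGroup.of 1 * FreeGroup.of 2) ^ 4 *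
      (FreeGroup.of 4 * wWord FreeGroup.of * FreeGroup.of 4 * (wWord FreeGroup.of)⁻¹)⁻¹ with hreldef
  have hrelm : rel ∈ wRels := Or.inr rfl
  have hr1 : p (φ rel) = 1 := by rw [hpφ]; exact PresentedGroup.one_of_mem hrelm
  obtain ⟨kr, hkr⟩ := (hE.exact _).1 hr1
  let Φ : FreeGroup (Fin 5) →* E × Multiplicative ℤ := φ.prod dg
  let S : Subgroup (E × Multiplicative ℤ) := Subgroup.zpowers (φ rel, Multiplicative.ofAdd 10)
  have hcen : ∀ x : E × Multiplicative ℤ,
      x * (φ rel, Multiplicative.ofAdd 10) = (φ rel, Multiplicative.ofAdd 10) * x := by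
    rintro ⟨x, y⟩
    simp only [Prod.mk_mul_mk, Prod.mk.injEq]
    exact ⟨by rw [← hkr, hE.central], mul_comm _ _⟩
  have hSn : S.Normal := by
    constructor
    intro n hn g
    obtain ⟨m, rfl⟩ := Subgroup.mem_zpowers_iff.1 hn
    have h1 : Commute g ((φ rel, Multiplicative.ofAdd 10) ^ m) :=
      Commute.zpow_right (hcen g) m
    rw [h1.eq, mul_inv_cancel_right]
    exact hn
  have hdrel : dg rel = Multiplicative.ofAdd 10 := by
    rw [hreldef]
    simp only [wWord, map_mul, map_pow, map_inv, dg, FreeGroup.lift_apply_of]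
    rfl
  have hNC : Subgroup.normalClosure wRels ≤ S.comap Φ := by
    have hn : (S.comap Φ).Normal := hSn.comap Φ
    apply Subgroup.normalClosure_le_normal
    rintro r ((⟨a, b, hab, rfl⟩ | ⟨a, b, hab, rfl⟩) | hr)
    · have h1 : Φ (FreeGroup.of a * FreeGroup.of b * FreeGroup.of a *
        (FreeGroup.of b * FreeGroup.of a * FreeGroup.of b)⁻¹) = 1 := by
        have e1 : s a * s b * s a = s b * s a * s b := by
          fin_cases a <;> fin_cases b <;> simp at hab
          · exact hrel.b01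
          · exact hrel.b12
          · exact hrel.b23
          · exact hrel.b34
        refine Prod.ext ?_ ?_
        · simp only [Φ, MonoidHom.prod_apply, φ, map_mul, map_inv, FreeGroup.lift_apply_of,
            Prod.fst_one, Prod.fst_mul, Prod.fst_inv]
          rw [e1, mul_inv_cancel]
        · simp only [Φ, MonoidHom.prod_apply, dg, map_mul, map_inv, FreeGroup.lift_apply_of]
          rfl
      change Φ _ ∈ S
      rw [h1]; exact S.one_mem
    · have h1 : Φ (FreeGroup.of a * FreeGroup.of b *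
        (FreeGroup.of b * FreeGroup.of a)⁻¹) = 1 := by
        have e1 : s a * s b = s b * s a := by
          fin_cases a <;> fin_cases b <;> simp at hab
          · exact hrel.c02
          · exact hrel.c03
          · exact hrel.c04
          · exact hrel.c13
          · exact hrel.c14
          · exact hrel.c24
        refine Prod.ext ?_ ?_
        · simp only [Φ, MonoidHom.prod_apply, φ, map_mul, map_inv, FreeGroup.lift_apply_of,
            Prod.fst_one, Prod.fst_mul, Prod.fst_inv]
          rw [e1, mul_inv_cancel]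
        · simp only [Φ, MonoidHom.prod_apply, dg, map_mul, map_inv, FreeGroup.lift_apply_of]
          rfl
      change Φ _ ∈ S
      rw [h1]; exact S.one_mem
    · have hr' : r = rel := hr
      rw [hr']
      change Φ rel ∈ S
      have : Φ rel = (φ rel, Multiplicative.ofAdd 10) := by
        simp only [Φ, MonoidHom.prod_apply, hdrel]
      rw [this]
      exact Subgroup.mem_zpowers _
  -- the commutator subgroup
  have hcomm : commutator E ≤ (commutator (FreeGroup (Fin 5))).map φ := by
    rw [commutator_def, Subgroup.commutator_le]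
    intro a _ b _
    obtain ⟨f, hf⟩ := PresentedGroup.mk_surjective wRels (p a)
    obtain ⟨g, hg⟩ := PresentedGroup.mk_surjective wRels (p b)
    have h1 : a * b * a⁻¹ * b⁻¹ = φ (f * g * f⁻¹ * g⁻¹) := by
      simp only [map_mul, map_inv]
      exact bu_cmt_lift hE (by rw [hpφ, hf]) (by rw [hpφ, hg])
    rw [commutatorElement_def, h1, ← commutatorElement_def]
    exact Subgroup.mem_map_of_mem _ (by
      rw [commutator_def]
      exact Subgroup.commutator_mem_commutator (Subgroup.mem_top _) (Subgroup.mem_top _))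
  intro k hk
  obtain ⟨f, hf, hfk⟩ := Subgroup.mem_map.1 (hcomm hk)
  have h1 : PresentedGroup.mk wRels f = 1 := by
    rw [← hpφ, hfk]
    exact (hE.exact _).2 ⟨k, rfl⟩
  have h2 : f ∈ Subgroup.normalClosure wRels := by
    rw [PresentedGroup.mk_eq_one_iff] at h1
    exact h1
  obtain ⟨m, hm⟩ := Subgroup.mem_zpowers_iff.1 (hNC h2)
  have h3 : dg f = 1 := by
    have h4 : commutator (FreeGroup (Fin 5)) ≤ dg.ker := Abelianization.commutator_subset_ker dg
    exact h4 hf
  have hm2 : (Multiplicative.ofAdd (10 : ℤ)) ^ m = dg f := congrArg Prod.snd hm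
  have hm1 : (φ rel) ^ m = φ f := congrArg Prod.fst hm
  rw [h3, ← ofAdd_zsmul] at hm2
  have h5 : m • (10 : ℤ) = 0 := by
    have := congrArg Multiplicative.toAdd hm2
    simpa using this
  have h6 : m = 0 := by
    rw [smul_eq_mul] at h5
    omega
  rw [h6, zpow_zero] at hm1
  apply hE.inj
  rw [← hfk, ← hm1, map_one]

end MCG
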