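import Mathlib

/-!
# A model of the pure mapping class groups of genus two with at least one boundary curve

* `W` is the mapping class group of the genus two surface with one boundary curve, in the
  presentation of Wajnryb: five Dehn twists along a chain of five curves.
* `FreeGroup Letter` is the fundamental group, based at a point of the outer boundary curve, of
  the genus two surface with further punctures and boundary curves: `c 0, c 1, c 2, c 3` are the
  loops along the first four curves of the chain, `x j` is the loop around the puncture or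
  boundary curve with number `j`, and `y j` is an arc from the base point to a point of the
  boundary curve with number `j` (the loop `(y j)⁻¹ * x j * y j` is that boundary curve).
* `T i` is the action of the Dehn twist along the curve number `i` of the chain,
  `h p j` is the action of the push of the puncture or boundary curve number `j` once around the
  curve `c 0`.
-/

namespace MCG

/-- The word `t₄ t₃ t₂ t₁ t₁ t₂ t₃ t₄` (the twists are numbered from zero here). -/
def wWord {G : Type} [Group G] (t : Fin 5 → G) : G :=
  t 3 * t 2 * t 1 * t 0 * t 0 * t 1 * t 2 * t 3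

/-- The relators of the presentation of Wajnryb of the mapping class group of the surface of
genus two with one boundary curve: braid relations, commutations, and the chain relation. -/
def wRels : Set (FreeGroup (Fin 5)) :=
  {r | ∃ i j : Fin 5, (i : ℕ) + 1 = j ∧
      r = FreeGroup.of i * FreeGroup.of j * FreeGroup.of i *
        (FreeGroup.of j * FreeGroup.of i * FreeGroup.of j)⁻¹} ∪
  {r | ∃ i j : Fin 5, (i : ℕ) + 1 < j ∧
      r = FreeGroup.of i * FreeGroup.of j * (FreeGroup.of j * FreeGroup.of i)⁻¹} ∪
  {(FreeGroup.of 0 * FreeGroup.of 1 * FreeGroup.of 2) ^ 4 *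
      (FreeGroup.of 4 * wWord FreeGroup.of * FreeGroup.of 4 * (wWord FreeGroup.of)⁻¹)⁻¹}

/-- The mapping class group of the surface of genus two with one boundary curve. -/
abbrev W : Type := PresentedGroup wRels

/-- The Dehn twists generating `W`. -/
def tw (i : Fin 5) : W := PresentedGroup.of i

/-- The letters. -/
inductive Letter : Type
  | c (i : Fin 4) : Letter
  | x (j : ℕ) : Letter
  | y (j : ℕ) : Letter
  deriving DecidableEq

/-- The fundamental group (with the arcs `y j` as further free generators). -/
abbrev Fr : Type := FreeGroup Letter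

/-- the letters as elements of the free group -/
def C (i : Fin 4) : Fr := FreeGroup.of (Letter.c i)
/-- the letters as elements of the free group -/
def X (j : ℕ) : Fr := FreeGroup.of (Letter.x j)
/-- the letters as elements of the free group -/
def Y (j : ℕ) : Fr := FreeGroup.of (Letter.y j)

/-- The twist number `i` on the letters. -/
def twFun : Fin 5 → Letter → Fr
  | 0, .c 1 => (C 0)⁻¹ * C 1
  | 1, .c 0 => C 0 * C 1
  | 1, .c 2 => (C 1)⁻¹ * C 2
  | 2, .c 1 => C 1 * C 2
  | 2, .c 3 => (C 2)⁻¹ * C 3
  | 3, .c 2 => C 2 * C 3
  | 4, .c 3 => (C 2)⁻¹ * (C 1)⁻¹ * (C 0)⁻¹ * C 1 * C 3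
  | _, l => FreeGroup.of l

/-- The inverse of the twist number `i` on the letters. -/
def twInv : Fin 5 → Letter → Fr
  | 0, .c 1 => C 0 * C 1
  | 1, .c 0 => C 0 * (C 1)⁻¹
  | 1, .c 2 => C 1 * C 2
  | 2, .c 1 => C 1 * (C 2)⁻¹
  | 2, .c 3 => C 2 * C 3
  | 3, .c 2 => C 2 * (C 3)⁻¹
  | 4, .c 3 => (C 1)⁻¹ * C 0 * C 1 * C 2 * C 3
  | _, l => FreeGroup.of l

/-- The commutator. -/
def cmt {G : Type} [Group G] (a b : G) : G := a * b * a⁻¹ * b⁻¹

/-- The push of the point number `j` around the curve `c 0`, on the letters; the points with
number less than `p` are punctures (their letters `y` are not used), the others are boundary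
curves. -/
def hFun (p j : ℕ) : Letter → Fr
  | .c i => if i = 0 then X j * C 0 * (X j)⁻¹ else if i = 1 then X j * C 1 else C i
  | .x k => if k = j then X j * C 0 * X j * (X j * C 0)⁻¹
      else if k < j then cmt (X j) (C 0) * X k * (cmt (X j) (C 0))⁻¹ else X k
  | .y k => if k < p then Y k else if k = j then X j * C 0 * Y j
      else if k < j then cmt (X j) (C 0) * Y k else Y k

/-- The inverse of `hFun`. -/
def hInv (p j : ℕ) : Letter → Fr
  | .c i => if i = 0 then (C 0)⁻¹ * (X j)⁻¹ * C 0 * X j * C 0
      else if i = 1 then (C 0)⁻¹ * (X j)⁻¹ * C 0 * C 1 else C i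
  | .x k => if k = j then (C 0)⁻¹ * X j * C 0
      else if k < j then cmt (C 0)⁻¹ (X j)⁻¹ * X k * (cmt (C 0)⁻¹ (X j)⁻¹)⁻¹ else X k
  | .y k => if k < p then Y k else if k = j then (X j * C 0)⁻¹ * Y j
      else if k < j then cmt (C 0)⁻¹ (X j)⁻¹ * Y k else Y k

theorem tw_inv_comp (i : Fin 5) :
    (FreeGroup.lift (twInv i)).comp (FreeGroup.lift (twFun i)) = MonoidHom.id Fr := by
  ext l
  rcases l with k | k | k
  · fin_cases i <;> fin_cases k <;> simp [twFun, twInv, C] <;> group
  · fin_cases i <;> simp [twFun, twInv]
  · fin_cases i <;> simp [twFun, twInv]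

theorem tw_comp_inv (i : Fin 5) :
    (FreeGroup.lift (twFun i)).comp (FreeGroup.lift (twInv i)) = MonoidHom.id Fr := by
  ext l
  rcases l with k | k | k
  · fin_cases i <;> fin_cases k <;> simp [twFun, twInv, C] <;> group
  · fin_cases i <;> simp [twFun, twInv]
  · fin_cases i <;> simp [twFun, twInv]

theorem h_inv_comp (p j : ℕ) :
    (FreeGroup.lift (hInv p j)).comp (FreeGroup.lift (hFun p j)) = MonoidHom.id Fr := by
  ext l
  rcases l with k | k | k
  · fin_cases k <;> simp [hFun, hInv, C, X, cmt] <;> group
  · rcases lt_trichotomy k j with hk | hk | hk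
    · simp [hFun, hInv, C, X, cmt, hk, hk.ne]; group
    · subst hk; simp [hFun, hInv, C, X, cmt]; group
    · simp [hFun, hInv, C, X, cmt, hk.ne', hk.not_gt]
  · by_cases hp : k < p
    · simp [hFun, hInv, Y, hp]
    rcases lt_trichotomy k j with hk | hk | hk
    · simp [hFun, hInv, C, X, Y, cmt, hk, hk.ne, hp]; group
    · subst hk; simp [hFun, hInv, C, X, Y, cmt, hp]; group
    · simp [hFun, hInv, C, X, Y, cmt, hk.ne', hk.not_gt, hp]

theorem h_comp_inv (p j : ℕ) :
    (FreeGroup.lift (hFun p j)).comp (FreeGroup.lift (hInv p j)) = MonoidHom.id Fr := by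
  ext l
  rcases l with k | k | k
  · fin_cases k <;> simp [hFun, hInv, C, X, cmt] <;> group
  · rcases lt_trichotomy k j with hk | hk | hk
    · simp [hFun, hInv, C, X, cmt, hk, hk.ne]; group
    · subst hk; simp [hFun, hInv, C, X, cmt]; group
    · simp [hFun, hInv, C, X, cmt, hk.ne', hk.not_gt]
  · by_cases hp : k < p
    · simp [hFun, hInv, Y, hp]
    rcases lt_trichotomy k j with hk | hk | hk
    · simp [hFun, hInv, C, X, Y, cmt, hk, hk.ne, hp]; group
    · subst hk; simp [hFun, hInv, C, X, Y, cmt, hp]; group
    · simp [hFun, hInv, C, X, Y, cmt, hk.ne', hk.not_gt, hp]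

/-- The twist number `i` as an automorphism of the fundamental group. -/
def T (i : Fin 5) : MulAut Fr :=
  MonoidHom.toMulEquiv (FreeGroup.lift (twFun i)) (FreeGroup.lift (twInv i))
    (tw_inv_comp i) (tw_comp_inv i)

/-- The push of the point number `j` around `c 0` as an automorphism. -/
def h (p j : ℕ) : MulAut Fr :=
  MonoidHom.toMulEquiv (FreeGroup.lift (hFun p j)) (FreeGroup.lift (hInv p j))
    (h_inv_comp p j) (h_comp_inv p j)

/-- The group generated by the five twists and by the pushes of the points with numbers
`0, 1, ..., r - 1`; the points with number less than `p` are punctures, the others are boundary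
curves. -/
def PM (p r : ℕ) : Subgroup (W × MulAut Fr) :=
  Subgroup.closure ({g | ∃ i : Fin 5, g = (tw i, T i)} ∪ {g | ∃ j < r, g = (1, h p j)})

/-- The pure mapping class group of the surface of genus two with `p` punctures and `b` boundary
curves, `1 ≤ b` (one of them is the outer boundary curve, which has no number). -/
abbrev PMod (p b : ℕ) : Type := PM p (p + (b - 1))

end MCG
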