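import Pool.Agent.H60.MCG.Hom

open Finsupp

namespace MCG

variable {G : Type} [Group G]

variable (G) in
/-- the trivial representation -/
noncomputable abbrev tri : Rep.{0} ℤ G := Rep.trivial ℤ G ℤ

variable (G) in
/-- the second differential -/
noncomputable def e21 : (G × G →₀ ℤ) →ₗ[ℤ] (G →₀ ℤ) := (groupHomology.d₂₁ (tri G)).hom

variable (G) in
/-- the third differential -/
noncomputable def e32 : (G × G × G →₀ ℤ) →ₗ[ℤ] (G × G →₀ ℤ) := (groupHomology.d₃₂ (tri G)).hom

theorem e21_single (g : G × G) (a : ℤ) :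
    e21 G (single g a) = single g.2 a - single (g.1 * g.2) a + single g.1 a := by
  have h := groupHomology.d₂₁_single (A := tri G) g a
  exact h

theorem e32_single (g : G × G × G) (a : ℤ) :
    e32 G (single g a) = single (g.2.1, g.2.2) a - single (g.1 * g.2.1, g.2.2) a
      + single (g.1, g.2.1 * g.2.2) a - single (g.1, g.2.1) a := by
  have h := groupHomology.d₃₂_single (A := tri G) g a
  exact h

theorem e32_range : (LinearMap.range (e32 G)).toAddSubgroup = B2 G := by
  apply le_antisymm
  · rintro _ ⟨x, rfl⟩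
    induction x using Finsupp.induction_linear with
    | zero => rw [map_zero]; exact (B2 G).zero_mem
    | add f g hf hg => rw [map_add]; exact (B2 G).add_mem hf hg
    | single t a =>
      have h1 : e32 G (single t a) = a • bd3 G t := by
        rw [e32_single, bd3]
        simp only [smul_sub, smul_add, smul_single, smul_eq_mul, mul_one]
      rw [h1]
      exact (B2 G).zsmul_mem (AddSubgroup.subset_closure ⟨t, rfl⟩) a
  · rw [B2, AddSubgroup.closure_le]
    rintro _ ⟨t, rfl⟩
    exact ⟨single t 1, e32_single t 1⟩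

theorem dQ_mk (x : G × G →₀ ℤ) : dQ G (QuotientAddGroup.mk x) = e21 G x := by
  have h : (dQ G).comp (QuotientAddGroup.mk' (B2 G)) = (e21 G).toAddMonoidHom := by
    refine Finsupp.addHom_ext' ?_
    rintro ⟨a, b⟩
    refine AddMonoidHom.ext_int ?_
    change dQ G (sym a b) = e21 G (single (a, b) 1)
    rw [e21_single, dQ, Q.lift_sym]
  exact DFunLike.congr_fun h x

variable (G) in
/-- from cycles to `H G` -/
noncomputable def cyc : LinearMap.ker (e21 G) →+ H G where
  toFun x := ⟨QuotientAddGroup.mk x.1, by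
    rw [H, AddMonoidHom.mem_ker, dQ_mk]
    exact x.2⟩
  map_zero' := rfl
  map_add' _ _ := rfl

theorem cyc_surj : Function.Surjective (cyc G) := by
  rintro ⟨z, hz⟩
  obtain ⟨x, rfl⟩ := QuotientAddGroup.mk_surjective z
  rw [H, AddMonoidHom.mem_ker, dQ_mk] at hz
  exact ⟨⟨x, hz⟩, rfl⟩

theorem cyc_ker (x : LinearMap.ker (e21 G)) : cyc G x = 0 ↔ x.1 ∈ LinearMap.range (e32 G) := by
  have h1 : cyc G x = 0 ↔ (QuotientAddGroup.mk x.1 : Q G) = 0 := by
    rw [Subtype.ext_iff]
    rfl
  rw [h1, QuotientAddGroup.eq_zero_iff, ← e32_range]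
  rfl

/-- it agrees with the second homology of Mathlib -/
theorem exists_H2Equiv :
    Nonempty ((groupHomology (Rep.trivial ℤ G ℤ) 2) ≃+ H G) := by
  let π' : LinearMap.ker (e21 G) →+ (groupHomology (Rep.trivial ℤ G ℤ) 2) :=
    (groupHomology.H2π (tri G)).hom.toAddMonoidHom
  have hs : Function.Surjective π' :=
    (ModuleCat.epi_iff_surjective (groupHomology.H2π (tri G))).1 inferInstance
  have hk : ∀ x, π' x = 0 ↔ x.1 ∈ LinearMap.range (e32 G) := fun x =>
    groupHomology.H2π_eq_zero_iff (A := tri G) x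
  have hker : π'.ker = (cyc G).ker := by
    ext x
    rw [AddMonoidHom.mem_ker, AddMonoidHom.mem_ker, hk, cyc_ker]
  exact ⟨(QuotientAddGroup.quotientKerEquivOfSurjective π' hs).symm.trans
    ((QuotientAddGroup.quotientAddEquivOfEq hker).trans
      (QuotientAddGroup.quotientKerEquivOfSurjective (cyc G) cyc_surj))⟩

end MCG
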