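import Pool.Agent.H60.MCG.MP

/-! Conjugation formulas: twists. -/

set_option linter.unusedSimpArgs false
set_option linter.unusedTactic false
set_option linter.unreachableTactic false

namespace MCG

theorem aut_ext {A B : MulAut Fr} (h : ∀ l, A (FreeGroup.of l) = B (FreeGroup.of l)) : A = B := by
  have h1 : A.toMonoidHom = B.toMonoidHom := FreeGroup.ext_hom _ _ h
  ext w
  exact DFunLike.congr_fun h1 w

theorem T_Pu (p r : ℕ) (i : Fin 5) (k : Fin 4)
    (hik : (i : ℕ) + 1 < k ∨ (k : ℕ) + 1 < i ∨ (i : ℕ) = k) :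
    T i * Pu p r k = Pu p r k * T i := by
  refine aut_ext ?_
  intro l
  simp only [MulAut.mul_apply, Pu_of, T_of]
  revert hik
  fin_cases i <;> fin_cases k <;> intro hik <;>
    first | (exfalso; revert hik; decide) | clear hik
  all_goals (
    rcases l with m | m | m
    · fin_cases m <;>
        first
          | (simp [twFun, hFun, zFun, RFun, pushFun, fac, st, en, C, X, Y, cmt, Pu_of]; done)
          | (simp [twFun, hFun, zFun, RFun, pushFun, fac, st, en, C, X, Y, cmt, Pu_of]; group; done)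
          | (simp [twFun, hFun, zFun, RFun, pushFun, fac, st, en, C, X, Y, cmt, Pu_of] <;> group)
    · rcases lt_trichotomy m r with hk | hk | hk
      · first
          | (simp [twFun, hFun, zFun, RFun, pushFun, fac, st, en, C, X, Y, cmt, hk, hk.ne, hk.ne', hk.not_gt, Pu_of]; done)
          | (simp [twFun, hFun, zFun, RFun, pushFun, fac, st, en, C, X, Y, cmt, hk, hk.ne, hk.ne', hk.not_gt, Pu_of]; group; done)
          | (simp [twFun, hFun, zFun, RFun, pushFun, fac, st, en, C, X, Y, cmt, hk, hk.ne, hk.ne', hk.not_gt, Pu_of] <;> group)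
      · subst hk
        first
          | (simp [twFun, hFun, zFun, RFun, pushFun, fac, st, en, C, X, Y, cmt, Pu_of]; done)
          | (simp [twFun, hFun, zFun, RFun, pushFun, fac, st, en, C, X, Y, cmt, Pu_of]; group; done)
          | (simp [twFun, hFun, zFun, RFun, pushFun, fac, st, en, C, X, Y, cmt, Pu_of] <;> group)
      · first
          | (simp [twFun, hFun, zFun, RFun, pushFun, fac, st, en, C, X, Y, cmt, hk, hk.ne, hk.ne', hk.not_gt, Pu_of]; done)
          | (simp [twFun, hFun, zFun, RFun, pushFun, fac, st, en, C, X, Y, cmt, hk, hk.ne, hk.ne', hk.not_gt, Pu_of]; group; done)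
          | (simp [twFun, hFun, zFun, RFun, pushFun, fac, st, en, C, X, Y, cmt, hk, hk.ne, hk.ne', hk.not_gt, Pu_of] <;> group)
    · by_cases hp : m < p
      · rcases lt_trichotomy m r with hk | hk | hk
        · first
            | (simp [twFun, hFun, zFun, RFun, pushFun, fac, st, en, C, X, Y, cmt, hk, hk.ne, hk.ne', hk.not_gt, hp, hp.not_ge, Pu_of]; done)
            | (simp [twFun, hFun, zFun, RFun, pushFun, fac, st, en, C, X, Y, cmt, hk, hk.ne, hk.ne', hk.not_gt, hp, hp.not_ge, Pu_of]; group; done)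
            | (simp [twFun, hFun, zFun, RFun, pushFun, fac, st, en, C, X, Y, cmt, hk, hk.ne, hk.ne', hk.not_gt, hp, hp.not_ge, Pu_of] <;> group)
        · subst hk
          first
            | (simp [twFun, hFun, zFun, RFun, pushFun, fac, st, en, C, X, Y, cmt, hp, hp.not_ge, Pu_of]; done)
            | (simp [twFun, hFun, zFun, RFun, pushFun, fac, st, en, C, X, Y, cmt, hp, hp.not_ge, Pu_of]; group; done)
            | (simp [twFun, hFun, zFun, RFun, pushFun, fac, st, en, C, X, Y, cmt, hp, hp.not_ge, Pu_of] <;> group)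
        · first
            | (simp [twFun, hFun, zFun, RFun, pushFun, fac, st, en, C, X, Y, cmt, hk, hk.ne, hk.ne', hk.not_gt, hp, hp.not_ge, Pu_of]; done)
            | (simp [twFun, hFun, zFun, RFun, pushFun, fac, st, en, C, X, Y, cmt, hk, hk.ne, hk.ne', hk.not_gt, hp, hp.not_ge, Pu_of]; group; done)
            | (simp [twFun, hFun, zFun, RFun, pushFun, fac, st, en, C, X, Y, cmt, hk, hk.ne, hk.ne', hk.not_gt, hp, hp.not_ge, Pu_of] <;> group)
      · have hp' : p ≤ m := not_lt.1 hp
        rcases lt_trichotomy m r with hk | hk | hk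
        · first
            | (simp [twFun, hFun, zFun, RFun, pushFun, fac, st, en, C, X, Y, cmt, hk, hk.ne, hk.ne', hk.not_gt, hp, hp', Pu_of]; done)
            | (simp [twFun, hFun, zFun, RFun, pushFun, fac, st, en, C, X, Y, cmt, hk, hk.ne, hk.ne', hk.not_gt, hp, hp', Pu_of]; group; done)
            | (simp [twFun, hFun, zFun, RFun, pushFun, fac, st, en, C, X, Y, cmt, hk, hk.ne, hk.ne', hk.not_gt, hp, hp', Pu_of] <;> group)
        · subst hk
          first
            | (simp [twFun, hFun, zFun, RFun, pushFun, fac, st, en, C, X, Y, cmt, hp, hp', Pu_of]; done)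
            | (simp [twFun, hFun, zFun, RFun, pushFun, fac, st, en, C, X, Y, cmt, hp, hp', Pu_of]; group; done)
            | (simp [twFun, hFun, zFun, RFun, pushFun, fac, st, en, C, X, Y, cmt, hp, hp', Pu_of] <;> group)
        · first
            | (simp [twFun, hFun, zFun, RFun, pushFun, fac, st, en, C, X, Y, cmt, hk, hk.ne, hk.ne', hk.not_gt, hp, hp', Pu_of]; done)
            | (simp [twFun, hFun, zFun, RFun, pushFun, fac, st, en, C, X, Y, cmt, hk, hk.ne, hk.ne', hk.not_gt, hp, hp', Pu_of]; group; done)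
            | (simp [twFun, hFun, zFun, RFun, pushFun, fac, st, en, C, X, Y, cmt, hk, hk.ne, hk.ne', hk.not_gt, hp, hp', Pu_of] <;> group))

theorem T0_Pu1 (p r : ℕ) : T 0 * pu1 p r * pu0 p r = pu1 p r * T 0 := by
  refine aut_ext ?_
  intro l
  simp only [MulAut.mul_apply]
  rcases l with m | m | m
  · fin_cases m <;>
      first
        | (simp [twFun, hFun, zFun, RFun, pushFun, fac, st, en, C, X, Y, cmt]; done)
        | (simp [twFun, hFun, zFun, RFun, pushFun, fac, st, en, C, X, Y, cmt]; group; done)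
        | (simp [twFun, hFun, zFun, RFun, pushFun, fac, st, en, C, X, Y, cmt] <;> group)
  · rcases lt_trichotomy m r with hk | hk | hk
    · first
        | (simp [twFun, hFun, zFun, RFun, pushFun, fac, st, en, C, X, Y, cmt, hk, hk.ne, hk.ne', hk.not_gt]; done)
        | (simp [twFun, hFun, zFun, RFun, pushFun, fac, st, en, C, X, Y, cmt, hk, hk.ne, hk.ne', hk.not_gt]; group; done)
        | (simp [twFun, hFun, zFun, RFun, pushFun, fac, st, en, C, X, Y, cmt, hk, hk.ne, hk.ne', hk.not_gt] <;> group)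
    · subst hk
      first
        | (simp [twFun, hFun, zFun, RFun, pushFun, fac, st, en, C, X, Y, cmt]; done)
        | (simp [twFun, hFun, zFun, RFun, pushFun, fac, st, en, C, X, Y, cmt]; group; done)
        | (simp [twFun, hFun, zFun, RFun, pushFun, fac, st, en, C, X, Y, cmt] <;> group)
    · first
        | (simp [twFun, hFun, zFun, RFun, pushFun, fac, st, en, C, X, Y, cmt, hk, hk.ne, hk.ne', hk.not_gt]; done)
        | (simp [twFun, hFun, zFun, RFun, pushFun, fac, st, en, C, X, Y, cmt, hk, hk.ne, hk.ne', hk.not_gt]; group; done)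
        | (simp [twFun, hFun, zFun, RFun, pushFun, fac, st, en, C, X, Y, cmt, hk, hk.ne, hk.ne', hk.not_gt] <;> group)
  · by_cases hp : m < p
    · rcases lt_trichotomy m r with hk | hk | hk
      · first
          | (simp [twFun, hFun, zFun, RFun, pushFun, fac, st, en, C, X, Y, cmt, hk, hk.ne, hk.ne', hk.not_gt, hp, hp.not_ge]; done)
          | (simp [twFun, hFun, zFun, RFun, pushFun, fac, st, en, C, X, Y, cmt, hk, hk.ne, hk.ne', hk.not_gt, hp, hp.not_ge]; group; done)
          | (simp [twFun, hFun, zFun, RFun, pushFun, fac, st, en, C, X, Y, cmt, hk, hk.ne, hk.ne', hk.not_gt, hp, hp.not_ge] <;> group)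
      · subst hk
        first
          | (simp [twFun, hFun, zFun, RFun, pushFun, fac, st, en, C, X, Y, cmt, hp, hp.not_ge]; done)
          | (simp [twFun, hFun, zFun, RFun, pushFun, fac, st, en, C, X, Y, cmt, hp, hp.not_ge]; group; done)
          | (simp [twFun, hFun, zFun, RFun, pushFun, fac, st, en, C, X, Y, cmt, hp, hp.not_ge] <;> group)
      · first
          | (simp [twFun, hFun, zFun, RFun, pushFun, fac, st, en, C, X, Y, cmt, hk, hk.ne, hk.ne', hk.not_gt, hp, hp.not_ge]; done)
          | (simp [twFun, hFun, zFun, RFun, pushFun, fac, st, en, C, X, Y, cmt, hk, hk.ne, hk.ne', hk.not_gt, hp, hp.not_ge]; group; done)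
          | (simp [twFun, hFun, zFun, RFun, pushFun, fac, st, en, C, X, Y, cmt, hk, hk.ne, hk.ne', hk.not_gt, hp, hp.not_ge] <;> group)
    · have hp' : p ≤ m := not_lt.1 hp
      rcases lt_trichotomy m r with hk | hk | hk
      · first
          | (simp [twFun, hFun, zFun, RFun, pushFun, fac, st, en, C, X, Y, cmt, hk, hk.ne, hk.ne', hk.not_gt, hp, hp']; done)
          | (simp [twFun, hFun, zFun, RFun, pushFun, fac, st, en, C, X, Y, cmt, hk, hk.ne, hk.ne', hk.not_gt, hp, hp']; group; done)
          | (simp [twFun, hFun, zFun, RFun, pushFun, fac, st, en, C, X, Y, cmt, hk, hk.ne, hk.ne', hk.not_gt, hp, hp'] <;> group)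
      · subst hk
        first
          | (simp [twFun, hFun, zFun, RFun, pushFun, fac, st, en, C, X, Y, cmt, hp, hp']; done)
          | (simp [twFun, hFun, zFun, RFun, pushFun, fac, st, en, C, X, Y, cmt, hp, hp']; group; done)
          | (simp [twFun, hFun, zFun, RFun, pushFun, fac, st, en, C, X, Y, cmt, hp, hp'] <;> group)
      · first
          | (simp [twFun, hFun, zFun, RFun, pushFun, fac, st, en, C, X, Y, cmt, hk, hk.ne, hk.ne', hk.not_gt, hp, hp']; done)
          | (simp [twFun, hFun, zFun, RFun, pushFun, fac, st, en, C, X, Y, cmt, hk, hk.ne, hk.ne', hk.not_gt, hp, hp']; group; done)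
          | (simp [twFun, hFun, zFun, RFun, pushFun, fac, st, en, C, X, Y, cmt, hk, hk.ne, hk.ne', hk.not_gt, hp, hp'] <;> group)

theorem T1_Pu2 (p r : ℕ) : T 1 * pu2 p r * pu1 p r = pu2 p r * T 1 := by
  refine aut_ext ?_
  intro l
  simp only [MulAut.mul_apply]
  rcases l with m | m | m
  · fin_cases m <;>
      first
        | (simp [twFun, hFun, zFun, RFun, pushFun, fac, st, en, C, X, Y, cmt]; done)
        | (simp [twFun, hFun, zFun, RFun, pushFun, fac, st, en, C, X, Y, cmt]; group; done)
        | (simp [twFun, hFun, zFun, RFun, pushFun, fac, st, en, C, X, Y, cmt] <;> group)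
  · rcases lt_trichotomy m r with hk | hk | hk
    · first
        | (simp [twFun, hFun, zFun, RFun, pushFun, fac, st, en, C, X, Y, cmt, hk, hk.ne, hk.ne', hk.not_gt]; done)
        | (simp [twFun, hFun, zFun, RFun, pushFun, fac, st, en, C, X, Y, cmt, hk, hk.ne, hk.ne', hk.not_gt]; group; done)
        | (simp [twFun, hFun, zFun, RFun, pushFun, fac, st, en, C, X, Y, cmt, hk, hk.ne, hk.ne', hk.not_gt] <;> group)
    · subst hk
      first
        | (simp [twFun, hFun, zFun, RFun, pushFun, fac, st, en, C, X, Y, cmt]; done)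
        | (simp [twFun, hFun, zFun, RFun, pushFun, fac, st, en, C, X, Y, cmt]; group; done)
        | (simp [twFun, hFun, zFun, RFun, pushFun, fac, st, en, C, X, Y, cmt] <;> group)
    · first
        | (simp [twFun, hFun, zFun, RFun, pushFun, fac, st, en, C, X, Y, cmt, hk, hk.ne, hk.ne', hk.not_gt]; done)
        | (simp [twFun, hFun, zFun, RFun, pushFun, fac, st, en, C, X, Y, cmt, hk, hk.ne, hk.ne', hk.not_gt]; group; done)
        | (simp [twFun, hFun, zFun, RFun, pushFun, fac, st, en, C, X, Y, cmt, hk, hk.ne, hk.ne', hk.not_gt] <;> group)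
  · by_cases hp : m < p
    · rcases lt_trichotomy m r with hk | hk | hk
      · first
          | (simp [twFun, hFun, zFun, RFun, pushFun, fac, st, en, C, X, Y, cmt, hk, hk.ne, hk.ne', hk.not_gt, hp, hp.not_ge]; done)
          | (simp [twFun, hFun, zFun, RFun, pushFun, fac, st, en, C, X, Y, cmt, hk, hk.ne, hk.ne', hk.not_gt, hp, hp.not_ge]; group; done)
          | (simp [twFun, hFun, zFun, RFun, pushFun, fac, st, en, C, X, Y, cmt, hk, hk.ne, hk.ne', hk.not_gt, hp, hp.not_ge] <;> group)
      · subst hk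
        first
          | (simp [twFun, hFun, zFun, RFun, pushFun, fac, st, en, C, X, Y, cmt, hp, hp.not_ge]; done)
          | (simp [twFun, hFun, zFun, RFun, pushFun, fac, st, en, C, X, Y, cmt, hp, hp.not_ge]; group; done)
          | (simp [twFun, hFun, zFun, RFun, pushFun, fac, st, en, C, X, Y, cmt, hp, hp.not_ge] <;> group)
      · first
          | (simp [twFun, hFun, zFun, RFun, pushFun, fac, st, en, C, X, Y, cmt, hk, hk.ne, hk.ne', hk.not_gt, hp, hp.not_ge]; done)
          | (simp [twFun, hFun, zFun, RFun, pushFun, fac, st, en, C, X, Y, cmt, hk, hk.ne, hk.ne', hk.not_gt, hp, hp.not_ge]; group; done)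
          | (simp [twFun, hFun, zFun, RFun, pushFun, fac, st, en, C, X, Y, cmt, hk, hk.ne, hk.ne', hk.not_gt, hp, hp.not_ge] <;> group)
    · have hp' : p ≤ m := not_lt.1 hp
      rcases lt_trichotomy m r with hk | hk | hk
      · first
          | (simp [twFun, hFun, zFun, RFun, pushFun, fac, st, en, C, X, Y, cmt, hk, hk.ne, hk.ne', hk.not_gt, hp, hp']; done)
          | (simp [twFun, hFun, zFun, RFun, pushFun, fac, st, en, C, X, Y, cmt, hk, hk.ne, hk.ne', hk.not_gt, hp, hp']; group; done)
          | (simp [twFun, hFun, zFun, RFun, pushFun, fac, st, en, C, X, Y, cmt, hk, hk.ne, hk.ne', hk.not_gt, hp, hp'] <;> group)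
      · subst hk
        first
          | (simp [twFun, hFun, zFun, RFun, pushFun, fac, st, en, C, X, Y, cmt, hp, hp']; done)
          | (simp [twFun, hFun, zFun, RFun, pushFun, fac, st, en, C, X, Y, cmt, hp, hp']; group; done)
          | (simp [twFun, hFun, zFun, RFun, pushFun, fac, st, en, C, X, Y, cmt, hp, hp'] <;> group)
      · first
          | (simp [twFun, hFun, zFun, RFun, pushFun, fac, st, en, C, X, Y, cmt, hk, hk.ne, hk.ne', hk.not_gt, hp, hp']; done)
          | (simp [twFun, hFun, zFun, RFun, pushFun, fac, st, en, C, X, Y, cmt, hk, hk.ne, hk.ne', hk.not_gt, hp, hp']; group; done)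
          | (simp [twFun, hFun, zFun, RFun, pushFun, fac, st, en, C, X, Y, cmt, hk, hk.ne, hk.ne', hk.not_gt, hp, hp'] <;> group)

theorem T2_Pu3 (p r : ℕ) : T 2 * pu3 p r * pu2 p r = pu3 p r * T 2 := by
  refine aut_ext ?_
  intro l
  simp only [MulAut.mul_apply]
  rcases l with m | m | m
  · fin_cases m <;>
      first
        | (simp [twFun, hFun, zFun, RFun, pushFun, fac, st, en, C, X, Y, cmt]; done)
        | (simp [twFun, hFun, zFun, RFun, pushFun, fac, st, en, C, X, Y, cmt]; group; done)
        | (simp [twFun, hFun, zFun, RFun, pushFun, fac, st, en, C, X, Y, cmt] <;> group)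
  · rcases lt_trichotomy m r with hk | hk | hk
    · first
        | (simp [twFun, hFun, zFun, RFun, pushFun, fac, st, en, C, X, Y, cmt, hk, hk.ne, hk.ne', hk.not_gt]; done)
        | (simp [twFun, hFun, zFun, RFun, pushFun, fac, st, en, C, X, Y, cmt, hk, hk.ne, hk.ne', hk.not_gt]; group; done)
        | (simp [twFun, hFun, zFun, RFun, pushFun, fac, st, en, C, X, Y, cmt, hk, hk.ne, hk.ne', hk.not_gt] <;> group)
    · subst hk
      first
        | (simp [twFun, hFun, zFun, RFun, pushFun, fac, st, en, C, X, Y, cmt]; done)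
        | (simp [twFun, hFun, zFun, RFun, pushFun, fac, st, en, C, X, Y, cmt]; group; done)
        | (simp [twFun, hFun, zFun, RFun, pushFun, fac, st, en, C, X, Y, cmt] <;> group)
    · first
        | (simp [twFun, hFun, zFun, RFun, pushFun, fac, st, en, C, X, Y, cmt, hk, hk.ne, hk.ne', hk.not_gt]; done)
        | (simp [twFun, hFun, zFun, RFun, pushFun, fac, st, en, C, X, Y, cmt, hk, hk.ne, hk.ne', hk.not_gt]; group; done)
        | (simp [twFun, hFun, zFun, RFun, pushFun, fac, st, en, C, X, Y, cmt, hk, hk.ne, hk.ne', hk.not_gt] <;> group)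
  · by_cases hp : m < p
    · rcases lt_trichotomy m r with hk | hk | hk
      · first
          | (simp [twFun, hFun, zFun, RFun, pushFun, fac, st, en, C, X, Y, cmt, hk, hk.ne, hk.ne', hk.not_gt, hp, hp.not_ge]; done)
          | (simp [twFun, hFun, zFun, RFun, pushFun, fac, st, en, C, X, Y, cmt, hk, hk.ne, hk.ne', hk.not_gt, hp, hp.not_ge]; group; done)
          | (simp [twFun, hFun, zFun, RFun, pushFun, fac, st, en, C, X, Y, cmt, hk, hk.ne, hk.ne', hk.not_gt, hp, hp.not_ge] <;> group)
      · subst hk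
        first
          | (simp [twFun, hFun, zFun, RFun, pushFun, fac, st, en, C, X, Y, cmt, hp, hp.not_ge]; done)
          | (simp [twFun, hFun, zFun, RFun, pushFun, fac, st, en, C, X, Y, cmt, hp, hp.not_ge]; group; done)
          | (simp [twFun, hFun, zFun, RFun, pushFun, fac, st, en, C, X, Y, cmt, hp, hp.not_ge] <;> group)
      · first
          | (simp [twFun, hFun, zFun, RFun, pushFun, fac, st, en, C, X, Y, cmt, hk, hk.ne, hk.ne', hk.not_gt, hp, hp.not_ge]; done)
          | (simp [twFun, hFun, zFun, RFun, pushFun, fac, st, en, C, X, Y, cmt, hk, hk.ne, hk.ne', hk.not_gt, hp, hp.not_ge]; group; done)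
          | (simp [twFun, hFun, zFun, RFun, pushFun, fac, st, en, C, X, Y, cmt, hk, hk.ne, hk.ne', hk.not_gt, hp, hp.not_ge] <;> group)
    · have hp' : p ≤ m := not_lt.1 hp
      rcases lt_trichotomy m r with hk | hk | hk
      · first
          | (simp [twFun, hFun, zFun, RFun, pushFun, fac, st, en, C, X, Y, cmt, hk, hk.ne, hk.ne', hk.not_gt, hp, hp']; done)
          | (simp [twFun, hFun, zFun, RFun, pushFun, fac, st, en, C, X, Y, cmt, hk, hk.ne, hk.ne', hk.not_gt, hp, hp']; group; done)
          | (simp [twFun, hFun, zFun, RFun, pushFun, fac, st, en, C, X, Y, cmt, hk, hk.ne, hk.ne', hk.not_gt, hp, hp'] <;> group)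
      · subst hk
        first
          | (simp [twFun, hFun, zFun, RFun, pushFun, fac, st, en, C, X, Y, cmt, hp, hp']; done)
          | (simp [twFun, hFun, zFun, RFun, pushFun, fac, st, en, C, X, Y, cmt, hp, hp']; group; done)
          | (simp [twFun, hFun, zFun, RFun, pushFun, fac, st, en, C, X, Y, cmt, hp, hp'] <;> group)
      · first
          | (simp [twFun, hFun, zFun, RFun, pushFun, fac, st, en, C, X, Y, cmt, hk, hk.ne, hk.ne', hk.not_gt, hp, hp']; done)
          | (simp [twFun, hFun, zFun, RFun, pushFun, fac, st, en, C, X, Y, cmt, hk, hk.ne, hk.ne', hk.not_gt, hp, hp']; group; done)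
          | (simp [twFun, hFun, zFun, RFun, pushFun, fac, st, en, C, X, Y, cmt, hk, hk.ne, hk.ne', hk.not_gt, hp, hp'] <;> group)

set_option maxRecDepth 20000 in
theorem T4_Pu3 (p r : ℕ) :
    T 4 * pu3 p r * Zt p r * pu2 p r * pu1 p r * pu0 p r = pu3 p r * pu1 p r * T 4 := by
  refine aut_ext ?_
  intro l
  simp only [MulAut.mul_apply]
  rcases l with m | m | m
  · fin_cases m <;>
      first
        | (simp [twFun, hFun, zFun, RFun, pushFun, fac, st, en, C, X, Y, cmt]; done)
        | (simp [twFun, hFun, zFun, RFun, pushFun, fac, st, en, C, X, Y, cmt]; group; done)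
        | (simp [twFun, hFun, zFun, RFun, pushFun, fac, st, en, C, X, Y, cmt] <;> group)
  · rcases lt_trichotomy m r with hk | hk | hk
    · first
        | (simp [twFun, hFun, zFun, RFun, pushFun, fac, st, en, C, X, Y, cmt, hk, hk.ne, hk.ne', hk.not_gt]; done)
        | (simp [twFun, hFun, zFun, RFun, pushFun, fac, st, en, C, X, Y, cmt, hk, hk.ne, hk.ne', hk.not_gt]; group; done)
        | (simp [twFun, hFun, zFun, RFun, pushFun, fac, st, en, C, X, Y, cmt, hk, hk.ne, hk.ne', hk.not_gt] <;> group)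
    · subst hk
      first
        | (simp [twFun, hFun, zFun, RFun, pushFun, fac, st, en, C, X, Y, cmt]; done)
        | (simp [twFun, hFun, zFun, RFun, pushFun, fac, st, en, C, X, Y, cmt]; group; done)
        | (simp [twFun, hFun, zFun, RFun, pushFun, fac, st, en, C, X, Y, cmt] <;> group)
    · first
        | (simp [twFun, hFun, zFun, RFun, pushFun, fac, st, en, C, X, Y, cmt, hk, hk.ne, hk.ne', hk.not_gt]; done)
        | (simp [twFun, hFun, zFun, RFun, pushFun, fac, st, en, C, X, Y, cmt, hk, hk.ne, hk.ne', hk.not_gt]; group; done)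
        | (simp [twFun, hFun, zFun, RFun, pushFun, fac, st, en, C, X, Y, cmt, hk, hk.ne, hk.ne', hk.not_gt] <;> group)
  · by_cases hp : m < p
    · rcases lt_trichotomy m r with hk | hk | hk
      · first
          | (simp [twFun, hFun, zFun, RFun, pushFun, fac, st, en, C, X, Y, cmt, hk, hk.ne, hk.ne', hk.not_gt, hp, hp.not_ge]; done)
          | (simp [twFun, hFun, zFun, RFun, pushFun, fac, st, en, C, X, Y, cmt, hk, hk.ne, hk.ne', hk.not_gt, hp, hp.not_ge]; group; done)
          | (simp [twFun, hFun, zFun, RFun, pushFun, fac, st, en, C, X, Y, cmt, hk, hk.ne, hk.ne', hk.not_gt, hp, hp.not_ge] <;> group)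
      · subst hk
        first
          | (simp [twFun, hFun, zFun, RFun, pushFun, fac, st, en, C, X, Y, cmt, hp, hp.not_ge]; done)
          | (simp [twFun, hFun, zFun, RFun, pushFun, fac, st, en, C, X, Y, cmt, hp, hp.not_ge]; group; done)
          | (simp [twFun, hFun, zFun, RFun, pushFun, fac, st, en, C, X, Y, cmt, hp, hp.not_ge] <;> group)
      · first
          | (simp [twFun, hFun, zFun, RFun, pushFun, fac, st, en, C, X, Y, cmt, hk, hk.ne, hk.ne', hk.not_gt, hp, hp.not_ge]; done)
          | (simp [twFun, hFun, zFun, RFun, pushFun, fac, st, en, C, X, Y, cmt, hk, hk.ne, hk.ne', hk.not_gt, hp, hp.not_ge]; group; done)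
          | (simp [twFun, hFun, zFun, RFun, pushFun, fac, st, en, C, X, Y, cmt, hk, hk.ne, hk.ne', hk.not_gt, hp, hp.not_ge] <;> group)
    · have hp' : p ≤ m := not_lt.1 hp
      rcases lt_trichotomy m r with hk | hk | hk
      · first
          | (simp [twFun, hFun, zFun, RFun, pushFun, fac, st, en, C, X, Y, cmt, hk, hk.ne, hk.ne', hk.not_gt, hp, hp']; done)
          | (simp [twFun, hFun, zFun, RFun, pushFun, fac, st, en, C, X, Y, cmt, hk, hk.ne, hk.ne', hk.not_gt, hp, hp']; group; done)
          | (simp [twFun, hFun, zFun, RFun, pushFun, fac, st, en, C, X, Y, cmt, hk, hk.ne, hk.ne', hk.not_gt, hp, hp'] <;> group)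
      · subst hk
        first
          | (simp [twFun, hFun, zFun, RFun, pushFun, fac, st, en, C, X, Y, cmt, hp, hp']; done)
          | (simp [twFun, hFun, zFun, RFun, pushFun, fac, st, en, C, X, Y, cmt, hp, hp']; group; done)
          | (simp [twFun, hFun, zFun, RFun, pushFun, fac, st, en, C, X, Y, cmt, hp, hp'] <;> group)
      · first
          | (simp [twFun, hFun, zFun, RFun, pushFun, fac, st, en, C, X, Y, cmt, hk, hk.ne, hk.ne', hk.not_gt, hp, hp']; done)
          | (simp [twFun, hFun, zFun, RFun, pushFun, fac, st, en, C, X, Y, cmt, hk, hk.ne, hk.ne', hk.not_gt, hp, hp']; group; done)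
          | (simp [twFun, hFun, zFun, RFun, pushFun, fac, st, en, C, X, Y, cmt, hk, hk.ne, hk.ne', hk.not_gt, hp, hp'] <;> group)

theorem T_Ru (p r k : ℕ) (hk : k < r) (i : Fin 5) : T i * Ru p r k = Ru p r k * T i := by
  have hkr := hk
  refine aut_ext ?_
  intro l
  clear hk
  simp only [MulAut.mul_apply]
  fin_cases i
  all_goals (
    rcases l with m | m | m
    · fin_cases m <;>
        first
          | (simp [twFun, hFun, zFun, RFun, pushFun, fac, st, en, C, X, Y, cmt, hkr, hkr.ne, hkr.ne', hkr.not_gt, Ru_of _ _ _ hkr]; done)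
          | (simp [twFun, hFun, zFun, RFun, pushFun, fac, st, en, C, X, Y, cmt, hkr, hkr.ne, hkr.ne', hkr.not_gt, Ru_of _ _ _ hkr]; group; done)
          | (simp [twFun, hFun, zFun, RFun, pushFun, fac, st, en, C, X, Y, cmt, hkr, hkr.ne, hkr.ne', hkr.not_gt, Ru_of _ _ _ hkr] <;> group)
    · skip
      rcases lt_trichotomy m k with hm | hm | hm
      · have hr := hm.trans hkr
        first
          | (simp [twFun, hFun, zFun, RFun, pushFun, fac, st, en, C, X, Y, cmt, hkr, hkr.ne, hkr.ne', hkr.not_gt, hm, hm.ne, hm.ne', hm.not_gt, hr, hr.ne, hr.ne', hr.not_gt, Ru_of _ _ _ hkr]; done)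
          | (simp [twFun, hFun, zFun, RFun, pushFun, fac, st, en, C, X, Y, cmt, hkr, hkr.ne, hkr.ne', hkr.not_gt, hm, hm.ne, hm.ne', hm.not_gt, hr, hr.ne, hr.ne', hr.not_gt, Ru_of _ _ _ hkr]; group; done)
          | (simp [twFun, hFun, zFun, RFun, pushFun, fac, st, en, C, X, Y, cmt, hkr, hkr.ne, hkr.ne', hkr.not_gt, hm, hm.ne, hm.ne', hm.not_gt, hr, hr.ne, hr.ne', hr.not_gt, Ru_of _ _ _ hkr] <;> group)
      · subst hm
        first
          | (simp [twFun, hFun, zFun, RFun, pushFun, fac, st, en, C, X, Y, cmt, hkr, hkr.ne, hkr.ne', hkr.not_gt, Ru_of _ _ _ hkr]; done)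
          | (simp [twFun, hFun, zFun, RFun, pushFun, fac, st, en, C, X, Y, cmt, hkr, hkr.ne, hkr.ne', hkr.not_gt, Ru_of _ _ _ hkr]; group; done)
          | (simp [twFun, hFun, zFun, RFun, pushFun, fac, st, en, C, X, Y, cmt, hkr, hkr.ne, hkr.ne', hkr.not_gt, Ru_of _ _ _ hkr] <;> group)
      · rcases lt_trichotomy m r with hr | hr | hr
        · first
            | (simp [twFun, hFun, zFun, RFun, pushFun, fac, st, en, C, X, Y, cmt, hkr, hkr.ne, hkr.ne', hkr.not_gt, hm, hm.ne, hm.ne', hm.not_gt, hr, hr.ne, hr.ne', hr.not_gt, Ru_of _ _ _ hkr]; done)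
            | (simp [twFun, hFun, zFun, RFun, pushFun, fac, st, en, C, X, Y, cmt, hkr, hkr.ne, hkr.ne', hkr.not_gt, hm, hm.ne, hm.ne', hm.not_gt, hr, hr.ne, hr.ne', hr.not_gt, Ru_of _ _ _ hkr]; group; done)
            | (simp [twFun, hFun, zFun, RFun, pushFun, fac, st, en, C, X, Y, cmt, hkr, hkr.ne, hkr.ne', hkr.not_gt, hm, hm.ne, hm.ne', hm.not_gt, hr, hr.ne, hr.ne', hr.not_gt, Ru_of _ _ _ hkr] <;> group)
        · subst hr
          first
            | (simp [twFun, hFun, zFun, RFun, pushFun, fac, st, en, C, X, Y, cmt, hkr, hkr.ne, hkr.ne', hkr.not_gt, Ru_of _ _ _ hkr]; done)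
            | (simp [twFun, hFun, zFun, RFun, pushFun, fac, st, en, C, X, Y, cmt, hkr, hkr.ne, hkr.ne', hkr.not_gt, Ru_of _ _ _ hkr]; group; done)
            | (simp [twFun, hFun, zFun, RFun, pushFun, fac, st, en, C, X, Y, cmt, hkr, hkr.ne, hkr.ne', hkr.not_gt, Ru_of _ _ _ hkr] <;> group)
        · first
            | (simp [twFun, hFun, zFun, RFun, pushFun, fac, st, en, C, X, Y, cmt, hkr, hkr.ne, hkr.ne', hkr.not_gt, hm, hm.ne, hm.ne', hm.not_gt, hr, hr.ne, hr.ne', hr.not_gt, Ru_of _ _ _ hkr]; done)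
            | (simp [twFun, hFun, zFun, RFun, pushFun, fac, st, en, C, X, Y, cmt, hkr, hkr.ne, hkr.ne', hkr.not_gt, hm, hm.ne, hm.ne', hm.not_gt, hr, hr.ne, hr.ne', hr.not_gt, Ru_of _ _ _ hkr]; group; done)
            | (simp [twFun, hFun, zFun, RFun, pushFun, fac, st, en, C, X, Y, cmt, hkr, hkr.ne, hkr.ne', hkr.not_gt, hm, hm.ne, hm.ne', hm.not_gt, hr, hr.ne, hr.ne', hr.not_gt, Ru_of _ _ _ hkr] <;> group)
    · by_cases hp : m < p
      · skip
        rcases lt_trichotomy m k with hm | hm | hm
        · have hr := hm.trans hkr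
          first
            | (simp [twFun, hFun, zFun, RFun, pushFun, fac, st, en, C, X, Y, cmt, hkr, hkr.ne, hkr.ne', hkr.not_gt, hm, hm.ne, hm.ne', hm.not_gt, hr, hr.ne, hr.ne', hr.not_gt, hp, hp.not_ge, Ru_of _ _ _ hkr]; done)
            | (simp [twFun, hFun, zFun, RFun, pushFun, fac, st, en, C, X, Y, cmt, hkr, hkr.ne, hkr.ne', hkr.not_gt, hm, hm.ne, hm.ne', hm.not_gt, hr, hr.ne, hr.ne', hr.not_gt, hp, hp.not_ge, Ru_of _ _ _ hkr]; group; done)
            | (simp [twFun, hFun, zFun, RFun, pushFun, fac, st, en, C, X, Y, cmt, hkr, hkr.ne, hkr.ne', hkr.not_gt, hm, hm.ne, hm.ne', hm.not_gt, hr, hr.ne, hr.ne', hr.not_gt, hp, hp.not_ge, Ru_of _ _ _ hkr] <;> group)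
        · subst hm
          first
            | (simp [twFun, hFun, zFun, RFun, pushFun, fac, st, en, C, X, Y, cmt, hkr, hkr.ne, hkr.ne', hkr.not_gt, hp, hp.not_ge, Ru_of _ _ _ hkr]; done)
            | (simp [twFun, hFun, zFun, RFun, pushFun, fac, st, en, C, X, Y, cmt, hkr, hkr.ne, hkr.ne', hkr.not_gt, hp, hp.not_ge, Ru_of _ _ _ hkr]; group; done)
            | (simp [twFun, hFun, zFun, RFun, pushFun, fac, st, en, C, X, Y, cmt, hkr, hkr.ne, hkr.ne', hkr.not_gt, hp, hp.not_ge, Ru_of _ _ _ hkr] <;> group)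
        · rcases lt_trichotomy m r with hr | hr | hr
          · first
              | (simp [twFun, hFun, zFun, RFun, pushFun, fac, st, en, C, X, Y, cmt, hkr, hkr.ne, hkr.ne', hkr.not_gt, hm, hm.ne, hm.ne', hm.not_gt, hr, hr.ne, hr.ne', hr.not_gt, hp, hp.not_ge, Ru_of _ _ _ hkr]; done)
              | (simp [twFun, hFun, zFun, RFun, pushFun, fac, st, en, C, X, Y, cmt, hkr, hkr.ne, hkr.ne', hkr.not_gt, hm, hm.ne, hm.ne', hm.not_gt, hr, hr.ne, hr.ne', hr.not_gt, hp, hp.not_ge, Ru_of _ _ _ hkr]; group; done)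
              | (simp [twFun, hFun, zFun, RFun, pushFun, fac, st, en, C, X, Y, cmt, hkr, hkr.ne, hkr.ne', hkr.not_gt, hm, hm.ne, hm.ne', hm.not_gt, hr, hr.ne, hr.ne', hr.not_gt, hp, hp.not_ge, Ru_of _ _ _ hkr] <;> group)
          · subst hr
            first
              | (simp [twFun, hFun, zFun, RFun, pushFun, fac, st, en, C, X, Y, cmt, hkr, hkr.ne, hkr.ne', hkr.not_gt, hp, hp.not_ge, Ru_of _ _ _ hkr]; done)
              | (simp [twFun, hFun, zFun, RFun, pushFun, fac, st, en, C, X, Y, cmt, hkr, hkr.ne, hkr.ne', hkr.not_gt, hp, hp.not_ge, Ru_of _ _ _ hkr]; group; done)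
              | (simp [twFun, hFun, zFun, RFun, pushFun, fac, st, en, C, X, Y, cmt, hkr, hkr.ne, hkr.ne', hkr.not_gt, hp, hp.not_ge, Ru_of _ _ _ hkr] <;> group)
          · first
              | (simp [twFun, hFun, zFun, RFun, pushFun, fac, st, en, C, X, Y, cmt, hkr, hkr.ne, hkr.ne', hkr.not_gt, hm, hm.ne, hm.ne', hm.not_gt, hr, hr.ne, hr.ne', hr.not_gt, hp, hp.not_ge, Ru_of _ _ _ hkr]; done)
              | (simp [twFun, hFun, zFun, RFun, pushFun, fac, st, en, C, X, Y, cmt, hkr, hkr.ne, hkr.ne', hkr.not_gt, hm, hm.ne, hm.ne', hm.not_gt, hr, hr.ne, hr.ne', hr.not_gt, hp, hp.not_ge, Ru_of _ _ _ hkr]; group; done)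
              | (simp [twFun, hFun, zFun, RFun, pushFun, fac, st, en, C, X, Y, cmt, hkr, hkr.ne, hkr.ne', hkr.not_gt, hm, hm.ne, hm.ne', hm.not_gt, hr, hr.ne, hr.ne', hr.not_gt, hp, hp.not_ge, Ru_of _ _ _ hkr] <;> group)
      · have hp' : p ≤ m := not_lt.1 hp
        rcases lt_trichotomy m k with hm | hm | hm
        · have hr := hm.trans hkr
          first
            | (simp [twFun, hFun, zFun, RFun, pushFun, fac, st, en, C, X, Y, cmt, hkr, hkr.ne, hkr.ne', hkr.not_gt, hm, hm.ne, hm.ne', hm.not_gt, hr, hr.ne, hr.ne', hr.not_gt, hp, hp', Ru_of _ _ _ hkr]; done)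
            | (simp [twFun, hFun, zFun, RFun, pushFun, fac, st, en, C, X, Y, cmt, hkr, hkr.ne, hkr.ne', hkr.not_gt, hm, hm.ne, hm.ne', hm.not_gt, hr, hr.ne, hr.ne', hr.not_gt, hp, hp', Ru_of _ _ _ hkr]; group; done)
            | (simp [twFun, hFun, zFun, RFun, pushFun, fac, st, en, C, X, Y, cmt, hkr, hkr.ne, hkr.ne', hkr.not_gt, hm, hm.ne, hm.ne', hm.not_gt, hr, hr.ne, hr.ne', hr.not_gt, hp, hp', Ru_of _ _ _ hkr] <;> group)
        · subst hm
          first
            | (simp [twFun, hFun, zFun, RFun, pushFun, fac, st, en, C, X, Y, cmt, hkr, hkr.ne, hkr.ne', hkr.not_gt, hp, hp', Ru_of _ _ _ hkr]; done)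
            | (simp [twFun, hFun, zFun, RFun, pushFun, fac, st, en, C, X, Y, cmt, hkr, hkr.ne, hkr.ne', hkr.not_gt, hp, hp', Ru_of _ _ _ hkr]; group; done)
            | (simp [twFun, hFun, zFun, RFun, pushFun, fac, st, en, C, X, Y, cmt, hkr, hkr.ne, hkr.ne', hkr.not_gt, hp, hp', Ru_of _ _ _ hkr] <;> group)
        · rcases lt_trichotomy m r with hr | hr | hr
          · first
              | (simp [twFun, hFun, zFun, RFun, pushFun, fac, st, en, C, X, Y, cmt, hkr, hkr.ne, hkr.ne', hkr.not_gt, hm, hm.ne, hm.ne', hm.not_gt, hr, hr.ne, hr.ne', hr.not_gt, hp, hp', Ru_of _ _ _ hkr]; done)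
              | (simp [twFun, hFun, zFun, RFun, pushFun, fac, st, en, C, X, Y, cmt, hkr, hkr.ne, hkr.ne', hkr.not_gt, hm, hm.ne, hm.ne', hm.not_gt, hr, hr.ne, hr.ne', hr.not_gt, hp, hp', Ru_of _ _ _ hkr]; group; done)
              | (simp [twFun, hFun, zFun, RFun, pushFun, fac, st, en, C, X, Y, cmt, hkr, hkr.ne, hkr.ne', hkr.not_gt, hm, hm.ne, hm.ne', hm.not_gt, hr, hr.ne, hr.ne', hr.not_gt, hp, hp', Ru_of _ _ _ hkr] <;> group)
          · subst hr
            first
              | (simp [twFun, hFun, zFun, RFun, pushFun, fac, st, en, C, X, Y, cmt, hkr, hkr.ne, hkr.ne', hkr.not_gt, hp, hp', Ru_of _ _ _ hkr]; done)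
              | (simp [twFun, hFun, zFun, RFun, pushFun, fac, st, en, C, X, Y, cmt, hkr, hkr.ne, hkr.ne', hkr.not_gt, hp, hp', Ru_of _ _ _ hkr]; group; done)
              | (simp [twFun, hFun, zFun, RFun, pushFun, fac, st, en, C, X, Y, cmt, hkr, hkr.ne, hkr.ne', hkr.not_gt, hp, hp', Ru_of _ _ _ hkr] <;> group)
          · first
              | (simp [twFun, hFun, zFun, RFun, pushFun, fac, st, en, C, X, Y, cmt, hkr, hkr.ne, hkr.ne', hkr.not_gt, hm, hm.ne, hm.ne', hm.not_gt, hr, hr.ne, hr.ne', hr.not_gt, hp, hp', Ru_of _ _ _ hkr]; done)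
              | (simp [twFun, hFun, zFun, RFun, pushFun, fac, st, en, C, X, Y, cmt, hkr, hkr.ne, hkr.ne', hkr.not_gt, hm, hm.ne, hm.ne', hm.not_gt, hr, hr.ne, hr.ne', hr.not_gt, hp, hp', Ru_of _ _ _ hkr]; group; done)
              | (simp [twFun, hFun, zFun, RFun, pushFun, fac, st, en, C, X, Y, cmt, hkr, hkr.ne, hkr.ne', hkr.not_gt, hm, hm.ne, hm.ne', hm.not_gt, hr, hr.ne, hr.ne', hr.not_gt, hp, hp', Ru_of _ _ _ hkr] <;> group))

theorem T_Zt (p r : ℕ) (i : Fin 5) : T i * Zt p r = Zt p r * T i := by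
  refine aut_ext ?_
  intro l
  simp only [MulAut.mul_apply]
  fin_cases i
  all_goals (
    rcases l with m | m | m
    · fin_cases m <;>
        first
          | (simp [twFun, hFun, zFun, RFun, pushFun, fac, st, en, C, X, Y, cmt]; done)
          | (simp [twFun, hFun, zFun, RFun, pushFun, fac, st, en, C, X, Y, cmt]; group; done)
          | (simp [twFun, hFun, zFun, RFun, pushFun, fac, st, en, C, X, Y, cmt] <;> group)
    · rcases lt_trichotomy m r with hk | hk | hk
      · first
          | (simp [twFun, hFun, zFun, RFun, pushFun, fac, st, en, C, X, Y, cmt, hk, hk.ne, hk.ne', hk.not_gt]; done)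
          | (simp [twFun, hFun, zFun, RFun, pushFun, fac, st, en, C, X, Y, cmt, hk, hk.ne, hk.ne', hk.not_gt]; group; done)
          | (simp [twFun, hFun, zFun, RFun, pushFun, fac, st, en, C, X, Y, cmt, hk, hk.ne, hk.ne', hk.not_gt] <;> group)
      · subst hk
        first
          | (simp [twFun, hFun, zFun, RFun, pushFun, fac, st, en, C, X, Y, cmt]; done)
          | (simp [twFun, hFun, zFun, RFun, pushFun, fac, st, en, C, X, Y, cmt]; group; done)
          | (simp [twFun, hFun, zFun, RFun, pushFun, fac, st, en, C, X, Y, cmt] <;> group)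
      · first
          | (simp [twFun, hFun, zFun, RFun, pushFun, fac, st, en, C, X, Y, cmt, hk, hk.ne, hk.ne', hk.not_gt]; done)
          | (simp [twFun, hFun, zFun, RFun, pushFun, fac, st, en, C, X, Y, cmt, hk, hk.ne, hk.ne', hk.not_gt]; group; done)
          | (simp [twFun, hFun, zFun, RFun, pushFun, fac, st, en, C, X, Y, cmt, hk, hk.ne, hk.ne', hk.not_gt] <;> group)
    · by_cases hp : m < p
      · rcases lt_trichotomy m r with hk | hk | hk
        · first
            | (simp [twFun, hFun, zFun, RFun, pushFun, fac, st, en, C, X, Y, cmt, hk, hk.ne, hk.ne', hk.not_gt, hp, hp.not_ge]; done)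
            | (simp [twFun, hFun, zFun, RFun, pushFun, fac, st, en, C, X, Y, cmt, hk, hk.ne, hk.ne', hk.not_gt, hp, hp.not_ge]; group; done)
            | (simp [twFun, hFun, zFun, RFun, pushFun, fac, st, en, C, X, Y, cmt, hk, hk.ne, hk.ne', hk.not_gt, hp, hp.not_ge] <;> group)
        · subst hk
          first
            | (simp [twFun, hFun, zFun, RFun, pushFun, fac, st, en, C, X, Y, cmt, hp, hp.not_ge]; done)
            | (simp [twFun, hFun, zFun, RFun, pushFun, fac, st, en, C, X, Y, cmt, hp, hp.not_ge]; group; done)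
            | (simp [twFun, hFun, zFun, RFun, pushFun, fac, st, en, C, X, Y, cmt, hp, hp.not_ge] <;> group)
        · first
            | (simp [twFun, hFun, zFun, RFun, pushFun, fac, st, en, C, X, Y, cmt, hk, hk.ne, hk.ne', hk.not_gt, hp, hp.not_ge]; done)
            | (simp [twFun, hFun, zFun, RFun, pushFun, fac, st, en, C, X, Y, cmt, hk, hk.ne, hk.ne', hk.not_gt, hp, hp.not_ge]; group; done)
            | (simp [twFun, hFun, zFun, RFun, pushFun, fac, st, en, C, X, Y, cmt, hk, hk.ne, hk.ne', hk.not_gt, hp, hp.not_ge] <;> group)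
      · have hp' : p ≤ m := not_lt.1 hp
        rcases lt_trichotomy m r with hk | hk | hk
        · first
            | (simp [twFun, hFun, zFun, RFun, pushFun, fac, st, en, C, X, Y, cmt, hk, hk.ne, hk.ne', hk.not_gt, hp, hp']; done)
            | (simp [twFun, hFun, zFun, RFun, pushFun, fac, st, en, C, X, Y, cmt, hk, hk.ne, hk.ne', hk.not_gt, hp, hp']; group; done)
            | (simp [twFun, hFun, zFun, RFun, pushFun, fac, st, en, C, X, Y, cmt, hk, hk.ne, hk.ne', hk.not_gt, hp, hp'] <;> group)
        · subst hk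
          first
            | (simp [twFun, hFun, zFun, RFun, pushFun, fac, st, en, C, X, Y, cmt, hp, hp']; done)
            | (simp [twFun, hFun, zFun, RFun, pushFun, fac, st, en, C, X, Y, cmt, hp, hp']; group; done)
            | (simp [twFun, hFun, zFun, RFun, pushFun, fac, st, en, C, X, Y, cmt, hp, hp'] <;> group)
        · first
            | (simp [twFun, hFun, zFun, RFun, pushFun, fac, st, en, C, X, Y, cmt, hk, hk.ne, hk.ne', hk.not_gt, hp, hp']; done)
            | (simp [twFun, hFun, zFun, RFun, pushFun, fac, st, en, C, X, Y, cmt, hk, hk.ne, hk.ne', hk.not_gt, hp, hp']; group; done)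
            | (simp [twFun, hFun, zFun, RFun, pushFun, fac, st, en, C, X, Y, cmt, hk, hk.ne, hk.ne', hk.not_gt, hp, hp'] <;> group))

theorem Pu_Zt (p r : ℕ) (b : Fin 4) : Pu p r b * Zt p r = Zt p r * Pu p r b := by
  refine aut_ext ?_
  intro l
  simp only [MulAut.mul_apply]
  fin_cases b
  all_goals (
    rcases l with m | m | m
    · fin_cases m <;>
        first
          | (simp [twFun, hFun, zFun, RFun, pushFun, fac, st, en, C, X, Y, cmt, Pu_of]; done)
          | (simp [twFun, hFun, zFun, RFun, pushFun, fac, st, en, C, X, Y, cmt, Pu_of]; group; done)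
          | (simp [twFun, hFun, zFun, RFun, pushFun, fac, st, en, C, X, Y, cmt, Pu_of] <;> group)
    · rcases lt_trichotomy m r with hk | hk | hk
      · first
          | (simp [twFun, hFun, zFun, RFun, pushFun, fac, st, en, C, X, Y, cmt, hk, hk.ne, hk.ne', hk.not_gt, Pu_of]; done)
          | (simp [twFun, hFun, zFun, RFun, pushFun, fac, st, en, C, X, Y, cmt, hk, hk.ne, hk.ne', hk.not_gt, Pu_of]; group; done)
          | (simp [twFun, hFun, zFun, RFun, pushFun, fac, st, en, C, X, Y, cmt, hk, hk.ne, hk.ne', hk.not_gt, Pu_of] <;> group)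
      · subst hk
        first
          | (simp [twFun, hFun, zFun, RFun, pushFun, fac, st, en, C, X, Y, cmt, Pu_of]; done)
          | (simp [twFun, hFun, zFun, RFun, pushFun, fac, st, en, C, X, Y, cmt, Pu_of]; group; done)
          | (simp [twFun, hFun, zFun, RFun, pushFun, fac, st, en, C, X, Y, cmt, Pu_of] <;> group)
      · first
          | (simp [twFun, hFun, zFun, RFun, pushFun, fac, st, en, C, X, Y, cmt, hk, hk.ne, hk.ne', hk.not_gt, Pu_of]; done)
          | (simp [twFun, hFun, zFun, RFun, pushFun, fac, st, en, C, X, Y, cmt, hk, hk.ne, hk.ne', hk.not_gt, Pu_of]; group; done)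
          | (simp [twFun, hFun, zFun, RFun, pushFun, fac, st, en, C, X, Y, cmt, hk, hk.ne, hk.ne', hk.not_gt, Pu_of] <;> group)
    · by_cases hp : m < p
      · rcases lt_trichotomy m r with hk | hk | hk
        · first
            | (simp [twFun, hFun, zFun, RFun, pushFun, fac, st, en, C, X, Y, cmt, hk, hk.ne, hk.ne', hk.not_gt, hp, hp.not_ge, Pu_of]; done)
            | (simp [twFun, hFun, zFun, RFun, pushFun, fac, st, en, C, X, Y, cmt, hk, hk.ne, hk.ne', hk.not_gt, hp, hp.not_ge, Pu_of]; group; done)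
            | (simp [twFun, hFun, zFun, RFun, pushFun, fac, st, en, C, X, Y, cmt, hk, hk.ne, hk.ne', hk.not_gt, hp, hp.not_ge, Pu_of] <;> group)
        · subst hk
          first
            | (simp [twFun, hFun, zFun, RFun, pushFun, fac, st, en, C, X, Y, cmt, hp, hp.not_ge, Pu_of]; done)
            | (simp [twFun, hFun, zFun, RFun, pushFun, fac, st, en, C, X, Y, cmt, hp, hp.not_ge, Pu_of]; group; done)
            | (simp [twFun, hFun, zFun, RFun, pushFun, fac, st, en, C, X, Y, cmt, hp, hp.not_ge, Pu_of] <;> group)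
        · first
            | (simp [twFun, hFun, zFun, RFun, pushFun, fac, st, en, C, X, Y, cmt, hk, hk.ne, hk.ne', hk.not_gt, hp, hp.not_ge, Pu_of]; done)
            | (simp [twFun, hFun, zFun, RFun, pushFun, fac, st, en, C, X, Y, cmt, hk, hk.ne, hk.ne', hk.not_gt, hp, hp.not_ge, Pu_of]; group; done)
            | (simp [twFun, hFun, zFun, RFun, pushFun, fac, st, en, C, X, Y, cmt, hk, hk.ne, hk.ne', hk.not_gt, hp, hp.not_ge, Pu_of] <;> group)
      · have hp' : p ≤ m := not_lt.1 hp
        rcases lt_trichotomy m r with hk | hk | hk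
        · first
            | (simp [twFun, hFun, zFun, RFun, pushFun, fac, st, en, C, X, Y, cmt, hk, hk.ne, hk.ne', hk.not_gt, hp, hp', Pu_of]; done)
            | (simp [twFun, hFun, zFun, RFun, pushFun, fac, st, en, C, X, Y, cmt, hk, hk.ne, hk.ne', hk.not_gt, hp, hp', Pu_of]; group; done)
            | (simp [twFun, hFun, zFun, RFun, pushFun, fac, st, en, C, X, Y, cmt, hk, hk.ne, hk.ne', hk.not_gt, hp, hp', Pu_of] <;> group)
        · subst hk
          first
            | (simp [twFun, hFun, zFun, RFun, pushFun, fac, st, en, C, X, Y, cmt, hp, hp', Pu_of]; done)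
            | (simp [twFun, hFun, zFun, RFun, pushFun, fac, st, en, C, X, Y, cmt, hp, hp', Pu_of]; group; done)
            | (simp [twFun, hFun, zFun, RFun, pushFun, fac, st, en, C, X, Y, cmt, hp, hp', Pu_of] <;> group)
        · first
            | (simp [twFun, hFun, zFun, RFun, pushFun, fac, st, en, C, X, Y, cmt, hk, hk.ne, hk.ne', hk.not_gt, hp, hp', Pu_of]; done)
            | (simp [twFun, hFun, zFun, RFun, pushFun, fac, st, en, C, X, Y, cmt, hk, hk.ne, hk.ne', hk.not_gt, hp, hp', Pu_of]; group; done)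
            | (simp [twFun, hFun, zFun, RFun, pushFun, fac, st, en, C, X, Y, cmt, hk, hk.ne, hk.ne', hk.not_gt, hp, hp', Pu_of] <;> group))

theorem h_T (p k : ℕ) (i : Fin 5) (hi : i ≠ 1) : h p k * T i = T i * h p k := by
  refine aut_ext ?_
  intro l
  simp only [MulAut.mul_apply]
  obtain ⟨r, rfl⟩ : ∃ r, r = k := ⟨k, rfl⟩
  fin_cases i
  pick_goal 2
  · exact absurd rfl hi
  all_goals (
    rcases l with m | m | m
    · fin_cases m <;>
        first
          | (simp [twFun, hFun, zFun, RFun, pushFun, fac, st, en, C, X, Y, cmt]; done)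
          | (simp [twFun, hFun, zFun, RFun, pushFun, fac, st, en, C, X, Y, cmt]; group; done)
          | (simp [twFun, hFun, zFun, RFun, pushFun, fac, st, en, C, X, Y, cmt] <;> group)
    · rcases lt_trichotomy m r with hk | hk | hk
      · first
          | (simp [twFun, hFun, zFun, RFun, pushFun, fac, st, en, C, X, Y, cmt, hk, hk.ne, hk.ne', hk.not_gt]; done)
          | (simp [twFun, hFun, zFun, RFun, pushFun, fac, st, en, C, X, Y, cmt, hk, hk.ne, hk.ne', hk.not_gt]; group; done)
          | (simp [twFun, hFun, zFun, RFun, pushFun, fac, st, en, C, X, Y, cmt, hk, hk.ne, hk.ne', hk.not_gt] <;> group)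
      · subst hk
        first
          | (simp [twFun, hFun, zFun, RFun, pushFun, fac, st, en, C, X, Y, cmt]; done)
          | (simp [twFun, hFun, zFun, RFun, pushFun, fac, st, en, C, X, Y, cmt]; group; done)
          | (simp [twFun, hFun, zFun, RFun, pushFun, fac, st, en, C, X, Y, cmt] <;> group)
      · first
          | (simp [twFun, hFun, zFun, RFun, pushFun, fac, st, en, C, X, Y, cmt, hk, hk.ne, hk.ne', hk.not_gt]; done)
          | (simp [twFun, hFun, zFun, RFun, pushFun, fac, st, en, C, X, Y, cmt, hk, hk.ne, hk.ne', hk.not_gt]; group; done)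
          | (simp [twFun, hFun, zFun, RFun, pushFun, fac, st, en, C, X, Y, cmt, hk, hk.ne, hk.ne', hk.not_gt] <;> group)
    · by_cases hp : m < p
      · rcases lt_trichotomy m r with hk | hk | hk
        · first
            | (simp [twFun, hFun, zFun, RFun, pushFun, fac, st, en, C, X, Y, cmt, hk, hk.ne, hk.ne', hk.not_gt, hp, hp.not_ge]; done)
            | (simp [twFun, hFun, zFun, RFun, pushFun, fac, st, en, C, X, Y, cmt, hk, hk.ne, hk.ne', hk.not_gt, hp, hp.not_ge]; group; done)
            | (simp [twFun, hFun, zFun, RFun, pushFun, fac, st, en, C, X, Y, cmt, hk, hk.ne, hk.ne', hk.not_gt, hp, hp.not_ge] <;> group)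
        · subst hk
          first
            | (simp [twFun, hFun, zFun, RFun, pushFun, fac, st, en, C, X, Y, cmt, hp, hp.not_ge]; done)
            | (simp [twFun, hFun, zFun, RFun, pushFun, fac, st, en, C, X, Y, cmt, hp, hp.not_ge]; group; done)
            | (simp [twFun, hFun, zFun, RFun, pushFun, fac, st, en, C, X, Y, cmt, hp, hp.not_ge] <;> group)
        · first
            | (simp [twFun, hFun, zFun, RFun, pushFun, fac, st, en, C, X, Y, cmt, hk, hk.ne, hk.ne', hk.not_gt, hp, hp.not_ge]; done)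
            | (simp [twFun, hFun, zFun, RFun, pushFun, fac, st, en, C, X, Y, cmt, hk, hk.ne, hk.ne', hk.not_gt, hp, hp.not_ge]; group; done)
            | (simp [twFun, hFun, zFun, RFun, pushFun, fac, st, en, C, X, Y, cmt, hk, hk.ne, hk.ne', hk.not_gt, hp, hp.not_ge] <;> group)
      · have hp' : p ≤ m := not_lt.1 hp
        rcases lt_trichotomy m r with hk | hk | hk
        · first
            | (simp [twFun, hFun, zFun, RFun, pushFun, fac, st, en, C, X, Y, cmt, hk, hk.ne, hk.ne', hk.not_gt, hp, hp']; done)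
            | (simp [twFun, hFun, zFun, RFun, pushFun, fac, st, en, C, X, Y, cmt, hk, hk.ne, hk.ne', hk.not_gt, hp, hp']; group; done)
            | (simp [twFun, hFun, zFun, RFun, pushFun, fac, st, en, C, X, Y, cmt, hk, hk.ne, hk.ne', hk.not_gt, hp, hp'] <;> group)
        · subst hk
          first
            | (simp [twFun, hFun, zFun, RFun, pushFun, fac, st, en, C, X, Y, cmt, hp, hp']; done)
            | (simp [twFun, hFun, zFun, RFun, pushFun, fac, st, en, C, X, Y, cmt, hp, hp']; group; done)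
            | (simp [twFun, hFun, zFun, RFun, pushFun, fac, st, en, C, X, Y, cmt, hp, hp'] <;> group)
        · first
            | (simp [twFun, hFun, zFun, RFun, pushFun, fac, st, en, C, X, Y, cmt, hk, hk.ne, hk.ne', hk.not_gt, hp, hp']; done)
            | (simp [twFun, hFun, zFun, RFun, pushFun, fac, st, en, C, X, Y, cmt, hk, hk.ne, hk.ne', hk.not_gt, hp, hp']; group; done)
            | (simp [twFun, hFun, zFun, RFun, pushFun, fac, st, en, C, X, Y, cmt, hk, hk.ne, hk.ne', hk.not_gt, hp, hp'] <;> group))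

end MCG
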