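import Pool.Agent.H60.MCG.MP

/-! Conjugation formulas: pushes of other points. -/

set_option linter.unusedSimpArgs false
set_option linter.unusedTactic false
set_option linter.unreachableTactic false
set_option maxRecDepth 20000

namespace MCG

theorem aut_ext2 {A B : MulAut Fr} (h : ∀ l, A (FreeGroup.of l) = B (FreeGroup.of l)) : A = B := by
  have h1 : A.toMonoidHom = B.toMonoidHom := FreeGroup.ext_hom _ _ h
  ext w
  exact DFunLike.congr_fun h1 w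

theorem h_Pu0 (p r k : ℕ) (hk : k < r) :
    Ru p r k * h p k * pu0 p r = pu0 p r * Ru p r k * h p k := by
  have hkr := hk
  refine aut_ext2 ?_
  intro l
  clear hk
  simp only [MulAut.mul_apply]
  rcases l with m | m | m
  · fin_cases m <;>
      first
        | (simp [twFun, hFun, zFun, RFun, pushFun, fac, st, en, C, X, Y, cmt, hkr, hkr.ne, hkr.ne', hkr.not_gt, Ru_of _ _ _ hkr]; done)
        | (simp [twFun, hFun, zFun, RFun, pushFun, fac, st, en, C, X, Y, cmt, hkr, hkr.ne, hkr.ne', hkr.not_gt, Ru_of _ _ _ hkr]; group; done)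
        | (simp [twFun, hFun, zFun, RFun, pushFun, fac, st, en, C, X, Y, cmt, hkr, hkr.ne, hkr.ne', hkr.not_gt, Ru_of _ _ _ hkr] <;> group)
  · skip
    rcases lt_trichotomy m k with hm | hm | hm
    · have hr := hm.trans hkr
      first
        | (simp [twFun, hFun, zFun, RFun, pushFun, fac, st, en, C, X, Y, cmt, hkr, hkr.ne, hkr.ne', hkr.not_gt, hm, hm.ne, hm.ne', hm.not_gt, hr, hr.ne, hr.ne', hr.not_gt, Ru_of _ _ _ hkr]; done)
        | (simp [twFun, hFun, zFun, RFun, pushFun, fac, st, en, C, X, Y, cmt, hkr, hkr.ne, hkr.ne', hkr.not_gt, hm, hm.ne, hm.ne', hm.not_gt, hr, hr.ne, hr.ne', hr.not_gt, Ru_of _ _ _ hkr]; group; done)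
        | (simp [twFun, hFun, zFun, RFun, pushFun, fac, st, en, C, X, Y, cmt, hkr, hkr.ne, hkr.ne', hkr.not_gt, hm, hm.ne, hm.ne', hm.not_gt, hr, hr.ne, hr.ne', hr.not_gt, Ru_of _ _ _ hkr] <;> group)
    · subst hm
      first
        | (simp [twFun, hFun, zFun, RFun, pushFun, fac, st, en, C, X, Y, cmt, hkr, hkr.ne, hkr.ne', hkr.not_gt, Ru_of _ _ _ hkr]; done)
        | (simp [twFun, hFun, zFun, RFun, pushFun, fac, st, en, C, X, Y, cmt, hkr, hkr.ne, hkr.ne', hkr.not_gt, Ru_of _ _ _ hkr]; group; done)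
        | (simp [twFun, hFun, zFun, RFun, pushFun, fac, st, en, C, X, Y, cmt, hkr, hkr.ne, hkr.ne', hkr.not_gt, Ru_of _ _ _ hkr] <;> group)
    · rcases lt_trichotomy m r with hr | hr | hr
      · first
          | (simp [twFun, hFun, zFun, RFun, pushFun, fac, st, en, C, X, Y, cmt, hkr, hkr.ne, hkr.ne', hkr.not_gt, hm, hm.ne, hm.ne', hm.not_gt, hr, hr.ne, hr.ne', hr.not_gt, Ru_of _ _ _ hkr]; done)
          | (simp [twFun, hFun, zFun, RFun, pushFun, fac, st, en, C, X, Y, cmt, hkr, hkr.ne, hkr.ne', hkr.not_gt, hm, hm.ne, hm.ne', hm.not_gt, hr, hr.ne, hr.ne', hr.not_gt, Ru_of _ _ _ hkr]; group; done)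
          | (simp [twFun, hFun, zFun, RFun, pushFun, fac, st, en, C, X, Y, cmt, hkr, hkr.ne, hkr.ne', hkr.not_gt, hm, hm.ne, hm.ne', hm.not_gt, hr, hr.ne, hr.ne', hr.not_gt, Ru_of _ _ _ hkr] <;> group)
      · subst hr
        first
          | (simp [twFun, hFun, zFun, RFun, pushFun, fac, st, en, C, X, Y, cmt, hkr, hkr.ne, hkr.ne', hkr.not_gt, Ru_of _ _ _ hkr]; done)
          | (simp [twFun, hFun, zFun, RFun, pushFun, fac, st, en, C, X, Y, cmt, hkr, hkr.ne, hkr.ne', hkr.not_gt, Ru_of _ _ _ hkr]; group; done)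
          | (simp [twFun, hFun, zFun, RFun, pushFun, fac, st, en, C, X, Y, cmt, hkr, hkr.ne, hkr.ne', hkr.not_gt, Ru_of _ _ _ hkr] <;> group)
      · first
          | (simp [twFun, hFun, zFun, RFun, pushFun, fac, st, en, C, X, Y, cmt, hkr, hkr.ne, hkr.ne', hkr.not_gt, hm, hm.ne, hm.ne', hm.not_gt, hr, hr.ne, hr.ne', hr.not_gt, Ru_of _ _ _ hkr]; done)
          | (simp [twFun, hFun, zFun, RFun, pushFun, fac, st, en, C, X, Y, cmt, hkr, hkr.ne, hkr.ne', hkr.not_gt, hm, hm.ne, hm.ne', hm.not_gt, hr, hr.ne, hr.ne', hr.not_gt, Ru_of _ _ _ hkr]; group; done)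
          | (simp [twFun, hFun, zFun, RFun, pushFun, fac, st, en, C, X, Y, cmt, hkr, hkr.ne, hkr.ne', hkr.not_gt, hm, hm.ne, hm.ne', hm.not_gt, hr, hr.ne, hr.ne', hr.not_gt, Ru_of _ _ _ hkr] <;> group)
  · by_cases hp : m < p
    · skip
      rcases lt_trichotomy m k with hm | hm | hm
      · have hr := hm.trans hkr
        first
          | (simp [twFun, hFun, zFun, RFun, pushFun, fac, st, en, C, X, Y, cmt, hkr, hkr.ne, hkr.ne', hkr.not_gt, hm, hm.ne, hm.ne', hm.not_gt, hr, hr.ne, hr.ne', hr.not_gt, hp, hp.not_ge, Ru_of _ _ _ hkr]; done)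
          | (simp [twFun, hFun, zFun, RFun, pushFun, fac, st, en, C, X, Y, cmt, hkr, hkr.ne, hkr.ne', hkr.not_gt, hm, hm.ne, hm.ne', hm.not_gt, hr, hr.ne, hr.ne', hr.not_gt, hp, hp.not_ge, Ru_of _ _ _ hkr]; group; done)
          | (simp [twFun, hFun, zFun, RFun, pushFun, fac, st, en, C, X, Y, cmt, hkr, hkr.ne, hkr.ne', hkr.not_gt, hm, hm.ne, hm.ne', hm.not_gt, hr, hr.ne, hr.ne', hr.not_gt, hp, hp.not_ge, Ru_of _ _ _ hkr] <;> group)
      · subst hm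
        first
          | (simp [twFun, hFun, zFun, RFun, pushFun, fac, st, en, C, X, Y, cmt, hkr, hkr.ne, hkr.ne', hkr.not_gt, hp, hp.not_ge, Ru_of _ _ _ hkr]; done)
          | (simp [twFun, hFun, zFun, RFun, pushFun, fac, st, en, C, X, Y, cmt, hkr, hkr.ne, hkr.ne', hkr.not_gt, hp, hp.not_ge, Ru_of _ _ _ hkr]; group; done)
          | (simp [twFun, hFun, zFun, RFun, pushFun, fac, st, en, C, X, Y, cmt, hkr, hkr.ne, hkr.ne', hkr.not_gt, hp, hp.not_ge, Ru_of _ _ _ hkr] <;> group)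
      · rcases lt_trichotomy m r with hr | hr | hr
        · first
            | (simp [twFun, hFun, zFun, RFun, pushFun, fac, st, en, C, X, Y, cmt, hkr, hkr.ne, hkr.ne', hkr.not_gt, hm, hm.ne, hm.ne', hm.not_gt, hr, hr.ne, hr.ne', hr.not_gt, hp, hp.not_ge, Ru_of _ _ _ hkr]; done)
            | (simp [twFun, hFun, zFun, RFun, pushFun, fac, st, en, C, X, Y, cmt, hkr, hkr.ne, hkr.ne', hkr.not_gt, hm, hm.ne, hm.ne', hm.not_gt, hr, hr.ne, hr.ne', hr.not_gt, hp, hp.not_ge, Ru_of _ _ _ hkr]; group; done)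
            | (simp [twFun, hFun, zFun, RFun, pushFun, fac, st, en, C, X, Y, cmt, hkr, hkr.ne, hkr.ne', hkr.not_gt, hm, hm.ne, hm.ne', hm.not_gt, hr, hr.ne, hr.ne', hr.not_gt, hp, hp.not_ge, Ru_of _ _ _ hkr] <;> group)
        · subst hr
          first
            | (simp [twFun, hFun, zFun, RFun, pushFun, fac, st, en, C, X, Y, cmt, hkr, hkr.ne, hkr.ne', hkr.not_gt, hp, hp.not_ge, Ru_of _ _ _ hkr]; done)
            | (simp [twFun, hFun, zFun, RFun, pushFun, fac, st, en, C, X, Y, cmt, hkr, hkr.ne, hkr.ne', hkr.not_gt, hp, hp.not_ge, Ru_of _ _ _ hkr]; group; done)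
            | (simp [twFun, hFun, zFun, RFun, pushFun, fac, st, en, C, X, Y, cmt, hkr, hkr.ne, hkr.ne', hkr.not_gt, hp, hp.not_ge, Ru_of _ _ _ hkr] <;> group)
        · first
            | (simp [twFun, hFun, zFun, RFun, pushFun, fac, st, en, C, X, Y, cmt, hkr, hkr.ne, hkr.ne', hkr.not_gt, hm, hm.ne, hm.ne', hm.not_gt, hr, hr.ne, hr.ne', hr.not_gt, hp, hp.not_ge, Ru_of _ _ _ hkr]; done)
            | (simp [twFun, hFun, zFun, RFun, pushFun, fac, st, en, C, X, Y, cmt, hkr, hkr.ne, hkr.ne', hkr.not_gt, hm, hm.ne, hm.ne', hm.not_gt, hr, hr.ne, hr.ne', hr.not_gt, hp, hp.not_ge, Ru_of _ _ _ hkr]; group; done)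
            | (simp [twFun, hFun, zFun, RFun, pushFun, fac, st, en, C, X, Y, cmt, hkr, hkr.ne, hkr.ne', hkr.not_gt, hm, hm.ne, hm.ne', hm.not_gt, hr, hr.ne, hr.ne', hr.not_gt, hp, hp.not_ge, Ru_of _ _ _ hkr] <;> group)
    · have hp' : p ≤ m := not_lt.1 hp
      rcases lt_trichotomy m k with hm | hm | hm
      · have hr := hm.trans hkr
        first
          | (simp [twFun, hFun, zFun, RFun, pushFun, fac, st, en, C, X, Y, cmt, hkr, hkr.ne, hkr.ne', hkr.not_gt, hm, hm.ne, hm.ne', hm.not_gt, hr, hr.ne, hr.ne', hr.not_gt, hp, hp', Ru_of _ _ _ hkr]; done)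
          | (simp [twFun, hFun, zFun, RFun, pushFun, fac, st, en, C, X, Y, cmt, hkr, hkr.ne, hkr.ne', hkr.not_gt, hm, hm.ne, hm.ne', hm.not_gt, hr, hr.ne, hr.ne', hr.not_gt, hp, hp', Ru_of _ _ _ hkr]; group; done)
          | (simp [twFun, hFun, zFun, RFun, pushFun, fac, st, en, C, X, Y, cmt, hkr, hkr.ne, hkr.ne', hkr.not_gt, hm, hm.ne, hm.ne', hm.not_gt, hr, hr.ne, hr.ne', hr.not_gt, hp, hp', Ru_of _ _ _ hkr] <;> group)
      · subst hm
        first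
          | (simp [twFun, hFun, zFun, RFun, pushFun, fac, st, en, C, X, Y, cmt, hkr, hkr.ne, hkr.ne', hkr.not_gt, hp, hp', Ru_of _ _ _ hkr]; done)
          | (simp [twFun, hFun, zFun, RFun, pushFun, fac, st, en, C, X, Y, cmt, hkr, hkr.ne, hkr.ne', hkr.not_gt, hp, hp', Ru_of _ _ _ hkr]; group; done)
          | (simp [twFun, hFun, zFun, RFun, pushFun, fac, st, en, C, X, Y, cmt, hkr, hkr.ne, hkr.ne', hkr.not_gt, hp, hp', Ru_of _ _ _ hkr] <;> group)
      · rcases lt_trichotomy m r with hr | hr | hr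
        · first
            | (simp [twFun, hFun, zFun, RFun, pushFun, fac, st, en, C, X, Y, cmt, hkr, hkr.ne, hkr.ne', hkr.not_gt, hm, hm.ne, hm.ne', hm.not_gt, hr, hr.ne, hr.ne', hr.not_gt, hp, hp', Ru_of _ _ _ hkr]; done)
            | (simp [twFun, hFun, zFun, RFun, pushFun, fac, st, en, C, X, Y, cmt, hkr, hkr.ne, hkr.ne', hkr.not_gt, hm, hm.ne, hm.ne', hm.not_gt, hr, hr.ne, hr.ne', hr.not_gt, hp, hp', Ru_of _ _ _ hkr]; group; done)
            | (simp [twFun, hFun, zFun, RFun, pushFun, fac, st, en, C, X, Y, cmt, hkr, hkr.ne, hkr.ne', hkr.not_gt, hm, hm.ne, hm.ne', hm.not_gt, hr, hr.ne, hr.ne', hr.not_gt, hp, hp', Ru_of _ _ _ hkr] <;> group)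
        · subst hr
          first
            | (simp [twFun, hFun, zFun, RFun, pushFun, fac, st, en, C, X, Y, cmt, hkr, hkr.ne, hkr.ne', hkr.not_gt, hp, hp', Ru_of _ _ _ hkr]; done)
            | (simp [twFun, hFun, zFun, RFun, pushFun, fac, st, en, C, X, Y, cmt, hkr, hkr.ne, hkr.ne', hkr.not_gt, hp, hp', Ru_of _ _ _ hkr]; group; done)
            | (simp [twFun, hFun, zFun, RFun, pushFun, fac, st, en, C, X, Y, cmt, hkr, hkr.ne, hkr.ne', hkr.not_gt, hp, hp', Ru_of _ _ _ hkr] <;> group)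
        · first
            | (simp [twFun, hFun, zFun, RFun, pushFun, fac, st, en, C, X, Y, cmt, hkr, hkr.ne, hkr.ne', hkr.not_gt, hm, hm.ne, hm.ne', hm.not_gt, hr, hr.ne, hr.ne', hr.not_gt, hp, hp', Ru_of _ _ _ hkr]; done)
            | (simp [twFun, hFun, zFun, RFun, pushFun, fac, st, en, C, X, Y, cmt, hkr, hkr.ne, hkr.ne', hkr.not_gt, hm, hm.ne, hm.ne', hm.not_gt, hr, hr.ne, hr.ne', hr.not_gt, hp, hp', Ru_of _ _ _ hkr]; group; done)
            | (simp [twFun, hFun, zFun, RFun, pushFun, fac, st, en, C, X, Y, cmt, hkr, hkr.ne, hkr.ne', hkr.not_gt, hm, hm.ne, hm.ne', hm.not_gt, hr, hr.ne, hr.ne', hr.not_gt, hp, hp', Ru_of _ _ _ hkr] <;> group)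

theorem h_Pu2 (p r k : ℕ) (hk : k < r) :
    h p k * pu2 p r = pu2 p r * h p k := by
  have hkr := hk
  refine aut_ext2 ?_
  intro l
  clear hk
  simp only [MulAut.mul_apply]
  rcases l with m | m | m
  · fin_cases m <;>
      first
        | (simp [twFun, hFun, zFun, RFun, pushFun, fac, st, en, C, X, Y, cmt, hkr, hkr.ne, hkr.ne', hkr.not_gt, Ru_of _ _ _ hkr]; done)
        | (simp [twFun, hFun, zFun, RFun, pushFun, fac, st, en, C, X, Y, cmt, hkr, hkr.ne, hkr.ne', hkr.not_gt, Ru_of _ _ _ hkr]; group; done)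
        | (simp [twFun, hFun, zFun, RFun, pushFun, fac, st, en, C, X, Y, cmt, hkr, hkr.ne, hkr.ne', hkr.not_gt, Ru_of _ _ _ hkr] <;> group)
  · skip
    rcases lt_trichotomy m k with hm | hm | hm
    · have hr := hm.trans hkr
      first
        | (simp [twFun, hFun, zFun, RFun, pushFun, fac, st, en, C, X, Y, cmt, hkr, hkr.ne, hkr.ne', hkr.not_gt, hm, hm.ne, hm.ne', hm.not_gt, hr, hr.ne, hr.ne', hr.not_gt, Ru_of _ _ _ hkr]; done)
        | (simp [twFun, hFun, zFun, RFun, pushFun, fac, st, en, C, X, Y, cmt, hkr, hkr.ne, hkr.ne', hkr.not_gt, hm, hm.ne, hm.ne', hm.not_gt, hr, hr.ne, hr.ne', hr.not_gt, Ru_of _ _ _ hkr]; group; done)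
        | (simp [twFun, hFun, zFun, RFun, pushFun, fac, st, en, C, X, Y, cmt, hkr, hkr.ne, hkr.ne', hkr.not_gt, hm, hm.ne, hm.ne', hm.not_gt, hr, hr.ne, hr.ne', hr.not_gt, Ru_of _ _ _ hkr] <;> group)
    · subst hm
      first
        | (simp [twFun, hFun, zFun, RFun, pushFun, fac, st, en, C, X, Y, cmt, hkr, hkr.ne, hkr.ne', hkr.not_gt, Ru_of _ _ _ hkr]; done)
        | (simp [twFun, hFun, zFun, RFun, pushFun, fac, st, en, C, X, Y, cmt, hkr, hkr.ne, hkr.ne', hkr.not_gt, Ru_of _ _ _ hkr]; group; done)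
        | (simp [twFun, hFun, zFun, RFun, pushFun, fac, st, en, C, X, Y, cmt, hkr, hkr.ne, hkr.ne', hkr.not_gt, Ru_of _ _ _ hkr] <;> group)
    · rcases lt_trichotomy m r with hr | hr | hr
      · first
          | (simp [twFun, hFun, zFun, RFun, pushFun, fac, st, en, C, X, Y, cmt, hkr, hkr.ne, hkr.ne', hkr.not_gt, hm, hm.ne, hm.ne', hm.not_gt, hr, hr.ne, hr.ne', hr.not_gt, Ru_of _ _ _ hkr]; done)
          | (simp [twFun, hFun, zFun, RFun, pushFun, fac, st, en, C, X, Y, cmt, hkr, hkr.ne, hkr.ne', hkr.not_gt, hm, hm.ne, hm.ne', hm.not_gt, hr, hr.ne, hr.ne', hr.not_gt, Ru_of _ _ _ hkr]; group; done)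
          | (simp [twFun, hFun, zFun, RFun, pushFun, fac, st, en, C, X, Y, cmt, hkr, hkr.ne, hkr.ne', hkr.not_gt, hm, hm.ne, hm.ne', hm.not_gt, hr, hr.ne, hr.ne', hr.not_gt, Ru_of _ _ _ hkr] <;> group)
      · subst hr
        first
          | (simp [twFun, hFun, zFun, RFun, pushFun, fac, st, en, C, X, Y, cmt, hkr, hkr.ne, hkr.ne', hkr.not_gt, Ru_of _ _ _ hkr]; done)
          | (simp [twFun, hFun, zFun, RFun, pushFun, fac, st, en, C, X, Y, cmt, hkr, hkr.ne, hkr.ne', hkr.not_gt, Ru_of _ _ _ hkr]; group; done)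
          | (simp [twFun, hFun, zFun, RFun, pushFun, fac, st, en, C, X, Y, cmt, hkr, hkr.ne, hkr.ne', hkr.not_gt, Ru_of _ _ _ hkr] <;> group)
      · first
          | (simp [twFun, hFun, zFun, RFun, pushFun, fac, st, en, C, X, Y, cmt, hkr, hkr.ne, hkr.ne', hkr.not_gt, hm, hm.ne, hm.ne', hm.not_gt, hr, hr.ne, hr.ne', hr.not_gt, Ru_of _ _ _ hkr]; done)
          | (simp [twFun, hFun, zFun, RFun, pushFun, fac, st, en, C, X, Y, cmt, hkr, hkr.ne, hkr.ne', hkr.not_gt, hm, hm.ne, hm.ne', hm.not_gt, hr, hr.ne, hr.ne', hr.not_gt, Ru_of _ _ _ hkr]; group; done)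
          | (simp [twFun, hFun, zFun, RFun, pushFun, fac, st, en, C, X, Y, cmt, hkr, hkr.ne, hkr.ne', hkr.not_gt, hm, hm.ne, hm.ne', hm.not_gt, hr, hr.ne, hr.ne', hr.not_gt, Ru_of _ _ _ hkr] <;> group)
  · by_cases hp : m < p
    · skip
      rcases lt_trichotomy m k with hm | hm | hm
      · have hr := hm.trans hkr
        first
          | (simp [twFun, hFun, zFun, RFun, pushFun, fac, st, en, C, X, Y, cmt, hkr, hkr.ne, hkr.ne', hkr.not_gt, hm, hm.ne, hm.ne', hm.not_gt, hr, hr.ne, hr.ne', hr.not_gt, hp, hp.not_ge, Ru_of _ _ _ hkr]; done)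
          | (simp [twFun, hFun, zFun, RFun, pushFun, fac, st, en, C, X, Y, cmt, hkr, hkr.ne, hkr.ne', hkr.not_gt, hm, hm.ne, hm.ne', hm.not_gt, hr, hr.ne, hr.ne', hr.not_gt, hp, hp.not_ge, Ru_of _ _ _ hkr]; group; done)
          | (simp [twFun, hFun, zFun, RFun, pushFun, fac, st, en, C, X, Y, cmt, hkr, hkr.ne, hkr.ne', hkr.not_gt, hm, hm.ne, hm.ne', hm.not_gt, hr, hr.ne, hr.ne', hr.not_gt, hp, hp.not_ge, Ru_of _ _ _ hkr] <;> group)
      · subst hm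
        first
          | (simp [twFun, hFun, zFun, RFun, pushFun, fac, st, en, C, X, Y, cmt, hkr, hkr.ne, hkr.ne', hkr.not_gt, hp, hp.not_ge, Ru_of _ _ _ hkr]; done)
          | (simp [twFun, hFun, zFun, RFun, pushFun, fac, st, en, C, X, Y, cmt, hkr, hkr.ne, hkr.ne', hkr.not_gt, hp, hp.not_ge, Ru_of _ _ _ hkr]; group; done)
          | (simp [twFun, hFun, zFun, RFun, pushFun, fac, st, en, C, X, Y, cmt, hkr, hkr.ne, hkr.ne', hkr.not_gt, hp, hp.not_ge, Ru_of _ _ _ hkr] <;> group)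
      · rcases lt_trichotomy m r with hr | hr | hr
        · first
            | (simp [twFun, hFun, zFun, RFun, pushFun, fac, st, en, C, X, Y, cmt, hkr, hkr.ne, hkr.ne', hkr.not_gt, hm, hm.ne, hm.ne', hm.not_gt, hr, hr.ne, hr.ne', hr.not_gt, hp, hp.not_ge, Ru_of _ _ _ hkr]; done)
            | (simp [twFun, hFun, zFun, RFun, pushFun, fac, st, en, C, X, Y, cmt, hkr, hkr.ne, hkr.ne', hkr.not_gt, hm, hm.ne, hm.ne', hm.not_gt, hr, hr.ne, hr.ne', hr.not_gt, hp, hp.not_ge, Ru_of _ _ _ hkr]; group; done)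
            | (simp [twFun, hFun, zFun, RFun, pushFun, fac, st, en, C, X, Y, cmt, hkr, hkr.ne, hkr.ne', hkr.not_gt, hm, hm.ne, hm.ne', hm.not_gt, hr, hr.ne, hr.ne', hr.not_gt, hp, hp.not_ge, Ru_of _ _ _ hkr] <;> group)
        · subst hr
          first
            | (simp [twFun, hFun, zFun, RFun, pushFun, fac, st, en, C, X, Y, cmt, hkr, hkr.ne, hkr.ne', hkr.not_gt, hp, hp.not_ge, Ru_of _ _ _ hkr]; done)
            | (simp [twFun, hFun, zFun, RFun, pushFun, fac, st, en, C, X, Y, cmt, hkr, hkr.ne, hkr.ne', hkr.not_gt, hp, hp.not_ge, Ru_of _ _ _ hkr]; group; done)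
            | (simp [twFun, hFun, zFun, RFun, pushFun, fac, st, en, C, X, Y, cmt, hkr, hkr.ne, hkr.ne', hkr.not_gt, hp, hp.not_ge, Ru_of _ _ _ hkr] <;> group)
        · first
            | (simp [twFun, hFun, zFun, RFun, pushFun, fac, st, en, C, X, Y, cmt, hkr, hkr.ne, hkr.ne', hkr.not_gt, hm, hm.ne, hm.ne', hm.not_gt, hr, hr.ne, hr.ne', hr.not_gt, hp, hp.not_ge, Ru_of _ _ _ hkr]; done)
            | (simp [twFun, hFun, zFun, RFun, pushFun, fac, st, en, C, X, Y, cmt, hkr, hkr.ne, hkr.ne', hkr.not_gt, hm, hm.ne, hm.ne', hm.not_gt, hr, hr.ne, hr.ne', hr.not_gt, hp, hp.not_ge, Ru_of _ _ _ hkr]; group; done)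
            | (simp [twFun, hFun, zFun, RFun, pushFun, fac, st, en, C, X, Y, cmt, hkr, hkr.ne, hkr.ne', hkr.not_gt, hm, hm.ne, hm.ne', hm.not_gt, hr, hr.ne, hr.ne', hr.not_gt, hp, hp.not_ge, Ru_of _ _ _ hkr] <;> group)
    · have hp' : p ≤ m := not_lt.1 hp
      rcases lt_trichotomy m k with hm | hm | hm
      · have hr := hm.trans hkr
        first
          | (simp [twFun, hFun, zFun, RFun, pushFun, fac, st, en, C, X, Y, cmt, hkr, hkr.ne, hkr.ne', hkr.not_gt, hm, hm.ne, hm.ne', hm.not_gt, hr, hr.ne, hr.ne', hr.not_gt, hp, hp', Ru_of _ _ _ hkr]; done)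
          | (simp [twFun, hFun, zFun, RFun, pushFun, fac, st, en, C, X, Y, cmt, hkr, hkr.ne, hkr.ne', hkr.not_gt, hm, hm.ne, hm.ne', hm.not_gt, hr, hr.ne, hr.ne', hr.not_gt, hp, hp', Ru_of _ _ _ hkr]; group; done)
          | (simp [twFun, hFun, zFun, RFun, pushFun, fac, st, en, C, X, Y, cmt, hkr, hkr.ne, hkr.ne', hkr.not_gt, hm, hm.ne, hm.ne', hm.not_gt, hr, hr.ne, hr.ne', hr.not_gt, hp, hp', Ru_of _ _ _ hkr] <;> group)
      · subst hm
        first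
          | (simp [twFun, hFun, zFun, RFun, pushFun, fac, st, en, C, X, Y, cmt, hkr, hkr.ne, hkr.ne', hkr.not_gt, hp, hp', Ru_of _ _ _ hkr]; done)
          | (simp [twFun, hFun, zFun, RFun, pushFun, fac, st, en, C, X, Y, cmt, hkr, hkr.ne, hkr.ne', hkr.not_gt, hp, hp', Ru_of _ _ _ hkr]; group; done)
          | (simp [twFun, hFun, zFun, RFun, pushFun, fac, st, en, C, X, Y, cmt, hkr, hkr.ne, hkr.ne', hkr.not_gt, hp, hp', Ru_of _ _ _ hkr] <;> group)
      · rcases lt_trichotomy m r with hr | hr | hr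
        · first
            | (simp [twFun, hFun, zFun, RFun, pushFun, fac, st, en, C, X, Y, cmt, hkr, hkr.ne, hkr.ne', hkr.not_gt, hm, hm.ne, hm.ne', hm.not_gt, hr, hr.ne, hr.ne', hr.not_gt, hp, hp', Ru_of _ _ _ hkr]; done)
            | (simp [twFun, hFun, zFun, RFun, pushFun, fac, st, en, C, X, Y, cmt, hkr, hkr.ne, hkr.ne', hkr.not_gt, hm, hm.ne, hm.ne', hm.not_gt, hr, hr.ne, hr.ne', hr.not_gt, hp, hp', Ru_of _ _ _ hkr]; group; done)
            | (simp [twFun, hFun, zFun, RFun, pushFun, fac, st, en, C, X, Y, cmt, hkr, hkr.ne, hkr.ne', hkr.not_gt, hm, hm.ne, hm.ne', hm.not_gt, hr, hr.ne, hr.ne', hr.not_gt, hp, hp', Ru_of _ _ _ hkr] <;> group)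
        · subst hr
          first
            | (simp [twFun, hFun, zFun, RFun, pushFun, fac, st, en, C, X, Y, cmt, hkr, hkr.ne, hkr.ne', hkr.not_gt, hp, hp', Ru_of _ _ _ hkr]; done)
            | (simp [twFun, hFun, zFun, RFun, pushFun, fac, st, en, C, X, Y, cmt, hkr, hkr.ne, hkr.ne', hkr.not_gt, hp, hp', Ru_of _ _ _ hkr]; group; done)
            | (simp [twFun, hFun, zFun, RFun, pushFun, fac, st, en, C, X, Y, cmt, hkr, hkr.ne, hkr.ne', hkr.not_gt, hp, hp', Ru_of _ _ _ hkr] <;> group)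
        · first
            | (simp [twFun, hFun, zFun, RFun, pushFun, fac, st, en, C, X, Y, cmt, hkr, hkr.ne, hkr.ne', hkr.not_gt, hm, hm.ne, hm.ne', hm.not_gt, hr, hr.ne, hr.ne', hr.not_gt, hp, hp', Ru_of _ _ _ hkr]; done)
            | (simp [twFun, hFun, zFun, RFun, pushFun, fac, st, en, C, X, Y, cmt, hkr, hkr.ne, hkr.ne', hkr.not_gt, hm, hm.ne, hm.ne', hm.not_gt, hr, hr.ne, hr.ne', hr.not_gt, hp, hp', Ru_of _ _ _ hkr]; group; done)
            | (simp [twFun, hFun, zFun, RFun, pushFun, fac, st, en, C, X, Y, cmt, hkr, hkr.ne, hkr.ne', hkr.not_gt, hm, hm.ne, hm.ne', hm.not_gt, hr, hr.ne, hr.ne', hr.not_gt, hp, hp', Ru_of _ _ _ hkr] <;> group)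

theorem h_Pu3 (p r k : ℕ) (hk : k < r) :
    h p k * pu3 p r = pu3 p r * h p k := by
  have hkr := hk
  refine aut_ext2 ?_
  intro l
  clear hk
  simp only [MulAut.mul_apply]
  rcases l with m | m | m
  · fin_cases m <;>
      first
        | (simp [twFun, hFun, zFun, RFun, pushFun, fac, st, en, C, X, Y, cmt, hkr, hkr.ne, hkr.ne', hkr.not_gt, Ru_of _ _ _ hkr]; done)
        | (simp [twFun, hFun, zFun, RFun, pushFun, fac, st, en, C, X, Y, cmt, hkr, hkr.ne, hkr.ne', hkr.not_gt, Ru_of _ _ _ hkr]; group; done)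
        | (simp [twFun, hFun, zFun, RFun, pushFun, fac, st, en, C, X, Y, cmt, hkr, hkr.ne, hkr.ne', hkr.not_gt, Ru_of _ _ _ hkr] <;> group)
  · skip
    rcases lt_trichotomy m k with hm | hm | hm
    · have hr := hm.trans hkr
      first
        | (simp [twFun, hFun, zFun, RFun, pushFun, fac, st, en, C, X, Y, cmt, hkr, hkr.ne, hkr.ne', hkr.not_gt, hm, hm.ne, hm.ne', hm.not_gt, hr, hr.ne, hr.ne', hr.not_gt, Ru_of _ _ _ hkr]; done)
        | (simp [twFun, hFun, zFun, RFun, pushFun, fac, st, en, C, X, Y, cmt, hkr, hkr.ne, hkr.ne', hkr.not_gt, hm, hm.ne, hm.ne', hm.not_gt, hr, hr.ne, hr.ne', hr.not_gt, Ru_of _ _ _ hkr]; group; done)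
        | (simp [twFun, hFun, zFun, RFun, pushFun, fac, st, en, C, X, Y, cmt, hkr, hkr.ne, hkr.ne', hkr.not_gt, hm, hm.ne, hm.ne', hm.not_gt, hr, hr.ne, hr.ne', hr.not_gt, Ru_of _ _ _ hkr] <;> group)
    · subst hm
      first
        | (simp [twFun, hFun, zFun, RFun, pushFun, fac, st, en, C, X, Y, cmt, hkr, hkr.ne, hkr.ne', hkr.not_gt, Ru_of _ _ _ hkr]; done)
        | (simp [twFun, hFun, zFun, RFun, pushFun, fac, st, en, C, X, Y, cmt, hkr, hkr.ne, hkr.ne', hkr.not_gt, Ru_of _ _ _ hkr]; group; done)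
        | (simp [twFun, hFun, zFun, RFun, pushFun, fac, st, en, C, X, Y, cmt, hkr, hkr.ne, hkr.ne', hkr.not_gt, Ru_of _ _ _ hkr] <;> group)
    · rcases lt_trichotomy m r with hr | hr | hr
      · first
          | (simp [twFun, hFun, zFun, RFun, pushFun, fac, st, en, C, X, Y, cmt, hkr, hkr.ne, hkr.ne', hkr.not_gt, hm, hm.ne, hm.ne', hm.not_gt, hr, hr.ne, hr.ne', hr.not_gt, Ru_of _ _ _ hkr]; done)
          | (simp [twFun, hFun, zFun, RFun, pushFun, fac, st, en, C, X, Y, cmt, hkr, hkr.ne, hkr.ne', hkr.not_gt, hm, hm.ne, hm.ne', hm.not_gt, hr, hr.ne, hr.ne', hr.not_gt, Ru_of _ _ _ hkr]; group; done)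
          | (simp [twFun, hFun, zFun, RFun, pushFun, fac, st, en, C, X, Y, cmt, hkr, hkr.ne, hkr.ne', hkr.not_gt, hm, hm.ne, hm.ne', hm.not_gt, hr, hr.ne, hr.ne', hr.not_gt, Ru_of _ _ _ hkr] <;> group)
      · subst hr
        first
          | (simp [twFun, hFun, zFun, RFun, pushFun, fac, st, en, C, X, Y, cmt, hkr, hkr.ne, hkr.ne', hkr.not_gt, Ru_of _ _ _ hkr]; done)
          | (simp [twFun, hFun, zFun, RFun, pushFun, fac, st, en, C, X, Y, cmt, hkr, hkr.ne, hkr.ne', hkr.not_gt, Ru_of _ _ _ hkr]; group; done)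
          | (simp [twFun, hFun, zFun, RFun, pushFun, fac, st, en, C, X, Y, cmt, hkr, hkr.ne, hkr.ne', hkr.not_gt, Ru_of _ _ _ hkr] <;> group)
      · first
          | (simp [twFun, hFun, zFun, RFun, pushFun, fac, st, en, C, X, Y, cmt, hkr, hkr.ne, hkr.ne', hkr.not_gt, hm, hm.ne, hm.ne', hm.not_gt, hr, hr.ne, hr.ne', hr.not_gt, Ru_of _ _ _ hkr]; done)
          | (simp [twFun, hFun, zFun, RFun, pushFun, fac, st, en, C, X, Y, cmt, hkr, hkr.ne, hkr.ne', hkr.not_gt, hm, hm.ne, hm.ne', hm.not_gt, hr, hr.ne, hr.ne', hr.not_gt, Ru_of _ _ _ hkr]; group; done)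
          | (simp [twFun, hFun, zFun, RFun, pushFun, fac, st, en, C, X, Y, cmt, hkr, hkr.ne, hkr.ne', hkr.not_gt, hm, hm.ne, hm.ne', hm.not_gt, hr, hr.ne, hr.ne', hr.not_gt, Ru_of _ _ _ hkr] <;> group)
  · by_cases hp : m < p
    · skip
      rcases lt_trichotomy m k with hm | hm | hm
      · have hr := hm.trans hkr
        first
          | (simp [twFun, hFun, zFun, RFun, pushFun, fac, st, en, C, X, Y, cmt, hkr, hkr.ne, hkr.ne', hkr.not_gt, hm, hm.ne, hm.ne', hm.not_gt, hr, hr.ne, hr.ne', hr.not_gt, hp, hp.not_ge, Ru_of _ _ _ hkr]; done)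
          | (simp [twFun, hFun, zFun, RFun, pushFun, fac, st, en, C, X, Y, cmt, hkr, hkr.ne, hkr.ne', hkr.not_gt, hm, hm.ne, hm.ne', hm.not_gt, hr, hr.ne, hr.ne', hr.not_gt, hp, hp.not_ge, Ru_of _ _ _ hkr]; group; done)
          | (simp [twFun, hFun, zFun, RFun, pushFun, fac, st, en, C, X, Y, cmt, hkr, hkr.ne, hkr.ne', hkr.not_gt, hm, hm.ne, hm.ne', hm.not_gt, hr, hr.ne, hr.ne', hr.not_gt, hp, hp.not_ge, Ru_of _ _ _ hkr] <;> group)
      · subst hm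
        first
          | (simp [twFun, hFun, zFun, RFun, pushFun, fac, st, en, C, X, Y, cmt, hkr, hkr.ne, hkr.ne', hkr.not_gt, hp, hp.not_ge, Ru_of _ _ _ hkr]; done)
          | (simp [twFun, hFun, zFun, RFun, pushFun, fac, st, en, C, X, Y, cmt, hkr, hkr.ne, hkr.ne', hkr.not_gt, hp, hp.not_ge, Ru_of _ _ _ hkr]; group; done)
          | (simp [twFun, hFun, zFun, RFun, pushFun, fac, st, en, C, X, Y, cmt, hkr, hkr.ne, hkr.ne', hkr.not_gt, hp, hp.not_ge, Ru_of _ _ _ hkr] <;> group)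
      · rcases lt_trichotomy m r with hr | hr | hr
        · first
            | (simp [twFun, hFun, zFun, RFun, pushFun, fac, st, en, C, X, Y, cmt, hkr, hkr.ne, hkr.ne', hkr.not_gt, hm, hm.ne, hm.ne', hm.not_gt, hr, hr.ne, hr.ne', hr.not_gt, hp, hp.not_ge, Ru_of _ _ _ hkr]; done)
            | (simp [twFun, hFun, zFun, RFun, pushFun, fac, st, en, C, X, Y, cmt, hkr, hkr.ne, hkr.ne', hkr.not_gt, hm, hm.ne, hm.ne', hm.not_gt, hr, hr.ne, hr.ne', hr.not_gt, hp, hp.not_ge, Ru_of _ _ _ hkr]; group; done)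
            | (simp [twFun, hFun, zFun, RFun, pushFun, fac, st, en, C, X, Y, cmt, hkr, hkr.ne, hkr.ne', hkr.not_gt, hm, hm.ne, hm.ne', hm.not_gt, hr, hr.ne, hr.ne', hr.not_gt, hp, hp.not_ge, Ru_of _ _ _ hkr] <;> group)
        · subst hr
          first
            | (simp [twFun, hFun, zFun, RFun, pushFun, fac, st, en, C, X, Y, cmt, hkr, hkr.ne, hkr.ne', hkr.not_gt, hp, hp.not_ge, Ru_of _ _ _ hkr]; done)
            | (simp [twFun, hFun, zFun, RFun, pushFun, fac, st, en, C, X, Y, cmt, hkr, hkr.ne, hkr.ne', hkr.not_gt, hp, hp.not_ge, Ru_of _ _ _ hkr]; group; done)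
            | (simp [twFun, hFun, zFun, RFun, pushFun, fac, st, en, C, X, Y, cmt, hkr, hkr.ne, hkr.ne', hkr.not_gt, hp, hp.not_ge, Ru_of _ _ _ hkr] <;> group)
        · first
            | (simp [twFun, hFun, zFun, RFun, pushFun, fac, st, en, C, X, Y, cmt, hkr, hkr.ne, hkr.ne', hkr.not_gt, hm, hm.ne, hm.ne', hm.not_gt, hr, hr.ne, hr.ne', hr.not_gt, hp, hp.not_ge, Ru_of _ _ _ hkr]; done)
            | (simp [twFun, hFun, zFun, RFun, pushFun, fac, st, en, C, X, Y, cmt, hkr, hkr.ne, hkr.ne', hkr.not_gt, hm, hm.ne, hm.ne', hm.not_gt, hr, hr.ne, hr.ne', hr.not_gt, hp, hp.not_ge, Ru_of _ _ _ hkr]; group; done)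
            | (simp [twFun, hFun, zFun, RFun, pushFun, fac, st, en, C, X, Y, cmt, hkr, hkr.ne, hkr.ne', hkr.not_gt, hm, hm.ne, hm.ne', hm.not_gt, hr, hr.ne, hr.ne', hr.not_gt, hp, hp.not_ge, Ru_of _ _ _ hkr] <;> group)
    · have hp' : p ≤ m := not_lt.1 hp
      rcases lt_trichotomy m k with hm | hm | hm
      · have hr := hm.trans hkr
        first
          | (simp [twFun, hFun, zFun, RFun, pushFun, fac, st, en, C, X, Y, cmt, hkr, hkr.ne, hkr.ne', hkr.not_gt, hm, hm.ne, hm.ne', hm.not_gt, hr, hr.ne, hr.ne', hr.not_gt, hp, hp', Ru_of _ _ _ hkr]; done)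
          | (simp [twFun, hFun, zFun, RFun, pushFun, fac, st, en, C, X, Y, cmt, hkr, hkr.ne, hkr.ne', hkr.not_gt, hm, hm.ne, hm.ne', hm.not_gt, hr, hr.ne, hr.ne', hr.not_gt, hp, hp', Ru_of _ _ _ hkr]; group; done)
          | (simp [twFun, hFun, zFun, RFun, pushFun, fac, st, en, C, X, Y, cmt, hkr, hkr.ne, hkr.ne', hkr.not_gt, hm, hm.ne, hm.ne', hm.not_gt, hr, hr.ne, hr.ne', hr.not_gt, hp, hp', Ru_of _ _ _ hkr] <;> group)
      · subst hm
        first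
          | (simp [twFun, hFun, zFun, RFun, pushFun, fac, st, en, C, X, Y, cmt, hkr, hkr.ne, hkr.ne', hkr.not_gt, hp, hp', Ru_of _ _ _ hkr]; done)
          | (simp [twFun, hFun, zFun, RFun, pushFun, fac, st, en, C, X, Y, cmt, hkr, hkr.ne, hkr.ne', hkr.not_gt, hp, hp', Ru_of _ _ _ hkr]; group; done)
          | (simp [twFun, hFun, zFun, RFun, pushFun, fac, st, en, C, X, Y, cmt, hkr, hkr.ne, hkr.ne', hkr.not_gt, hp, hp', Ru_of _ _ _ hkr] <;> group)
      · rcases lt_trichotomy m r with hr | hr | hr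
        · first
            | (simp [twFun, hFun, zFun, RFun, pushFun, fac, st, en, C, X, Y, cmt, hkr, hkr.ne, hkr.ne', hkr.not_gt, hm, hm.ne, hm.ne', hm.not_gt, hr, hr.ne, hr.ne', hr.not_gt, hp, hp', Ru_of _ _ _ hkr]; done)
            | (simp [twFun, hFun, zFun, RFun, pushFun, fac, st, en, C, X, Y, cmt, hkr, hkr.ne, hkr.ne', hkr.not_gt, hm, hm.ne, hm.ne', hm.not_gt, hr, hr.ne, hr.ne', hr.not_gt, hp, hp', Ru_of _ _ _ hkr]; group; done)
            | (simp [twFun, hFun, zFun, RFun, pushFun, fac, st, en, C, X, Y, cmt, hkr, hkr.ne, hkr.ne', hkr.not_gt, hm, hm.ne, hm.ne', hm.not_gt, hr, hr.ne, hr.ne', hr.not_gt, hp, hp', Ru_of _ _ _ hkr] <;> group)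
        · subst hr
          first
            | (simp [twFun, hFun, zFun, RFun, pushFun, fac, st, en, C, X, Y, cmt, hkr, hkr.ne, hkr.ne', hkr.not_gt, hp, hp', Ru_of _ _ _ hkr]; done)
            | (simp [twFun, hFun, zFun, RFun, pushFun, fac, st, en, C, X, Y, cmt, hkr, hkr.ne, hkr.ne', hkr.not_gt, hp, hp', Ru_of _ _ _ hkr]; group; done)
            | (simp [twFun, hFun, zFun, RFun, pushFun, fac, st, en, C, X, Y, cmt, hkr, hkr.ne, hkr.ne', hkr.not_gt, hp, hp', Ru_of _ _ _ hkr] <;> group)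
        · first
            | (simp [twFun, hFun, zFun, RFun, pushFun, fac, st, en, C, X, Y, cmt, hkr, hkr.ne, hkr.ne', hkr.not_gt, hm, hm.ne, hm.ne', hm.not_gt, hr, hr.ne, hr.ne', hr.not_gt, hp, hp', Ru_of _ _ _ hkr]; done)
            | (simp [twFun, hFun, zFun, RFun, pushFun, fac, st, en, C, X, Y, cmt, hkr, hkr.ne, hkr.ne', hkr.not_gt, hm, hm.ne, hm.ne', hm.not_gt, hr, hr.ne, hr.ne', hr.not_gt, hp, hp', Ru_of _ _ _ hkr]; group; done)
            | (simp [twFun, hFun, zFun, RFun, pushFun, fac, st, en, C, X, Y, cmt, hkr, hkr.ne, hkr.ne', hkr.not_gt, hm, hm.ne, hm.ne', hm.not_gt, hr, hr.ne, hr.ne', hr.not_gt, hp, hp', Ru_of _ _ _ hkr] <;> group)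

theorem h_Zt (p r k : ℕ) (hk : k < r) :
    h p k * Zt p r = Zt p r * h p k := by
  have hkr := hk
  refine aut_ext2 ?_
  intro l
  clear hk
  simp only [MulAut.mul_apply]
  rcases l with m | m | m
  · fin_cases m <;>
      first
        | (simp [twFun, hFun, zFun, RFun, pushFun, fac, st, en, C, X, Y, cmt, hkr, hkr.ne, hkr.ne', hkr.not_gt, Ru_of _ _ _ hkr]; done)
        | (simp [twFun, hFun, zFun, RFun, pushFun, fac, st, en, C, X, Y, cmt, hkr, hkr.ne, hkr.ne', hkr.not_gt, Ru_of _ _ _ hkr]; group; done)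
        | (simp [twFun, hFun, zFun, RFun, pushFun, fac, st, en, C, X, Y, cmt, hkr, hkr.ne, hkr.ne', hkr.not_gt, Ru_of _ _ _ hkr] <;> group)
  · skip
    rcases lt_trichotomy m k with hm | hm | hm
    · have hr := hm.trans hkr
      first
        | (simp [twFun, hFun, zFun, RFun, pushFun, fac, st, en, C, X, Y, cmt, hkr, hkr.ne, hkr.ne', hkr.not_gt, hm, hm.ne, hm.ne', hm.not_gt, hr, hr.ne, hr.ne', hr.not_gt, Ru_of _ _ _ hkr]; done)
        | (simp [twFun, hFun, zFun, RFun, pushFun, fac, st, en, C, X, Y, cmt, hkr, hkr.ne, hkr.ne', hkr.not_gt, hm, hm.ne, hm.ne', hm.not_gt, hr, hr.ne, hr.ne', hr.not_gt, Ru_of _ _ _ hkr]; group; done)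
        | (simp [twFun, hFun, zFun, RFun, pushFun, fac, st, en, C, X, Y, cmt, hkr, hkr.ne, hkr.ne', hkr.not_gt, hm, hm.ne, hm.ne', hm.not_gt, hr, hr.ne, hr.ne', hr.not_gt, Ru_of _ _ _ hkr] <;> group)
    · subst hm
      first
        | (simp [twFun, hFun, zFun, RFun, pushFun, fac, st, en, C, X, Y, cmt, hkr, hkr.ne, hkr.ne', hkr.not_gt, Ru_of _ _ _ hkr]; done)
        | (simp [twFun, hFun, zFun, RFun, pushFun, fac, st, en, C, X, Y, cmt, hkr, hkr.ne, hkr.ne', hkr.not_gt, Ru_of _ _ _ hkr]; group; done)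
        | (simp [twFun, hFun, zFun, RFun, pushFun, fac, st, en, C, X, Y, cmt, hkr, hkr.ne, hkr.ne', hkr.not_gt, Ru_of _ _ _ hkr] <;> group)
    · rcases lt_trichotomy m r with hr | hr | hr
      · first
          | (simp [twFun, hFun, zFun, RFun, pushFun, fac, st, en, C, X, Y, cmt, hkr, hkr.ne, hkr.ne', hkr.not_gt, hm, hm.ne, hm.ne', hm.not_gt, hr, hr.ne, hr.ne', hr.not_gt, Ru_of _ _ _ hkr]; done)
          | (simp [twFun, hFun, zFun, RFun, pushFun, fac, st, en, C, X, Y, cmt, hkr, hkr.ne, hkr.ne', hkr.not_gt, hm, hm.ne, hm.ne', hm.not_gt, hr, hr.ne, hr.ne', hr.not_gt, Ru_of _ _ _ hkr]; group; done)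
          | (simp [twFun, hFun, zFun, RFun, pushFun, fac, st, en, C, X, Y, cmt, hkr, hkr.ne, hkr.ne', hkr.not_gt, hm, hm.ne, hm.ne', hm.not_gt, hr, hr.ne, hr.ne', hr.not_gt, Ru_of _ _ _ hkr] <;> group)
      · subst hr
        first
          | (simp [twFun, hFun, zFun, RFun, pushFun, fac, st, en, C, X, Y, cmt, hkr, hkr.ne, hkr.ne', hkr.not_gt, Ru_of _ _ _ hkr]; done)
          | (simp [twFun, hFun, zFun, RFun, pushFun, fac, st, en, C, X, Y, cmt, hkr, hkr.ne, hkr.ne', hkr.not_gt, Ru_of _ _ _ hkr]; group; done)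
          | (simp [twFun, hFun, zFun, RFun, pushFun, fac, st, en, C, X, Y, cmt, hkr, hkr.ne, hkr.ne', hkr.not_gt, Ru_of _ _ _ hkr] <;> group)
      · first
          | (simp [twFun, hFun, zFun, RFun, pushFun, fac, st, en, C, X, Y, cmt, hkr, hkr.ne, hkr.ne', hkr.not_gt, hm, hm.ne, hm.ne', hm.not_gt, hr, hr.ne, hr.ne', hr.not_gt, Ru_of _ _ _ hkr]; done)
          | (simp [twFun, hFun, zFun, RFun, pushFun, fac, st, en, C, X, Y, cmt, hkr, hkr.ne, hkr.ne', hkr.not_gt, hm, hm.ne, hm.ne', hm.not_gt, hr, hr.ne, hr.ne', hr.not_gt, Ru_of _ _ _ hkr]; group; done)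
          | (simp [twFun, hFun, zFun, RFun, pushFun, fac, st, en, C, X, Y, cmt, hkr, hkr.ne, hkr.ne', hkr.not_gt, hm, hm.ne, hm.ne', hm.not_gt, hr, hr.ne, hr.ne', hr.not_gt, Ru_of _ _ _ hkr] <;> group)
  · by_cases hp : m < p
    · skip
      rcases lt_trichotomy m k with hm | hm | hm
      · have hr := hm.trans hkr
        first
          | (simp [twFun, hFun, zFun, RFun, pushFun, fac, st, en, C, X, Y, cmt, hkr, hkr.ne, hkr.ne', hkr.not_gt, hm, hm.ne, hm.ne', hm.not_gt, hr, hr.ne, hr.ne', hr.not_gt, hp, hp.not_ge, Ru_of _ _ _ hkr]; done)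
          | (simp [twFun, hFun, zFun, RFun, pushFun, fac, st, en, C, X, Y, cmt, hkr, hkr.ne, hkr.ne', hkr.not_gt, hm, hm.ne, hm.ne', hm.not_gt, hr, hr.ne, hr.ne', hr.not_gt, hp, hp.not_ge, Ru_of _ _ _ hkr]; group; done)
          | (simp [twFun, hFun, zFun, RFun, pushFun, fac, st, en, C, X, Y, cmt, hkr, hkr.ne, hkr.ne', hkr.not_gt, hm, hm.ne, hm.ne', hm.not_gt, hr, hr.ne, hr.ne', hr.not_gt, hp, hp.not_ge, Ru_of _ _ _ hkr] <;> group)
      · subst hm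
        first
          | (simp [twFun, hFun, zFun, RFun, pushFun, fac, st, en, C, X, Y, cmt, hkr, hkr.ne, hkr.ne', hkr.not_gt, hp, hp.not_ge, Ru_of _ _ _ hkr]; done)
          | (simp [twFun, hFun, zFun, RFun, pushFun, fac, st, en, C, X, Y, cmt, hkr, hkr.ne, hkr.ne', hkr.not_gt, hp, hp.not_ge, Ru_of _ _ _ hkr]; group; done)
          | (simp [twFun, hFun, zFun, RFun, pushFun, fac, st, en, C, X, Y, cmt, hkr, hkr.ne, hkr.ne', hkr.not_gt, hp, hp.not_ge, Ru_of _ _ _ hkr] <;> group)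
      · rcases lt_trichotomy m r with hr | hr | hr
        · first
            | (simp [twFun, hFun, zFun, RFun, pushFun, fac, st, en, C, X, Y, cmt, hkr, hkr.ne, hkr.ne', hkr.not_gt, hm, hm.ne, hm.ne', hm.not_gt, hr, hr.ne, hr.ne', hr.not_gt, hp, hp.not_ge, Ru_of _ _ _ hkr]; done)
            | (simp [twFun, hFun, zFun, RFun, pushFun, fac, st, en, C, X, Y, cmt, hkr, hkr.ne, hkr.ne', hkr.not_gt, hm, hm.ne, hm.ne', hm.not_gt, hr, hr.ne, hr.ne', hr.not_gt, hp, hp.not_ge, Ru_of _ _ _ hkr]; group; done)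
            | (simp [twFun, hFun, zFun, RFun, pushFun, fac, st, en, C, X, Y, cmt, hkr, hkr.ne, hkr.ne', hkr.not_gt, hm, hm.ne, hm.ne', hm.not_gt, hr, hr.ne, hr.ne', hr.not_gt, hp, hp.not_ge, Ru_of _ _ _ hkr] <;> group)
        · subst hr
          first
            | (simp [twFun, hFun, zFun, RFun, pushFun, fac, st, en, C, X, Y, cmt, hkr, hkr.ne, hkr.ne', hkr.not_gt, hp, hp.not_ge, Ru_of _ _ _ hkr]; done)
            | (simp [twFun, hFun, zFun, RFun, pushFun, fac, st, en, C, X, Y, cmt, hkr, hkr.ne, hkr.ne', hkr.not_gt, hp, hp.not_ge, Ru_of _ _ _ hkr]; group; done)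
            | (simp [twFun, hFun, zFun, RFun, pushFun, fac, st, en, C, X, Y, cmt, hkr, hkr.ne, hkr.ne', hkr.not_gt, hp, hp.not_ge, Ru_of _ _ _ hkr] <;> group)
        · first
            | (simp [twFun, hFun, zFun, RFun, pushFun, fac, st, en, C, X, Y, cmt, hkr, hkr.ne, hkr.ne', hkr.not_gt, hm, hm.ne, hm.ne', hm.not_gt, hr, hr.ne, hr.ne', hr.not_gt, hp, hp.not_ge, Ru_of _ _ _ hkr]; done)
            | (simp [twFun, hFun, zFun, RFun, pushFun, fac, st, en, C, X, Y, cmt, hkr, hkr.ne, hkr.ne', hkr.not_gt, hm, hm.ne, hm.ne', hm.not_gt, hr, hr.ne, hr.ne', hr.not_gt, hp, hp.not_ge, Ru_of _ _ _ hkr]; group; done)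
            | (simp [twFun, hFun, zFun, RFun, pushFun, fac, st, en, C, X, Y, cmt, hkr, hkr.ne, hkr.ne', hkr.not_gt, hm, hm.ne, hm.ne', hm.not_gt, hr, hr.ne, hr.ne', hr.not_gt, hp, hp.not_ge, Ru_of _ _ _ hkr] <;> group)
    · have hp' : p ≤ m := not_lt.1 hp
      rcases lt_trichotomy m k with hm | hm | hm
      · have hr := hm.trans hkr
        first
          | (simp [twFun, hFun, zFun, RFun, pushFun, fac, st, en, C, X, Y, cmt, hkr, hkr.ne, hkr.ne', hkr.not_gt, hm, hm.ne, hm.ne', hm.not_gt, hr, hr.ne, hr.ne', hr.not_gt, hp, hp', Ru_of _ _ _ hkr]; done)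
          | (simp [twFun, hFun, zFun, RFun, pushFun, fac, st, en, C, X, Y, cmt, hkr, hkr.ne, hkr.ne', hkr.not_gt, hm, hm.ne, hm.ne', hm.not_gt, hr, hr.ne, hr.ne', hr.not_gt, hp, hp', Ru_of _ _ _ hkr]; group; done)
          | (simp [twFun, hFun, zFun, RFun, pushFun, fac, st, en, C, X, Y, cmt, hkr, hkr.ne, hkr.ne', hkr.not_gt, hm, hm.ne, hm.ne', hm.not_gt, hr, hr.ne, hr.ne', hr.not_gt, hp, hp', Ru_of _ _ _ hkr] <;> group)
      · subst hm
        first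
          | (simp [twFun, hFun, zFun, RFun, pushFun, fac, st, en, C, X, Y, cmt, hkr, hkr.ne, hkr.ne', hkr.not_gt, hp, hp', Ru_of _ _ _ hkr]; done)
          | (simp [twFun, hFun, zFun, RFun, pushFun, fac, st, en, C, X, Y, cmt, hkr, hkr.ne, hkr.ne', hkr.not_gt, hp, hp', Ru_of _ _ _ hkr]; group; done)
          | (simp [twFun, hFun, zFun, RFun, pushFun, fac, st, en, C, X, Y, cmt, hkr, hkr.ne, hkr.ne', hkr.not_gt, hp, hp', Ru_of _ _ _ hkr] <;> group)
      · rcases lt_trichotomy m r with hr | hr | hr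
        · first
            | (simp [twFun, hFun, zFun, RFun, pushFun, fac, st, en, C, X, Y, cmt, hkr, hkr.ne, hkr.ne', hkr.not_gt, hm, hm.ne, hm.ne', hm.not_gt, hr, hr.ne, hr.ne', hr.not_gt, hp, hp', Ru_of _ _ _ hkr]; done)
            | (simp [twFun, hFun, zFun, RFun, pushFun, fac, st, en, C, X, Y, cmt, hkr, hkr.ne, hkr.ne', hkr.not_gt, hm, hm.ne, hm.ne', hm.not_gt, hr, hr.ne, hr.ne', hr.not_gt, hp, hp', Ru_of _ _ _ hkr]; group; done)
            | (simp [twFun, hFun, zFun, RFun, pushFun, fac, st, en, C, X, Y, cmt, hkr, hkr.ne, hkr.ne', hkr.not_gt, hm, hm.ne, hm.ne', hm.not_gt, hr, hr.ne, hr.ne', hr.not_gt, hp, hp', Ru_of _ _ _ hkr] <;> group)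
        · subst hr
          first
            | (simp [twFun, hFun, zFun, RFun, pushFun, fac, st, en, C, X, Y, cmt, hkr, hkr.ne, hkr.ne', hkr.not_gt, hp, hp', Ru_of _ _ _ hkr]; done)
            | (simp [twFun, hFun, zFun, RFun, pushFun, fac, st, en, C, X, Y, cmt, hkr, hkr.ne, hkr.ne', hkr.not_gt, hp, hp', Ru_of _ _ _ hkr]; group; done)
            | (simp [twFun, hFun, zFun, RFun, pushFun, fac, st, en, C, X, Y, cmt, hkr, hkr.ne, hkr.ne', hkr.not_gt, hp, hp', Ru_of _ _ _ hkr] <;> group)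
        · first
            | (simp [twFun, hFun, zFun, RFun, pushFun, fac, st, en, C, X, Y, cmt, hkr, hkr.ne, hkr.ne', hkr.not_gt, hm, hm.ne, hm.ne', hm.not_gt, hr, hr.ne, hr.ne', hr.not_gt, hp, hp', Ru_of _ _ _ hkr]; done)
            | (simp [twFun, hFun, zFun, RFun, pushFun, fac, st, en, C, X, Y, cmt, hkr, hkr.ne, hkr.ne', hkr.not_gt, hm, hm.ne, hm.ne', hm.not_gt, hr, hr.ne, hr.ne', hr.not_gt, hp, hp', Ru_of _ _ _ hkr]; group; done)
            | (simp [twFun, hFun, zFun, RFun, pushFun, fac, st, en, C, X, Y, cmt, hkr, hkr.ne, hkr.ne', hkr.not_gt, hm, hm.ne, hm.ne', hm.not_gt, hr, hr.ne, hr.ne', hr.not_gt, hp, hp', Ru_of _ _ _ hkr] <;> group)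

theorem h_Ru_self (p r k : ℕ) (hk : k < r) :
    pu0 p r * Ru p r k * h p k * Ru p r k = Ru p r k * pu0 p r * Ru p r k * h p k := by
  have hkr := hk
  refine aut_ext2 ?_
  intro l
  clear hk
  simp only [MulAut.mul_apply]
  rcases l with m | m | m
  · fin_cases m <;>
      first
        | (simp [twFun, hFun, zFun, RFun, pushFun, fac, st, en, C, X, Y, cmt, hkr, hkr.ne, hkr.ne', hkr.not_gt, Ru_of _ _ _ hkr]; done)
        | (simp [twFun, hFun, zFun, RFun, pushFun, fac, st, en, C, X, Y, cmt, hkr, hkr.ne, hkr.ne', hkr.not_gt, Ru_of _ _ _ hkr]; group; done)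
        | (simp [twFun, hFun, zFun, RFun, pushFun, fac, st, en, C, X, Y, cmt, hkr, hkr.ne, hkr.ne', hkr.not_gt, Ru_of _ _ _ hkr] <;> group)
  · skip
    rcases lt_trichotomy m k with hm | hm | hm
    · have hr := hm.trans hkr
      first
        | (simp [twFun, hFun, zFun, RFun, pushFun, fac, st, en, C, X, Y, cmt, hkr, hkr.ne, hkr.ne', hkr.not_gt, hm, hm.ne, hm.ne', hm.not_gt, hr, hr.ne, hr.ne', hr.not_gt, Ru_of _ _ _ hkr]; done)
        | (simp [twFun, hFun, zFun, RFun, pushFun, fac, st, en, C, X, Y, cmt, hkr, hkr.ne, hkr.ne', hkr.not_gt, hm, hm.ne, hm.ne', hm.not_gt, hr, hr.ne, hr.ne', hr.not_gt, Ru_of _ _ _ hkr]; group; done)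
        | (simp [twFun, hFun, zFun, RFun, pushFun, fac, st, en, C, X, Y, cmt, hkr, hkr.ne, hkr.ne', hkr.not_gt, hm, hm.ne, hm.ne', hm.not_gt, hr, hr.ne, hr.ne', hr.not_gt, Ru_of _ _ _ hkr] <;> group)
    · subst hm
      first
        | (simp [twFun, hFun, zFun, RFun, pushFun, fac, st, en, C, X, Y, cmt, hkr, hkr.ne, hkr.ne', hkr.not_gt, Ru_of _ _ _ hkr]; done)
        | (simp [twFun, hFun, zFun, RFun, pushFun, fac, st, en, C, X, Y, cmt, hkr, hkr.ne, hkr.ne', hkr.not_gt, Ru_of _ _ _ hkr]; group; done)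
        | (simp [twFun, hFun, zFun, RFun, pushFun, fac, st, en, C, X, Y, cmt, hkr, hkr.ne, hkr.ne', hkr.not_gt, Ru_of _ _ _ hkr] <;> group)
    · rcases lt_trichotomy m r with hr | hr | hr
      · first
          | (simp [twFun, hFun, zFun, RFun, pushFun, fac, st, en, C, X, Y, cmt, hkr, hkr.ne, hkr.ne', hkr.not_gt, hm, hm.ne, hm.ne', hm.not_gt, hr, hr.ne, hr.ne', hr.not_gt, Ru_of _ _ _ hkr]; done)
          | (simp [twFun, hFun, zFun, RFun, pushFun, fac, st, en, C, X, Y, cmt, hkr, hkr.ne, hkr.ne', hkr.not_gt, hm, hm.ne, hm.ne', hm.not_gt, hr, hr.ne, hr.ne', hr.not_gt, Ru_of _ _ _ hkr]; group; done)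
          | (simp [twFun, hFun, zFun, RFun, pushFun, fac, st, en, C, X, Y, cmt, hkr, hkr.ne, hkr.ne', hkr.not_gt, hm, hm.ne, hm.ne', hm.not_gt, hr, hr.ne, hr.ne', hr.not_gt, Ru_of _ _ _ hkr] <;> group)
      · subst hr
        first
          | (simp [twFun, hFun, zFun, RFun, pushFun, fac, st, en, C, X, Y, cmt, hkr, hkr.ne, hkr.ne', hkr.not_gt, Ru_of _ _ _ hkr]; done)
          | (simp [twFun, hFun, zFun, RFun, pushFun, fac, st, en, C, X, Y, cmt, hkr, hkr.ne, hkr.ne', hkr.not_gt, Ru_of _ _ _ hkr]; group; done)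
          | (simp [twFun, hFun, zFun, RFun, pushFun, fac, st, en, C, X, Y, cmt, hkr, hkr.ne, hkr.ne', hkr.not_gt, Ru_of _ _ _ hkr] <;> group)
      · first
          | (simp [twFun, hFun, zFun, RFun, pushFun, fac, st, en, C, X, Y, cmt, hkr, hkr.ne, hkr.ne', hkr.not_gt, hm, hm.ne, hm.ne', hm.not_gt, hr, hr.ne, hr.ne', hr.not_gt, Ru_of _ _ _ hkr]; done)
          | (simp [twFun, hFun, zFun, RFun, pushFun, fac, st, en, C, X, Y, cmt, hkr, hkr.ne, hkr.ne', hkr.not_gt, hm, hm.ne, hm.ne', hm.not_gt, hr, hr.ne, hr.ne', hr.not_gt, Ru_of _ _ _ hkr]; group; done)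
          | (simp [twFun, hFun, zFun, RFun, pushFun, fac, st, en, C, X, Y, cmt, hkr, hkr.ne, hkr.ne', hkr.not_gt, hm, hm.ne, hm.ne', hm.not_gt, hr, hr.ne, hr.ne', hr.not_gt, Ru_of _ _ _ hkr] <;> group)
  · by_cases hp : m < p
    · skip
      rcases lt_trichotomy m k with hm | hm | hm
      · have hr := hm.trans hkr
        first
          | (simp [twFun, hFun, zFun, RFun, pushFun, fac, st, en, C, X, Y, cmt, hkr, hkr.ne, hkr.ne', hkr.not_gt, hm, hm.ne, hm.ne', hm.not_gt, hr, hr.ne, hr.ne', hr.not_gt, hp, hp.not_ge, Ru_of _ _ _ hkr]; done)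
          | (simp [twFun, hFun, zFun, RFun, pushFun, fac, st, en, C, X, Y, cmt, hkr, hkr.ne, hkr.ne', hkr.not_gt, hm, hm.ne, hm.ne', hm.not_gt, hr, hr.ne, hr.ne', hr.not_gt, hp, hp.not_ge, Ru_of _ _ _ hkr]; group; done)
          | (simp [twFun, hFun, zFun, RFun, pushFun, fac, st, en, C, X, Y, cmt, hkr, hkr.ne, hkr.ne', hkr.not_gt, hm, hm.ne, hm.ne', hm.not_gt, hr, hr.ne, hr.ne', hr.not_gt, hp, hp.not_ge, Ru_of _ _ _ hkr] <;> group)
      · subst hm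
        first
          | (simp [twFun, hFun, zFun, RFun, pushFun, fac, st, en, C, X, Y, cmt, hkr, hkr.ne, hkr.ne', hkr.not_gt, hp, hp.not_ge, Ru_of _ _ _ hkr]; done)
          | (simp [twFun, hFun, zFun, RFun, pushFun, fac, st, en, C, X, Y, cmt, hkr, hkr.ne, hkr.ne', hkr.not_gt, hp, hp.not_ge, Ru_of _ _ _ hkr]; group; done)
          | (simp [twFun, hFun, zFun, RFun, pushFun, fac, st, en, C, X, Y, cmt, hkr, hkr.ne, hkr.ne', hkr.not_gt, hp, hp.not_ge, Ru_of _ _ _ hkr] <;> group)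
      · rcases lt_trichotomy m r with hr | hr | hr
        · first
            | (simp [twFun, hFun, zFun, RFun, pushFun, fac, st, en, C, X, Y, cmt, hkr, hkr.ne, hkr.ne', hkr.not_gt, hm, hm.ne, hm.ne', hm.not_gt, hr, hr.ne, hr.ne', hr.not_gt, hp, hp.not_ge, Ru_of _ _ _ hkr]; done)
            | (simp [twFun, hFun, zFun, RFun, pushFun, fac, st, en, C, X, Y, cmt, hkr, hkr.ne, hkr.ne', hkr.not_gt, hm, hm.ne, hm.ne', hm.not_gt, hr, hr.ne, hr.ne', hr.not_gt, hp, hp.not_ge, Ru_of _ _ _ hkr]; group; done)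
            | (simp [twFun, hFun, zFun, RFun, pushFun, fac, st, en, C, X, Y, cmt, hkr, hkr.ne, hkr.ne', hkr.not_gt, hm, hm.ne, hm.ne', hm.not_gt, hr, hr.ne, hr.ne', hr.not_gt, hp, hp.not_ge, Ru_of _ _ _ hkr] <;> group)
        · subst hr
          first
            | (simp [twFun, hFun, zFun, RFun, pushFun, fac, st, en, C, X, Y, cmt, hkr, hkr.ne, hkr.ne', hkr.not_gt, hp, hp.not_ge, Ru_of _ _ _ hkr]; done)
            | (simp [twFun, hFun, zFun, RFun, pushFun, fac, st, en, C, X, Y, cmt, hkr, hkr.ne, hkr.ne', hkr.not_gt, hp, hp.not_ge, Ru_of _ _ _ hkr]; group; done)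
            | (simp [twFun, hFun, zFun, RFun, pushFun, fac, st, en, C, X, Y, cmt, hkr, hkr.ne, hkr.ne', hkr.not_gt, hp, hp.not_ge, Ru_of _ _ _ hkr] <;> group)
        · first
            | (simp [twFun, hFun, zFun, RFun, pushFun, fac, st, en, C, X, Y, cmt, hkr, hkr.ne, hkr.ne', hkr.not_gt, hm, hm.ne, hm.ne', hm.not_gt, hr, hr.ne, hr.ne', hr.not_gt, hp, hp.not_ge, Ru_of _ _ _ hkr]; done)
            | (simp [twFun, hFun, zFun, RFun, pushFun, fac, st, en, C, X, Y, cmt, hkr, hkr.ne, hkr.ne', hkr.not_gt, hm, hm.ne, hm.ne', hm.not_gt, hr, hr.ne, hr.ne', hr.not_gt, hp, hp.not_ge, Ru_of _ _ _ hkr]; group; done)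
            | (simp [twFun, hFun, zFun, RFun, pushFun, fac, st, en, C, X, Y, cmt, hkr, hkr.ne, hkr.ne', hkr.not_gt, hm, hm.ne, hm.ne', hm.not_gt, hr, hr.ne, hr.ne', hr.not_gt, hp, hp.not_ge, Ru_of _ _ _ hkr] <;> group)
    · have hp' : p ≤ m := not_lt.1 hp
      rcases lt_trichotomy m k with hm | hm | hm
      · have hr := hm.trans hkr
        first
          | (simp [twFun, hFun, zFun, RFun, pushFun, fac, st, en, C, X, Y, cmt, hkr, hkr.ne, hkr.ne', hkr.not_gt, hm, hm.ne, hm.ne', hm.not_gt, hr, hr.ne, hr.ne', hr.not_gt, hp, hp', Ru_of _ _ _ hkr]; done)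
          | (simp [twFun, hFun, zFun, RFun, pushFun, fac, st, en, C, X, Y, cmt, hkr, hkr.ne, hkr.ne', hkr.not_gt, hm, hm.ne, hm.ne', hm.not_gt, hr, hr.ne, hr.ne', hr.not_gt, hp, hp', Ru_of _ _ _ hkr]; group; done)
          | (simp [twFun, hFun, zFun, RFun, pushFun, fac, st, en, C, X, Y, cmt, hkr, hkr.ne, hkr.ne', hkr.not_gt, hm, hm.ne, hm.ne', hm.not_gt, hr, hr.ne, hr.ne', hr.not_gt, hp, hp', Ru_of _ _ _ hkr] <;> group)
      · subst hm
        first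
          | (simp [twFun, hFun, zFun, RFun, pushFun, fac, st, en, C, X, Y, cmt, hkr, hkr.ne, hkr.ne', hkr.not_gt, hp, hp', Ru_of _ _ _ hkr]; done)
          | (simp [twFun, hFun, zFun, RFun, pushFun, fac, st, en, C, X, Y, cmt, hkr, hkr.ne, hkr.ne', hkr.not_gt, hp, hp', Ru_of _ _ _ hkr]; group; done)
          | (simp [twFun, hFun, zFun, RFun, pushFun, fac, st, en, C, X, Y, cmt, hkr, hkr.ne, hkr.ne', hkr.not_gt, hp, hp', Ru_of _ _ _ hkr] <;> group)
      · rcases lt_trichotomy m r with hr | hr | hr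
        · first
            | (simp [twFun, hFun, zFun, RFun, pushFun, fac, st, en, C, X, Y, cmt, hkr, hkr.ne, hkr.ne', hkr.not_gt, hm, hm.ne, hm.ne', hm.not_gt, hr, hr.ne, hr.ne', hr.not_gt, hp, hp', Ru_of _ _ _ hkr]; done)
            | (simp [twFun, hFun, zFun, RFun, pushFun, fac, st, en, C, X, Y, cmt, hkr, hkr.ne, hkr.ne', hkr.not_gt, hm, hm.ne, hm.ne', hm.not_gt, hr, hr.ne, hr.ne', hr.not_gt, hp, hp', Ru_of _ _ _ hkr]; group; done)
            | (simp [twFun, hFun, zFun, RFun, pushFun, fac, st, en, C, X, Y, cmt, hkr, hkr.ne, hkr.ne', hkr.not_gt, hm, hm.ne, hm.ne', hm.not_gt, hr, hr.ne, hr.ne', hr.not_gt, hp, hp', Ru_of _ _ _ hkr] <;> group)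
        · subst hr
          first
            | (simp [twFun, hFun, zFun, RFun, pushFun, fac, st, en, C, X, Y, cmt, hkr, hkr.ne, hkr.ne', hkr.not_gt, hp, hp', Ru_of _ _ _ hkr]; done)
            | (simp [twFun, hFun, zFun, RFun, pushFun, fac, st, en, C, X, Y, cmt, hkr, hkr.ne, hkr.ne', hkr.not_gt, hp, hp', Ru_of _ _ _ hkr]; group; done)
            | (simp [twFun, hFun, zFun, RFun, pushFun, fac, st, en, C, X, Y, cmt, hkr, hkr.ne, hkr.ne', hkr.not_gt, hp, hp', Ru_of _ _ _ hkr] <;> group)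
        · first
            | (simp [twFun, hFun, zFun, RFun, pushFun, fac, st, en, C, X, Y, cmt, hkr, hkr.ne, hkr.ne', hkr.not_gt, hm, hm.ne, hm.ne', hm.not_gt, hr, hr.ne, hr.ne', hr.not_gt, hp, hp', Ru_of _ _ _ hkr]; done)
            | (simp [twFun, hFun, zFun, RFun, pushFun, fac, st, en, C, X, Y, cmt, hkr, hkr.ne, hkr.ne', hkr.not_gt, hm, hm.ne, hm.ne', hm.not_gt, hr, hr.ne, hr.ne', hr.not_gt, hp, hp', Ru_of _ _ _ hkr]; group; done)
            | (simp [twFun, hFun, zFun, RFun, pushFun, fac, st, en, C, X, Y, cmt, hkr, hkr.ne, hkr.ne', hkr.not_gt, hm, hm.ne, hm.ne', hm.not_gt, hr, hr.ne, hr.ne', hr.not_gt, hp, hp', Ru_of _ _ _ hkr] <;> group)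

theorem h_Ru_gt (p r k l : ℕ) (hk : k < l) (hl : l < r) :
    h p k * Ru p r l = Ru p r l * h p k := by
  have hkl := hk
  have hlr := hl
  have hkr := hk.trans hl
  clear hk hl
  refine aut_ext2 ?_
  intro v
  simp only [MulAut.mul_apply]
  rcases v with m | m | m
  · fin_cases m <;>
      first
        | (simp [twFun, hFun, zFun, RFun, pushFun, fac, st, en, C, X, Y, cmt, hkl, hkl.ne, hkl.ne', hkl.not_gt, hlr, hlr.ne, hlr.ne', hlr.not_gt, hkr, hkr.ne, hkr.ne', hkr.not_gt, Ru_of _ _ _ hlr]; done)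
        | (simp [twFun, hFun, zFun, RFun, pushFun, fac, st, en, C, X, Y, cmt, hkl, hkl.ne, hkl.ne', hkl.not_gt, hlr, hlr.ne, hlr.ne', hlr.not_gt, hkr, hkr.ne, hkr.ne', hkr.not_gt, Ru_of _ _ _ hlr]; group; done)
        | (simp [twFun, hFun, zFun, RFun, pushFun, fac, st, en, C, X, Y, cmt, hkl, hkl.ne, hkl.ne', hkl.not_gt, hlr, hlr.ne, hlr.ne', hlr.not_gt, hkr, hkr.ne, hkr.ne', hkr.not_gt, Ru_of _ _ _ hlr] <;> group)
  · skip
    rcases lt_trichotomy m k with hm | hm | hm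
    · have hml := hm.trans hkl
      have hmr := hm.trans hkr
      first
        | (simp [twFun, hFun, zFun, RFun, pushFun, fac, st, en, C, X, Y, cmt, hkl, hkl.ne, hkl.ne', hkl.not_gt, hlr, hlr.ne, hlr.ne', hlr.not_gt, hkr, hkr.ne, hkr.ne', hkr.not_gt, hm, hm.ne, hm.ne', hm.not_gt, hml, hml.ne, hml.ne', hml.not_gt, hmr, hmr.ne, hmr.ne', hmr.not_gt, Ru_of _ _ _ hlr]; done)
        | (simp [twFun, hFun, zFun, RFun, pushFun, fac, st, en, C, X, Y, cmt, hkl, hkl.ne, hkl.ne', hkl.not_gt, hlr, hlr.ne, hlr.ne', hlr.not_gt, hkr, hkr.ne, hkr.ne', hkr.not_gt, hm, hm.ne, hm.ne', hm.not_gt, hml, hml.ne, hml.ne', hml.not_gt, hmr, hmr.ne, hmr.ne', hmr.not_gt, Ru_of _ _ _ hlr]; group; done)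
        | (simp [twFun, hFun, zFun, RFun, pushFun, fac, st, en, C, X, Y, cmt, hkl, hkl.ne, hkl.ne', hkl.not_gt, hlr, hlr.ne, hlr.ne', hlr.not_gt, hkr, hkr.ne, hkr.ne', hkr.not_gt, hm, hm.ne, hm.ne', hm.not_gt, hml, hml.ne, hml.ne', hml.not_gt, hmr, hmr.ne, hmr.ne', hmr.not_gt, Ru_of _ _ _ hlr] <;> group)
    · subst hm
      first
        | (simp [twFun, hFun, zFun, RFun, pushFun, fac, st, en, C, X, Y, cmt, hkl, hkl.ne, hkl.ne', hkl.not_gt, hlr, hlr.ne, hlr.ne', hlr.not_gt, hkr, hkr.ne, hkr.ne', hkr.not_gt, Ru_of _ _ _ hlr]; done)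
        | (simp [twFun, hFun, zFun, RFun, pushFun, fac, st, en, C, X, Y, cmt, hkl, hkl.ne, hkl.ne', hkl.not_gt, hlr, hlr.ne, hlr.ne', hlr.not_gt, hkr, hkr.ne, hkr.ne', hkr.not_gt, Ru_of _ _ _ hlr]; group; done)
        | (simp [twFun, hFun, zFun, RFun, pushFun, fac, st, en, C, X, Y, cmt, hkl, hkl.ne, hkl.ne', hkl.not_gt, hlr, hlr.ne, hlr.ne', hlr.not_gt, hkr, hkr.ne, hkr.ne', hkr.not_gt, Ru_of _ _ _ hlr] <;> group)
    · rcases lt_trichotomy m l with hml | hml | hml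
      · have hmr := hml.trans hlr
        first
          | (simp [twFun, hFun, zFun, RFun, pushFun, fac, st, en, C, X, Y, cmt, hkl, hkl.ne, hkl.ne', hkl.not_gt, hlr, hlr.ne, hlr.ne', hlr.not_gt, hkr, hkr.ne, hkr.ne', hkr.not_gt, hm, hm.ne, hm.ne', hm.not_gt, hml, hml.ne, hml.ne', hml.not_gt, hmr, hmr.ne, hmr.ne', hmr.not_gt, Ru_of _ _ _ hlr]; done)
          | (simp [twFun, hFun, zFun, RFun, pushFun, fac, st, en, C, X, Y, cmt, hkl, hkl.ne, hkl.ne', hkl.not_gt, hlr, hlr.ne, hlr.ne', hlr.not_gt, hkr, hkr.ne, hkr.ne', hkr.not_gt, hm, hm.ne, hm.ne', hm.not_gt, hml, hml.ne, hml.ne', hml.not_gt, hmr, hmr.ne, hmr.ne', hmr.not_gt, Ru_of _ _ _ hlr]; group; done)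
          | (simp [twFun, hFun, zFun, RFun, pushFun, fac, st, en, C, X, Y, cmt, hkl, hkl.ne, hkl.ne', hkl.not_gt, hlr, hlr.ne, hlr.ne', hlr.not_gt, hkr, hkr.ne, hkr.ne', hkr.not_gt, hm, hm.ne, hm.ne', hm.not_gt, hml, hml.ne, hml.ne', hml.not_gt, hmr, hmr.ne, hmr.ne', hmr.not_gt, Ru_of _ _ _ hlr] <;> group)
      · subst hml
        first
          | (simp [twFun, hFun, zFun, RFun, pushFun, fac, st, en, C, X, Y, cmt, hkl, hkl.ne, hkl.ne', hkl.not_gt, hlr, hlr.ne, hlr.ne', hlr.not_gt, hkr, hkr.ne, hkr.ne', hkr.not_gt, Ru_of _ _ _ hlr]; done)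
          | (simp [twFun, hFun, zFun, RFun, pushFun, fac, st, en, C, X, Y, cmt, hkl, hkl.ne, hkl.ne', hkl.not_gt, hlr, hlr.ne, hlr.ne', hlr.not_gt, hkr, hkr.ne, hkr.ne', hkr.not_gt, Ru_of _ _ _ hlr]; group; done)
          | (simp [twFun, hFun, zFun, RFun, pushFun, fac, st, en, C, X, Y, cmt, hkl, hkl.ne, hkl.ne', hkl.not_gt, hlr, hlr.ne, hlr.ne', hlr.not_gt, hkr, hkr.ne, hkr.ne', hkr.not_gt, Ru_of _ _ _ hlr] <;> group)
      · rcases lt_trichotomy m r with hr | hr | hr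
        · first
            | (simp [twFun, hFun, zFun, RFun, pushFun, fac, st, en, C, X, Y, cmt, hkl, hkl.ne, hkl.ne', hkl.not_gt, hlr, hlr.ne, hlr.ne', hlr.not_gt, hkr, hkr.ne, hkr.ne', hkr.not_gt, hm, hm.ne, hm.ne', hm.not_gt, hml, hml.ne, hml.ne', hml.not_gt, hr, hr.ne, hr.ne', hr.not_gt, Ru_of _ _ _ hlr]; done)
            | (simp [twFun, hFun, zFun, RFun, pushFun, fac, st, en, C, X, Y, cmt, hkl, hkl.ne, hkl.ne', hkl.not_gt, hlr, hlr.ne, hlr.ne', hlr.not_gt, hkr, hkr.ne, hkr.ne', hkr.not_gt, hm, hm.ne, hm.ne', hm.not_gt, hml, hml.ne, hml.ne', hml.not_gt, hr, hr.ne, hr.ne', hr.not_gt, Ru_of _ _ _ hlr]; group; done)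
            | (simp [twFun, hFun, zFun, RFun, pushFun, fac, st, en, C, X, Y, cmt, hkl, hkl.ne, hkl.ne', hkl.not_gt, hlr, hlr.ne, hlr.ne', hlr.not_gt, hkr, hkr.ne, hkr.ne', hkr.not_gt, hm, hm.ne, hm.ne', hm.not_gt, hml, hml.ne, hml.ne', hml.not_gt, hr, hr.ne, hr.ne', hr.not_gt, Ru_of _ _ _ hlr] <;> group)
        · subst hr
          first
            | (simp [twFun, hFun, zFun, RFun, pushFun, fac, st, en, C, X, Y, cmt, hkl, hkl.ne, hkl.ne', hkl.not_gt, hlr, hlr.ne, hlr.ne', hlr.not_gt, hkr, hkr.ne, hkr.ne', hkr.not_gt, Ru_of _ _ _ hlr]; done)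
            | (simp [twFun, hFun, zFun, RFun, pushFun, fac, st, en, C, X, Y, cmt, hkl, hkl.ne, hkl.ne', hkl.not_gt, hlr, hlr.ne, hlr.ne', hlr.not_gt, hkr, hkr.ne, hkr.ne', hkr.not_gt, Ru_of _ _ _ hlr]; group; done)
            | (simp [twFun, hFun, zFun, RFun, pushFun, fac, st, en, C, X, Y, cmt, hkl, hkl.ne, hkl.ne', hkl.not_gt, hlr, hlr.ne, hlr.ne', hlr.not_gt, hkr, hkr.ne, hkr.ne', hkr.not_gt, Ru_of _ _ _ hlr] <;> group)
        · first
            | (simp [twFun, hFun, zFun, RFun, pushFun, fac, st, en, C, X, Y, cmt, hkl, hkl.ne, hkl.ne', hkl.not_gt, hlr, hlr.ne, hlr.ne', hlr.not_gt, hkr, hkr.ne, hkr.ne', hkr.not_gt, hm, hm.ne, hm.ne', hm.not_gt, hml, hml.ne, hml.ne', hml.not_gt, hr, hr.ne, hr.ne', hr.not_gt, Ru_of _ _ _ hlr]; done)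
            | (simp [twFun, hFun, zFun, RFun, pushFun, fac, st, en, C, X, Y, cmt, hkl, hkl.ne, hkl.ne', hkl.not_gt, hlr, hlr.ne, hlr.ne', hlr.not_gt, hkr, hkr.ne, hkr.ne', hkr.not_gt, hm, hm.ne, hm.ne', hm.not_gt, hml, hml.ne, hml.ne', hml.not_gt, hr, hr.ne, hr.ne', hr.not_gt, Ru_of _ _ _ hlr]; group; done)
            | (simp [twFun, hFun, zFun, RFun, pushFun, fac, st, en, C, X, Y, cmt, hkl, hkl.ne, hkl.ne', hkl.not_gt, hlr, hlr.ne, hlr.ne', hlr.not_gt, hkr, hkr.ne, hkr.ne', hkr.not_gt, hm, hm.ne, hm.ne', hm.not_gt, hml, hml.ne, hml.ne', hml.not_gt, hr, hr.ne, hr.ne', hr.not_gt, Ru_of _ _ _ hlr] <;> group)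
  · by_cases hp : m < p
    · skip
      rcases lt_trichotomy m k with hm | hm | hm
      · have hml := hm.trans hkl
        have hmr := hm.trans hkr
        first
          | (simp [twFun, hFun, zFun, RFun, pushFun, fac, st, en, C, X, Y, cmt, hkl, hkl.ne, hkl.ne', hkl.not_gt, hlr, hlr.ne, hlr.ne', hlr.not_gt, hkr, hkr.ne, hkr.ne', hkr.not_gt, hm, hm.ne, hm.ne', hm.not_gt, hml, hml.ne, hml.ne', hml.not_gt, hmr, hmr.ne, hmr.ne', hmr.not_gt, hp, hp.not_ge, Ru_of _ _ _ hlr]; done)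
          | (simp [twFun, hFun, zFun, RFun, pushFun, fac, st, en, C, X, Y, cmt, hkl, hkl.ne, hkl.ne', hkl.not_gt, hlr, hlr.ne, hlr.ne', hlr.not_gt, hkr, hkr.ne, hkr.ne', hkr.not_gt, hm, hm.ne, hm.ne', hm.not_gt, hml, hml.ne, hml.ne', hml.not_gt, hmr, hmr.ne, hmr.ne', hmr.not_gt, hp, hp.not_ge, Ru_of _ _ _ hlr]; group; done)
          | (simp [twFun, hFun, zFun, RFun, pushFun, fac, st, en, C, X, Y, cmt, hkl, hkl.ne, hkl.ne', hkl.not_gt, hlr, hlr.ne, hlr.ne', hlr.not_gt, hkr, hkr.ne, hkr.ne', hkr.not_gt, hm, hm.ne, hm.ne', hm.not_gt, hml, hml.ne, hml.ne', hml.not_gt, hmr, hmr.ne, hmr.ne', hmr.not_gt, hp, hp.not_ge, Ru_of _ _ _ hlr] <;> group)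
      · subst hm
        first
          | (simp [twFun, hFun, zFun, RFun, pushFun, fac, st, en, C, X, Y, cmt, hkl, hkl.ne, hkl.ne', hkl.not_gt, hlr, hlr.ne, hlr.ne', hlr.not_gt, hkr, hkr.ne, hkr.ne', hkr.not_gt, hp, hp.not_ge, Ru_of _ _ _ hlr]; done)
          | (simp [twFun, hFun, zFun, RFun, pushFun, fac, st, en, C, X, Y, cmt, hkl, hkl.ne, hkl.ne', hkl.not_gt, hlr, hlr.ne, hlr.ne', hlr.not_gt, hkr, hkr.ne, hkr.ne', hkr.not_gt, hp, hp.not_ge, Ru_of _ _ _ hlr]; group; done)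
          | (simp [twFun, hFun, zFun, RFun, pushFun, fac, st, en, C, X, Y, cmt, hkl, hkl.ne, hkl.ne', hkl.not_gt, hlr, hlr.ne, hlr.ne', hlr.not_gt, hkr, hkr.ne, hkr.ne', hkr.not_gt, hp, hp.not_ge, Ru_of _ _ _ hlr] <;> group)
      · rcases lt_trichotomy m l with hml | hml | hml
        · have hmr := hml.trans hlr
          first
            | (simp [twFun, hFun, zFun, RFun, pushFun, fac, st, en, C, X, Y, cmt, hkl, hkl.ne, hkl.ne', hkl.not_gt, hlr, hlr.ne, hlr.ne', hlr.not_gt, hkr, hkr.ne, hkr.ne', hkr.not_gt, hm, hm.ne, hm.ne', hm.not_gt, hml, hml.ne, hml.ne', hml.not_gt, hmr, hmr.ne, hmr.ne', hmr.not_gt, hp, hp.not_ge, Ru_of _ _ _ hlr]; done)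
            | (simp [twFun, hFun, zFun, RFun, pushFun, fac, st, en, C, X, Y, cmt, hkl, hkl.ne, hkl.ne', hkl.not_gt, hlr, hlr.ne, hlr.ne', hlr.not_gt, hkr, hkr.ne, hkr.ne', hkr.not_gt, hm, hm.ne, hm.ne', hm.not_gt, hml, hml.ne, hml.ne', hml.not_gt, hmr, hmr.ne, hmr.ne', hmr.not_gt, hp, hp.not_ge, Ru_of _ _ _ hlr]; group; done)
            | (simp [twFun, hFun, zFun, RFun, pushFun, fac, st, en, C, X, Y, cmt, hkl, hkl.ne, hkl.ne', hkl.not_gt, hlr, hlr.ne, hlr.ne', hlr.not_gt, hkr, hkr.ne, hkr.ne', hkr.not_gt, hm, hm.ne, hm.ne', hm.not_gt, hml, hml.ne, hml.ne', hml.not_gt, hmr, hmr.ne, hmr.ne', hmr.not_gt, hp, hp.not_ge, Ru_of _ _ _ hlr] <;> group)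
        · subst hml
          first
            | (simp [twFun, hFun, zFun, RFun, pushFun, fac, st, en, C, X, Y, cmt, hkl, hkl.ne, hkl.ne', hkl.not_gt, hlr, hlr.ne, hlr.ne', hlr.not_gt, hkr, hkr.ne, hkr.ne', hkr.not_gt, hp, hp.not_ge, Ru_of _ _ _ hlr]; done)
            | (simp [twFun, hFun, zFun, RFun, pushFun, fac, st, en, C, X, Y, cmt, hkl, hkl.ne, hkl.ne', hkl.not_gt, hlr, hlr.ne, hlr.ne', hlr.not_gt, hkr, hkr.ne, hkr.ne', hkr.not_gt, hp, hp.not_ge, Ru_of _ _ _ hlr]; group; done)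
            | (simp [twFun, hFun, zFun, RFun, pushFun, fac, st, en, C, X, Y, cmt, hkl, hkl.ne, hkl.ne', hkl.not_gt, hlr, hlr.ne, hlr.ne', hlr.not_gt, hkr, hkr.ne, hkr.ne', hkr.not_gt, hp, hp.not_ge, Ru_of _ _ _ hlr] <;> group)
        · rcases lt_trichotomy m r with hr | hr | hr
          · first
              | (simp [twFun, hFun, zFun, RFun, pushFun, fac, st, en, C, X, Y, cmt, hkl, hkl.ne, hkl.ne', hkl.not_gt, hlr, hlr.ne, hlr.ne', hlr.not_gt, hkr, hkr.ne, hkr.ne', hkr.not_gt, hm, hm.ne, hm.ne', hm.not_gt, hml, hml.ne, hml.ne', hml.not_gt, hr, hr.ne, hr.ne', hr.not_gt, hp, hp.not_ge, Ru_of _ _ _ hlr]; done)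
              | (simp [twFun, hFun, zFun, RFun, pushFun, fac, st, en, C, X, Y, cmt, hkl, hkl.ne, hkl.ne', hkl.not_gt, hlr, hlr.ne, hlr.ne', hlr.not_gt, hkr, hkr.ne, hkr.ne', hkr.not_gt, hm, hm.ne, hm.ne', hm.not_gt, hml, hml.ne, hml.ne', hml.not_gt, hr, hr.ne, hr.ne', hr.not_gt, hp, hp.not_ge, Ru_of _ _ _ hlr]; group; done)
              | (simp [twFun, hFun, zFun, RFun, pushFun, fac, st, en, C, X, Y, cmt, hkl, hkl.ne, hkl.ne', hkl.not_gt, hlr, hlr.ne, hlr.ne', hlr.not_gt, hkr, hkr.ne, hkr.ne', hkr.not_gt, hm, hm.ne, hm.ne', hm.not_gt, hml, hml.ne, hml.ne', hml.not_gt, hr, hr.ne, hr.ne', hr.not_gt, hp, hp.not_ge, Ru_of _ _ _ hlr] <;> group)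
          · subst hr
            first
              | (simp [twFun, hFun, zFun, RFun, pushFun, fac, st, en, C, X, Y, cmt, hkl, hkl.ne, hkl.ne', hkl.not_gt, hlr, hlr.ne, hlr.ne', hlr.not_gt, hkr, hkr.ne, hkr.ne', hkr.not_gt, hp, hp.not_ge, Ru_of _ _ _ hlr]; done)
              | (simp [twFun, hFun, zFun, RFun, pushFun, fac, st, en, C, X, Y, cmt, hkl, hkl.ne, hkl.ne', hkl.not_gt, hlr, hlr.ne, hlr.ne', hlr.not_gt, hkr, hkr.ne, hkr.ne', hkr.not_gt, hp, hp.not_ge, Ru_of _ _ _ hlr]; group; done)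
              | (simp [twFun, hFun, zFun, RFun, pushFun, fac, st, en, C, X, Y, cmt, hkl, hkl.ne, hkl.ne', hkl.not_gt, hlr, hlr.ne, hlr.ne', hlr.not_gt, hkr, hkr.ne, hkr.ne', hkr.not_gt, hp, hp.not_ge, Ru_of _ _ _ hlr] <;> group)
          · first
              | (simp [twFun, hFun, zFun, RFun, pushFun, fac, st, en, C, X, Y, cmt, hkl, hkl.ne, hkl.ne', hkl.not_gt, hlr, hlr.ne, hlr.ne', hlr.not_gt, hkr, hkr.ne, hkr.ne', hkr.not_gt, hm, hm.ne, hm.ne', hm.not_gt, hml, hml.ne, hml.ne', hml.not_gt, hr, hr.ne, hr.ne', hr.not_gt, hp, hp.not_ge, Ru_of _ _ _ hlr]; done)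
              | (simp [twFun, hFun, zFun, RFun, pushFun, fac, st, en, C, X, Y, cmt, hkl, hkl.ne, hkl.ne', hkl.not_gt, hlr, hlr.ne, hlr.ne', hlr.not_gt, hkr, hkr.ne, hkr.ne', hkr.not_gt, hm, hm.ne, hm.ne', hm.not_gt, hml, hml.ne, hml.ne', hml.not_gt, hr, hr.ne, hr.ne', hr.not_gt, hp, hp.not_ge, Ru_of _ _ _ hlr]; group; done)
              | (simp [twFun, hFun, zFun, RFun, pushFun, fac, st, en, C, X, Y, cmt, hkl, hkl.ne, hkl.ne', hkl.not_gt, hlr, hlr.ne, hlr.ne', hlr.not_gt, hkr, hkr.ne, hkr.ne', hkr.not_gt, hm, hm.ne, hm.ne', hm.not_gt, hml, hml.ne, hml.ne', hml.not_gt, hr, hr.ne, hr.ne', hr.not_gt, hp, hp.not_ge, Ru_of _ _ _ hlr] <;> group)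
    · have hp' : p ≤ m := not_lt.1 hp
      rcases lt_trichotomy m k with hm | hm | hm
      · have hml := hm.trans hkl
        have hmr := hm.trans hkr
        first
          | (simp [twFun, hFun, zFun, RFun, pushFun, fac, st, en, C, X, Y, cmt, hkl, hkl.ne, hkl.ne', hkl.not_gt, hlr, hlr.ne, hlr.ne', hlr.not_gt, hkr, hkr.ne, hkr.ne', hkr.not_gt, hm, hm.ne, hm.ne', hm.not_gt, hml, hml.ne, hml.ne', hml.not_gt, hmr, hmr.ne, hmr.ne', hmr.not_gt, hp, hp', Ru_of _ _ _ hlr]; done)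
          | (simp [twFun, hFun, zFun, RFun, pushFun, fac, st, en, C, X, Y, cmt, hkl, hkl.ne, hkl.ne', hkl.not_gt, hlr, hlr.ne, hlr.ne', hlr.not_gt, hkr, hkr.ne, hkr.ne', hkr.not_gt, hm, hm.ne, hm.ne', hm.not_gt, hml, hml.ne, hml.ne', hml.not_gt, hmr, hmr.ne, hmr.ne', hmr.not_gt, hp, hp', Ru_of _ _ _ hlr]; group; done)
          | (simp [twFun, hFun, zFun, RFun, pushFun, fac, st, en, C, X, Y, cmt, hkl, hkl.ne, hkl.ne', hkl.not_gt, hlr, hlr.ne, hlr.ne', hlr.not_gt, hkr, hkr.ne, hkr.ne', hkr.not_gt, hm, hm.ne, hm.ne', hm.not_gt, hml, hml.ne, hml.ne', hml.not_gt, hmr, hmr.ne, hmr.ne', hmr.not_gt, hp, hp', Ru_of _ _ _ hlr] <;> group)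
      · subst hm
        first
          | (simp [twFun, hFun, zFun, RFun, pushFun, fac, st, en, C, X, Y, cmt, hkl, hkl.ne, hkl.ne', hkl.not_gt, hlr, hlr.ne, hlr.ne', hlr.not_gt, hkr, hkr.ne, hkr.ne', hkr.not_gt, hp, hp', Ru_of _ _ _ hlr]; done)
          | (simp [twFun, hFun, zFun, RFun, pushFun, fac, st, en, C, X, Y, cmt, hkl, hkl.ne, hkl.ne', hkl.not_gt, hlr, hlr.ne, hlr.ne', hlr.not_gt, hkr, hkr.ne, hkr.ne', hkr.not_gt, hp, hp', Ru_of _ _ _ hlr]; group; done)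
          | (simp [twFun, hFun, zFun, RFun, pushFun, fac, st, en, C, X, Y, cmt, hkl, hkl.ne, hkl.ne', hkl.not_gt, hlr, hlr.ne, hlr.ne', hlr.not_gt, hkr, hkr.ne, hkr.ne', hkr.not_gt, hp, hp', Ru_of _ _ _ hlr] <;> group)
      · rcases lt_trichotomy m l with hml | hml | hml
        · have hmr := hml.trans hlr
          first
            | (simp [twFun, hFun, zFun, RFun, pushFun, fac, st, en, C, X, Y, cmt, hkl, hkl.ne, hkl.ne', hkl.not_gt, hlr, hlr.ne, hlr.ne', hlr.not_gt, hkr, hkr.ne, hkr.ne', hkr.not_gt, hm, hm.ne, hm.ne', hm.not_gt, hml, hml.ne, hml.ne', hml.not_gt, hmr, hmr.ne, hmr.ne', hmr.not_gt, hp, hp', Ru_of _ _ _ hlr]; done)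
            | (simp [twFun, hFun, zFun, RFun, pushFun, fac, st, en, C, X, Y, cmt, hkl, hkl.ne, hkl.ne', hkl.not_gt, hlr, hlr.ne, hlr.ne', hlr.not_gt, hkr, hkr.ne, hkr.ne', hkr.not_gt, hm, hm.ne, hm.ne', hm.not_gt, hml, hml.ne, hml.ne', hml.not_gt, hmr, hmr.ne, hmr.ne', hmr.not_gt, hp, hp', Ru_of _ _ _ hlr]; group; done)
            | (simp [twFun, hFun, zFun, RFun, pushFun, fac, st, en, C, X, Y, cmt, hkl, hkl.ne, hkl.ne', hkl.not_gt, hlr, hlr.ne, hlr.ne', hlr.not_gt, hkr, hkr.ne, hkr.ne', hkr.not_gt, hm, hm.ne, hm.ne', hm.not_gt, hml, hml.ne, hml.ne', hml.not_gt, hmr, hmr.ne, hmr.ne', hmr.not_gt, hp, hp', Ru_of _ _ _ hlr] <;> group)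
        · subst hml
          first
            | (simp [twFun, hFun, zFun, RFun, pushFun, fac, st, en, C, X, Y, cmt, hkl, hkl.ne, hkl.ne', hkl.not_gt, hlr, hlr.ne, hlr.ne', hlr.not_gt, hkr, hkr.ne, hkr.ne', hkr.not_gt, hp, hp', Ru_of _ _ _ hlr]; done)
            | (simp [twFun, hFun, zFun, RFun, pushFun, fac, st, en, C, X, Y, cmt, hkl, hkl.ne, hkl.ne', hkl.not_gt, hlr, hlr.ne, hlr.ne', hlr.not_gt, hkr, hkr.ne, hkr.ne', hkr.not_gt, hp, hp', Ru_of _ _ _ hlr]; group; done)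
            | (simp [twFun, hFun, zFun, RFun, pushFun, fac, st, en, C, X, Y, cmt, hkl, hkl.ne, hkl.ne', hkl.not_gt, hlr, hlr.ne, hlr.ne', hlr.not_gt, hkr, hkr.ne, hkr.ne', hkr.not_gt, hp, hp', Ru_of _ _ _ hlr] <;> group)
        · rcases lt_trichotomy m r with hr | hr | hr
          · first
              | (simp [twFun, hFun, zFun, RFun, pushFun, fac, st, en, C, X, Y, cmt, hkl, hkl.ne, hkl.ne', hkl.not_gt, hlr, hlr.ne, hlr.ne', hlr.not_gt, hkr, hkr.ne, hkr.ne', hkr.not_gt, hm, hm.ne, hm.ne', hm.not_gt, hml, hml.ne, hml.ne', hml.not_gt, hr, hr.ne, hr.ne', hr.not_gt, hp, hp', Ru_of _ _ _ hlr]; done)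
              | (simp [twFun, hFun, zFun, RFun, pushFun, fac, st, en, C, X, Y, cmt, hkl, hkl.ne, hkl.ne', hkl.not_gt, hlr, hlr.ne, hlr.ne', hlr.not_gt, hkr, hkr.ne, hkr.ne', hkr.not_gt, hm, hm.ne, hm.ne', hm.not_gt, hml, hml.ne, hml.ne', hml.not_gt, hr, hr.ne, hr.ne', hr.not_gt, hp, hp', Ru_of _ _ _ hlr]; group; done)
              | (simp [twFun, hFun, zFun, RFun, pushFun, fac, st, en, C, X, Y, cmt, hkl, hkl.ne, hkl.ne', hkl.not_gt, hlr, hlr.ne, hlr.ne', hlr.not_gt, hkr, hkr.ne, hkr.ne', hkr.not_gt, hm, hm.ne, hm.ne', hm.not_gt, hml, hml.ne, hml.ne', hml.not_gt, hr, hr.ne, hr.ne', hr.not_gt, hp, hp', Ru_of _ _ _ hlr] <;> group)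
          · subst hr
            first
              | (simp [twFun, hFun, zFun, RFun, pushFun, fac, st, en, C, X, Y, cmt, hkl, hkl.ne, hkl.ne', hkl.not_gt, hlr, hlr.ne, hlr.ne', hlr.not_gt, hkr, hkr.ne, hkr.ne', hkr.not_gt, hp, hp', Ru_of _ _ _ hlr]; done)
              | (simp [twFun, hFun, zFun, RFun, pushFun, fac, st, en, C, X, Y, cmt, hkl, hkl.ne, hkl.ne', hkl.not_gt, hlr, hlr.ne, hlr.ne', hlr.not_gt, hkr, hkr.ne, hkr.ne', hkr.not_gt, hp, hp', Ru_of _ _ _ hlr]; group; done)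
              | (simp [twFun, hFun, zFun, RFun, pushFun, fac, st, en, C, X, Y, cmt, hkl, hkl.ne, hkl.ne', hkl.not_gt, hlr, hlr.ne, hlr.ne', hlr.not_gt, hkr, hkr.ne, hkr.ne', hkr.not_gt, hp, hp', Ru_of _ _ _ hlr] <;> group)
          · first
              | (simp [twFun, hFun, zFun, RFun, pushFun, fac, st, en, C, X, Y, cmt, hkl, hkl.ne, hkl.ne', hkl.not_gt, hlr, hlr.ne, hlr.ne', hlr.not_gt, hkr, hkr.ne, hkr.ne', hkr.not_gt, hm, hm.ne, hm.ne', hm.not_gt, hml, hml.ne, hml.ne', hml.not_gt, hr, hr.ne, hr.ne', hr.not_gt, hp, hp', Ru_of _ _ _ hlr]; done)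
              | (simp [twFun, hFun, zFun, RFun, pushFun, fac, st, en, C, X, Y, cmt, hkl, hkl.ne, hkl.ne', hkl.not_gt, hlr, hlr.ne, hlr.ne', hlr.not_gt, hkr, hkr.ne, hkr.ne', hkr.not_gt, hm, hm.ne, hm.ne', hm.not_gt, hml, hml.ne, hml.ne', hml.not_gt, hr, hr.ne, hr.ne', hr.not_gt, hp, hp', Ru_of _ _ _ hlr]; group; done)
              | (simp [twFun, hFun, zFun, RFun, pushFun, fac, st, en, C, X, Y, cmt, hkl, hkl.ne, hkl.ne', hkl.not_gt, hlr, hlr.ne, hlr.ne', hlr.not_gt, hkr, hkr.ne, hkr.ne', hkr.not_gt, hm, hm.ne, hm.ne', hm.not_gt, hml, hml.ne, hml.ne', hml.not_gt, hr, hr.ne, hr.ne', hr.not_gt, hp, hp', Ru_of _ _ _ hlr] <;> group)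

theorem h_symm_of (p j : ℕ) (l : Letter) : (h p j).symm (FreeGroup.of l) = hInv p j l := by
  simp [h]

theorem h_Ru_aux (p r l k : ℕ) (hk : l < k) (hl : k < r) :
    h p k * (pu0 p r * Ru p r l * (pu0 p r)⁻¹) = (pu0 p r * Ru p r l * (pu0 p r)⁻¹) * h p k := by
  have hkl := hk
  have hlr := hl
  have hkr := hk.trans hl
  clear hk hl
  refine aut_ext2 ?_
  intro v
  have h0 : (pu0 p r)⁻¹ = (h p r)⁻¹ := rfl
  rw [h0]
  simp only [MulAut.mul_apply]
  rcases v with m | m | m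
  · fin_cases m <;>
      first
        | (simp [twFun, hFun, zFun, RFun, pushFun, fac, st, en, C, X, Y, cmt, hkl, hkl.ne, hkl.ne', hkl.not_gt, hlr, hlr.ne, hlr.ne', hlr.not_gt, hkr, hkr.ne, hkr.ne', hkr.not_gt, hInv, h_symm_of, Ru_of _ _ _ hkr]; done)
        | (simp [twFun, hFun, zFun, RFun, pushFun, fac, st, en, C, X, Y, cmt, hkl, hkl.ne, hkl.ne', hkl.not_gt, hlr, hlr.ne, hlr.ne', hlr.not_gt, hkr, hkr.ne, hkr.ne', hkr.not_gt, hInv, h_symm_of, Ru_of _ _ _ hkr]; group; done)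
        | (simp [twFun, hFun, zFun, RFun, pushFun, fac, st, en, C, X, Y, cmt, hkl, hkl.ne, hkl.ne', hkl.not_gt, hlr, hlr.ne, hlr.ne', hlr.not_gt, hkr, hkr.ne, hkr.ne', hkr.not_gt, hInv, h_symm_of, Ru_of _ _ _ hkr] <;> group)
  · skip
    rcases lt_trichotomy m l with hm | hm | hm
    · have hml := hm.trans hkl
      have hmr := hm.trans hkr
      first
        | (simp [twFun, hFun, zFun, RFun, pushFun, fac, st, en, C, X, Y, cmt, hkl, hkl.ne, hkl.ne', hkl.not_gt, hlr, hlr.ne, hlr.ne', hlr.not_gt, hkr, hkr.ne, hkr.ne', hkr.not_gt, hm, hm.ne, hm.ne', hm.not_gt, hml, hml.ne, hml.ne', hml.not_gt, hmr, hmr.ne, hmr.ne', hmr.not_gt, hInv, h_symm_of, Ru_of _ _ _ hkr]; done)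
        | (simp [twFun, hFun, zFun, RFun, pushFun, fac, st, en, C, X, Y, cmt, hkl, hkl.ne, hkl.ne', hkl.not_gt, hlr, hlr.ne, hlr.ne', hlr.not_gt, hkr, hkr.ne, hkr.ne', hkr.not_gt, hm, hm.ne, hm.ne', hm.not_gt, hml, hml.ne, hml.ne', hml.not_gt, hmr, hmr.ne, hmr.ne', hmr.not_gt, hInv, h_symm_of, Ru_of _ _ _ hkr]; group; done)
        | (simp [twFun, hFun, zFun, RFun, pushFun, fac, st, en, C, X, Y, cmt, hkl, hkl.ne, hkl.ne', hkl.not_gt, hlr, hlr.ne, hlr.ne', hlr.not_gt, hkr, hkr.ne, hkr.ne', hkr.not_gt, hm, hm.ne, hm.ne', hm.not_gt, hml, hml.ne, hml.ne', hml.not_gt, hmr, hmr.ne, hmr.ne', hmr.not_gt, hInv, h_symm_of, Ru_of _ _ _ hkr] <;> group)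
    · subst hm
      first
        | (simp [twFun, hFun, zFun, RFun, pushFun, fac, st, en, C, X, Y, cmt, hkl, hkl.ne, hkl.ne', hkl.not_gt, hlr, hlr.ne, hlr.ne', hlr.not_gt, hkr, hkr.ne, hkr.ne', hkr.not_gt, hInv, h_symm_of, Ru_of _ _ _ hkr]; done)
        | (simp [twFun, hFun, zFun, RFun, pushFun, fac, st, en, C, X, Y, cmt, hkl, hkl.ne, hkl.ne', hkl.not_gt, hlr, hlr.ne, hlr.ne', hlr.not_gt, hkr, hkr.ne, hkr.ne', hkr.not_gt, hInv, h_symm_of, Ru_of _ _ _ hkr]; group; done)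
        | (simp [twFun, hFun, zFun, RFun, pushFun, fac, st, en, C, X, Y, cmt, hkl, hkl.ne, hkl.ne', hkl.not_gt, hlr, hlr.ne, hlr.ne', hlr.not_gt, hkr, hkr.ne, hkr.ne', hkr.not_gt, hInv, h_symm_of, Ru_of _ _ _ hkr] <;> group)
    · rcases lt_trichotomy m k with hml | hml | hml
      · have hmr := hml.trans hlr
        first
          | (simp [twFun, hFun, zFun, RFun, pushFun, fac, st, en, C, X, Y, cmt, hkl, hkl.ne, hkl.ne', hkl.not_gt, hlr, hlr.ne, hlr.ne', hlr.not_gt, hkr, hkr.ne, hkr.ne', hkr.not_gt, hm, hm.ne, hm.ne', hm.not_gt, hml, hml.ne, hml.ne', hml.not_gt, hmr, hmr.ne, hmr.ne', hmr.not_gt, hInv, h_symm_of, Ru_of _ _ _ hkr]; done)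
          | (simp [twFun, hFun, zFun, RFun, pushFun, fac, st, en, C, X, Y, cmt, hkl, hkl.ne, hkl.ne', hkl.not_gt, hlr, hlr.ne, hlr.ne', hlr.not_gt, hkr, hkr.ne, hkr.ne', hkr.not_gt, hm, hm.ne, hm.ne', hm.not_gt, hml, hml.ne, hml.ne', hml.not_gt, hmr, hmr.ne, hmr.ne', hmr.not_gt, hInv, h_symm_of, Ru_of _ _ _ hkr]; group; done)
          | (simp [twFun, hFun, zFun, RFun, pushFun, fac, st, en, C, X, Y, cmt, hkl, hkl.ne, hkl.ne', hkl.not_gt, hlr, hlr.ne, hlr.ne', hlr.not_gt, hkr, hkr.ne, hkr.ne', hkr.not_gt, hm, hm.ne, hm.ne', hm.not_gt, hml, hml.ne, hml.ne', hml.not_gt, hmr, hmr.ne, hmr.ne', hmr.not_gt, hInv, h_symm_of, Ru_of _ _ _ hkr] <;> group)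
      · subst hml
        first
          | (simp [twFun, hFun, zFun, RFun, pushFun, fac, st, en, C, X, Y, cmt, hkl, hkl.ne, hkl.ne', hkl.not_gt, hlr, hlr.ne, hlr.ne', hlr.not_gt, hkr, hkr.ne, hkr.ne', hkr.not_gt, hInv, h_symm_of, Ru_of _ _ _ hkr]; done)
          | (simp [twFun, hFun, zFun, RFun, pushFun, fac, st, en, C, X, Y, cmt, hkl, hkl.ne, hkl.ne', hkl.not_gt, hlr, hlr.ne, hlr.ne', hlr.not_gt, hkr, hkr.ne, hkr.ne', hkr.not_gt, hInv, h_symm_of, Ru_of _ _ _ hkr]; group; done)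
          | (simp [twFun, hFun, zFun, RFun, pushFun, fac, st, en, C, X, Y, cmt, hkl, hkl.ne, hkl.ne', hkl.not_gt, hlr, hlr.ne, hlr.ne', hlr.not_gt, hkr, hkr.ne, hkr.ne', hkr.not_gt, hInv, h_symm_of, Ru_of _ _ _ hkr] <;> group)
      · rcases lt_trichotomy m r with hr | hr | hr
        · first
            | (simp [twFun, hFun, zFun, RFun, pushFun, fac, st, en, C, X, Y, cmt, hkl, hkl.ne, hkl.ne', hkl.not_gt, hlr, hlr.ne, hlr.ne', hlr.not_gt, hkr, hkr.ne, hkr.ne', hkr.not_gt, hm, hm.ne, hm.ne', hm.not_gt, hml, hml.ne, hml.ne', hml.not_gt, hr, hr.ne, hr.ne', hr.not_gt, hInv, h_symm_of, Ru_of _ _ _ hkr]; done)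
            | (simp [twFun, hFun, zFun, RFun, pushFun, fac, st, en, C, X, Y, cmt, hkl, hkl.ne, hkl.ne', hkl.not_gt, hlr, hlr.ne, hlr.ne', hlr.not_gt, hkr, hkr.ne, hkr.ne', hkr.not_gt, hm, hm.ne, hm.ne', hm.not_gt, hml, hml.ne, hml.ne', hml.not_gt, hr, hr.ne, hr.ne', hr.not_gt, hInv, h_symm_of, Ru_of _ _ _ hkr]; group; done)
            | (simp [twFun, hFun, zFun, RFun, pushFun, fac, st, en, C, X, Y, cmt, hkl, hkl.ne, hkl.ne', hkl.not_gt, hlr, hlr.ne, hlr.ne', hlr.not_gt, hkr, hkr.ne, hkr.ne', hkr.not_gt, hm, hm.ne, hm.ne', hm.not_gt, hml, hml.ne, hml.ne', hml.not_gt, hr, hr.ne, hr.ne', hr.not_gt, hInv, h_symm_of, Ru_of _ _ _ hkr] <;> group)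
        · subst hr
          first
            | (simp [twFun, hFun, zFun, RFun, pushFun, fac, st, en, C, X, Y, cmt, hkl, hkl.ne, hkl.ne', hkl.not_gt, hlr, hlr.ne, hlr.ne', hlr.not_gt, hkr, hkr.ne, hkr.ne', hkr.not_gt, hInv, h_symm_of, Ru_of _ _ _ hkr]; done)
            | (simp [twFun, hFun, zFun, RFun, pushFun, fac, st, en, C, X, Y, cmt, hkl, hkl.ne, hkl.ne', hkl.not_gt, hlr, hlr.ne, hlr.ne', hlr.not_gt, hkr, hkr.ne, hkr.ne', hkr.not_gt, hInv, h_symm_of, Ru_of _ _ _ hkr]; group; done)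
            | (simp [twFun, hFun, zFun, RFun, pushFun, fac, st, en, C, X, Y, cmt, hkl, hkl.ne, hkl.ne', hkl.not_gt, hlr, hlr.ne, hlr.ne', hlr.not_gt, hkr, hkr.ne, hkr.ne', hkr.not_gt, hInv, h_symm_of, Ru_of _ _ _ hkr] <;> group)
        · first
            | (simp [twFun, hFun, zFun, RFun, pushFun, fac, st, en, C, X, Y, cmt, hkl, hkl.ne, hkl.ne', hkl.not_gt, hlr, hlr.ne, hlr.ne', hlr.not_gt, hkr, hkr.ne, hkr.ne', hkr.not_gt, hm, hm.ne, hm.ne', hm.not_gt, hml, hml.ne, hml.ne', hml.not_gt, hr, hr.ne, hr.ne', hr.not_gt, hInv, h_symm_of, Ru_of _ _ _ hkr]; done)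
            | (simp [twFun, hFun, zFun, RFun, pushFun, fac, st, en, C, X, Y, cmt, hkl, hkl.ne, hkl.ne', hkl.not_gt, hlr, hlr.ne, hlr.ne', hlr.not_gt, hkr, hkr.ne, hkr.ne', hkr.not_gt, hm, hm.ne, hm.ne', hm.not_gt, hml, hml.ne, hml.ne', hml.not_gt, hr, hr.ne, hr.ne', hr.not_gt, hInv, h_symm_of, Ru_of _ _ _ hkr]; group; done)
            | (simp [twFun, hFun, zFun, RFun, pushFun, fac, st, en, C, X, Y, cmt, hkl, hkl.ne, hkl.ne', hkl.not_gt, hlr, hlr.ne, hlr.ne', hlr.not_gt, hkr, hkr.ne, hkr.ne', hkr.not_gt, hm, hm.ne, hm.ne', hm.not_gt, hml, hml.ne, hml.ne', hml.not_gt, hr, hr.ne, hr.ne', hr.not_gt, hInv, h_symm_of, Ru_of _ _ _ hkr] <;> group)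
  · by_cases hp : m < p
    · skip
      rcases lt_trichotomy m l with hm | hm | hm
      · have hml := hm.trans hkl
        have hmr := hm.trans hkr
        first
          | (simp [twFun, hFun, zFun, RFun, pushFun, fac, st, en, C, X, Y, cmt, hkl, hkl.ne, hkl.ne', hkl.not_gt, hlr, hlr.ne, hlr.ne', hlr.not_gt, hkr, hkr.ne, hkr.ne', hkr.not_gt, hm, hm.ne, hm.ne', hm.not_gt, hml, hml.ne, hml.ne', hml.not_gt, hmr, hmr.ne, hmr.ne', hmr.not_gt, hp, hp.not_ge, hInv, h_symm_of, Ru_of _ _ _ hkr]; done)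
          | (simp [twFun, hFun, zFun, RFun, pushFun, fac, st, en, C, X, Y, cmt, hkl, hkl.ne, hkl.ne', hkl.not_gt, hlr, hlr.ne, hlr.ne', hlr.not_gt, hkr, hkr.ne, hkr.ne', hkr.not_gt, hm, hm.ne, hm.ne', hm.not_gt, hml, hml.ne, hml.ne', hml.not_gt, hmr, hmr.ne, hmr.ne', hmr.not_gt, hp, hp.not_ge, hInv, h_symm_of, Ru_of _ _ _ hkr]; group; done)
          | (simp [twFun, hFun, zFun, RFun, pushFun, fac, st, en, C, X, Y, cmt, hkl, hkl.ne, hkl.ne', hkl.not_gt, hlr, hlr.ne, hlr.ne', hlr.not_gt, hkr, hkr.ne, hkr.ne', hkr.not_gt, hm, hm.ne, hm.ne', hm.not_gt, hml, hml.ne, hml.ne', hml.not_gt, hmr, hmr.ne, hmr.ne', hmr.not_gt, hp, hp.not_ge, hInv, h_symm_of, Ru_of _ _ _ hkr] <;> group)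
      · subst hm
        first
          | (simp [twFun, hFun, zFun, RFun, pushFun, fac, st, en, C, X, Y, cmt, hkl, hkl.ne, hkl.ne', hkl.not_gt, hlr, hlr.ne, hlr.ne', hlr.not_gt, hkr, hkr.ne, hkr.ne', hkr.not_gt, hp, hp.not_ge, hInv, h_symm_of, Ru_of _ _ _ hkr]; done)
          | (simp [twFun, hFun, zFun, RFun, pushFun, fac, st, en, C, X, Y, cmt, hkl, hkl.ne, hkl.ne', hkl.not_gt, hlr, hlr.ne, hlr.ne', hlr.not_gt, hkr, hkr.ne, hkr.ne', hkr.not_gt, hp, hp.not_ge, hInv, h_symm_of, Ru_of _ _ _ hkr]; group; done)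
          | (simp [twFun, hFun, zFun, RFun, pushFun, fac, st, en, C, X, Y, cmt, hkl, hkl.ne, hkl.ne', hkl.not_gt, hlr, hlr.ne, hlr.ne', hlr.not_gt, hkr, hkr.ne, hkr.ne', hkr.not_gt, hp, hp.not_ge, hInv, h_symm_of, Ru_of _ _ _ hkr] <;> group)
      · rcases lt_trichotomy m k with hml | hml | hml
        · have hmr := hml.trans hlr
          first
            | (simp [twFun, hFun, zFun, RFun, pushFun, fac, st, en, C, X, Y, cmt, hkl, hkl.ne, hkl.ne', hkl.not_gt, hlr, hlr.ne, hlr.ne', hlr.not_gt, hkr, hkr.ne, hkr.ne', hkr.not_gt, hm, hm.ne, hm.ne', hm.not_gt, hml, hml.ne, hml.ne', hml.not_gt, hmr, hmr.ne, hmr.ne', hmr.not_gt, hp, hp.not_ge, hInv, h_symm_of, Ru_of _ _ _ hkr]; done)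
            | (simp [twFun, hFun, zFun, RFun, pushFun, fac, st, en, C, X, Y, cmt, hkl, hkl.ne, hkl.ne', hkl.not_gt, hlr, hlr.ne, hlr.ne', hlr.not_gt, hkr, hkr.ne, hkr.ne', hkr.not_gt, hm, hm.ne, hm.ne', hm.not_gt, hml, hml.ne, hml.ne', hml.not_gt, hmr, hmr.ne, hmr.ne', hmr.not_gt, hp, hp.not_ge, hInv, h_symm_of, Ru_of _ _ _ hkr]; group; done)
            | (simp [twFun, hFun, zFun, RFun, pushFun, fac, st, en, C, X, Y, cmt, hkl, hkl.ne, hkl.ne', hkl.not_gt, hlr, hlr.ne, hlr.ne', hlr.not_gt, hkr, hkr.ne, hkr.ne', hkr.not_gt, hm, hm.ne, hm.ne', hm.not_gt, hml, hml.ne, hml.ne', hml.not_gt, hmr, hmr.ne, hmr.ne', hmr.not_gt, hp, hp.not_ge, hInv, h_symm_of, Ru_of _ _ _ hkr] <;> group)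
        · subst hml
          first
            | (simp [twFun, hFun, zFun, RFun, pushFun, fac, st, en, C, X, Y, cmt, hkl, hkl.ne, hkl.ne', hkl.not_gt, hlr, hlr.ne, hlr.ne', hlr.not_gt, hkr, hkr.ne, hkr.ne', hkr.not_gt, hp, hp.not_ge, hInv, h_symm_of, Ru_of _ _ _ hkr]; done)
            | (simp [twFun, hFun, zFun, RFun, pushFun, fac, st, en, C, X, Y, cmt, hkl, hkl.ne, hkl.ne', hkl.not_gt, hlr, hlr.ne, hlr.ne', hlr.not_gt, hkr, hkr.ne, hkr.ne', hkr.not_gt, hp, hp.not_ge, hInv, h_symm_of, Ru_of _ _ _ hkr]; group; done)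
            | (simp [twFun, hFun, zFun, RFun, pushFun, fac, st, en, C, X, Y, cmt, hkl, hkl.ne, hkl.ne', hkl.not_gt, hlr, hlr.ne, hlr.ne', hlr.not_gt, hkr, hkr.ne, hkr.ne', hkr.not_gt, hp, hp.not_ge, hInv, h_symm_of, Ru_of _ _ _ hkr] <;> group)
        · rcases lt_trichotomy m r with hr | hr | hr
          · first
              | (simp [twFun, hFun, zFun, RFun, pushFun, fac, st, en, C, X, Y, cmt, hkl, hkl.ne, hkl.ne', hkl.not_gt, hlr, hlr.ne, hlr.ne', hlr.not_gt, hkr, hkr.ne, hkr.ne', hkr.not_gt, hm, hm.ne, hm.ne', hm.not_gt, hml, hml.ne, hml.ne', hml.not_gt, hr, hr.ne, hr.ne', hr.not_gt, hp, hp.not_ge, hInv, h_symm_of, Ru_of _ _ _ hkr]; done)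
              | (simp [twFun, hFun, zFun, RFun, pushFun, fac, st, en, C, X, Y, cmt, hkl, hkl.ne, hkl.ne', hkl.not_gt, hlr, hlr.ne, hlr.ne', hlr.not_gt, hkr, hkr.ne, hkr.ne', hkr.not_gt, hm, hm.ne, hm.ne', hm.not_gt, hml, hml.ne, hml.ne', hml.not_gt, hr, hr.ne, hr.ne', hr.not_gt, hp, hp.not_ge, hInv, h_symm_of, Ru_of _ _ _ hkr]; group; done)
              | (simp [twFun, hFun, zFun, RFun, pushFun, fac, st, en, C, X, Y, cmt, hkl, hkl.ne, hkl.ne', hkl.not_gt, hlr, hlr.ne, hlr.ne', hlr.not_gt, hkr, hkr.ne, hkr.ne', hkr.not_gt, hm, hm.ne, hm.ne', hm.not_gt, hml, hml.ne, hml.ne', hml.not_gt, hr, hr.ne, hr.ne', hr.not_gt, hp, hp.not_ge, hInv, h_symm_of, Ru_of _ _ _ hkr] <;> group)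
          · subst hr
            first
              | (simp [twFun, hFun, zFun, RFun, pushFun, fac, st, en, C, X, Y, cmt, hkl, hkl.ne, hkl.ne', hkl.not_gt, hlr, hlr.ne, hlr.ne', hlr.not_gt, hkr, hkr.ne, hkr.ne', hkr.not_gt, hp, hp.not_ge, hInv, h_symm_of, Ru_of _ _ _ hkr]; done)
              | (simp [twFun, hFun, zFun, RFun, pushFun, fac, st, en, C, X, Y, cmt, hkl, hkl.ne, hkl.ne', hkl.not_gt, hlr, hlr.ne, hlr.ne', hlr.not_gt, hkr, hkr.ne, hkr.ne', hkr.not_gt, hp, hp.not_ge, hInv, h_symm_of, Ru_of _ _ _ hkr]; group; done)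
              | (simp [twFun, hFun, zFun, RFun, pushFun, fac, st, en, C, X, Y, cmt, hkl, hkl.ne, hkl.ne', hkl.not_gt, hlr, hlr.ne, hlr.ne', hlr.not_gt, hkr, hkr.ne, hkr.ne', hkr.not_gt, hp, hp.not_ge, hInv, h_symm_of, Ru_of _ _ _ hkr] <;> group)
          · first
              | (simp [twFun, hFun, zFun, RFun, pushFun, fac, st, en, C, X, Y, cmt, hkl, hkl.ne, hkl.ne', hkl.not_gt, hlr, hlr.ne, hlr.ne', hlr.not_gt, hkr, hkr.ne, hkr.ne', hkr.not_gt, hm, hm.ne, hm.ne', hm.not_gt, hml, hml.ne, hml.ne', hml.not_gt, hr, hr.ne, hr.ne', hr.not_gt, hp, hp.not_ge, hInv, h_symm_of, Ru_of _ _ _ hkr]; done)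
              | (simp [twFun, hFun, zFun, RFun, pushFun, fac, st, en, C, X, Y, cmt, hkl, hkl.ne, hkl.ne', hkl.not_gt, hlr, hlr.ne, hlr.ne', hlr.not_gt, hkr, hkr.ne, hkr.ne', hkr.not_gt, hm, hm.ne, hm.ne', hm.not_gt, hml, hml.ne, hml.ne', hml.not_gt, hr, hr.ne, hr.ne', hr.not_gt, hp, hp.not_ge, hInv, h_symm_of, Ru_of _ _ _ hkr]; group; done)
              | (simp [twFun, hFun, zFun, RFun, pushFun, fac, st, en, C, X, Y, cmt, hkl, hkl.ne, hkl.ne', hkl.not_gt, hlr, hlr.ne, hlr.ne', hlr.not_gt, hkr, hkr.ne, hkr.ne', hkr.not_gt, hm, hm.ne, hm.ne', hm.not_gt, hml, hml.ne, hml.ne', hml.not_gt, hr, hr.ne, hr.ne', hr.not_gt, hp, hp.not_ge, hInv, h_symm_of, Ru_of _ _ _ hkr] <;> group)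
    · have hp' : p ≤ m := not_lt.1 hp
      rcases lt_trichotomy m l with hm | hm | hm
      · have hml := hm.trans hkl
        have hmr := hm.trans hkr
        first
          | (simp [twFun, hFun, zFun, RFun, pushFun, fac, st, en, C, X, Y, cmt, hkl, hkl.ne, hkl.ne', hkl.not_gt, hlr, hlr.ne, hlr.ne', hlr.not_gt, hkr, hkr.ne, hkr.ne', hkr.not_gt, hm, hm.ne, hm.ne', hm.not_gt, hml, hml.ne, hml.ne', hml.not_gt, hmr, hmr.ne, hmr.ne', hmr.not_gt, hp, hp', hInv, h_symm_of, Ru_of _ _ _ hkr]; done)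
          | (simp [twFun, hFun, zFun, RFun, pushFun, fac, st, en, C, X, Y, cmt, hkl, hkl.ne, hkl.ne', hkl.not_gt, hlr, hlr.ne, hlr.ne', hlr.not_gt, hkr, hkr.ne, hkr.ne', hkr.not_gt, hm, hm.ne, hm.ne', hm.not_gt, hml, hml.ne, hml.ne', hml.not_gt, hmr, hmr.ne, hmr.ne', hmr.not_gt, hp, hp', hInv, h_symm_of, Ru_of _ _ _ hkr]; group; done)
          | (simp [twFun, hFun, zFun, RFun, pushFun, fac, st, en, C, X, Y, cmt, hkl, hkl.ne, hkl.ne', hkl.not_gt, hlr, hlr.ne, hlr.ne', hlr.not_gt, hkr, hkr.ne, hkr.ne', hkr.not_gt, hm, hm.ne, hm.ne', hm.not_gt, hml, hml.ne, hml.ne', hml.not_gt, hmr, hmr.ne, hmr.ne', hmr.not_gt, hp, hp', hInv, h_symm_of, Ru_of _ _ _ hkr] <;> group)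
      · subst hm
        first
          | (simp [twFun, hFun, zFun, RFun, pushFun, fac, st, en, C, X, Y, cmt, hkl, hkl.ne, hkl.ne', hkl.not_gt, hlr, hlr.ne, hlr.ne', hlr.not_gt, hkr, hkr.ne, hkr.ne', hkr.not_gt, hp, hp', hInv, h_symm_of, Ru_of _ _ _ hkr]; done)
          | (simp [twFun, hFun, zFun, RFun, pushFun, fac, st, en, C, X, Y, cmt, hkl, hkl.ne, hkl.ne', hkl.not_gt, hlr, hlr.ne, hlr.ne', hlr.not_gt, hkr, hkr.ne, hkr.ne', hkr.not_gt, hp, hp', hInv, h_symm_of, Ru_of _ _ _ hkr]; group; done)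
          | (simp [twFun, hFun, zFun, RFun, pushFun, fac, st, en, C, X, Y, cmt, hkl, hkl.ne, hkl.ne', hkl.not_gt, hlr, hlr.ne, hlr.ne', hlr.not_gt, hkr, hkr.ne, hkr.ne', hkr.not_gt, hp, hp', hInv, h_symm_of, Ru_of _ _ _ hkr] <;> group)
      · rcases lt_trichotomy m k with hml | hml | hml
        · have hmr := hml.trans hlr
          first
            | (simp [twFun, hFun, zFun, RFun, pushFun, fac, st, en, C, X, Y, cmt, hkl, hkl.ne, hkl.ne', hkl.not_gt, hlr, hlr.ne, hlr.ne', hlr.not_gt, hkr, hkr.ne, hkr.ne', hkr.not_gt, hm, hm.ne, hm.ne', hm.not_gt, hml, hml.ne, hml.ne', hml.not_gt, hmr, hmr.ne, hmr.ne', hmr.not_gt, hp, hp', hInv, h_symm_of, Ru_of _ _ _ hkr]; done)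
            | (simp [twFun, hFun, zFun, RFun, pushFun, fac, st, en, C, X, Y, cmt, hkl, hkl.ne, hkl.ne', hkl.not_gt, hlr, hlr.ne, hlr.ne', hlr.not_gt, hkr, hkr.ne, hkr.ne', hkr.not_gt, hm, hm.ne, hm.ne', hm.not_gt, hml, hml.ne, hml.ne', hml.not_gt, hmr, hmr.ne, hmr.ne', hmr.not_gt, hp, hp', hInv, h_symm_of, Ru_of _ _ _ hkr]; group; done)
            | (simp [twFun, hFun, zFun, RFun, pushFun, fac, st, en, C, X, Y, cmt, hkl, hkl.ne, hkl.ne', hkl.not_gt, hlr, hlr.ne, hlr.ne', hlr.not_gt, hkr, hkr.ne, hkr.ne', hkr.not_gt, hm, hm.ne, hm.ne', hm.not_gt, hml, hml.ne, hml.ne', hml.not_gt, hmr, hmr.ne, hmr.ne', hmr.not_gt, hp, hp', hInv, h_symm_of, Ru_of _ _ _ hkr] <;> group)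
        · subst hml
          first
            | (simp [twFun, hFun, zFun, RFun, pushFun, fac, st, en, C, X, Y, cmt, hkl, hkl.ne, hkl.ne', hkl.not_gt, hlr, hlr.ne, hlr.ne', hlr.not_gt, hkr, hkr.ne, hkr.ne', hkr.not_gt, hp, hp', hInv, h_symm_of, Ru_of _ _ _ hkr]; done)
            | (simp [twFun, hFun, zFun, RFun, pushFun, fac, st, en, C, X, Y, cmt, hkl, hkl.ne, hkl.ne', hkl.not_gt, hlr, hlr.ne, hlr.ne', hlr.not_gt, hkr, hkr.ne, hkr.ne', hkr.not_gt, hp, hp', hInv, h_symm_of, Ru_of _ _ _ hkr]; group; done)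
            | (simp [twFun, hFun, zFun, RFun, pushFun, fac, st, en, C, X, Y, cmt, hkl, hkl.ne, hkl.ne', hkl.not_gt, hlr, hlr.ne, hlr.ne', hlr.not_gt, hkr, hkr.ne, hkr.ne', hkr.not_gt, hp, hp', hInv, h_symm_of, Ru_of _ _ _ hkr] <;> group)
        · rcases lt_trichotomy m r with hr | hr | hr
          · first
              | (simp [twFun, hFun, zFun, RFun, pushFun, fac, st, en, C, X, Y, cmt, hkl, hkl.ne, hkl.ne', hkl.not_gt, hlr, hlr.ne, hlr.ne', hlr.not_gt, hkr, hkr.ne, hkr.ne', hkr.not_gt, hm, hm.ne, hm.ne', hm.not_gt, hml, hml.ne, hml.ne', hml.not_gt, hr, hr.ne, hr.ne', hr.not_gt, hp, hp', hInv, h_symm_of, Ru_of _ _ _ hkr]; done)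
              | (simp [twFun, hFun, zFun, RFun, pushFun, fac, st, en, C, X, Y, cmt, hkl, hkl.ne, hkl.ne', hkl.not_gt, hlr, hlr.ne, hlr.ne', hlr.not_gt, hkr, hkr.ne, hkr.ne', hkr.not_gt, hm, hm.ne, hm.ne', hm.not_gt, hml, hml.ne, hml.ne', hml.not_gt, hr, hr.ne, hr.ne', hr.not_gt, hp, hp', hInv, h_symm_of, Ru_of _ _ _ hkr]; group; done)
              | (simp [twFun, hFun, zFun, RFun, pushFun, fac, st, en, C, X, Y, cmt, hkl, hkl.ne, hkl.ne', hkl.not_gt, hlr, hlr.ne, hlr.ne', hlr.not_gt, hkr, hkr.ne, hkr.ne', hkr.not_gt, hm, hm.ne, hm.ne', hm.not_gt, hml, hml.ne, hml.ne', hml.not_gt, hr, hr.ne, hr.ne', hr.not_gt, hp, hp', hInv, h_symm_of, Ru_of _ _ _ hkr] <;> group)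
          · subst hr
            first
              | (simp [twFun, hFun, zFun, RFun, pushFun, fac, st, en, C, X, Y, cmt, hkl, hkl.ne, hkl.ne', hkl.not_gt, hlr, hlr.ne, hlr.ne', hlr.not_gt, hkr, hkr.ne, hkr.ne', hkr.not_gt, hp, hp', hInv, h_symm_of, Ru_of _ _ _ hkr]; done)
              | (simp [twFun, hFun, zFun, RFun, pushFun, fac, st, en, C, X, Y, cmt, hkl, hkl.ne, hkl.ne', hkl.not_gt, hlr, hlr.ne, hlr.ne', hlr.not_gt, hkr, hkr.ne, hkr.ne', hkr.not_gt, hp, hp', hInv, h_symm_of, Ru_of _ _ _ hkr]; group; done)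
              | (simp [twFun, hFun, zFun, RFun, pushFun, fac, st, en, C, X, Y, cmt, hkl, hkl.ne, hkl.ne', hkl.not_gt, hlr, hlr.ne, hlr.ne', hlr.not_gt, hkr, hkr.ne, hkr.ne', hkr.not_gt, hp, hp', hInv, h_symm_of, Ru_of _ _ _ hkr] <;> group)
          · first
              | (simp [twFun, hFun, zFun, RFun, pushFun, fac, st, en, C, X, Y, cmt, hkl, hkl.ne, hkl.ne', hkl.not_gt, hlr, hlr.ne, hlr.ne', hlr.not_gt, hkr, hkr.ne, hkr.ne', hkr.not_gt, hm, hm.ne, hm.ne', hm.not_gt, hml, hml.ne, hml.ne', hml.not_gt, hr, hr.ne, hr.ne', hr.not_gt, hp, hp', hInv, h_symm_of, Ru_of _ _ _ hkr]; done)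
              | (simp [twFun, hFun, zFun, RFun, pushFun, fac, st, en, C, X, Y, cmt, hkl, hkl.ne, hkl.ne', hkl.not_gt, hlr, hlr.ne, hlr.ne', hlr.not_gt, hkr, hkr.ne, hkr.ne', hkr.not_gt, hm, hm.ne, hm.ne', hm.not_gt, hml, hml.ne, hml.ne', hml.not_gt, hr, hr.ne, hr.ne', hr.not_gt, hp, hp', hInv, h_symm_of, Ru_of _ _ _ hkr]; group; done)
              | (simp [twFun, hFun, zFun, RFun, pushFun, fac, st, en, C, X, Y, cmt, hkl, hkl.ne, hkl.ne', hkl.not_gt, hlr, hlr.ne, hlr.ne', hlr.not_gt, hkr, hkr.ne, hkr.ne', hkr.not_gt, hm, hm.ne, hm.ne', hm.not_gt, hml, hml.ne, hml.ne', hml.not_gt, hr, hr.ne, hr.ne', hr.not_gt, hp, hp', hInv, h_symm_of, Ru_of _ _ _ hkr] <;> group)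

/-- for `l < k`, conjugation by `h k` maps the push around `l` to a conjugate -/
theorem h_Ru_lt (p r k l : ℕ) (hk : l < k) (hl : k < r) :
    h p k * Ru p r l * (h p k)⁻¹ =
      cmt (Ru p r k)⁻¹ (pu0 p r)⁻¹ * Ru p r l * (cmt (Ru p r k)⁻¹ (pu0 p r)⁻¹)⁻¹ := by
  have h1 := h_Ru_aux p r l k hk hl
  have h2 := h_Pu0 p r k hl
  generalize h p k = a at *
  generalize pu0 p r = b at *
  generalize Ru p r l = c at *
  generalize Ru p r k = d at *
  have h3 : a * (b * c * b⁻¹) * a⁻¹ = b * c * b⁻¹ := by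
    rw [h1, mul_inv_cancel_right]
  have h4 : (d * a) * b * (d * a)⁻¹ = b := by
    rw [h2]; group
  have h5 : a * b * a⁻¹ = d⁻¹ * b * d := by
    have h7 : d * (a * b * a⁻¹) * d⁻¹ = b := by
      calc d * (a * b * a⁻¹) * d⁻¹ = d * a * b * (d * a)⁻¹ := by group
        _ = b := h4
    calc a * b * a⁻¹ = d⁻¹ * (d * (a * b * a⁻¹) * d⁻¹) * d := by group
      _ = d⁻¹ * b * d := by rw [h7]
  have h6 : a * c * a⁻¹ = (a * b * a⁻¹)⁻¹ * (a * (b * c * b⁻¹) * a⁻¹) * (a * b * a⁻¹) := by group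
  rw [h6, h3, h5, cmt]
  group

theorem Ru_Zt (p r k : ℕ) (hk : k < r) :
    Ru p r k * Zt p r = Zt p r * Ru p r k := by
  have hkr := hk
  refine aut_ext2 ?_
  intro l
  clear hk
  simp only [MulAut.mul_apply]
  rcases l with m | m | m
  · fin_cases m <;>
      first
        | (simp [twFun, hFun, zFun, RFun, pushFun, fac, st, en, C, X, Y, cmt, hkr, hkr.ne, hkr.ne', hkr.not_gt, Ru_of _ _ _ hkr]; done)
        | (simp [twFun, hFun, zFun, RFun, pushFun, fac, st, en, C, X, Y, cmt, hkr, hkr.ne, hkr.ne', hkr.not_gt, Ru_of _ _ _ hkr]; group; done)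
        | (simp [twFun, hFun, zFun, RFun, pushFun, fac, st, en, C, X, Y, cmt, hkr, hkr.ne, hkr.ne', hkr.not_gt, Ru_of _ _ _ hkr] <;> group)
  · skip
    rcases lt_trichotomy m k with hm | hm | hm
    · have hr := hm.trans hkr
      first
        | (simp [twFun, hFun, zFun, RFun, pushFun, fac, st, en, C, X, Y, cmt, hkr, hkr.ne, hkr.ne', hkr.not_gt, hm, hm.ne, hm.ne', hm.not_gt, hr, hr.ne, hr.ne', hr.not_gt, Ru_of _ _ _ hkr]; done)
        | (simp [twFun, hFun, zFun, RFun, pushFun, fac, st, en, C, X, Y, cmt, hkr, hkr.ne, hkr.ne', hkr.not_gt, hm, hm.ne, hm.ne', hm.not_gt, hr, hr.ne, hr.ne', hr.not_gt, Ru_of _ _ _ hkr]; group; done)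
        | (simp [twFun, hFun, zFun, RFun, pushFun, fac, st, en, C, X, Y, cmt, hkr, hkr.ne, hkr.ne', hkr.not_gt, hm, hm.ne, hm.ne', hm.not_gt, hr, hr.ne, hr.ne', hr.not_gt, Ru_of _ _ _ hkr] <;> group)
    · subst hm
      first
        | (simp [twFun, hFun, zFun, RFun, pushFun, fac, st, en, C, X, Y, cmt, hkr, hkr.ne, hkr.ne', hkr.not_gt, Ru_of _ _ _ hkr]; done)
        | (simp [twFun, hFun, zFun, RFun, pushFun, fac, st, en, C, X, Y, cmt, hkr, hkr.ne, hkr.ne', hkr.not_gt, Ru_of _ _ _ hkr]; group; done)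
        | (simp [twFun, hFun, zFun, RFun, pushFun, fac, st, en, C, X, Y, cmt, hkr, hkr.ne, hkr.ne', hkr.not_gt, Ru_of _ _ _ hkr] <;> group)
    · rcases lt_trichotomy m r with hr | hr | hr
      · first
          | (simp [twFun, hFun, zFun, RFun, pushFun, fac, st, en, C, X, Y, cmt, hkr, hkr.ne, hkr.ne', hkr.not_gt, hm, hm.ne, hm.ne', hm.not_gt, hr, hr.ne, hr.ne', hr.not_gt, Ru_of _ _ _ hkr]; done)
          | (simp [twFun, hFun, zFun, RFun, pushFun, fac, st, en, C, X, Y, cmt, hkr, hkr.ne, hkr.ne', hkr.not_gt, hm, hm.ne, hm.ne', hm.not_gt, hr, hr.ne, hr.ne', hr.not_gt, Ru_of _ _ _ hkr]; group; done)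
          | (simp [twFun, hFun, zFun, RFun, pushFun, fac, st, en, C, X, Y, cmt, hkr, hkr.ne, hkr.ne', hkr.not_gt, hm, hm.ne, hm.ne', hm.not_gt, hr, hr.ne, hr.ne', hr.not_gt, Ru_of _ _ _ hkr] <;> group)
      · subst hr
        first
          | (simp [twFun, hFun, zFun, RFun, pushFun, fac, st, en, C, X, Y, cmt, hkr, hkr.ne, hkr.ne', hkr.not_gt, Ru_of _ _ _ hkr]; done)
          | (simp [twFun, hFun, zFun, RFun, pushFun, fac, st, en, C, X, Y, cmt, hkr, hkr.ne, hkr.ne', hkr.not_gt, Ru_of _ _ _ hkr]; group; done)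
          | (simp [twFun, hFun, zFun, RFun, pushFun, fac, st, en, C, X, Y, cmt, hkr, hkr.ne, hkr.ne', hkr.not_gt, Ru_of _ _ _ hkr] <;> group)
      · first
          | (simp [twFun, hFun, zFun, RFun, pushFun, fac, st, en, C, X, Y, cmt, hkr, hkr.ne, hkr.ne', hkr.not_gt, hm, hm.ne, hm.ne', hm.not_gt, hr, hr.ne, hr.ne', hr.not_gt, Ru_of _ _ _ hkr]; done)
          | (simp [twFun, hFun, zFun, RFun, pushFun, fac, st, en, C, X, Y, cmt, hkr, hkr.ne, hkr.ne', hkr.not_gt, hm, hm.ne, hm.ne', hm.not_gt, hr, hr.ne, hr.ne', hr.not_gt, Ru_of _ _ _ hkr]; group; done)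
          | (simp [twFun, hFun, zFun, RFun, pushFun, fac, st, en, C, X, Y, cmt, hkr, hkr.ne, hkr.ne', hkr.not_gt, hm, hm.ne, hm.ne', hm.not_gt, hr, hr.ne, hr.ne', hr.not_gt, Ru_of _ _ _ hkr] <;> group)
  · by_cases hp : m < p
    · skip
      rcases lt_trichotomy m k with hm | hm | hm
      · have hr := hm.trans hkr
        first
          | (simp [twFun, hFun, zFun, RFun, pushFun, fac, st, en, C, X, Y, cmt, hkr, hkr.ne, hkr.ne', hkr.not_gt, hm, hm.ne, hm.ne', hm.not_gt, hr, hr.ne, hr.ne', hr.not_gt, hp, hp.not_ge, Ru_of _ _ _ hkr]; done)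
          | (simp [twFun, hFun, zFun, RFun, pushFun, fac, st, en, C, X, Y, cmt, hkr, hkr.ne, hkr.ne', hkr.not_gt, hm, hm.ne, hm.ne', hm.not_gt, hr, hr.ne, hr.ne', hr.not_gt, hp, hp.not_ge, Ru_of _ _ _ hkr]; group; done)
          | (simp [twFun, hFun, zFun, RFun, pushFun, fac, st, en, C, X, Y, cmt, hkr, hkr.ne, hkr.ne', hkr.not_gt, hm, hm.ne, hm.ne', hm.not_gt, hr, hr.ne, hr.ne', hr.not_gt, hp, hp.not_ge, Ru_of _ _ _ hkr] <;> group)
      · subst hm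
        first
          | (simp [twFun, hFun, zFun, RFun, pushFun, fac, st, en, C, X, Y, cmt, hkr, hkr.ne, hkr.ne', hkr.not_gt, hp, hp.not_ge, Ru_of _ _ _ hkr]; done)
          | (simp [twFun, hFun, zFun, RFun, pushFun, fac, st, en, C, X, Y, cmt, hkr, hkr.ne, hkr.ne', hkr.not_gt, hp, hp.not_ge, Ru_of _ _ _ hkr]; group; done)
          | (simp [twFun, hFun, zFun, RFun, pushFun, fac, st, en, C, X, Y, cmt, hkr, hkr.ne, hkr.ne', hkr.not_gt, hp, hp.not_ge, Ru_of _ _ _ hkr] <;> group)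
      · rcases lt_trichotomy m r with hr | hr | hr
        · first
            | (simp [twFun, hFun, zFun, RFun, pushFun, fac, st, en, C, X, Y, cmt, hkr, hkr.ne, hkr.ne', hkr.not_gt, hm, hm.ne, hm.ne', hm.not_gt, hr, hr.ne, hr.ne', hr.not_gt, hp, hp.not_ge, Ru_of _ _ _ hkr]; done)
            | (simp [twFun, hFun, zFun, RFun, pushFun, fac, st, en, C, X, Y, cmt, hkr, hkr.ne, hkr.ne', hkr.not_gt, hm, hm.ne, hm.ne', hm.not_gt, hr, hr.ne, hr.ne', hr.not_gt, hp, hp.not_ge, Ru_of _ _ _ hkr]; group; done)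
            | (simp [twFun, hFun, zFun, RFun, pushFun, fac, st, en, C, X, Y, cmt, hkr, hkr.ne, hkr.ne', hkr.not_gt, hm, hm.ne, hm.ne', hm.not_gt, hr, hr.ne, hr.ne', hr.not_gt, hp, hp.not_ge, Ru_of _ _ _ hkr] <;> group)
        · subst hr
          first
            | (simp [twFun, hFun, zFun, RFun, pushFun, fac, st, en, C, X, Y, cmt, hkr, hkr.ne, hkr.ne', hkr.not_gt, hp, hp.not_ge, Ru_of _ _ _ hkr]; done)
            | (simp [twFun, hFun, zFun, RFun, pushFun, fac, st, en, C, X, Y, cmt, hkr, hkr.ne, hkr.ne', hkr.not_gt, hp, hp.not_ge, Ru_of _ _ _ hkr]; group; done)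
            | (simp [twFun, hFun, zFun, RFun, pushFun, fac, st, en, C, X, Y, cmt, hkr, hkr.ne, hkr.ne', hkr.not_gt, hp, hp.not_ge, Ru_of _ _ _ hkr] <;> group)
        · first
            | (simp [twFun, hFun, zFun, RFun, pushFun, fac, st, en, C, X, Y, cmt, hkr, hkr.ne, hkr.ne', hkr.not_gt, hm, hm.ne, hm.ne', hm.not_gt, hr, hr.ne, hr.ne', hr.not_gt, hp, hp.not_ge, Ru_of _ _ _ hkr]; done)
            | (simp [twFun, hFun, zFun, RFun, pushFun, fac, st, en, C, X, Y, cmt, hkr, hkr.ne, hkr.ne', hkr.not_gt, hm, hm.ne, hm.ne', hm.not_gt, hr, hr.ne, hr.ne', hr.not_gt, hp, hp.not_ge, Ru_of _ _ _ hkr]; group; done)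
            | (simp [twFun, hFun, zFun, RFun, pushFun, fac, st, en, C, X, Y, cmt, hkr, hkr.ne, hkr.ne', hkr.not_gt, hm, hm.ne, hm.ne', hm.not_gt, hr, hr.ne, hr.ne', hr.not_gt, hp, hp.not_ge, Ru_of _ _ _ hkr] <;> group)
    · have hp' : p ≤ m := not_lt.1 hp
      rcases lt_trichotomy m k with hm | hm | hm
      · have hr := hm.trans hkr
        first
          | (simp [twFun, hFun, zFun, RFun, pushFun, fac, st, en, C, X, Y, cmt, hkr, hkr.ne, hkr.ne', hkr.not_gt, hm, hm.ne, hm.ne', hm.not_gt, hr, hr.ne, hr.ne', hr.not_gt, hp, hp', Ru_of _ _ _ hkr]; done)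
          | (simp [twFun, hFun, zFun, RFun, pushFun, fac, st, en, C, X, Y, cmt, hkr, hkr.ne, hkr.ne', hkr.not_gt, hm, hm.ne, hm.ne', hm.not_gt, hr, hr.ne, hr.ne', hr.not_gt, hp, hp', Ru_of _ _ _ hkr]; group; done)
          | (simp [twFun, hFun, zFun, RFun, pushFun, fac, st, en, C, X, Y, cmt, hkr, hkr.ne, hkr.ne', hkr.not_gt, hm, hm.ne, hm.ne', hm.not_gt, hr, hr.ne, hr.ne', hr.not_gt, hp, hp', Ru_of _ _ _ hkr] <;> group)
      · subst hm
        first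
          | (simp [twFun, hFun, zFun, RFun, pushFun, fac, st, en, C, X, Y, cmt, hkr, hkr.ne, hkr.ne', hkr.not_gt, hp, hp', Ru_of _ _ _ hkr]; done)
          | (simp [twFun, hFun, zFun, RFun, pushFun, fac, st, en, C, X, Y, cmt, hkr, hkr.ne, hkr.ne', hkr.not_gt, hp, hp', Ru_of _ _ _ hkr]; group; done)
          | (simp [twFun, hFun, zFun, RFun, pushFun, fac, st, en, C, X, Y, cmt, hkr, hkr.ne, hkr.ne', hkr.not_gt, hp, hp', Ru_of _ _ _ hkr] <;> group)
      · rcases lt_trichotomy m r with hr | hr | hr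
        · first
            | (simp [twFun, hFun, zFun, RFun, pushFun, fac, st, en, C, X, Y, cmt, hkr, hkr.ne, hkr.ne', hkr.not_gt, hm, hm.ne, hm.ne', hm.not_gt, hr, hr.ne, hr.ne', hr.not_gt, hp, hp', Ru_of _ _ _ hkr]; done)
            | (simp [twFun, hFun, zFun, RFun, pushFun, fac, st, en, C, X, Y, cmt, hkr, hkr.ne, hkr.ne', hkr.not_gt, hm, hm.ne, hm.ne', hm.not_gt, hr, hr.ne, hr.ne', hr.not_gt, hp, hp', Ru_of _ _ _ hkr]; group; done)
            | (simp [twFun, hFun, zFun, RFun, pushFun, fac, st, en, C, X, Y, cmt, hkr, hkr.ne, hkr.ne', hkr.not_gt, hm, hm.ne, hm.ne', hm.not_gt, hr, hr.ne, hr.ne', hr.not_gt, hp, hp', Ru_of _ _ _ hkr] <;> group)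
        · subst hr
          first
            | (simp [twFun, hFun, zFun, RFun, pushFun, fac, st, en, C, X, Y, cmt, hkr, hkr.ne, hkr.ne', hkr.not_gt, hp, hp', Ru_of _ _ _ hkr]; done)
            | (simp [twFun, hFun, zFun, RFun, pushFun, fac, st, en, C, X, Y, cmt, hkr, hkr.ne, hkr.ne', hkr.not_gt, hp, hp', Ru_of _ _ _ hkr]; group; done)
            | (simp [twFun, hFun, zFun, RFun, pushFun, fac, st, en, C, X, Y, cmt, hkr, hkr.ne, hkr.ne', hkr.not_gt, hp, hp', Ru_of _ _ _ hkr] <;> group)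
        · first
            | (simp [twFun, hFun, zFun, RFun, pushFun, fac, st, en, C, X, Y, cmt, hkr, hkr.ne, hkr.ne', hkr.not_gt, hm, hm.ne, hm.ne', hm.not_gt, hr, hr.ne, hr.ne', hr.not_gt, hp, hp', Ru_of _ _ _ hkr]; done)
            | (simp [twFun, hFun, zFun, RFun, pushFun, fac, st, en, C, X, Y, cmt, hkr, hkr.ne, hkr.ne', hkr.not_gt, hm, hm.ne, hm.ne', hm.not_gt, hr, hr.ne, hr.ne', hr.not_gt, hp, hp', Ru_of _ _ _ hkr]; group; done)
            | (simp [twFun, hFun, zFun, RFun, pushFun, fac, st, en, C, X, Y, cmt, hkr, hkr.ne, hkr.ne', hkr.not_gt, hm, hm.ne, hm.ne', hm.not_gt, hr, hr.ne, hr.ne', hr.not_gt, hp, hp', Ru_of _ _ _ hkr] <;> group)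

end MCG
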