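import Pool.Agent.H60.MCG.MP

/-! Freeness of the group of pushes. -/

namespace MCG

/-- the flip of the two points over `1` -/
private def mjFlip : Equiv.Perm (Fr × Bool) :=
  Equiv.swap ((1 : Fr), true) ((1 : Fr), false)

/-- left multiplication on the first coordinate -/
private def mjMul (g : Fr) : Equiv.Perm (Fr × Bool) :=
  Equiv.prodCongr (Equiv.mulLeft g) (Equiv.refl Bool)

private def mjAct (r : ℕ) : Fr →* Equiv.Perm (Fr × Bool) :=
  FreeGroup.lift (fun l => if l = Letter.x r then mjFlip else mjMul (FreeGroup.of l))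

private theorem mjFlip_fst (q : Fr × Bool) : (mjFlip q).1 = q.1 := by
  unfold mjFlip
  rw [Equiv.swap_apply_def]
  split_ifs with h1 h2
  · rw [h1]
  · rw [h2]
  · rfl

private theorem mjAct_fst (r : ℕ) (w : Fr) : ∀ q : Fr × Bool, (mjAct r w q).1 = kill r w * q.1 := by
  have inv : ∀ v : Fr, (∀ q : Fr × Bool, (mjAct r v q).1 = kill r v * q.1) →
      ∀ q : Fr × Bool, (mjAct r v⁻¹ q).1 = kill r v⁻¹ * q.1 := by
    intro v hv q
    have h1 := hv (mjAct r v⁻¹ q)
    have h2 : mjAct r v (mjAct r v⁻¹ q) = q := by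
      rw [← Equiv.Perm.mul_apply, ← map_mul, mul_inv_cancel, map_one, Equiv.Perm.one_apply]
    rw [h2] at h1
    rw [map_inv (kill r), h1, inv_mul_cancel_left]
  induction w using FreeGroup.induction_on with
  | C1 => intro q; simp
  | of l =>
    intro q
    by_cases hl : l = Letter.x r
    · subst hl
      have : mjAct r (FreeGroup.of (Letter.x r)) = mjFlip := by simp [mjAct]
      rw [this, mjFlip_fst]
      simp [kill]
    · have : mjAct r (FreeGroup.of l) = mjMul (FreeGroup.of l) := by simp [mjAct, hl]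
      rw [this]
      simp [kill, hl, mjMul]
  | inv_of l ih => exact inv _ ih
  | mul a b iha ihb =>
    intro q
    rw [map_mul, Equiv.Perm.mul_apply, iha, ihb, map_mul, mul_assoc]

/-- an element conjugating `x r` to itself becomes trivial when `x r` is killed, if it lies in ... -/
theorem kill_eq_one_of_conj (r : ℕ) (w : Fr) (hw : w * X r * w⁻¹ = X r) : kill r w = 1 := by
  have hX : mjAct r (X r) = mjFlip := by simp [mjAct, X]
  set q : Fr × Bool := mjAct r w ((1 : Fr), true) with hq
  have h1 : mjAct r (X r) q = mjAct r w ((1 : Fr), false) := by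
    have h2 : X r * w = w * X r := by
      calc X r * w = (w * X r * w⁻¹) * w := by rw [hw]
        _ = w * X r := by group
    rw [hq, ← Equiv.Perm.mul_apply, ← map_mul, h2, map_mul, Equiv.Perm.mul_apply, hX]
    have h9 : mjFlip ((1 : Fr), true) = ((1 : Fr), false) := Equiv.swap_apply_left _ _
    rw [h9]
  have h3 : mjAct r (X r) q ≠ q := by
    rw [h1, hq]
    intro h
    have := (mjAct r w).injective h
    simp at this
  rw [hX] at h3
  have h4 : q = ((1 : Fr), true) ∨ q = ((1 : Fr), false) := by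
    by_contra hcon
    push Not at hcon
    exact h3 (Equiv.swap_apply_of_ne_of_ne hcon.1 hcon.2)
  have h5 : q.1 = 1 := by rcases h4 with h | h <;> rw [h]
  rw [hq, mjAct_fst] at h5
  simpa using h5

/-- replacing the letter `y r` by `1` -/
private def mjTh (r : ℕ) (a : Fr) : Fr →* Fr :=
  FreeGroup.lift (fun l => if l = Letter.y r then a else FreeGroup.of l)

private theorem mjTh_ne (r : ℕ) (a : Fr) (l : Letter) (hl : l ≠ Letter.y r) :
    mjTh r a (FreeGroup.of l) = FreeGroup.of l := by simp [mjTh, hl]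

private theorem mjTh_y (r : ℕ) (a : Fr) : mjTh r a (FreeGroup.of (Letter.y r)) = a := by
  simp [mjTh]

/-- two homomorphisms which agree on all letters but `y r` agree on the fixed elements -/
private theorem mj_ext {G : Type} [Group G] (r : ℕ) (f g : Fr →* G)
    (hfg : ∀ l ≠ Letter.y r, f (FreeGroup.of l) = g (FreeGroup.of l)) (w : Fr)
    (hw : mjTh r 1 w = w) : f w = g w := by
  have h : f.comp (mjTh r 1) = g.comp (mjTh r 1) := by
    ext l
    by_cases hl : l = Letter.y r
    · subst hl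
      simp [mjTh_y]
    · simp [mjTh_ne r 1 l hl, hfg l hl]
  have h2 := DFunLike.congr_fun h w
  simp only [MonoidHom.comp_apply, hw] at h2
  exact h2

private structure MJG (p r : ℕ) (φ : MulAut Fr) (w u : Fr) : Prop where
  hw : mjTh r 1 w = w
  hu : mjTh r 1 u = u
  hx : φ (X r) = w * X r * w⁻¹
  hy : φ (Y r) = u * Y r
  huw : p ≤ r → u = w
  hth : ∀ l ≠ Letter.y r, mjTh r 1 (φ (FreeGroup.of l)) = φ (FreeGroup.of l)
  hk : ∀ l ≠ Letter.y r, kill r (φ (FreeGroup.of l)) = kill r (FreeGroup.of l)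

private theorem MJG.th {p r : ℕ} {φ : MulAut Fr} {w u : Fr} (h : MJG p r φ w u) (v : Fr)
    (hv : mjTh r 1 v = v) : mjTh r 1 (φ v) = φ v :=
  mj_ext r ((mjTh r 1).comp φ.toMonoidHom) φ.toMonoidHom (fun l hl => h.hth l hl) v hv

private theorem MJG.kl {p r : ℕ} {φ : MulAut Fr} {w u : Fr} (h : MJG p r φ w u) (v : Fr)
    (hv : mjTh r 1 v = v) : kill r (φ v) = kill r v :=
  mj_ext r ((kill r).comp φ.toMonoidHom) (kill r) (fun l hl => h.hk l hl) v hv

private theorem MJG.mul {p r : ℕ} {φ ψ : MulAut Fr} {w u w' u' : Fr} (h : MJG p r φ w u)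
    (h' : MJG p r ψ w' u') : MJG p r (φ * ψ) (φ w' * w) (φ u' * u) where
  hw := by rw [map_mul, h.th _ h'.hw, h.hw]
  hu := by rw [map_mul, h.th _ h'.hu, h.hu]
  hx := by
    rw [MulAut.mul_apply, h'.hx, map_mul, map_mul, map_inv, h.hx]; group
  hy := by
    rw [MulAut.mul_apply, h'.hy, map_mul, h.hy]; group
  huw := by
    intro hp
    rw [h.huw hp, h'.huw hp]
  hth := by
    intro l hl
    rw [MulAut.mul_apply]
    exact h.th _ (h'.hth l hl)
  hk := by
    intro l hl
    rw [MulAut.mul_apply, h.kl _ (h'.hth l hl), h'.hk l hl]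

private theorem MJG.th_inv {p r : ℕ} {φ : MulAut Fr} {w u : Fr} (h : MJG p r φ w u) (v : Fr)
    (hv : mjTh r 1 v = v) : mjTh r 1 (φ⁻¹ v) = φ⁻¹ v := by
  have h1 : φ.toMonoidHom.comp (mjTh r 1) = (mjTh r u⁻¹).comp φ.toMonoidHom := by
    ext l
    by_cases hl : l = Letter.y r
    · subst hl
      have h2 : φ (FreeGroup.of (Letter.y r)) = u * FreeGroup.of (Letter.y r) := h.hy
      have h3 : mjTh r u⁻¹ u = mjTh r 1 u :=
        mj_ext r (mjTh r u⁻¹) (mjTh r 1)
          (fun l hl => by rw [mjTh_ne _ _ _ hl, mjTh_ne _ _ _ hl]) u h.hu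
      simp only [MonoidHom.comp_apply, mjTh_y, map_one, MulEquiv.toMonoidHom_eq_coe,
        MonoidHom.coe_coe, h2, map_mul, h3, h.hu]
      simp
    · have h3 : mjTh r u⁻¹ (φ (FreeGroup.of l)) = mjTh r 1 (φ (FreeGroup.of l)) :=
        mj_ext r (mjTh r u⁻¹) (mjTh r 1)
          (fun l hl => by rw [mjTh_ne _ _ _ hl, mjTh_ne _ _ _ hl]) _ (h.hth l hl)
      simp only [MonoidHom.comp_apply, mjTh_ne r 1 l hl, MulEquiv.toMonoidHom_eq_coe,
        MonoidHom.coe_coe, h3, h.hth l hl]
  have h4 : mjTh r u⁻¹ v = v := by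
    have := mj_ext r (mjTh r u⁻¹) (mjTh r 1)
      (fun l hl => by rw [mjTh_ne _ _ _ hl, mjTh_ne _ _ _ hl]) v hv
    rw [this, hv]
  have h5 := DFunLike.congr_fun h1 (φ⁻¹ v)
  simp only [MonoidHom.comp_apply, MulEquiv.toMonoidHom_eq_coe, MonoidHom.coe_coe] at h5
  have h6 : φ (φ⁻¹ v) = v := MulAut.apply_inv_self _ φ v
  rw [h6, h4] at h5
  apply φ.injective
  rw [h5, h6]

private theorem MJG.inv {p r : ℕ} {φ : MulAut Fr} {w u : Fr} (h : MJG p r φ w u) :
    MJG p r φ⁻¹ (φ⁻¹ w)⁻¹ (φ⁻¹ u)⁻¹ where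
  hw := by rw [map_inv, h.th_inv _ h.hw]
  hu := by rw [map_inv, h.th_inv _ h.hu]
  hx := by
    apply φ.injective
    rw [MulAut.apply_inv_self]
    simp only [map_mul, map_inv, inv_inv, MulAut.apply_inv_self, h.hx]
    group
  hy := by
    apply φ.injective
    rw [MulAut.apply_inv_self]
    simp only [map_mul, map_inv, MulAut.apply_inv_self, h.hy]
    group
  huw := by
    intro hp
    rw [h.huw hp]
  hth := by
    intro l hl
    exact h.th_inv _ (mjTh_ne r 1 l hl)
  hk := by
    intro l hl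
    have h1 := h.kl _ (h.th_inv _ (mjTh_ne r 1 l hl))
    rw [MulAut.apply_inv_self] at h1
    exact h1.symm

private theorem mjk_X (r : ℕ) : kill r (X r) = 1 := by simp [kill, X]
private theorem mjk_Xne (r k : ℕ) (h : k ≠ r) : kill r (X k) = X k := by simp [kill, X, h]
private theorem mjk_C (r : ℕ) (b : Fin 4) : kill r (C b) = C b := by simp [kill, C]
private theorem mjk_Y (r k : ℕ) : kill r (Y k) = Y k := by simp [kill, Y]
private theorem mjt_X (r k : ℕ) : mjTh r 1 (X k) = X k := by simp [mjTh, X]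
private theorem mjt_C (r : ℕ) (b : Fin 4) : mjTh r 1 (C b) = C b := by simp [mjTh, C]
private theorem mjt_Y (r k : ℕ) (h : k ≠ r) : mjTh r 1 (Y k) = Y k := by simp [mjTh, Y, h]

private theorem mjk_fac (r : ℕ) (b : Fin 4) (q : ℕ) : kill r (fac r b q) = 1 := by
  unfold fac
  split_ifs <;> simp [cmt, mjk_X, mjk_C]

private theorem mjt_fac (r : ℕ) (b : Fin 4) (q : ℕ) : mjTh r 1 (fac r b q) = fac r b q := by
  unfold fac
  split_ifs <;> simp [cmt, mjt_X, mjt_C]

private theorem mjg_Pu (p r : ℕ) (b : Fin 4) :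
    MJG p r (Pu p r b) (X r * C b) (if p ≤ r then X r * C b else 1) where
  hw := by simp [mjt_X, mjt_C]
  hu := by split_ifs <;> simp [mjt_X, mjt_C]
  hx := by
    have h := Pu_of p r b (Letter.x r)
    have h2 : pushFun p r b (Letter.x r) = X r * C b * X r * (X r * C b)⁻¹ := by simp [pushFun]
    rw [h2] at h
    exact h
  hy := by
    have h := Pu_of p r b (Letter.y r)
    by_cases hp : p ≤ r
    · have h2 : pushFun p r b (Letter.y r) = X r * C b * Y r := by simp [pushFun, hp]
      rw [h2] at h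
      rw [if_pos hp]
      exact h
    · have h2 : pushFun p r b (Letter.y r) = Y r := by
        have : r < p := by omega
        simp [pushFun, this]
      rw [h2] at h
      rw [if_neg hp, one_mul]
      exact h
  huw := by intro hp; rw [if_pos hp]
  hth := by
    intro l hl
    rw [Pu_of]
    rcases l with i | k | k
    · simp [pushFun, mjt_fac, mjt_C]
    · simp only [pushFun]
      split_ifs <;> simp [cmt, mjt_X, mjt_C]
    · have hk : k ≠ r := fun h => hl (by rw [h])
      simp only [pushFun, if_neg hk]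
      split_ifs <;> simp [cmt, mjt_X, mjt_C, mjt_Y r k hk]
  hk := by
    intro l hl
    rw [Pu_of]
    rcases l with i | k | k
    · change _ = kill r (C i)
      simp [pushFun, mjk_fac, mjk_C]
    · change _ = kill r (X k)
      simp only [pushFun]
      split_ifs with h1 h2
      · subst h1
        simp [mjk_X, mjk_C]
      · simp [cmt, mjk_X, mjk_C]
      · rfl
    · change _ = kill r (Y k)
      have hk : k ≠ r := fun h => hl (by rw [h])
      simp only [pushFun, if_neg hk]
      split_ifs <;> simp [cmt, mjk_X, mjk_C]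

private theorem mjg_Ru (p r l : ℕ) (hl : l < r) :
    MJG p r (Ru p r l) (X r * X l * (X r)⁻¹) (if p ≤ r then X r * X l * (X r)⁻¹ else 1) where
  hw := by simp [mjt_X]
  hu := by split_ifs <;> simp [mjt_X]
  hx := by
    have h := Ru_of p r l hl (Letter.x r)
    have h2 : RFun p r l (Letter.x r) = X r * X l * X r * (X r * X l)⁻¹ := by simp [RFun]
    rw [h2] at h
    have h3 : Ru p r l (X r) = X r * X l * X r * (X r * X l)⁻¹ := h
    rw [h3]; group
  hy := by
    have h := Ru_of p r l hl (Letter.y r)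
    by_cases hp : p ≤ r
    · have h2 : RFun p r l (Letter.y r) = X r * X l * (X r)⁻¹ * Y r := by simp [RFun, hp]
      rw [h2] at h
      rw [if_pos hp]
      exact h
    · have h2 : RFun p r l (Letter.y r) = Y r := by
        have : r < p := by omega
        simp [RFun, this]
      rw [h2] at h
      rw [if_neg hp, one_mul]
      exact h
  huw := by intro hp; rw [if_pos hp]
  hth := by
    intro m hm
    rw [Ru_of p r l hl]
    rcases m with i | k | k
    · simp [RFun, mjt_C]
    · simp only [RFun]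
      split_ifs <;> simp [cmt, mjt_X]
    · have hk : k ≠ r := fun h => hm (by rw [h])
      have hlr : l ≠ r := by omega
      simp only [RFun, if_neg hk]
      split_ifs <;> simp [cmt, mjt_X, mjt_Y r k hk, mjt_Y r l hlr]
  hk := by
    intro m hm
    rw [Ru_of p r l hl]
    have hlr : l ≠ r := by omega
    rcases m with i | k | k
    · change _ = kill r (C i)
      simp [RFun]
    · change _ = kill r (X k)
      simp only [RFun]
      split_ifs with h1 h2 h3
      · subst h1
        simp [mjk_X]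
      · subst h2
        simp [mjk_X]
      · simp [cmt, mjk_X]
      · rfl
    · change _ = kill r (Y k)
      have hk : k ≠ r := fun h => hm (by rw [h])
      simp only [RFun, if_neg hk]
      split_ifs with h1 h2 h3
      · rfl
      · subst h2
        simp [mjk_X]
      · simp [cmt, mjk_X]
      · rfl

private theorem mjg_eP (p r : ℕ) (f : FreeGroup (Fin 4 ⊕ Fin r)) :
    ∃ w u : Fr, MJG p r (eP p r f) w u ∧ kill r w = (incl r f)⁻¹ := by
  have inv : ∀ g : FreeGroup (Fin 4 ⊕ Fin r),
      (∃ w u : Fr, MJG p r (eP p r g) w u ∧ kill r w = (incl r g)⁻¹) →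
      ∃ w u : Fr, MJG p r (eP p r g⁻¹) w u ∧ kill r w = (incl r g⁻¹)⁻¹ := by
    rintro g ⟨w, u, h, hk⟩
    have h2 := h.inv
    rw [← map_inv] at h2
    refine ⟨_, _, h2, ?_⟩
    have h3 := h.kl _ (h.th_inv _ h.hw)
    rw [MulAut.apply_inv_self] at h3
    rw [map_inv (kill r), map_inv (eP p r), map_inv (incl r), ← hk, ← h3]
  induction f using FreeGroup.induction_on with
  | C1 =>
    refine ⟨1, 1, ?_, by simp⟩
    rw [map_one]
    exact ⟨by simp, by simp, by simp, by simp, fun _ => rfl,
      fun l hl => by simpa using mjTh_ne r 1 l hl, fun l hl => by simp⟩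
  | of s =>
    rcases s with b | ⟨l, hl⟩
    · have h := (mjg_Pu p r b).inv
      have h2 : eP p r (FreeGroup.of (Sum.inl b)) = (Pu p r b)⁻¹ := by simp [eP]
      rw [← h2] at h
      refine ⟨_, _, h, ?_⟩
      have h3 := (mjg_Pu p r b).kl _ ((mjg_Pu p r b).th_inv _ (mjg_Pu p r b).hw)
      rw [MulAut.apply_inv_self, ← h2] at h3
      rw [map_inv, ← h3]
      simp [incl, mjk_X, mjk_C]
    · have h := (mjg_Ru p r l hl).inv
      have h2 : eP p r (FreeGroup.of (Sum.inr ⟨l, hl⟩)) = (Ru p r l)⁻¹ := by simp [eP]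
      rw [← h2] at h
      refine ⟨_, _, h, ?_⟩
      have h3 := (mjg_Ru p r l hl).kl _ ((mjg_Ru p r l hl).th_inv _ (mjg_Ru p r l hl).hw)
      rw [MulAut.apply_inv_self, ← h2] at h3
      rw [map_inv, ← h3]
      have hlr : l ≠ r := by omega
      simp [incl, mjk_X, mjk_Xne r l hlr]
  | inv_of s ih => exact inv _ ih
  | mul a b iha ihb =>
    obtain ⟨w, u, h, hk⟩ := iha
    obtain ⟨w', u', h', hk'⟩ := ihb
    refine ⟨eP p r a w' * w, eP p r a u' * u, ?_, ?_⟩
    · rw [map_mul]; exact h.mul h'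
    · rw [map_mul, h.kl _ h'.hw, hk, hk', map_mul, mul_inv_rev]

/-- the effect of a product of pushes on `x r` -/
theorem eP_x (p r : ℕ) (f : FreeGroup (Fin 4 ⊕ Fin r)) :
    ∃ w : Fr, eP p r f (X r) = w * X r * w⁻¹ ∧ kill r w = (incl r f)⁻¹ ∧
      (p ≤ r → eP p r f (Y r) = w * Y r) := by
  obtain ⟨w, u, h, hk⟩ := mjg_eP p r f
  refine ⟨w, h.hx, hk, fun hp => ?_⟩
  rw [h.hy, h.huw hp]

theorem incl_inj (r : ℕ) : Function.Injective (incl r) := by
  let g : Fr →* FreeGroup (Fin 4 ⊕ Fin r) := FreeGroup.lift (fun l => match l with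
    | .c i => FreeGroup.of (Sum.inl i)
    | .x k => if h : k < r then FreeGroup.of (Sum.inr ⟨k, h⟩) else 1
    | .y _ => 1)
  have h : g.comp (incl r) = MonoidHom.id _ := by
    ext s
    rcases s with b | ⟨l, hl⟩
    · simp [g, incl, C]
    · simp [g, incl, X, hl]
  intro a b hab
  have h1 := DFunLike.congr_fun h a
  have h2 := DFunLike.congr_fun h b
  simp only [MonoidHom.comp_apply, MonoidHom.id_apply] at h1 h2
  rw [← h1, ← h2, hab]

private theorem eq_one_of_eP_x (p r : ℕ) (f : FreeGroup (Fin 4 ⊕ Fin r))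
    (h : eP p r f (X r) = X r) : f = 1 := by
  obtain ⟨w, h1, h2, _⟩ := eP_x p r f
  rw [h] at h1
  have h3 := kill_eq_one_of_conj r w h1.symm
  rw [h3] at h2
  have h4 : incl r f = incl r 1 := by
    rw [map_one]
    exact (inv_eq_one.1 h2.symm)
  exact incl_inj r h4

theorem eP_inj (p r : ℕ) : Function.Injective (eP p r) := by
  rw [injective_iff_map_eq_one]
  intro f hf
  apply eq_one_of_eP_x p r f
  rw [hf]; rfl

theorem eP_Zt_inj (p r : ℕ) (hp : p ≤ r) (f : FreeGroup (Fin 4 ⊕ Fin r)) (m : ℤ)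
    (hf : eP p r f * Zt p r ^ m = 1) : f = 1 ∧ m = 0 := by
  have hZx : Zt p r (X r) = X r := by
    have := Zt_of p r (Letter.x r)
    exact this
  have hZy : Zt p r (Y r) = X r * Y r := by
    have h := Zt_of p r (Letter.y r)
    have h2 : zFun p r (Letter.y r) = X r * Y r := by simp [zFun, hp]
    rw [h2] at h
    exact h
  have hfix : ∀ n : ℤ, (Zt p r ^ n) (X r) = X r := by
    intro n
    induction n using Int.induction_on with
    | zero => simp
    | succ n ih => rw [zpow_add_one, MulAut.mul_apply, hZx, ih]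
    | pred n ih =>
      rw [zpow_sub_one, MulAut.mul_apply]
      have : (Zt p r)⁻¹ (X r) = X r := by
        apply (Zt p r).injective
        rw [MulAut.apply_inv_self, hZx]
      rw [this, ih]
  have hfy : ∀ n : ℤ, (Zt p r ^ n) (Y r) = X r ^ n * Y r := by
    intro n
    induction n using Int.induction_on with
    | zero => simp
    | succ n ih =>
      rw [zpow_add_one, MulAut.mul_apply, hZy, map_mul, hfix, ih, ← mul_assoc, zpow_add_one]
      congr 1
      exact (Commute.self_zpow (X r) n).eq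
    | pred n ih =>
      rw [zpow_sub_one, MulAut.mul_apply]
      have : (Zt p r)⁻¹ (Y r) = (X r)⁻¹ * Y r := by
        apply (Zt p r).injective
        rw [MulAut.apply_inv_self, map_mul, map_inv, hZx, hZy]; group
      rw [this, map_mul, map_inv, hfix, ih, ← mul_assoc, zpow_sub_one]
      congr 1
      exact ((Commute.self_zpow (X r) (-(n : ℤ))).inv_left).eq
  have h1 : f = 1 := by
    apply eq_one_of_eP_x p r f
    have h2 := DFunLike.congr_fun hf (X r)
    rw [MulAut.mul_apply, hfix] at h2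
    exact h2
  refine ⟨h1, ?_⟩
  rw [h1, map_one, one_mul] at hf
  have h2 := DFunLike.congr_fun hf (Y r)
  rw [hfy] at h2
  have h3 : X r ^ m = 1 := by
    have h4 : X r ^ m * Y r = 1 * Y r := by rw [one_mul]; exact h2
    exact mul_right_cancel h4
  let e : Fr →* Multiplicative ℤ := FreeGroup.lift (fun _ => Multiplicative.ofAdd 1)
  have h5 : e (X r ^ m) = Multiplicative.ofAdd m := by
    rw [map_zpow]
    simp only [e, X, FreeGroup.lift_apply_of]
    rw [← ofAdd_zsmul]; simp
  rw [h3, map_one] at h5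
  have h6 := congrArg Multiplicative.toAdd h5
  simpa using h6.symm

/-- pushes act trivially when `x r` is killed (except on `y r`) -/
theorem kill_eP (p r : ℕ) (f : FreeGroup (Fin 4 ⊕ Fin r)) (l : Letter) (hl : l ≠ Letter.y r) :
    kill r (eP p r f (FreeGroup.of l)) = kill r (FreeGroup.of l) := by
  obtain ⟨w, u, h, _⟩ := mjg_eP p r f
  exact h.hk l hl

end MCG
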