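import Pool.Agent.H60.MCG.MT
import Pool.Agent.H60.MCG.MI
import Pool.Agent.H60.MCG.MI2
import Pool.Agent.H60.MCG.MJ
import Pool.Agent.H60.MCG.BaseUp

namespace MCG

section zero

theorem exists_PM_zero (p : ℕ) : Nonempty (PM p 0 ≃* W) := by
  obtain ⟨f, hf⟩ := exists_actW
  have key : ∀ g ∈ PM p 0, g.2 = f g.1 := by
    intro g hg
    induction hg using Subgroup.closure_induction with
    | mem x hx =>
      rcases hx with ⟨i, rfl⟩ | ⟨j, hj, rfl⟩
      · exact (hf i).symm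
      · omega
    | one => simp
    | mul x y _ _ hx hy => simp [hx, hy]
    | inv x _ hx => simp [hx]
  let φ : PM p 0 →* W := (MonoidHom.fst W (MulAut Fr)).comp (PM p 0).subtype
  have hinj : Function.Injective φ := by
    rw [injective_iff_map_eq_one]
    rintro ⟨g, hg⟩ h1
    have h1 : g.1 = 1 := h1
    have h2 := key g hg
    rw [h1, map_one] at h2
    exact Subtype.ext (Prod.ext h1 h2)
  have hsurj : Function.Surjective φ := by
    rw [← MonoidHom.range_eq_top, eq_top_iff, ← PresentedGroup.closure_range_of,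
      Subgroup.closure_le]
    rintro _ ⟨i, rfl⟩
    exact ⟨⟨(tw i, T i), Subgroup.subset_closure (Or.inl ⟨i, rfl⟩)⟩, rfl⟩
  exact ⟨MulEquiv.ofBijective φ ⟨hinj, hsurj⟩⟩

end zero

section stage

variable (p r : ℕ)

/-- twists -/
def tG (r : ℕ) (i : Fin 5) : PM p r :=
  ⟨(tw i, T i), Subgroup.subset_closure (Or.inl ⟨i, rfl⟩)⟩

/-- pushes -/
def hG (r : ℕ) (k : Fin r) : PM p r :=
  ⟨(1, h p k), Subgroup.subset_closure (Or.inr ⟨k, k.2, rfl⟩)⟩

theorem PM_mono : PM p r ≤ PM p (r + 1) := by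
  refine Subgroup.closure_mono ?_
  rintro x (⟨i, rfl⟩ | ⟨j, hj, rfl⟩)
  · exact Or.inl ⟨i, rfl⟩
  · exact Or.inr ⟨j, by omega, rfl⟩

theorem PM_gen : Subgroup.closure (Set.range (tG p r) ∪ Set.range (hG p r)) = ⊤ := by
  have := Subgroup.closure_closure_coe_preimage
    (k := ({g | ∃ i : Fin 5, g = (tw i, T i)} ∪ {g | ∃ j < r, g = (1, h p j)} :
      Set (W × MulAut Fr)))
  refine top_le_iff.1 (le_trans (ge_of_eq this) (Subgroup.closure_mono ?_))
  rintro ⟨x, hx⟩ (⟨i, hi⟩ | ⟨j, hj, hi⟩)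
  · exact Or.inl ⟨i, Subtype.ext hi.symm⟩
  · exact Or.inr ⟨⟨j, hj⟩, Subtype.ext hi.symm⟩

/-- membership for elements with trivial first component -/
def inPM (a : MulAut Fr) : Prop := ((1, a) : W × MulAut Fr) ∈ PM p (r + 1)

variable {p r}

theorem inPM.mul {a b : MulAut Fr} (ha : inPM p r a) (hb : inPM p r b) : inPM p r (a * b) := by
  have := mul_mem (S := Subgroup (W × MulAut Fr)) ha hb
  simpa [inPM] using this

theorem inPM.inv {a : MulAut Fr} (ha : inPM p r a) : inPM p r a⁻¹ := by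
  have := inv_mem (S := Subgroup (W × MulAut Fr)) ha
  simpa [inPM] using this

theorem inPM.conj {a : MulAut Fr} (ha : inPM p r a) (i : Fin 5) :
    inPM p r (T i * a * (T i)⁻¹) := by
  have h1 : ((tw i, T i) : W × MulAut Fr) ∈ PM p (r + 1) :=
    Subgroup.subset_closure (Or.inl ⟨i, rfl⟩)
  have := mul_mem (mul_mem h1 ha) (inv_mem h1)
  simpa [inPM] using this

theorem inPM_h {k : ℕ} (hk : k < r + 1) : inPM p r (h p k) :=
  Subgroup.subset_closure (Or.inr ⟨k, hk, rfl⟩)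

variable (p r)

theorem inPM_pu0 : inPM p r (pu0 p r) := inPM_h (Nat.lt_succ_self r)
theorem inPM_pu1 : inPM p r (pu1 p r) := ((inPM_pu0 p r).conj 1).mul (inPM_pu0 p r).inv
theorem inPM_pu2 : inPM p r (pu2 p r) := ((inPM_pu1 p r).conj 2).mul (inPM_pu1 p r).inv
theorem inPM_pu3 : inPM p r (pu3 p r) := ((inPM_pu2 p r).conj 3).mul (inPM_pu2 p r).inv

theorem inPM_Pu (b : Fin 4) : inPM p r (Pu p r b) := by
  fin_cases b
  · exact inPM_pu0 p r
  · exact inPM_pu1 p r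
  · exact inPM_pu2 p r
  · exact inPM_pu3 p r

theorem inPM_Ru (k : ℕ) (hk : k < r) : inPM p r (Ru p r k) :=
  (((inPM_pu1 p r).inv.mul (inPM_h (by omega))).mul (inPM_pu1 p r)).mul (inPM_h (by omega)).inv

theorem inPM_Zt : inPM p r (Zt p r) := by
  have h := T4_Pu3 p r
  have h1 : Zt p r = (pu3 p r)⁻¹ * ((T 4)⁻¹ * (pu3 p r * pu1 p r) * T 4) *
      (pu0 p r)⁻¹ * (pu1 p r)⁻¹ * (pu2 p r)⁻¹ := by
    have : (T 4)⁻¹ * (pu3 p r * pu1 p r) * T 4 =
      pu3 p r * Zt p r * pu2 p r * pu1 p r * pu0 p r := by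
      rw [mul_assoc, ← h]; group
    rw [this]; group
  have h2 : inPM p r ((T 4)⁻¹ * (pu3 p r * pu1 p r) * T 4) := by
    have h3 : ((tw 4, T 4) : W × MulAut Fr) ∈ PM p (r + 1) :=
      Subgroup.subset_closure (Or.inl ⟨4, rfl⟩)
    have := mul_mem (mul_mem (inv_mem h3) ((inPM_pu3 p r).mul (inPM_pu1 p r))) h3
    simpa [inPM] using this
  rw [h1]
  exact ((((inPM_pu3 p r).inv.mul h2).mul (inPM_pu0 p r).inv).mul (inPM_pu1 p r).inv).mul
    (inPM_pu2 p r).inv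

/-- the group of pushes inside the automorphism group -/
def NA : Subgroup (MulAut Fr) :=
  Subgroup.closure (Set.range (Pu p r) ∪ {a | ∃ k < r, a = Ru p r k} ∪ {Zt p r})

theorem NA_inPM {a : MulAut Fr} (ha : a ∈ NA p r) : inPM p r a := by
  induction ha using Subgroup.closure_induction with
  | mem x hx =>
    rcases hx with (⟨b, rfl⟩ | ⟨k, hk, rfl⟩) | rfl
    · exact inPM_Pu p r b
    · exact inPM_Ru p r k hk
    · exact inPM_Zt p r
  | one => exact one_mem (S := Subgroup (W × MulAut Fr)) _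
  | mul x y _ _ hx hy => exact hx.mul hy
  | inv x _ hx => exact hx.inv

variable {p r}

theorem Pu_mem (b : Fin 4) : Pu p r b ∈ NA p r :=
  Subgroup.subset_closure (Or.inl (Or.inl ⟨b, rfl⟩))
theorem pu0_mem : pu0 p r ∈ NA p r := Pu_mem 0
theorem pu1_mem : pu1 p r ∈ NA p r := Pu_mem 1
theorem pu2_mem : pu2 p r ∈ NA p r := Pu_mem 2
theorem pu3_mem : pu3 p r ∈ NA p r := Pu_mem 3
theorem Ru_mem {k : ℕ} (hk : k < r) : Ru p r k ∈ NA p r :=
  Subgroup.subset_closure (Or.inl (Or.inr ⟨k, hk, rfl⟩))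
theorem Zt_mem : Zt p r ∈ NA p r := Subgroup.subset_closure (Or.inr rfl)

/-- criterion for normalising -/
theorem mem_normalizer_of {G : Type} [Group G] {s : Set G} {g : G}
    (h1 : ∀ x ∈ s, g * x * g⁻¹ ∈ Subgroup.closure s)
    (h2 : ∀ x ∈ s, ∃ y ∈ Subgroup.closure s, g * y * g⁻¹ = x) :
    g ∈ Subgroup.normalizer (Subgroup.closure s : Set G) := by
  have a1 : ∀ x ∈ Subgroup.closure s, g * x * g⁻¹ ∈ Subgroup.closure s := by
    intro x hx
    have : Subgroup.closure s ≤ (Subgroup.closure s).comap (MulAut.conj g).toMonoidHom := by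
      rw [Subgroup.closure_le]
      intro x hx
      exact h1 x hx
    exact this hx
  have a2 : ∀ x ∈ Subgroup.closure s, ∃ y ∈ Subgroup.closure s, g * y * g⁻¹ = x := by
    intro x hx
    have : Subgroup.closure s ≤ (Subgroup.closure s).map (MulAut.conj g).toMonoidHom := by
      rw [Subgroup.closure_le]
      intro x hx
      obtain ⟨y, hy, hxy⟩ := h2 x hx
      exact ⟨y, hy, hxy⟩
    obtain ⟨y, hy, hxy⟩ := this hx
    exact ⟨y, hy, hxy⟩
  rw [Subgroup.mem_normalizer_iff]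
  intro x
  refine ⟨a1 x, fun hx => ?_⟩
  obtain ⟨y, hy, hxy⟩ := a2 _ hx
  have : y = x := by
    have h := congrArg (fun u => g⁻¹ * u * g) hxy
    simpa [mul_assoc] using h
  rwa [← this]

/-- the generators of the group of pushes -/
def genN (p r : ℕ) : Set (MulAut Fr) :=
  Set.range (Pu p r) ∪ {a | ∃ k < r, a = Ru p r k} ∪ {Zt p r}

theorem forall_genN {Pr : MulAut Fr → Prop} (h0 : Pr (pu0 p r)) (h1 : Pr (pu1 p r))
    (h2 : Pr (pu2 p r)) (h3 : Pr (pu3 p r)) (hR : ∀ k < r, Pr (Ru p r k)) (hz : Pr (Zt p r)) :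
    ∀ x ∈ genN p r, Pr x := by
  rintro x ((⟨b, rfl⟩ | ⟨k, hk, rfl⟩) | rfl)
  · fin_cases b
    · exact h0
    · exact h1
    · exact h2
    · exact h3
  · exact hR k hk
  · exact hz

theorem conj_eq_of_comm {G : Type} [Group G] {g x : G} (h : g * x = x * g) : g * x * g⁻¹ = x := by
  rw [h]; group

/-- the element `g` normalises the group of pushes, from formulas -/
theorem mem_norm_of_forall {g : MulAut Fr}
    (h : ∀ x ∈ genN p r, g * x * g⁻¹ ∈ NA p r ∧ ∃ y ∈ NA p r, g * y * g⁻¹ = x) :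
    g ∈ Subgroup.normalizer (NA p r : Set (MulAut Fr)) :=
  mem_normalizer_of (fun x hx => (h x hx).1) (fun x hx => (h x hx).2)

theorem fixed_ok {g x : MulAut Fr} (hx : x ∈ NA p r) (h : g * x = x * g) :
    g * x * g⁻¹ ∈ NA p r ∧ ∃ y ∈ NA p r, g * y * g⁻¹ = x := by
  rw [conj_eq_of_comm h]
  exact ⟨hx, x, hx, conj_eq_of_comm h⟩

theorem T_norm (i : Fin 5) : T i ∈ Subgroup.normalizer (NA p r : Set (MulAut Fr)) := by
  have c : ∀ (i : Fin 5) (k : Fin 4), ((i : ℕ) + 1 < k ∨ (k : ℕ) + 1 < i ∨ (i : ℕ) = k) →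
      (T i * Pu p r k * (T i)⁻¹ ∈ NA p r ∧ ∃ y ∈ NA p r, T i * y * (T i)⁻¹ = Pu p r k) :=
    fun i k hik => fixed_ok (Pu_mem k) (T_Pu p r i k hik)
  have cR : ∀ k < r, (T i * Ru p r k * (T i)⁻¹ ∈ NA p r ∧
      ∃ y ∈ NA p r, T i * y * (T i)⁻¹ = Ru p r k) :=
    fun k hk => fixed_ok (Ru_mem hk) (T_Ru p r k hk i)
  have cz : (T i * Zt p r * (T i)⁻¹ ∈ NA p r ∧
      ∃ y ∈ NA p r, T i * y * (T i)⁻¹ = Zt p r) := fixed_ok Zt_mem (T_Zt p r i)
  -- forward moves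
  have up : ∀ {i : Fin 5} {a b : MulAut Fr}, a ∈ NA p r → b ∈ NA p r →
      T i * a * (T i)⁻¹ = b * a → T i * b = b * T i →
      (T i * a * (T i)⁻¹ ∈ NA p r ∧ ∃ y ∈ NA p r, T i * y * (T i)⁻¹ = a) := by
    intro i a b ha hb h1 h2
    refine ⟨h1 ▸ mul_mem hb ha, b⁻¹ * a, mul_mem (inv_mem hb) ha, ?_⟩
    calc T i * (b⁻¹ * a) * (T i)⁻¹ = (T i * b * (T i)⁻¹)⁻¹ * (T i * a * (T i)⁻¹) := by group
      _ = a := by rw [conj_eq_of_comm h2, h1]; group
  have dn : ∀ {i : Fin 5} {a b : MulAut Fr}, a ∈ NA p r → b ∈ NA p r →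
      T i * a * b = a * T i → T i * b = b * T i →
      (T i * a * (T i)⁻¹ ∈ NA p r ∧ ∃ y ∈ NA p r, T i * y * (T i)⁻¹ = a) := by
    intro i a b ha hb h1 h2
    have h3 : T i * a * (T i)⁻¹ = a * b⁻¹ := by
      have : T i * a = a * T i * b⁻¹ := by rw [← h1]; group
      have h4 : T i * b⁻¹ = b⁻¹ * T i := by
        have := conj_eq_of_comm h2
        calc T i * b⁻¹ = (T i * b * (T i)⁻¹)⁻¹ * T i := by group
          _ = b⁻¹ * T i := by rw [this]
      rw [this, mul_assoc a, h4]; group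
    refine ⟨h3 ▸ mul_mem ha (inv_mem hb), a * b, mul_mem ha hb, ?_⟩
    calc T i * (a * b) * (T i)⁻¹ = (T i * a * (T i)⁻¹) * (T i * b * (T i)⁻¹) := by group
      _ = a := by rw [conj_eq_of_comm h2, h3]; group
  have e1 : T 1 * pu0 p r * (T 1)⁻¹ = pu1 p r * pu0 p r := by rw [pu1]; group
  have e2 : T 2 * pu1 p r * (T 2)⁻¹ = pu2 p r * pu1 p r := by rw [pu2]; group
  have e3 : T 3 * pu2 p r * (T 3)⁻¹ = pu3 p r * pu2 p r := by rw [pu3]; group
  apply mem_norm_of_forall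
  fin_cases i
  · exact forall_genN (c 0 0 (by decide)) (dn pu1_mem pu0_mem (T0_Pu1 p r)
      (T_Pu p r 0 0 (by decide))) (c 0 2 (by decide)) (c 0 3 (by decide)) cR cz
  · exact forall_genN (up pu0_mem pu1_mem e1 (T_Pu p r 1 1 (by decide))) (c 1 1 (by decide))
      (dn pu2_mem pu1_mem (T1_Pu2 p r) (T_Pu p r 1 1 (by decide))) (c 1 3 (by decide)) cR cz
  · exact forall_genN (c 2 0 (by decide)) (up pu1_mem pu2_mem e2 (T_Pu p r 2 2 (by decide)))
      (c 2 2 (by decide)) (dn pu3_mem pu2_mem (T2_Pu3 p r) (T_Pu p r 2 2 (by decide))) cR cz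
  · exact forall_genN (c 3 0 (by decide)) (c 3 1 (by decide))
      (up pu2_mem pu3_mem e3 (T_Pu p r 3 3 (by decide))) (c 3 3 (by decide)) cR cz
  · refine forall_genN (c 4 0 (by decide)) (c 4 1 (by decide)) (c 4 2 (by decide)) ?_ cR cz
    have f0 := conj_eq_of_comm (T_Pu p r 4 0 (by decide))
    have f1 := conj_eq_of_comm (T_Pu p r 4 1 (by decide))
    have f2 := conj_eq_of_comm (T_Pu p r 4 2 (by decide))
    have fz := conj_eq_of_comm (T_Zt p r 4)
    change T 4 * pu0 p r * (T 4)⁻¹ = pu0 p r at f0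
    change T 4 * pu1 p r * (T 4)⁻¹ = pu1 p r at f1
    change T 4 * pu2 p r * (T 4)⁻¹ = pu2 p r at f2
    have h := T4_Pu3 p r
    have h3 : T 4 * pu3 p r * (T 4)⁻¹ =
        pu3 p r * pu1 p r * (pu0 p r)⁻¹ * (pu1 p r)⁻¹ * (pu2 p r)⁻¹ * (Zt p r)⁻¹ := by
      calc T 4 * pu3 p r * (T 4)⁻¹
          = (T 4 * pu3 p r * Zt p r * pu2 p r * pu1 p r * pu0 p r) * (T 4)⁻¹ *
            ((T 4 * pu0 p r * (T 4)⁻¹)⁻¹ * (T 4 * pu1 p r * (T 4)⁻¹)⁻¹ *
              (T 4 * pu2 p r * (T 4)⁻¹)⁻¹ * (T 4 * Zt p r * (T 4)⁻¹)⁻¹) := by group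
        _ = _ := by rw [h, f0, f1, f2, fz]; group
    change T 4 * pu3 p r * (T 4)⁻¹ ∈ NA p r ∧ ∃ y ∈ NA p r, T 4 * y * (T 4)⁻¹ = pu3 p r
    refine ⟨by rw [h3]; exact mul_mem (mul_mem (mul_mem (mul_mem (mul_mem pu3_mem pu1_mem)
        (inv_mem pu0_mem)) (inv_mem pu1_mem)) (inv_mem pu2_mem)) (inv_mem Zt_mem), pu3 p r * Zt p r * pu2 p r * pu1 p r * pu0 p r * (pu1 p r)⁻¹, ?_, ?_⟩
    · exact mul_mem (mul_mem (mul_mem (mul_mem (mul_mem pu3_mem Zt_mem) pu2_mem) pu1_mem)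
        pu0_mem) (inv_mem pu1_mem)
    · calc T 4 * (pu3 p r * Zt p r * pu2 p r * pu1 p r * pu0 p r * (pu1 p r)⁻¹) * (T 4)⁻¹
          = (T 4 * pu3 p r * Zt p r * pu2 p r * pu1 p r * pu0 p r) * (T 4)⁻¹ *
            (T 4 * pu1 p r * (T 4)⁻¹)⁻¹ := by group
        _ = (pu3 p r * pu1 p r * T 4) * (T 4)⁻¹ * (pu1 p r)⁻¹ := by rw [h, f1]
        _ = pu3 p r := by group

theorem h_norm (k : ℕ) (hk : k < r) :
    h p k ∈ Subgroup.normalizer (NA p r : Set (MulAut Fr)) := by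
  apply mem_norm_of_forall
  have fR : h p k * Ru p r k * (h p k)⁻¹ =
      (Ru p r k)⁻¹ * (pu0 p r)⁻¹ * Ru p r k * pu0 p r * Ru p r k := by
    have := h_Ru_self p r k hk
    have h1 : h p k * Ru p r k = (pu0 p r * Ru p r k)⁻¹ * (Ru p r k * pu0 p r * Ru p r k * h p k) := by
      rw [← this]; group
    rw [h1]; group
  have f0 : h p k * pu0 p r * (h p k)⁻¹ = (Ru p r k)⁻¹ * pu0 p r * Ru p r k := by
    have := h_Pu0 p r k hk
    have h1 : h p k * pu0 p r = (Ru p r k)⁻¹ * (pu0 p r * Ru p r k * h p k) := by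
      rw [← this]; group
    rw [h1]; group
  have f1 : h p k * pu1 p r * (h p k)⁻¹ = pu1 p r * Ru p r k := by rw [Ru]; group
  have yR : h p k * (pu0 p r * Ru p r k * (pu0 p r)⁻¹) * (h p k)⁻¹ = Ru p r k := by
    calc _ = (h p k * pu0 p r * (h p k)⁻¹) * (h p k * Ru p r k * (h p k)⁻¹) *
          (h p k * pu0 p r * (h p k)⁻¹)⁻¹ := by group
      _ = _ := by rw [fR, f0]; group
  set yr := pu0 p r * Ru p r k * (pu0 p r)⁻¹ with hyr
  have yrm : yr ∈ NA p r := mul_mem (mul_mem pu0_mem (Ru_mem hk)) (inv_mem pu0_mem)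
  have y0 : h p k * (yr * pu0 p r * yr⁻¹) * (h p k)⁻¹ = pu0 p r := by
    calc _ = (h p k * yr * (h p k)⁻¹) * (h p k * pu0 p r * (h p k)⁻¹) *
          (h p k * yr * (h p k)⁻¹)⁻¹ := by group
      _ = _ := by rw [yR, f0]; group
  have y0m : yr * pu0 p r * yr⁻¹ ∈ NA p r := mul_mem (mul_mem yrm pu0_mem) (inv_mem yrm)
  refine forall_genN ?_ ?_ (fixed_ok pu2_mem (h_Pu2 p r k hk)) (fixed_ok pu3_mem (h_Pu3 p r k hk))
    ?_ (fixed_ok Zt_mem (h_Zt p r k hk))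
  · exact ⟨by rw [f0]; exact mul_mem (mul_mem (inv_mem (Ru_mem hk)) pu0_mem) (Ru_mem hk), _, y0m, y0⟩
  · refine ⟨by rw [f1]; exact mul_mem pu1_mem (Ru_mem hk), pu1 p r * yr⁻¹, mul_mem pu1_mem (inv_mem yrm), ?_⟩
    calc _ = (h p k * pu1 p r * (h p k)⁻¹) * (h p k * yr * (h p k)⁻¹)⁻¹ := by group
      _ = _ := by rw [f1, yR]; group
  · intro l hl
    rcases lt_trichotomy l k with hlk | rfl | hlk
    · have g := h_Ru_lt p r k l hlk hk
      have cm : cmt (Ru p r k)⁻¹ (pu0 p r)⁻¹ ∈ NA p r := by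
        rw [cmt]
        exact mul_mem (mul_mem (mul_mem (inv_mem (Ru_mem hk)) (inv_mem pu0_mem))
          (inv_mem (inv_mem (Ru_mem hk)))) (inv_mem (inv_mem pu0_mem))
      refine ⟨by rw [g]; exact mul_mem (mul_mem cm (Ru_mem hl)) (inv_mem cm), ?_⟩
      generalize hY0 : yr * pu0 p r * yr⁻¹ = Y0 at y0 y0m
      have cmy : h p k * cmt yr⁻¹ Y0⁻¹ * (h p k)⁻¹ = cmt (Ru p r k)⁻¹ (pu0 p r)⁻¹ := by
        calc h p k * cmt yr⁻¹ Y0⁻¹ * (h p k)⁻¹
            = cmt (h p k * yr * (h p k)⁻¹)⁻¹ (h p k * Y0 * (h p k)⁻¹)⁻¹ := by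
              simp only [cmt]; group
          _ = _ := by rw [yR, y0]
      have cyr : cmt yr⁻¹ Y0⁻¹ ∈ NA p r := by
        rw [cmt]
        exact mul_mem (mul_mem (mul_mem (inv_mem yrm) (inv_mem y0m))
          (inv_mem (inv_mem yrm))) (inv_mem (inv_mem y0m))
      refine ⟨(cmt yr⁻¹ Y0⁻¹)⁻¹ * Ru p r l * cmt yr⁻¹ Y0⁻¹,
        mul_mem (mul_mem (inv_mem cyr) (Ru_mem hl)) cyr, ?_⟩
      calc h p k * ((cmt yr⁻¹ Y0⁻¹)⁻¹ * Ru p r l * cmt yr⁻¹ Y0⁻¹) * (h p k)⁻¹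
          = (h p k * cmt yr⁻¹ Y0⁻¹ * (h p k)⁻¹)⁻¹ * (h p k * Ru p r l * (h p k)⁻¹) *
            (h p k * cmt yr⁻¹ Y0⁻¹ * (h p k)⁻¹) := by group
        _ = (cmt (Ru p r k)⁻¹ (pu0 p r)⁻¹)⁻¹ * (cmt (Ru p r k)⁻¹ (pu0 p r)⁻¹ * Ru p r l *
            (cmt (Ru p r k)⁻¹ (pu0 p r)⁻¹)⁻¹) * cmt (Ru p r k)⁻¹ (pu0 p r)⁻¹ := by rw [cmy, g]
        _ = Ru p r l := by group
    · exact ⟨by rw [fR]; exact mul_mem (mul_mem (mul_mem (mul_mem (inv_mem (Ru_mem hk))
        (inv_mem pu0_mem)) (Ru_mem hk)) pu0_mem) (Ru_mem hk), yr, yrm, yR⟩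
    · exact fixed_ok (Ru_mem hl) (h_Ru_gt p r k l hlk hl)

theorem PM_snd_norm (g : W × MulAut Fr) (hg : g ∈ PM p (r + 1)) :
    g.2 ∈ Subgroup.normalizer (NA p r : Set (MulAut Fr)) := by
  induction hg using Subgroup.closure_induction with
  | mem x hx =>
    rcases hx with ⟨i, rfl⟩ | ⟨j, hj, rfl⟩
    · exact T_norm i
    · rcases Nat.lt_succ_iff_lt_or_eq.1 hj with hj | rfl
      · exact h_norm j hj
      · exact Subgroup.le_normalizer pu0_mem
  | one => exact one_mem _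
  | mul x y _ _ hx hy => exact mul_mem hx hy
  | inv x _ hx => exact inv_mem hx

variable (p r) in
/-- the pushes inside the group -/
def Nsub : Subgroup (PM p (r + 1)) :=
  ((⊥ : Subgroup W).prod (NA p r)).comap (PM p (r + 1)).subtype

theorem mem_Nsub {x : PM p (r + 1)} : x ∈ Nsub p r ↔ x.1.1 = 1 ∧ x.1.2 ∈ NA p r := by
  rw [Nsub, Subgroup.mem_comap, Subgroup.mem_prod]
  rfl

instance Nsub_normal : (Nsub p r).Normal where
  conj_mem := by
    intro n hn g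
    rw [mem_Nsub] at hn ⊢
    refine ⟨?_, ?_⟩
    · change g.1.1 * n.1.1 * g.1.1⁻¹ = 1
      rw [hn.1]; group
    · exact (Subgroup.mem_normalizer_iff.1 (PM_snd_norm g.1 g.2) _).1 hn.2

theorem kill_comm_T (i : Fin 5) (u : Fr) : kill r (T i u) = T i (kill r u) := by
  have : (kill r).comp (T i).toMonoidHom = (T i).toMonoidHom.comp (kill r) := by
    ext l
    rcases l with k | k | k
    · fin_cases i <;> fin_cases k <;> simp [kill, twFun, C]
    · by_cases hk : k = r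
      · subst hk; fin_cases i <;> simp [kill, twFun]
      · fin_cases i <;> simp [kill, twFun, hk]
    · fin_cases i <;> simp [kill, twFun]
  exact DFunLike.congr_fun this u

theorem kill_comm_h (k : ℕ) (hk : k < r) (u : Fr) : kill r (h p k u) = h p k (kill r u) := by
  have : (kill r).comp (h p k).toMonoidHom = (h p k).toMonoidHom.comp (kill r) := by
    ext l
    have hk' : k ≠ r := hk.ne
    rcases l with l | l | l
    · fin_cases l <;> simp [kill, hFun, C, X, hk']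
    · by_cases hl : l = r
      · subst hl
        simp [kill, hFun, hk'.symm, hk.not_gt, X]
      · simp only [MonoidHom.comp_apply, MulEquiv.toMonoidHom_eq_coe, MonoidHom.coe_coe, h_of,
          hFun]
        split_ifs <;> simp [kill, hFun, C, X, cmt, *]
    · by_cases hp : l < p
      · simp [kill, hFun, Y, hp]
      · by_cases hl : l = k
        · subst hl; simp [kill, hFun, C, X, Y, hp, hk']
        · by_cases hl2 : l < k <;> simp [kill, hFun, C, X, Y, hp, hk', hl, hl2, cmt]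
  exact DFunLike.congr_fun this u

theorem kill_comm (g : W × MulAut Fr) (hg : g ∈ PM p r) (u : Fr) :
    kill r (g.2 u) = g.2 (kill r u) := by
  revert u
  induction hg using Subgroup.closure_induction with
  | mem x hx =>
    rcases hx with ⟨i, rfl⟩ | ⟨j, hj, rfl⟩
    · exact kill_comm_T i
    · exact kill_comm_h j hj
  | one => intro u; rfl
  | mul x y _ _ hx hy => intro u; simp [hx, hy]
  | inv x _ hx =>
    intro u
    have := hx (x⁻¹.2 u)
    have h2 : x.2 (x⁻¹.2 u) = u := by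
      change x.2 (x.2⁻¹ u) = u
      simp
    rw [h2] at this
    rw [this]
    change _ = x.2⁻¹ (x.2 _)
    simp

theorem fix_xy (g : W × MulAut Fr) (hg : g ∈ PM p r) : g.2 (X r) = X r ∧ g.2 (Y r) = Y r := by
  induction hg using Subgroup.closure_induction with
  | mem x hx =>
    rcases hx with ⟨i, rfl⟩ | ⟨j, hj, rfl⟩
    · fin_cases i <;> simp [X, Y, twFun]
    · simp [X, Y, hFun, hj.ne', hj.not_gt]
  | one => simp
  | mul x y _ _ hx hy => simp [hx, hy]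
  | inv x _ hx =>
    refine ⟨?_, ?_⟩
    · change x.2⁻¹ (X r) = X r
      conv_lhs => rw [← hx.1]
      simp
    · change x.2⁻¹ (Y r) = Y r
      conv_lhs => rw [← hx.2]
      simp

theorem eP_Zt_comm (f : FreeGroup (Fin 4 ⊕ Fin r)) : eP p r f * Zt p r = Zt p r * eP p r f := by
  have : (MulAut.conj (Zt p r)).toMonoidHom.comp (eP p r) = eP p r := by
    ext1 x
    rcases x with b | k
    · have h := Pu_Zt p r b
      simp only [eP, MonoidHom.comp_apply, MulEquiv.toMonoidHom_eq_coe, MonoidHom.coe_coe,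
        FreeGroup.lift_apply_of, Sum.elim_inl, MulAut.conj_apply]
      have h2 : (Pu p r b)⁻¹ * Zt p r = Zt p r * (Pu p r b)⁻¹ := by
        calc (Pu p r b)⁻¹ * Zt p r = (Pu p r b)⁻¹ * (Zt p r * Pu p r b) * (Pu p r b)⁻¹ := by group
          _ = (Pu p r b)⁻¹ * (Pu p r b * Zt p r) * (Pu p r b)⁻¹ := by rw [h]
          _ = _ := by group
      rw [← h2]; group
    · have h := Ru_Zt p r k k.2
      simp only [eP, MonoidHom.comp_apply, MulEquiv.toMonoidHom_eq_coe, MonoidHom.coe_coe,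
        FreeGroup.lift_apply_of, Sum.elim_inr, MulAut.conj_apply]
      have h2 : (Ru p r k)⁻¹ * Zt p r = Zt p r * (Ru p r k)⁻¹ := by
        calc (Ru p r k)⁻¹ * Zt p r = (Ru p r k)⁻¹ * (Zt p r * Ru p r k) * (Ru p r k)⁻¹ := by group
          _ = (Ru p r k)⁻¹ * (Ru p r k * Zt p r) * (Ru p r k)⁻¹ := by rw [h]
          _ = _ := by group
      rw [← h2]; group
  have h := DFunLike.congr_fun this f
  simp only [MonoidHom.comp_apply, MulEquiv.toMonoidHom_eq_coe, MonoidHom.coe_coe,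
    MulAut.conj_apply] at h
  calc eP p r f * Zt p r = (Zt p r * eP p r f * (Zt p r)⁻¹) * Zt p r := by rw [h]
    _ = _ := by group

theorem kill_of_ne {l : Letter} (hl : l ≠ Letter.x r) : kill r (FreeGroup.of l) = FreeGroup.of l := by
  simp [kill, hl]

section general

variable {Z : Type} [AddCommGroup Z] (z0 : Z) (ζ : Multiplicative Z →* MulAut Fr)
  (hz : ∀ m : Z, ∃ n : ℤ, m = n • z0) (hζ0 : ζ (Multiplicative.ofAdd z0) = Zt p r)

include hz hζ0

theorem ζ_pow (m : Multiplicative Z) : ∃ n : ℤ, ζ m = Zt p r ^ n := by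
  obtain ⟨n, hn⟩ := hz m.toAdd
  refine ⟨n, ?_⟩
  have : m = Multiplicative.ofAdd z0 ^ n := by
    rw [← ofAdd_zsmul, ← hn]; rfl
  rw [this, map_zpow, hζ0]

theorem eP_ζ_comm (f : FreeGroup (Fin 4 ⊕ Fin r)) (m : Multiplicative Z) :
    Commute (eP p r f) (ζ m) := by
  obtain ⟨n, hn⟩ := ζ_pow z0 ζ hz hζ0 m
  rw [hn]
  exact Commute.zpow_right (eP_Zt_comm f) n

/-- the parametrisation of the pushes -/
def eA : FreeGroup (Fin 4 ⊕ Fin r) × Multiplicative Z →* MulAut Fr :=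
  MonoidHom.noncommCoprod (eP p r) ζ (eP_ζ_comm z0 ζ hz hζ0)

theorem eA_range : (eA z0 ζ hz hζ0).range = NA p r := by
  apply le_antisymm
  · rintro _ ⟨⟨f, m⟩, rfl⟩
    have h1 : eP p r f ∈ NA p r := by
      have : (eP p r).range ≤ NA p r := by
        rw [eP, FreeGroup.range_lift_eq_closure, Subgroup.closure_le]
        rintro _ ⟨b | k, rfl⟩
        · exact inv_mem (Pu_mem b)
        · exact inv_mem (Ru_mem k.2)
      exact this ⟨f, rfl⟩
    obtain ⟨n, hn⟩ := ζ_pow z0 ζ hz hζ0 m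
    have h2 : ζ m ∈ NA p r := by rw [hn]; exact zpow_mem Zt_mem n
    exact mul_mem h1 h2
  · rw [NA, Subgroup.closure_le]
    rintro _ ((⟨b, rfl⟩ | ⟨k, hk, rfl⟩) | rfl)
    · exact ⟨((FreeGroup.of (Sum.inl b))⁻¹, 1), by simp [eA, eP]⟩
    · exact ⟨((FreeGroup.of (Sum.inr ⟨k, hk⟩))⁻¹, 1), by simp [eA, eP]⟩
    · exact ⟨(1, Multiplicative.ofAdd z0), by simp [eA, hζ0]⟩

/-- an element of `PM p r` which is a push is trivial -/
theorem eq_one_of_push {g : W × MulAut Fr} (hg : g ∈ PM p r) (h1 : g.1 = 1)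
    (h2 : g.2 ∈ NA p r) : g = 1 := by
  rw [← eA_range z0 ζ hz hζ0] at h2
  obtain ⟨⟨f, m⟩, h3⟩ := h2
  have h3 : eP p r f * ζ m = g.2 := h3
  obtain ⟨n, hn⟩ := ζ_pow z0 ζ hz hζ0 m
  rw [hn] at h3
  have hZ : ∀ l : Letter, l ≠ Letter.y r → (Zt p r ^ n) (FreeGroup.of l) = FreeGroup.of l := by
    intro l hl
    have h4 : Zt p r (FreeGroup.of l) = FreeGroup.of l := by
      rcases l with l | l | l
      · simp [zFun]
      · simp [zFun]
      · have : l ≠ r := fun h => hl (h ▸ rfl)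
        simp [zFun, this, Y]
    have h5 : Zt p r ∈ MulAction.stabilizer (MulAut Fr) (FreeGroup.of l : Fr) := h4
    exact zpow_mem h5 n
  have key : g.2 = 1 := by
    apply MulEquiv.toMonoidHom_injective
    ext l
    by_cases hx : l = Letter.x r
    · subst hx; exact (fix_xy g hg).1
    by_cases hy : l = Letter.y r
    · subst hy; exact (fix_xy g hg).2
    have a1 : kill r (g.2 (FreeGroup.of l)) = g.2 (FreeGroup.of l) := by
      rw [kill_comm g hg, kill_of_ne hx]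
    have a2 : kill r (g.2 (FreeGroup.of l)) = FreeGroup.of l := by
      rw [← h3, MulAut.mul_apply, hZ l hy, kill_eP p r f l hy, kill_of_ne hx]
    exact a1.symm.trans a2
  exact Prod.ext h1 key

omit hz hζ0 in
/-- the section -/
theorem mk_bij_surj : Function.Surjective
    ((QuotientGroup.mk' (Nsub p r)).comp (Subgroup.inclusion (PM_mono p r))) := by
  have h : (((QuotientGroup.mk' (Nsub p r)).comp (Subgroup.inclusion (PM_mono p r))).range).comap
      (QuotientGroup.mk' (Nsub p r)) = ⊤ := by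
    rw [eq_top_iff, ← PM_gen p (r + 1), Subgroup.closure_le]
    rintro _ (⟨i, rfl⟩ | ⟨k, rfl⟩)
    · exact ⟨tG p r i, rfl⟩
    · rcases Nat.lt_succ_iff_lt_or_eq.1 k.2 with hk | hk
      · exact ⟨hG p r ⟨k, hk⟩, rfl⟩
      · have : hG p (r + 1) k ∈ Nsub p r := by
          rw [mem_Nsub]
          refine ⟨rfl, ?_⟩
          change h p k ∈ NA p r
          rw [hk]
          exact pu0_mem
        exact ⟨1, by rw [map_one]; exact ((QuotientGroup.eq_one_iff _).2 this).symm⟩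
  intro x
  obtain ⟨y, rfl⟩ := QuotientGroup.mk'_surjective _ x
  have hy : y ∈ (((QuotientGroup.mk' (Nsub p r)).comp
      (Subgroup.inclusion (PM_mono p r))).range).comap (QuotientGroup.mk' (Nsub p r)) := by
    rw [h]; trivial
  exact hy

theorem mk_bij_inj : Function.Injective
    ((QuotientGroup.mk' (Nsub p r)).comp (Subgroup.inclusion (PM_mono p r))) := by
  rw [injective_iff_map_eq_one]
  intro g hg
  have h1 : Subgroup.inclusion (PM_mono p r) g ∈ Nsub p r := (QuotientGroup.eq_one_iff _).1 hg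
  rw [mem_Nsub] at h1
  exact Subtype.ext (eq_one_of_push z0 ζ hz hζ0 g.2 h1.1 h1.2)

/-- the identification of `PM p r` with the quotient by the pushes -/
noncomputable def quoEquiv : PM p r ≃* PM p (r + 1) ⧸ Nsub p r :=
  MulEquiv.ofBijective _ ⟨mk_bij_inj z0 ζ hz hζ0, mk_bij_surj⟩

/-- the retraction -/
noncomputable def rhoM : PM p (r + 1) →* PM p r :=
  (quoEquiv z0 ζ hz hζ0).symm.toMonoidHom.comp (QuotientGroup.mk' (Nsub p r))

theorem rhoM_incl (g : PM p r) :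
    rhoM z0 ζ hz hζ0 (Subgroup.inclusion (PM_mono p r) g) = g :=
  (quoEquiv z0 ζ hz hζ0).symm_apply_apply g

theorem rhoM_eq_one (x : PM p (r + 1)) : rhoM z0 ζ hz hζ0 x = 1 ↔ x ∈ Nsub p r := by
  rw [← QuotientGroup.eq_one_iff]
  constructor
  · intro h
    have : (quoEquiv z0 ζ hz hζ0).symm (QuotientGroup.mk' (Nsub p r) x) = 1 := h
    exact (MulEquiv.map_eq_one_iff _).1 this
  · intro h
    change (quoEquiv z0 ζ hz hζ0).symm (QuotientGroup.mk' (Nsub p r) x) = 1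
    exact (MulEquiv.map_eq_one_iff _).2 h

/-- the parametrisation of the kernel -/
def eM : FreeGroup (Fin 4 ⊕ Fin r) × Multiplicative Z →* PM p (r + 1) :=
  ((MonoidHom.inr W (MulAut Fr)).comp (eA z0 ζ hz hζ0)).codRestrict (PM p (r + 1)) (by
    intro x
    exact NA_inPM p r (by rw [← eA_range z0 ζ hz hζ0]; exact ⟨x, rfl⟩))

theorem eM_range (x : PM p (r + 1)) : x ∈ Nsub p r ↔ ∃ n, eM z0 ζ hz hζ0 n = x := by
  rw [mem_Nsub]
  constructor
  · rintro ⟨h1, h2⟩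
    rw [← eA_range z0 ζ hz hζ0] at h2
    obtain ⟨n, hn⟩ := h2
    exact ⟨n, Subtype.ext (Prod.ext h1.symm hn)⟩
  · rintro ⟨n, rfl⟩
    refine ⟨rfl, ?_⟩
    rw [← eA_range z0 ζ hz hζ0]
    exact ⟨n, rfl⟩

end general

theorem conj_inv_comm {G : Type} [Group G] {a b : G} (h : a * b = b * a) :
    a * b⁻¹ * a⁻¹ = b⁻¹ := by
  calc a * b⁻¹ * a⁻¹ = (a * b * a⁻¹)⁻¹ := by group
    _ = b⁻¹ := by rw [h]; group

theorem conj_inv_dn {G : Type} [Group G] {t a b : G} (h : t * a * b = a * t)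
    (h2 : t * b = b * t) : t * a⁻¹ * t⁻¹ = b * a⁻¹ := by
  have h3 : t * a * t⁻¹ = a * b⁻¹ := by
    calc t * a * t⁻¹ = (t * a * b) * t⁻¹ * (t * b * t⁻¹)⁻¹ := by group
      _ = a * b⁻¹ := by rw [h, h2]; group
  calc t * a⁻¹ * t⁻¹ = (t * a * t⁻¹)⁻¹ := by group
    _ = _ := by rw [h3]; group

theorem W_braid (i j : Fin 5) (h : (i : ℕ) + 1 = j) :
    tw i * tw j * tw i = tw j * tw i * tw j := by
  have h1 : FreeGroup.of i * FreeGroup.of j * FreeGroup.of i *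
        (FreeGroup.of j * FreeGroup.of i * FreeGroup.of j)⁻¹ ∈ wRels :=
    Or.inl (Or.inl ⟨i, j, h, rfl⟩)
  have h2 := PresentedGroup.one_of_mem h1
  rw [map_mul, map_inv, mul_inv_eq_one] at h2
  simp only [map_mul] at h2
  exact h2

theorem W_comm (i j : Fin 5) (h : (i : ℕ) + 1 < j) :
    tw i * tw j = tw j * tw i := by
  have h1 : FreeGroup.of i * FreeGroup.of j * (FreeGroup.of j * FreeGroup.of i)⁻¹ ∈ wRels :=
    Or.inl (Or.inr ⟨i, j, h, rfl⟩)
  have h2 := PresentedGroup.one_of_mem h1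
  rw [map_mul, map_inv, mul_inv_eq_one] at h2
  simp only [map_mul] at h2
  exact h2

theorem t4_aux {G : Type} [Group G] {t a0 a1 a2 a3 z : G}
    (h : t * a3 * z * a2 * a1 * a0 = a3 * a1 * t) (f0 : t * a0 * t⁻¹ = a0)
    (f1 : t * a1 * t⁻¹ = a1) (f2 : t * a2 * t⁻¹ = a2) (fz : t * z * t⁻¹ = z)
    (hc : z * (a2 * a1 * a0 * a1⁻¹ * a3⁻¹) = (a2 * a1 * a0 * a1⁻¹ * a3⁻¹) * z) :
    t * a3⁻¹ * t⁻¹ = (a2⁻¹)⁻¹ * (a1⁻¹)⁻¹ * (a0⁻¹)⁻¹ * a1⁻¹ * a3⁻¹ * z := by
  calc t * a3⁻¹ * t⁻¹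
      = (t * z * t⁻¹) * (t * a2 * t⁻¹) * (t * a1 * t⁻¹) *
        (t * a0 * t⁻¹) * t * (t * a3 * z * a2 * a1 * a0)⁻¹ := by group
    _ = z * (a2 * a1 * a0 * a1⁻¹ * a3⁻¹) := by
        rw [h, f0, f1, f2, fz]; group
    _ = _ := by rw [hc]; group

theorem self_aux {G : Type} [Group G] {t a u : G} (h : a * u * t * u = u * a * u * t) :
    t * u⁻¹ * t⁻¹ = u⁻¹ * a⁻¹ * u⁻¹ * (u⁻¹ * a⁻¹)⁻¹ := by
  calc t * u⁻¹ * t⁻¹ = t * (a * u * t * u)⁻¹ * a * u := by group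
    _ = _ := by rw [h]; group

theorem TRel_tw : TRel tw where
  b01 := W_braid 0 1 rfl
  b12 := W_braid 1 2 rfl
  b23 := W_braid 2 3 rfl
  b34 := W_braid 3 4 rfl
  c02 := W_comm 0 2 (by decide)
  c03 := W_comm 0 3 (by decide)
  c04 := W_comm 0 4 (by decide)
  c13 := W_comm 1 3 (by decide)
  c14 := W_comm 1 4 (by decide)
  c24 := W_comm 2 4 (by decide)

theorem TRel_tG (p r : ℕ) : TRel (tG p r) := by
  constructor
  · exact Subtype.ext (Prod.ext TRel_tw.b01 T_rel.b01)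
  · exact Subtype.ext (Prod.ext TRel_tw.b12 T_rel.b12)
  · exact Subtype.ext (Prod.ext TRel_tw.b23 T_rel.b23)
  · exact Subtype.ext (Prod.ext TRel_tw.b34 T_rel.b34)
  · exact Subtype.ext (Prod.ext TRel_tw.c02 T_rel.c02)
  · exact Subtype.ext (Prod.ext TRel_tw.c03 T_rel.c03)
  · exact Subtype.ext (Prod.ext TRel_tw.c04 T_rel.c04)
  · exact Subtype.ext (Prod.ext TRel_tw.c13 T_rel.c13)
  · exact Subtype.ext (Prod.ext TRel_tw.c14 T_rel.c14)
  · exact Subtype.ext (Prod.ext TRel_tw.c24 T_rel.c24)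

theorem hG_T (k : Fin r) (i : Fin 5) (hi : i ≠ 1) : hG p r k * tG p r i = tG p r i * hG p r k :=
  Subtype.ext (Prod.ext (by change 1 * tw i = tw i * 1; simp) (h_T p k i hi))

theorem PM_le {r s : ℕ} (h : r ≤ s) : PM p r ≤ PM p s := by
  induction s, h using Nat.le_induction with
  | base => exact le_rfl
  | succ s _ ih => exact ih.trans (PM_mono p s)

open scoped commutatorElement in
theorem hG_comm (k : Fin r) : hG p r k ∈ commutator (PM p r) := by
  have h1 : ((1, pu1 p k) : W × MulAut Fr) ∈ PM p r := PM_le (by omega) (inPM_pu1 p k)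
  have h2 : hG p r k = ⁅(⟨(1, pu1 p k), h1⟩ : PM p r)⁻¹, (tG p r 0)⁻¹⁆ := by
    refine Subtype.ext (Prod.ext ?_ ?_)
    · change (1 : W) = 1⁻¹ * (tw 0)⁻¹ * (1⁻¹)⁻¹ * ((tw 0)⁻¹)⁻¹
      simp
    · change h p k = (pu1 p k)⁻¹ * (T 0)⁻¹ * ((pu1 p k)⁻¹)⁻¹ * ((T 0)⁻¹)⁻¹
      have h3 := T0_Pu1 p (k : ℕ)
      have h4 : pu0 p k = (pu1 p k)⁻¹ * (T 0)⁻¹ * (pu1 p k * T 0) := by rw [← h3]; group
      change pu0 p k = _
      rw [h4]; group
  rw [h2, commutator_def]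
  exact Subgroup.commutator_mem_commutator (Subgroup.mem_top _) (Subgroup.mem_top _)

theorem Zt_central (g : W × MulAut Fr) (hg : g ∈ PM p (r + 1)) : Zt p r * g.2 = g.2 * Zt p r := by
  induction hg using Subgroup.closure_induction with
  | mem x hx =>
    rcases hx with ⟨i, rfl⟩ | ⟨j, hj, rfl⟩
    · exact (T_Zt p r i).symm
    · rcases Nat.lt_succ_iff_lt_or_eq.1 hj with hj | rfl
      · exact (h_Zt p r j hj).symm
      · exact (Pu_Zt p j 0).symm
  | one => simp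
  | mul x y _ _ hx hy =>
    change Zt p r * (x.2 * y.2) = x.2 * y.2 * Zt p r
    rw [← mul_assoc, hx, mul_assoc, hy, mul_assoc]
  | inv x _ hx =>
    change Zt p r * x.2⁻¹ = x.2⁻¹ * Zt p r
    calc Zt p r * x.2⁻¹ = x.2⁻¹ * (x.2 * Zt p r) * x.2⁻¹ := by group
      _ = x.2⁻¹ * (Zt p r * x.2) * x.2⁻¹ := by rw [hx]
      _ = _ := by group

/-- a push as an element of the group -/
def pe {a : MulAut Fr} (ha : inPM p r a) : PM p (r + 1) := ⟨(1, a), ha⟩

theorem conj_pe (g : PM p (r + 1)) {a b : MulAut Fr} (ha : inPM p r a) (hb : inPM p r b)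
    (h : g.1.2 * a * g.1.2⁻¹ = b) : g * pe ha * g⁻¹ = pe hb :=
  Subtype.ext (Prod.ext (by change g.1.1 * 1 * g.1.1⁻¹ = 1; group) h)

theorem exists_stage {Z : Type} [AddCommGroup Z] (z0 : Z) (ζ : Multiplicative Z →* MulAut Fr)
    (hz : ∀ m : Z, ∃ n : ℤ, m = n • z0) (hζ0 : ζ (Multiplicative.ofAdd z0) = Zt p r)
    (hinj : ∀ f m, eP p r f * ζ m = 1 → f = 1 ∧ m = 1) :
    ∃ S : Stage (Fin r) Z (PM p r) (PM p (r + 1)), S.z0 = z0 := by
  have aux : ∀ b, Pu p r b = ![pu0 p r, pu1 p r, pu2 p r, pu3 p r] b := fun _ => rfl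
  refine ⟨{ t := tG p r
            h := hG p r
            gen := PM_gen p r
            rel := TRel_tG p r
            ht0 := fun k => hG_T k 0 (by decide)
            ht2 := fun k => hG_T k 2 (by decide)
            ht3 := fun k => hG_T k 3 (by decide)
            ht4 := fun k => hG_T k 4 (by decide)
            hcomm := hG_comm
            π := (MonoidHom.fst W (MulAut Fr)).comp (PM p r).subtype
            πt := fun i => rfl
            πh := fun k => rfl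
            j := Subgroup.inclusion (PM_mono p r)
            ρ := rhoM z0 ζ hz hζ0
            ρj := rhoM_incl z0 ζ hz hζ0
            e := eM z0 ζ hz hζ0
            e_inj := ?_
            ker := fun x => (rhoM_eq_one z0 ζ hz hζ0 x).trans (eM_range z0 ζ hz hζ0 x)
            z0 := z0
            z0_gen := hz
            P := fun b => pe (inPM_Pu p r b).inv
            P_eq := ?_
            R := fun k => pe (inPM_Ru p r k k.2).inv
            R_eq := ?_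
            z := pe (inPM_Zt p r)
            z_eq := ?_
            tP := ?_
            t0P1 := ?_
            t1P0 := ?_
            t1P2 := ?_
            t2P1 := ?_
            t2P3 := ?_
            t3P2 := ?_
            t4P3 := ?_
            tR := ?_
            tz := ?_
            hP0 := ?_
            hP1 := ?_
            hP2 := ?_
            hP3 := ?_
            hR := ?_ }, rfl⟩
  · rw [injective_iff_map_eq_one]
    rintro ⟨f, m⟩ h1
    have h2 : eP p r f * ζ m = 1 := congrArg (fun x : PM p (r + 1) => x.1.2) h1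
    obtain ⟨h3, h4⟩ := hinj f m h2
    rw [h3, h4]; rfl
  · intro i
    refine Subtype.ext (Prod.ext rfl ?_)
    change (Pu p r i)⁻¹ = eP p r (FreeGroup.of (Sum.inl i)) * ζ 1
    simp [eP]
  · intro k
    refine Subtype.ext (Prod.ext rfl ?_)
    change (Ru p r k)⁻¹ = eP p r (FreeGroup.of (Sum.inr k)) * ζ 1
    simp [eP]
  · refine Subtype.ext (Prod.ext rfl ?_)
    change Zt p r = eP p r 1 * ζ (Multiplicative.ofAdd z0)
    rw [hζ0]; simp
  · intro i k hik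
    exact conj_pe _ _ _ (conj_inv_comm (T_Pu p r i k hik))
  · refine Subtype.ext (Prod.ext ?_ ?_)
    · change tw 0 * 1 * (tw 0)⁻¹ = (1 : W)⁻¹ * 1
      group
    · change T 0 * (pu1 p r)⁻¹ * (T 0)⁻¹ = ((pu0 p r)⁻¹)⁻¹ * (pu1 p r)⁻¹
      rw [inv_inv]
      exact conj_inv_dn (T0_Pu1 p r) (T_Pu p r 0 0 (by decide))
  · refine Subtype.ext (Prod.ext ?_ ?_)
    · change tw 1 * 1 * (tw 1)⁻¹ = (1 : W) * 1
      group
    · change T 1 * (pu0 p r)⁻¹ * (T 1)⁻¹ = (pu0 p r)⁻¹ * (pu1 p r)⁻¹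
      rw [pu1]; group
  · refine Subtype.ext (Prod.ext ?_ ?_)
    · change tw 1 * 1 * (tw 1)⁻¹ = (1 : W)⁻¹ * 1
      group
    · change T 1 * (pu2 p r)⁻¹ * (T 1)⁻¹ = ((pu1 p r)⁻¹)⁻¹ * (pu2 p r)⁻¹
      rw [inv_inv]
      exact conj_inv_dn (T1_Pu2 p r) (T_Pu p r 1 1 (by decide))
  · refine Subtype.ext (Prod.ext ?_ ?_)
    · change tw 2 * 1 * (tw 2)⁻¹ = (1 : W) * 1
      group
    · change T 2 * (pu1 p r)⁻¹ * (T 2)⁻¹ = (pu1 p r)⁻¹ * (pu2 p r)⁻¹
      rw [pu2]; group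
  · refine Subtype.ext (Prod.ext ?_ ?_)
    · change tw 2 * 1 * (tw 2)⁻¹ = (1 : W)⁻¹ * 1
      group
    · change T 2 * (pu3 p r)⁻¹ * (T 2)⁻¹ = ((pu2 p r)⁻¹)⁻¹ * (pu3 p r)⁻¹
      rw [inv_inv]
      exact conj_inv_dn (T2_Pu3 p r) (T_Pu p r 2 2 (by decide))
  · refine Subtype.ext (Prod.ext ?_ ?_)
    · change tw 3 * 1 * (tw 3)⁻¹ = (1 : W) * 1
      group
    · change T 3 * (pu2 p r)⁻¹ * (T 3)⁻¹ = (pu2 p r)⁻¹ * (pu3 p r)⁻¹
      rw [pu3]; group
  · refine Subtype.ext (Prod.ext ?_ ?_)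
    · change tw 4 * 1 * (tw 4)⁻¹ = (1 : W)⁻¹ * 1⁻¹ * 1⁻¹ * 1 * 1 * 1
      group
    · change T 4 * (pu3 p r)⁻¹ * (T 4)⁻¹ = ((pu2 p r)⁻¹)⁻¹ * ((pu1 p r)⁻¹)⁻¹ * ((pu0 p r)⁻¹)⁻¹ *
        (pu1 p r)⁻¹ * (pu3 p r)⁻¹ * Zt p r
      have f0 : T 4 * pu0 p r * (T 4)⁻¹ = pu0 p r := conj_eq_of_comm (T_Pu p r 4 0 (by decide))
      have f1 : T 4 * pu1 p r * (T 4)⁻¹ = pu1 p r := conj_eq_of_comm (T_Pu p r 4 1 (by decide))
      have f2 : T 4 * pu2 p r * (T 4)⁻¹ = pu2 p r := conj_eq_of_comm (T_Pu p r 4 2 (by decide))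
      have fz : T 4 * Zt p r * (T 4)⁻¹ = Zt p r := conj_eq_of_comm (T_Zt p r 4)
      have h := T4_Pu3 p r
      have hc : Zt p r * (pu2 p r * pu1 p r * pu0 p r * (pu1 p r)⁻¹ * (pu3 p r)⁻¹) =
          (pu2 p r * pu1 p r * pu0 p r * (pu1 p r)⁻¹ * (pu3 p r)⁻¹) * Zt p r := by
        have hm : inPM p r (pu2 p r * pu1 p r * pu0 p r * (pu1 p r)⁻¹ * (pu3 p r)⁻¹) :=
          ((((inPM_pu2 p r).mul (inPM_pu1 p r)).mul (inPM_pu0 p r)).mul (inPM_pu1 p r).inv).mul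
            (inPM_pu3 p r).inv
        generalize pu2 p r * pu1 p r * pu0 p r * (pu1 p r)⁻¹ * (pu3 p r)⁻¹ = a at hm
        exact Zt_central ((1 : W), a) hm
      exact t4_aux h f0 f1 f2 fz hc
  · intro i k
    exact conj_pe _ _ _ (conj_inv_comm (T_Ru p r k k.2 i))
  · intro g
    refine Subtype.ext (Prod.ext ?_ ?_)
    · change 1 * g.1.1 = g.1.1 * 1
      simp
    · exact Zt_central g.1 g.2
  · intro k
    refine Subtype.ext (Prod.ext ?_ ?_)
    · change (1 : W) * 1 * 1⁻¹ = 1 * 1 * 1⁻¹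
      rfl
    · change h p k * (pu0 p r)⁻¹ * (h p k)⁻¹ =
        (Ru p r k)⁻¹ * (pu0 p r)⁻¹ * ((Ru p r k)⁻¹)⁻¹
      have h1 := h_Pu0 p r k k.2
      calc h p k * (pu0 p r)⁻¹ * (h p k)⁻¹
          = (Ru p r k)⁻¹ * (Ru p r k * h p k) * (Ru p r k * h p k * pu0 p r)⁻¹ * Ru p r k := by
            group
        _ = _ := by rw [h1]; group
  · intro k
    refine Subtype.ext (Prod.ext ?_ ?_)
    · change (1 : W) * 1 * 1⁻¹ = 1 * 1
      simp
    · change h p k * (pu1 p r)⁻¹ * (h p k)⁻¹ = (Ru p r k)⁻¹ * (pu1 p r)⁻¹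
      rw [Ru]; group
  · intro k
    exact conj_pe _ _ _ (conj_inv_comm (h_Pu2 p r k k.2))
  · intro k
    exact conj_pe _ _ _ (conj_inv_comm (h_Pu3 p r k k.2))
  · intro k l
    have hn : ∀ a, (ha : inPM p r a) → a ∈ NA p r →
        rhoM z0 ζ hz hζ0 (pe ha) = 1 := fun a ha hm =>
      (rhoM_eq_one z0 ζ hz hζ0 _).2 (mem_Nsub.2 ⟨rfl, hm⟩)
    rcases lt_trichotomy (l : ℕ) k with hlk | hlk | hlk
    · have g := h_Ru_lt p r k l hlk k.2
      have cm : cmt (Ru p r k)⁻¹ (pu0 p r)⁻¹ ∈ NA p r := by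
        rw [cmt]
        exact mul_mem (mul_mem (mul_mem (inv_mem (Ru_mem k.2)) (inv_mem pu0_mem))
          (inv_mem (inv_mem (Ru_mem k.2)))) (inv_mem (inv_mem pu0_mem))
      refine ⟨pe (NA_inPM p r cm), hn _ _ cm, ?_⟩
      refine Subtype.ext (Prod.ext ?_ ?_)
      · change (1 : W) * 1 * 1⁻¹ = 1 * 1 * 1⁻¹
        rfl
      · change h p k * (Ru p r l)⁻¹ * (h p k)⁻¹ = cmt (Ru p r k)⁻¹ (pu0 p r)⁻¹ * (Ru p r l)⁻¹ *
          (cmt (Ru p r k)⁻¹ (pu0 p r)⁻¹)⁻¹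
        calc h p k * (Ru p r l)⁻¹ * (h p k)⁻¹ = (h p k * Ru p r l * (h p k)⁻¹)⁻¹ := by group
          _ = _ := by rw [g]; group
    · have hkl : l = k := Fin.ext hlk
      subst hkl
      have hm : (Ru p r l)⁻¹ * (pu0 p r)⁻¹ ∈ NA p r :=
        mul_mem (inv_mem (Ru_mem l.2)) (inv_mem pu0_mem)
      refine ⟨pe (NA_inPM p r hm), hn _ _ hm, ?_⟩
      refine Subtype.ext (Prod.ext ?_ ?_)
      · change (1 : W) * 1 * 1⁻¹ = 1 * 1 * 1⁻¹
        rfl
      · change h p l * (Ru p r l)⁻¹ * (h p l)⁻¹ = (Ru p r l)⁻¹ * (pu0 p r)⁻¹ * (Ru p r l)⁻¹ *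
          ((Ru p r l)⁻¹ * (pu0 p r)⁻¹)⁻¹
        exact self_aux (h_Ru_self p r l l.2)
    · refine ⟨1, map_one _, ?_⟩
      rw [one_mul, inv_one, mul_one]
      exact conj_pe _ _ _ (conj_inv_comm (h_Ru_gt p r k l hlk l.2))

end stage

theorem exists_stage_pt (p r : ℕ) (hr : r < p) :
    Nonempty (Stage (Fin r) PUnit (PM p r) (PM p (r + 1))) := by
  obtain ⟨S, -⟩ := exists_stage (p := p) (r := r) (PUnit.unit) 1
    (fun m => ⟨0, rfl⟩) (by
      have : Zt p r = 1 := by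
        apply aut_ext
        intro l
        rcases l with l | l | l
        · simp [zFun]
        · simp [zFun]
        · simp [zFun, Y, hr.not_ge]
      rw [this]; rfl) (by
      intro f m hf
      refine ⟨eP_inj p r (by simpa using hf), rfl⟩)
  exact ⟨S⟩

theorem exists_stage_bd (p r : ℕ) (hr : p ≤ r) :
    ∃ S : Stage (Fin r) ℤ (PM p r) (PM p (r + 1)), S.z0 = 1 := by
  refine exists_stage (p := p) (r := r) 1 (zpowersHom _ (Zt p r))
    (fun m => ⟨m, by simp⟩) (by simp) ?_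
  intro f m hf
  have h1 := eP_Zt_inj p r hr f m.toAdd (by simpa using hf)
  exact ⟨h1.1, h1.2⟩

end MCG
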