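import Pool.Agent.H60.MCG.Stage

open scoped commutatorElement

namespace MCG

variable {ι Z G₀ G' : Type} [AddCommGroup Z] [Group G₀] [Group G'] (S : Stage ι Z G₀ G')

variable {K E : Type} [AddCommGroup K] [Group E] {i : Multiplicative K →* E} {p : E →* G'}

/-- A homomorphic section over the kernel yields a crossed homomorphism. -/
theorem Stage.exists_crossed (hE : IsCentral i p) (σ : S.N →* E) (hσ : ∀ n, p (σ n) = n) :
    ∃ κ : S.Crossed K, ∀ e n,
      e * σ n * e⁻¹ = σ (MulAut.conjNormal (p e) n) * i (κ.k (p e) n) := by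
  have key : ∀ (e : E) (n : S.N), ∃ k : Multiplicative K,
      e * σ n * e⁻¹ = σ (MulAut.conjNormal (p e) n) * i k := by
    intro e n
    have h1 : p ((σ (MulAut.conjNormal (p e) n))⁻¹ * (e * σ n * e⁻¹)) = 1 := by
      simp only [map_mul, map_inv, hσ, MulAut.conjNormal_apply, inv_mul_cancel]
    obtain ⟨k, hk⟩ := (hE.exact _).1 h1
    exact ⟨k, by rw [hk]; group⟩
  choose F hF using key
  have uniq : ∀ e n k, e * σ n * e⁻¹ = σ (MulAut.conjNormal (p e) n) * i k → k = F e n := by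
    intro e n k h
    rw [hF e n] at h
    exact (hE.inj (mul_left_cancel h)).symm
  have indep : ∀ e e' n, p e = p e' → F e n = F e' n := by
    intro e e' n h
    obtain ⟨k, hk⟩ := (hE.exact (e * e'⁻¹)).1 (by rw [map_mul, map_inv, h, mul_inv_cancel])
    have he : e = i k * e' := by rw [hk]; group
    refine uniq e' n (F e n) ?_
    have h2 := hF e n
    rw [h] at h2
    rw [← h2]
    have h3 : e * σ n * e⁻¹ = i k * (e' * σ n * e'⁻¹) * (i k)⁻¹ := by
      rw [he]; group
    rw [h3, hE.central, mul_inv_cancel_right]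
  choose s hs using hE.surj
  refine ⟨⟨fun g => MonoidHom.mk' (F (s g)) ?_, ?_, ?_⟩, ?_⟩
  · intro n m
    refine (uniq _ _ _ ?_).symm
    have h1 := hF (s g) n
    have h2 := hF (s g) m
    have h3 : s g * σ (n * m) * (s g)⁻¹ = (s g * σ n * (s g)⁻¹) * (s g * σ m * (s g)⁻¹) := by
      rw [map_mul]; group
    rw [h3, h1, h2, map_mul, map_mul, map_mul]
    rw [mul_assoc, ← mul_assoc (i (F (s g) n)), hE.central (F (s g) n)]
    simp only [mul_assoc]
  · intro a b n
    have h : F (s (a * b)) n = F (s a) (MulAut.conjNormal b n) * F (s b) n := by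
      rw [indep (s (a * b)) (s a * s b) n (by rw [map_mul, hs, hs, hs])]
      refine (uniq _ _ _ ?_).symm
      have h1 := hF (s a) (MulAut.conjNormal b n)
      have h2 := hF (s b) n
      have h3 : s a * s b * σ n * (s a * s b)⁻¹ = s a * (s b * σ n * (s b)⁻¹) * (s a)⁻¹ := by
        group
      rw [h3, h2, hs b]
      have h4 : s a * (σ (MulAut.conjNormal b n) * i (F (s b) n)) * (s a)⁻¹
          = s a * σ (MulAut.conjNormal b n) * (s a)⁻¹ * i (F (s b) n) := by
        simp only [mul_assoc]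
        rw [hE.central]
      rw [h4, h1, map_mul, map_mul, hs, hs, map_mul, MulAut.mul_apply]
      simp only [mul_assoc]
    exact h
  · intro a n
    have h : F (s a) n = 1 := by
      rw [indep (s a) (σ a) n (by rw [hs, hσ])]
      refine (uniq _ _ _ ?_).symm
      rw [map_one, mul_one, hσ, ← map_inv, ← map_mul, ← map_mul]
      congr 1
    exact h
  · intro e n
    have h : F e n = F (s (p e)) n := indep _ _ _ (by rw [hs])
    have h2 := hF e n
    rw [h] at h2
    exact h2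

/-- If there is an equivariant section over the kernel, then the kernel of the central extension
meets the commutator subgroup in what comes from `G₀`. -/
theorem Stage.ext_trivial (hE : IsCentral i p) (σ : S.N →* E) (hσ : ∀ n, p (σ n) = n)
    (hc : ∀ e n, e * σ n * e⁻¹ = σ (MulAut.conjNormal (p e) n))
    (hG : ∀ k, i k ∈ ⁅S.j.range.comap p, S.j.range.comap p⁆ → k = 1) :
    ∀ k, i k ∈ commutator E → k = 1 := by
  set D := S.j.range.comap p with hD
  have hSg : (σ.range).Normal := by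
    refine ⟨?_⟩
    rintro _ ⟨n, rfl⟩ e
    exact ⟨_, (hc e n).symm⟩
  have hdec : ∀ e : E, ∃ s ∈ σ.range, ∃ d ∈ D, e = s * d := by
    intro e
    have hn : p e * (S.j (S.ρ (p e)))⁻¹ ∈ S.N := by
      rw [MonoidHom.mem_ker, map_mul, map_inv, S.ρj, mul_inv_cancel]
    refine ⟨σ ⟨_, hn⟩, ⟨_, rfl⟩, (σ ⟨_, hn⟩)⁻¹ * e, ?_, by group⟩
    rw [hD, Subgroup.mem_comap, map_mul, map_inv, hσ]
    refine ⟨S.ρ (p e), ?_⟩
    simp only [mul_inv_rev, inv_inv]
    group
  have hle : commutator E ≤ σ.range ⊔ ⁅D, D⁆ := by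
    rw [commutator_def, Subgroup.commutator_le]
    intro g₁ _ g₂ _
    obtain ⟨s₁, hs₁, d₁, hd₁, rfl⟩ := hdec g₁
    obtain ⟨s₂, hs₂, d₂, hd₂, rfl⟩ := hdec g₂
    have h1 : (QuotientGroup.mk' σ.range) ⁅s₁ * d₁, s₂ * d₂⁆
        = (QuotientGroup.mk' σ.range) ⁅d₁, d₂⁆ := by
      have e1 : (QuotientGroup.mk' σ.range) s₁ = 1 := (QuotientGroup.eq_one_iff _).2 hs₁
      have e2 : (QuotientGroup.mk' σ.range) s₂ = 1 := (QuotientGroup.eq_one_iff _).2 hs₂
      rw [map_commutatorElement, map_commutatorElement, map_mul, map_mul, e1, e2, one_mul,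
        one_mul]
    have h2 : ⁅s₁ * d₁, s₂ * d₂⁆ * ⁅d₁, d₂⁆⁻¹ ∈ σ.range := by
      rw [← QuotientGroup.eq_one_iff]
      change (QuotientGroup.mk' σ.range) _ = 1
      rw [map_mul, map_inv, h1, mul_inv_cancel]
    have h3 : ⁅s₁ * d₁, s₂ * d₂⁆ = (⁅s₁ * d₁, s₂ * d₂⁆ * ⁅d₁, d₂⁆⁻¹) * ⁅d₁, d₂⁆ := by group
    rw [h3]
    exact Subgroup.mul_mem_sup h2 (Subgroup.commutator_mem_commutator hd₁ hd₂)
  intro k hk
  obtain ⟨s, hs, d, hd, hsd⟩ := Subgroup.mem_sup_of_normal_left.1 (hle hk)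
  obtain ⟨n, rfl⟩ := hs
  have hpx : p (i k) = 1 := (hE.exact _).2 ⟨k, rfl⟩
  have hdD : d ∈ D := sup_idem D ▸ Subgroup.commutator_le_sup D D hd
  rw [← hsd, map_mul, hσ] at hpx
  obtain ⟨g, hg⟩ := hdD
  have h1 : S.ρ (n : G') = 1 := n.2
  have h2 : g = 1 := by
    have := congrArg S.ρ hpx
    rw [map_mul, h1, one_mul, ← hg, S.ρj, map_one] at this
    exact this
  have h3 : p d = 1 := by rw [← hg, h2, map_one]
  have h4 : n = 1 := by
    rw [h3, mul_one] at hpx
    exact Subtype.ext hpx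
  apply hG
  rw [← hsd, h4, map_one, one_mul]
  exact hd

end MCG
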