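import Pool.Agent.H60.MCG.Stage

namespace MCG

variable {ι Z G₀ G' : Type} [AddCommGroup Z] [Group G₀] [Group G'] (S : Stage ι Z G₀ G')

variable {K E : Type} [AddCommGroup K] [Group E] {i : Multiplicative K →* E} {p : E →* G'}

/-- commutators commute with an element all of whose commutators are central -/
theorem commute_of_central_commutators {E : Type} [Group E] (w : E)
    (hw : ∀ x : E, x * w * x⁻¹ * w⁻¹ ∈ Subgroup.center E) (x y : E) :
    Commute (x * y * x⁻¹ * y⁻¹) w := by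
  let χ : E →* Subgroup.center E := MonoidHom.mk' (fun x => ⟨x * w * x⁻¹ * w⁻¹, hw x⟩) (by
    intro a b
    apply Subtype.ext
    change a * b * w * (a * b)⁻¹ * w⁻¹ = (a * w * a⁻¹ * w⁻¹) * (b * w * b⁻¹ * w⁻¹)
    have h1 := Subgroup.mem_center_iff.1 (hw b) (a * w * a⁻¹ * w⁻¹)
    have h2 := Subgroup.mem_center_iff.1 (hw b) a⁻¹
    rw [h1]
    calc a * b * w * (a * b)⁻¹ * w⁻¹
        = a * ((b * w * b⁻¹ * w⁻¹) * (w * a⁻¹ * w⁻¹)) := by group
      _ = (b * w * b⁻¹ * w⁻¹) * (a * w * a⁻¹ * w⁻¹) := by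
          rw [← mul_assoc, Subgroup.mem_center_iff.1 (hw b) a]
          group)
  have h3 : χ (x * y * x⁻¹ * y⁻¹) = 1 := by
    have hc : χ x * χ y = χ y * χ x :=
      Subtype.ext (Subgroup.mem_center_iff.1 (χ y).2 (χ x : E))
    rw [map_mul, map_mul, map_mul, map_inv, map_inv, hc]
    group
  have h4 : (x * y * x⁻¹ * y⁻¹) * w * (x * y * x⁻¹ * y⁻¹)⁻¹ * w⁻¹ = 1 := congrArg Subtype.val h3
  have h5 := mul_inv_eq_one.1 h4
  exact mul_inv_eq_iff_eq_mul.1 h5

/-- There is a section over the kernel, normalised on the generators: `b` is a lift of `P 1`,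
`t k` are lifts of the twists, `r l` are lifts of `h l`, and `ζ` lifts the multiples of `z`.
(The lifts of `P 0, ..., P 3` are the words `w0, ..., w3`, the lift of `R l` is
`r l * w1 t b * (r l)⁻¹ * (w1 t b)⁻¹`; these are commutators up to central elements, and every
commutator of `E` commutes with a lift of the central element `z`.) -/
theorem Stage.exists_sigma (hE : IsCentral i p) (t : Fin 5 → E) (b : E) (r : ι → E)
    (ht : ∀ k, p (t k) = S.j (S.t k)) (hb : p b = S.P 1) (hr : ∀ l, p (r l) = S.j (S.h l))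
    (ζ : Multiplicative Z →* E) (hζ : ∀ m, p (ζ m) = S.e (1, m))
    (hζ0 : ζ (Multiplicative.ofAdd S.z0) = wz t b) :
    ∃ σ : S.N →* E, (∀ n, p (σ n) = n) ∧ σ S.nz = wz t b ∧
      σ (S.nP 0) = w0 t b ∧ σ (S.nP 1) = w1 t b ∧ σ (S.nP 2) = w2 t b ∧ σ (S.nP 3) = w3 t b ∧
      (∀ l, σ (S.nR l) = r l * w1 t b * (r l)⁻¹ * (w1 t b)⁻¹) := by
  -- images of the words
  have q0 : p (w0 t b) = S.P 0 := by
    rw [w0, map_mul, map_inv, map_mul, map_mul, map_inv, ht, hb, S.t0P1]
    group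
  have q1 : p (w1 t b) = S.P 1 := by
    rw [w1, map_mul, map_inv, map_mul, map_mul, map_inv, ht, q0, S.t1P0]
    group
  have q2 : p (w2 t b) = S.P 2 := by
    rw [w2, map_mul, map_inv, map_mul, map_mul, map_inv, ht, q1, S.t2P1]
    group
  have q3 : p (w3 t b) = S.P 3 := by
    rw [w3, map_mul, map_inv, map_mul, map_mul, map_inv, ht, q2, S.t3P2]
    group
  -- centrality of the images of `ζ`
  have hcen : ∀ (m : Multiplicative Z) (g : G'), S.e (1, m) * g = g * S.e (1, m) := by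
    intro m g
    obtain ⟨n, hn⟩ := S.z0_gen (Multiplicative.toAdd m)
    have h1 : ((1 : FreeGroup (Fin 4 ⊕ ι)), m) = (1, Multiplicative.ofAdd S.z0) ^ n := by
      rw [Prod.pow_mk, one_zpow, ← ofAdd_zsmul, ← hn]
      rfl
    rw [h1, map_zpow, ← S.z_eq]
    exact (Commute.zpow_left (S.tz g) n)
  have hcomm : ∀ (m : Multiplicative Z) (x y : E), Commute (x * y * x⁻¹ * y⁻¹) (ζ m) := by
    intro m x y
    refine commute_of_central_commutators _ ?_ x y
    intro x
    have h1 : p (x * ζ m * x⁻¹ * (ζ m)⁻¹) = 1 := by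
      rw [map_mul, map_mul, map_mul, map_inv, map_inv, hζ, ← hcen]
      group
    obtain ⟨k, hk⟩ := (hE.exact _).1 h1
    rw [← hk, Subgroup.mem_center_iff]
    intro g
    exact (hE.central k g).symm
  let F : Fin 4 ⊕ ι → E := Sum.elim ![w0 t b, w1 t b, w2 t b, w3 t b]
    (fun l => r l * w1 t b * (r l)⁻¹ * (w1 t b)⁻¹)
  have hF : ∀ (m : Multiplicative Z) (a : Fin 4 ⊕ ι), Commute (F a) (ζ m) := by
    intro m a
    rcases a with a | l
    · fin_cases a
      · have h1 := hcomm m b (t 0)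
        have h2 : w0 t b = b * t 0 * b⁻¹ * (t 0)⁻¹ := by rw [w0]; group
        change Commute (w0 t b) (ζ m)
        rw [h2]; exact h1
      · have h1 := hcomm m (w0 t b)⁻¹ (t 1)
        have h2 : w1 t b = (w0 t b)⁻¹ * t 1 * (w0 t b)⁻¹⁻¹ * (t 1)⁻¹ := by rw [w1]; group
        change Commute (w1 t b) (ζ m)
        rw [h2]; exact h1
      · have h1 := hcomm m (w1 t b)⁻¹ (t 2)
        have h2 : w2 t b = (w1 t b)⁻¹ * t 2 * (w1 t b)⁻¹⁻¹ * (t 2)⁻¹ := by rw [w2]; group
        change Commute (w2 t b) (ζ m)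
        rw [h2]; exact h1
      · have h1 := hcomm m (w2 t b)⁻¹ (t 3)
        have h2 : w3 t b = (w2 t b)⁻¹ * t 3 * (w2 t b)⁻¹⁻¹ * (t 3)⁻¹ := by rw [w3]; group
        change Commute (w3 t b) (ζ m)
        rw [h2]; exact h1
    · exact hcomm m (r l) (w1 t b)
  have hlift : ∀ (x : FreeGroup (Fin 4 ⊕ ι)) (m : Multiplicative Z),
      Commute (FreeGroup.lift F x) (ζ m) := by
    intro x m
    have h1 : (FreeGroup.lift F).range ≤ Subgroup.centralizer {ζ m} := by
      refine FreeGroup.range_lift_le ?_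
      rintro _ ⟨a, rfl⟩
      rw [SetLike.mem_coe, Subgroup.mem_centralizer_singleton_iff]
      exact (hF m a)
    have h2 := h1 ⟨x, rfl⟩
    rw [Subgroup.mem_centralizer_singleton_iff] at h2
    exact h2
  let σ' : FreeGroup (Fin 4 ⊕ ι) × Multiplicative Z →* E :=
    (FreeGroup.lift F).noncommCoprod ζ hlift
  let eN : FreeGroup (Fin 4 ⊕ ι) × Multiplicative Z ≃* S.N :=
    MulEquiv.ofBijective (S.e.codRestrict S.N (fun x => S.ρe x))
      ⟨fun x y hxy => S.e_inj (congrArg Subtype.val hxy), fun n => by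
        obtain ⟨x, hx⟩ := (S.ker (n : G')).1 n.2
        exact ⟨x, Subtype.ext hx⟩⟩
  have hp : ∀ x, p (σ' x) = S.e x := by
    have h1 : p.comp (FreeGroup.lift F) = S.e.comp (MonoidHom.inl _ _) := by
      refine FreeGroup.ext_hom _ _ ?_
      rintro (a | l)
      · simp only [MonoidHom.comp_apply, FreeGroup.lift_apply_of, MonoidHom.inl_apply]
        rw [← S.P_eq]
        fin_cases a
        · exact q0
        · exact q1
        · exact q2
        · exact q3
      · simp only [MonoidHom.comp_apply, FreeGroup.lift_apply_of, MonoidHom.inl_apply]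
        rw [← S.R_eq]
        change p (r l * w1 t b * (r l)⁻¹ * (w1 t b)⁻¹) = S.R l
        rw [map_mul, map_mul, map_mul, map_inv, map_inv, hr, q1, S.hP1]
        group
    rintro ⟨x, m⟩
    have h2 : p (FreeGroup.lift F x) = S.e (x, 1) := DFunLike.congr_fun h1 x
    change p (FreeGroup.lift F x * ζ m) = S.e (x, m)
    rw [map_mul, h2, hζ, ← map_mul, Prod.mk_mul_mk, mul_one, one_mul]
  have hsym : ∀ (n : S.N) x, S.e x = n → eN.symm n = x := by
    intro n x hx
    rw [MulEquiv.symm_apply_eq]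
    exact Subtype.ext hx.symm
  refine ⟨σ'.comp eN.symm.toMonoidHom, ?_, ?_, ?_, ?_, ?_, ?_, ?_⟩
  · intro n
    change p (σ' (eN.symm n)) = n
    rw [hp]
    have h1 : eN (eN.symm n) = n := eN.apply_symm_apply n
    exact congrArg Subtype.val h1
  · change σ' (eN.symm S.nz) = _
    rw [hsym S.nz (1, Multiplicative.ofAdd S.z0) S.z_eq.symm]
    change FreeGroup.lift F 1 * ζ (Multiplicative.ofAdd S.z0) = _
    rw [map_one, one_mul, hζ0]
  · change σ' (eN.symm (S.nP 0)) = _
    rw [hsym (S.nP 0) _ (S.P_eq 0).symm]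
    change FreeGroup.lift F (FreeGroup.of (Sum.inl 0)) * ζ 1 = _
    rw [map_one, mul_one, FreeGroup.lift_apply_of]
    rfl
  · change σ' (eN.symm (S.nP 1)) = _
    rw [hsym (S.nP 1) _ (S.P_eq 1).symm]
    change FreeGroup.lift F (FreeGroup.of (Sum.inl 1)) * ζ 1 = _
    rw [map_one, mul_one, FreeGroup.lift_apply_of]
    rfl
  · change σ' (eN.symm (S.nP 2)) = _
    rw [hsym (S.nP 2) _ (S.P_eq 2).symm]
    change FreeGroup.lift F (FreeGroup.of (Sum.inl 2)) * ζ 1 = _
    rw [map_one, mul_one, FreeGroup.lift_apply_of]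
    rfl
  · change σ' (eN.symm (S.nP 3)) = _
    rw [hsym (S.nP 3) _ (S.P_eq 3).symm]
    change FreeGroup.lift F (FreeGroup.of (Sum.inl 3)) * ζ 1 = _
    rw [map_one, mul_one, FreeGroup.lift_apply_of]
    rfl
  · intro l
    change σ' (eN.symm (S.nR l)) = _
    rw [hsym (S.nR l) _ (S.R_eq l).symm]
    change FreeGroup.lift F (FreeGroup.of (Sum.inr l)) * ζ 1 = _
    rw [map_one, mul_one, FreeGroup.lift_apply_of]
    rfl

end MCG
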