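import Pool.Agent.H60.MCG.KapAlg
import Pool.Agent.H60.MCG.KapExt
import Pool.Agent.H60.MCG.Sigma

namespace MCG

variable {ι Z G₀ G' : Type} [AddCommGroup Z] [Group G₀] [Group G'] (S : Stage ι Z G₀ G')
  {K E : Type} [AddCommGroup K] [Group E] {i : Multiplicative K →* E} {p : E →* G'}

theorem Stage.p_w0 {t : Fin 5 → E} {b : E} (ht : ∀ k, p (t k) = S.j (S.t k))
    (hb : p b = S.P 1) : p (w0 t b) = S.P 0 := by
  rw [w0, map_mul, map_inv, map_mul, map_mul, map_inv, ht, hb, S.t0P1]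
  group

theorem Stage.p_w1 {t : Fin 5 → E} {b : E} (ht : ∀ k, p (t k) = S.j (S.t k))
    (hb : p b = S.P 1) : p (w1 t b) = S.P 1 := by
  rw [w1, map_mul, map_inv, map_mul, map_mul, map_inv, ht, S.p_w0 ht hb, S.t1P0]
  group

theorem Stage.p_w2 {t : Fin 5 → E} {b : E} (ht : ∀ k, p (t k) = S.j (S.t k))
    (hb : p b = S.P 1) : p (w2 t b) = S.P 2 := by
  rw [w2, map_mul, map_inv, map_mul, map_mul, map_inv, ht, S.p_w1 ht hb, S.t2P1]
  group

theorem Stage.p_w3 {t : Fin 5 → E} {b : E} (ht : ∀ k, p (t k) = S.j (S.t k))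
    (hb : p b = S.P 1) : p (w3 t b) = S.P 3 := by
  rw [w3, map_mul, map_inv, map_mul, map_mul, map_inv, ht, S.p_w2 ht hb, S.t3P2]
  group

theorem Stage.p_wz {t : Fin 5 → E} {b : E} (ht : ∀ k, p (t k) = S.j (S.t k))
    (hb : p b = S.P 1) : p (wz t b) = S.z := by
  have h : p (wz t b) = (S.P 3)⁻¹ * (S.P 1)⁻¹ * S.P 0 * S.P 1 * S.P 2 *
      (S.j (S.t 4) * S.P 3 * (S.j (S.t 4))⁻¹) := by
    simp only [wz, map_mul, map_inv, ht, S.p_w0 ht hb, S.p_w1 ht hb, S.p_w2 ht hb, S.p_w3 ht hb]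
  rw [h, S.t4P3]
  group

/-- from the value of a conjugate of the section to the value of the crossed homomorphism -/
theorem Stage.kap_one (hE : IsCentral i p) (σ : S.N →* E) (κ : S.Crossed K)
    (hκ : ∀ e n, e * σ n * e⁻¹ = σ (MulAut.conjNormal (p e) n) * i (κ.k (p e) n))
    {e : E} {g : G'} (he : p e = g) {n m : S.N} (hm : g * (n : G') * g⁻¹ = m)
    (h : e * σ n * e⁻¹ = σ m) : κ.k g n = 1 := by
  subst he
  have h1 := hκ e n
  have h2 : MulAut.conjNormal (p e) n = m := by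
    ext
    rw [MulAut.conjNormal_apply]
    exact hm
  rw [h2, h] at h1
  apply hE.inj
  rw [map_one]
  have := mul_left_cancel ((mul_one (σ m)).trans h1)
  exact this.symm

/-- two lifts of the same element differ by a central element, so they have the same
conjugates up to this factor -/
theorem Stage.conj_lift (hE : IsCentral i p) {x y e c : E} (hxy : p x = p y)
    (h : e * x * e⁻¹ = c * x) : e * y * e⁻¹ = c * y := by
  obtain ⟨k, hk⟩ := (hE.exact (y * x⁻¹)).1 (by rw [map_mul, map_inv, hxy, mul_inv_cancel])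
  have hy : y = i k * x := by rw [hk, inv_mul_cancel_right]
  rw [hy, ← mul_assoc, ← hE.central k e, mul_assoc, mul_assoc, ← mul_assoc e x, h, ← mul_assoc c,
    ← hE.central k c, mul_assoc]

/-- the section and the crossed homomorphism, normalised -/
theorem Stage.exists_norm (hE : IsCentral i p) (t : Fin 5 → E) (b : E) (r : ι → E)
    (ht : ∀ k, p (t k) = S.j (S.t k)) (hb : p b = S.P 1) (hr : ∀ l, p (r l) = S.j (S.h l))
    (ζ : Multiplicative Z →* E) (hζ : ∀ m, p (ζ m) = S.e (1, m))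
    (hζ0 : ζ (Multiplicative.ofAdd S.z0) = wz t b) :
    ∃ (σ : S.N →* E) (κ : S.Crossed K), (∀ n, p (σ n) = n) ∧ σ S.nz = wz t b ∧
      (∀ e n, e * σ n * e⁻¹ = σ (MulAut.conjNormal (p e) n) * i (κ.k (p e) n)) ∧
      κ.k (S.j (S.t 0)) (S.nP 1) = 1 ∧ κ.k (S.j (S.t 1)) (S.nP 0) = 1 ∧
      κ.k (S.j (S.t 2)) (S.nP 1) = 1 ∧ κ.k (S.j (S.t 3)) (S.nP 2) = 1 ∧
      κ.k (S.j (S.t 4)) (S.nP 3) = 1 ∧ (∀ l, κ.k (S.j (S.h l)) (S.nP 1) = 1) := by
  obtain ⟨σ, hσ, hz, h0, h1, h2, h3, hR⟩ := S.exists_sigma hE t b r ht hb hr ζ hζ hζ0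
  obtain ⟨κ, hκ⟩ := S.exists_crossed hE σ hσ
  refine ⟨σ, κ, hσ, hz, hκ, ?_, ?_, ?_, ?_, ?_, ?_⟩
  · refine S.kap_one hE σ κ hκ (ht 0) (m := (S.nP 0)⁻¹ * S.nP 1) S.t0P1 ?_
    rw [map_mul, map_inv, h0, h1]
    refine Stage.conj_lift hE (x := b) ?_ ?_
    · rw [hb, S.p_w1 ht hb]
    · rw [w0]
      group
  · refine S.kap_one hE σ κ hκ (ht 1) (m := S.nP 0 * S.nP 1) S.t1P0 ?_
    rw [map_mul, h0, h1, w1]
    group
  · refine S.kap_one hE σ κ hκ (ht 2) (m := S.nP 1 * S.nP 2) S.t2P1 ?_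
    rw [map_mul, h1, h2, w2]
    group
  · refine S.kap_one hE σ κ hκ (ht 3) (m := S.nP 2 * S.nP 3) S.t3P2 ?_
    rw [map_mul, h2, h3, w3]
    group
  · refine S.kap_one hE σ κ hκ (ht 4)
      (m := (S.nP 2)⁻¹ * (S.nP 1)⁻¹ * (S.nP 0)⁻¹ * S.nP 1 * S.nP 3 * S.nz) S.t4P3 ?_
    simp only [map_mul, map_inv, h0, h1, h2, h3, hz]
    rw [wz]
    group
  · intro l
    refine S.kap_one hE σ κ hκ (hr l) (m := S.nR l * S.nP 1) (S.hP1 l) ?_
    rw [map_mul, hR, h1]
    group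

/-- In a central extension, if the word `wz` commutes with a lift of the first twist, then the
kernel meets the commutator subgroup only in what comes from `G₀`. -/
theorem Stage.upper (hE : IsCentral i p) (t : Fin 5 → E) (b : E)
    (ht : ∀ k, p (t k) = S.j (S.t k)) (hb : p b = S.P 1)
    (hz : wz t b * t 0 = t 0 * wz t b)
    (hζ : ∃ ζ : Multiplicative Z →* E, (∀ m, p (ζ m) = S.e (1, m)) ∧
      ζ (Multiplicative.ofAdd S.z0) = wz t b)
    (hG : ∀ k, i k ∈ ⁅S.j.range.comap p, S.j.range.comap p⁆ → k = 1) :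
    ∀ k, i k ∈ commutator E → k = 1 := by
  obtain ⟨ζ, hζ, hζ0⟩ := hζ
  choose r hr using fun l => hE.surj (S.j (S.h l))
  obtain ⟨σ, κ, hσ, hnz, hκ, h01, h10, h21, h32, h43, hh⟩ :=
    S.exists_norm hE t b r ht hb hr ζ hζ hζ0
  have hz0 : κ.k (S.j (S.t 0)) S.nz = 1 := by
    refine S.kap_one hE σ κ hκ (ht 0) (m := S.nz) ?_ ?_
    · rw [S.nz_coe, ← S.tz, mul_assoc, mul_inv_cancel, mul_one]
    · rw [hnz, ← hz, mul_assoc, mul_inv_cancel, mul_one]
  have h1 := Stage.Crossed.eq_one S κ h01 h10 h21 h32 h43 hh hz0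
  refine S.ext_trivial hE σ hσ ?_ hG
  intro e n
  rw [hκ, h1, map_one, mul_one]

/-- In every central extension the commutator of a lift of the first twist with a lift of `z`
has order at most two (case of a boundary curve). -/
theorem Stage.sq {ι G₀ G' : Type} [Group G₀] [Group G'] (S : Stage ι ℤ G₀ G') (hS : S.z0 = 1)
    {K E : Type} [AddCommGroup K] [Group E] {i : Multiplicative K →* E} {p : E →* G'}
    (hE : IsCentral i p) (t ζ : E) (ht : p t = S.j (S.t 0)) (hζ : p ζ = S.z) :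
    (t * ζ * t⁻¹ * ζ⁻¹) ^ 2 = 1 := by
  choose t' ht' using fun k => hE.surj (S.j (S.t k))
  let T : Fin 5 → E := Function.update t' 0 t
  have hT0 : T 0 = t := Function.update_self _ _ _
  have hT : ∀ k, p (T k) = S.j (S.t k) := by
    intro k
    by_cases hk : k = 0
    · rw [hk, hT0, ht]
    · have : T k = t' k := Function.update_of_ne hk _ _
      rw [this, ht']
  obtain ⟨b, hb⟩ := hE.surj (S.P 1)
  choose r hr using fun l => hE.surj (S.j (S.h l))
  have hwz := S.p_wz hT hb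
  let Zt : Multiplicative ℤ →* E := zpowersHom E (wz T b)
  have hZt : ∀ m, p (Zt m) = S.e (1, m) := by
    intro m
    have h1 : Zt m = (wz T b) ^ (Multiplicative.toAdd m) := by
      simp [Zt, zpowersHom_apply]
    rw [h1, map_zpow, hwz, S.z_eq, ← map_zpow, hS]
    congr 1
    ext
    · simp
    · simp only [Prod.pow_snd]
      rw [← ofAdd_zsmul]
      simp
  have hZt0 : Zt (Multiplicative.ofAdd S.z0) = wz T b := by
    rw [hS]
    simp [Zt, zpowersHom_apply]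
  obtain ⟨σ, κ, hσ, hnz, hκ, h01, h10, h21, h32, h43, hh⟩ :=
    S.exists_norm hE T b r hT hb hr Zt hZt hZt0
  have hsq := Stage.Crossed.sq S κ h01 h10 h21 h32 h43
  have h2 : t * ζ * t⁻¹ = i (κ.k (S.j (S.t 0)) S.nz) * ζ := by
    refine Stage.conj_lift hE (x := wz T b) ?_ ?_
    · rw [hwz, hζ]
    · have h3 := hκ t S.nz
      have h4 : MulAut.conjNormal (p t) S.nz = S.nz := by
        ext
        rw [MulAut.conjNormal_apply, S.nz_coe, ← S.tz, mul_assoc, mul_inv_cancel, mul_one]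
      rw [h4, hnz, ht] at h3
      rw [h3, hE.central]
  rw [h2, mul_inv_cancel_right, ← map_pow, hsq, map_one]

end MCG
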