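import Pool.Agent.H60.MCG.LowTh
import Pool.Agent.H60.MCG.Upper
import Pool.Agent.H60.MCG.Ext

open scoped commutatorElement

namespace MCG

variable {ι G₀ G' : Type} [Group G₀] [Group G']

/-! ### words under homomorphisms -/

theorem map_w0 {E F : Type} [Group E] [Group F] (φ : E →* F) (t : Fin 5 → E) (b : E) :
    φ (w0 t b) = w0 (fun k => φ (t k)) (φ b) := by
  simp [w0]

theorem map_w1 {E F : Type} [Group E] [Group F] (φ : E →* F) (t : Fin 5 → E) (b : E) :
    φ (w1 t b) = w1 (fun k => φ (t k)) (φ b) := by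
  simp [w1, map_w0]

theorem map_w2 {E F : Type} [Group E] [Group F] (φ : E →* F) (t : Fin 5 → E) (b : E) :
    φ (w2 t b) = w2 (fun k => φ (t k)) (φ b) := by
  simp [w2, map_w1]

theorem map_w3 {E F : Type} [Group E] [Group F] (φ : E →* F) (t : Fin 5 → E) (b : E) :
    φ (w3 t b) = w3 (fun k => φ (t k)) (φ b) := by
  simp [w3, map_w2]

theorem map_wz {E F : Type} [Group E] [Group F] (φ : E →* F) (t : Fin 5 → E) (b : E) :
    φ (wz t b) = wz (fun k => φ (t k)) (φ b) := by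
  simp [wz, map_w0, map_w1, map_w2, map_w3]

/-- the words vanish if `b` is central -/
theorem wz_of_central {E : Type} [Group E] (t : Fin 5 → E) (b : E) (hb : ∀ x, x * b = b * x) :
    wz t b = 1 := by
  have h0 : w0 t b = 1 := by
    rw [w0, hb]; group
  have h1 : w1 t b = 1 := by rw [w1, h0]; group
  have h2 : w2 t b = 1 := by rw [w2, h1]; group
  have h3 : w3 t b = 1 := by rw [w3, h2]; group
  rw [wz, h0, h1, h2, h3]; group

/-- the last word is in the commutator subgroup -/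
theorem wz_mem_commutator {E : Type} [Group E] (t : Fin 5 → E) (b : E) :
    wz t b ∈ commutator E := by
  rw [← Abelianization.ker_of, MonoidHom.mem_ker, map_wz]
  exact wz_of_central _ _ (fun x => mul_comm _ _)

/-- value of the words on the pushes -/
theorem Stage.wz_eq {Z : Type} [AddCommGroup Z] (S : Stage ι Z G₀ G') :
    wz (fun k => S.j (S.t k)) (S.P 1) = S.z := by
  have h0 : w0 (fun k => S.j (S.t k)) (S.P 1) = S.P 0 := by
    rw [w0, S.t0P1]; group
  have h1 : w1 (fun k => S.j (S.t k)) (S.P 1) = S.P 1 := by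
    rw [w1, h0, S.t1P0]; group
  have h2 : w2 (fun k => S.j (S.t k)) (S.P 1) = S.P 2 := by
    rw [w2, h1, S.t2P1]; group
  have h3 : w3 (fun k => S.j (S.t k)) (S.P 1) = S.P 3 := by
    rw [w3, h2, S.t3P2]; group
  rw [wz, h0, h1, h2, h3, S.t4P3]; group

/-! ### symbols -/

theorem sym_one_left (g : G') : sym 1 g = sym (1 : G') 1 := (univ G').f_one_left g
theorem sym_one_right (g : G') : sym g 1 = sym (1 : G') 1 := (univ G').f_one_right g

theorem Q.lift_univ (x : Q G') : Q.lift (univ G').f (univ G').coc x = x := by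
  have : Q.lift (univ G').f (univ G').coc = AddMonoidHom.id _ :=
    Q.hom_ext (by intro a b; simp [univ])
  exact DFunLike.congr_fun this x

/-- abstract form of the splitting -/
theorem iso_of {A : Type} [AddCommGroup A] (o : A) (hA : ∀ a : A, ∃ n : ℤ, n • o = a)
    (J : Q G₀ →+ Q G') (R : Q G' →+ Q G₀) (Θ : Q G' →+ A) (ξ : Q G') (hξ : ξ ∈ H G')
    (hRJ : ∀ x, R (J x) = x) (hJH : ∀ x ∈ H G₀, J x ∈ H G') (hRH : ∀ x ∈ H G', R x ∈ H G₀)
    (hΘJ : ∀ x, Θ (J x) = 0) (hRξ : R ξ = 0) (hΘξ : Θ ξ = o)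
    (hord : ∀ n : ℤ, n • o = 0 → n • ξ = 0)
    (hgen : ∀ x ∈ H G', ∃ y ∈ H G₀, ∃ n : ℤ, x = J y + n • ξ) :
    Nonempty (H G' ≃+ H G₀ × A) := by
  let Ψ : H G' →+ H G₀ × A :=
    { toFun := fun x => (⟨R x.1, hRH _ x.2⟩, Θ x.1)
      map_zero' := by
        refine Prod.ext (Subtype.ext ?_) ?_
        · exact map_zero R
        · exact map_zero Θ
      map_add' := fun x y => by
        refine Prod.ext (Subtype.ext ?_) ?_
        · exact map_add R _ _
        · exact map_add Θ _ _ }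
  refine ⟨AddEquiv.ofBijective Ψ ⟨?_, ?_⟩⟩
  · rw [injective_iff_map_eq_zero]
    rintro ⟨x, hx⟩ h
    obtain ⟨y, hy, n, rfl⟩ := hgen x hx
    have h1 : R (J y + n • ξ) = 0 := congrArg (fun q => (q.1 : Q G₀)) h
    have h2 : Θ (J y + n • ξ) = 0 := congrArg (fun q => q.2) h
    rw [map_add, map_zsmul, hRJ, hRξ, smul_zero, add_zero] at h1
    rw [map_add, map_zsmul, hΘJ, hΘξ, zero_add] at h2
    refine Subtype.ext ?_
    show J y + n • ξ = 0
    rw [h1, map_zero, hord n h2, add_zero]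
  · rintro ⟨⟨y, hy⟩, a⟩
    obtain ⟨n, rfl⟩ := hA a
    refine ⟨⟨J y + n • ξ, (H G').add_mem (hJH y hy) ((H G').zsmul_mem hξ n)⟩, ?_⟩
    refine Prod.ext (Subtype.ext ?_) ?_
    · show R (J y + n • ξ) = y
      rw [map_add, map_zsmul, hRJ, hRξ, smul_zero, add_zero]
    · show Θ (J y + n • ξ) = n • o
      rw [map_add, map_zsmul, hΘJ, hΘξ, zero_add]

/-- the cocycle with values in a quotient -/
noncomputable def coq (T : AddSubgroup (Q G')) : Coc G' (Q G' ⧸ T) :=
  ⟨fun a b => QuotientAddGroup.mk' T (sym a b), by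
    intro a b c
    rw [← map_add, ← map_add, sym_cocycle]⟩

theorem coq_lift (T : AddSubgroup (Q G')) (x : Q G') :
    Q.lift (coq T).f (coq T).coc x = QuotientAddGroup.mk' T x := by
  have : Q.lift (coq T).f (coq T).coc = QuotientAddGroup.mk' T :=
    Q.hom_ext (by intro a b; simp [coq])
  exact DFunLike.congr_fun this x

theorem coq_comm (T : AddSubgroup (Q G')) {a b : G'} (h : sym a b - sym b a ∈ T) :
    (coq T).f a b = (coq T).f b a := by
  have h1 : QuotientAddGroup.mk' T (sym a b - sym b a) = 0 := (QuotientAddGroup.eq_zero_iff _).2 h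
  rw [map_sub] at h1
  exact sub_eq_zero.1 h1

/-- commutators of products with central elements -/
theorem comm_central {E : Type} [Group E] {a b x y : E} (ha : ∀ g, a * g = g * a)
    (hb : ∀ g, b * g = g * b) : ⁅a * x, b * y⁆ = ⁅x, y⁆ := by
  simp only [commutatorElement_def, mul_inv_rev]
  have ha' : ∀ g, a⁻¹ * g = g * a⁻¹ := fun g => by
    rw [inv_mul_eq_iff_eq_mul, ← mul_assoc, ha, mul_assoc, mul_inv_cancel, mul_one]
  have hb' : ∀ g, b⁻¹ * g = g * b⁻¹ := fun g => by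
    rw [inv_mul_eq_iff_eq_mul, ← mul_assoc, hb, mul_assoc, mul_inv_cancel, mul_one]
  calc a * x * (b * y) * (x⁻¹ * a⁻¹) * (y⁻¹ * b⁻¹)
      = a * (x * (b * y) * x⁻¹) * a⁻¹ * (y⁻¹ * b⁻¹) := by group
    _ = (x * (b * y) * x⁻¹) * (y⁻¹ * b⁻¹) := by rw [ha]; group
    _ = x * (b * (y * x⁻¹ * y⁻¹)) * b⁻¹ := by group
    _ = x * y * x⁻¹ * y⁻¹ := by rw [hb]; group

/-- generation of second homology -/
theorem Stage.gen_of {Z : Type} [AddCommGroup Z] (S : Stage ι Z G₀ G') (ξ : Q G')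
    (T : AddSubgroup (Q G')) (hT : T = (H G₀).map (Q.map S.j) ⊔ AddSubgroup.zmultiples ξ)
    (t : Fin 5 → (coq T).Ext) (b : (coq T).Ext) (ht : ∀ k, (coq T).proj (t k) = S.j (S.t k))
    (hb : (coq T).proj b = S.P 1)
    (hz : wz t b * t 0 = t 0 * wz t b)
    (hζ : ∃ ζ : Multiplicative Z →* (coq T).Ext, (∀ m, (coq T).proj (ζ m) = S.e (1, m)) ∧
      ζ (Multiplicative.ofAdd S.z0) = wz t b) :
    ∀ x ∈ H G', ∃ y ∈ H G₀, ∃ n : ℤ, x = Q.map S.j y + n • ξ := by
  intro x hx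
  have hJT : ∀ y ∈ H G₀, Q.map S.j y ∈ T := by
    intro y hy
    rw [hT]
    exact (le_sup_left : (H G₀).map (Q.map S.j) ≤ _) (AddSubgroup.mem_map_of_mem _ hy)
  let φ : (univ G₀).Ext →* (coq T).Ext :=
    Coc.map (univ G₀) (coq T) S.j ((QuotientAddGroup.mk' T).comp (Q.map S.j)) (by
      intro a b
      simp [univ, coq])
  have hφg : ∀ u, (φ u).g = S.j u.g := fun u => rfl
  have hφa : ∀ u, (φ u).a = QuotientAddGroup.mk' T (Q.map S.j u.a) := fun u => rfl
  have hG : ∀ k, (coq T).incl k ∈ ⁅S.j.range.comap (coq T).proj, S.j.range.comap (coq T).proj⁆ →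
      k = 1 := by
    intro k hk
    have hle : ⁅S.j.range.comap (coq T).proj, S.j.range.comap (coq T).proj⁆
        ≤ (commutator (univ G₀).Ext).map φ := by
      rw [Subgroup.commutator_le]
      intro u hu v hv
      obtain ⟨g, hg⟩ := hu
      obtain ⟨g', hg'⟩ := hv
      have dec : ∀ (u : (coq T).Ext) (g : G₀), S.j g = (coq T).proj u →
          ∃ k, u = (coq T).incl k * φ ⟨0, g⟩ := by
        intro u g hg
        have h1 : (coq T).proj (u * (φ ⟨0, g⟩)⁻¹) = 1 := by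
          rw [map_mul, map_inv, ← hg]
          show S.j g * (S.j g)⁻¹ = 1
          exact mul_inv_cancel _
        obtain ⟨k, hk⟩ := ((coq T).isCentral.exact _).1 h1
        exact ⟨k, by rw [hk]; group⟩
      obtain ⟨k1, hk1⟩ := dec u g hg
      obtain ⟨k2, hk2⟩ := dec v g' hg'
      rw [hk1, hk2, comm_central ((coq T).isCentral.central k1) ((coq T).isCentral.central k2),
        ← map_commutatorElement]
      exact Subgroup.mem_map_of_mem _ (Subgroup.commutator_mem_commutator trivial trivial)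
    obtain ⟨u, hu, hu'⟩ := hle hk
    have hug : u.g = 1 := by
      have : S.j u.g = 1 := by
        rw [← hφg, hu']
        rfl
      rw [← S.ρj u.g, this, map_one]
    obtain ⟨y, hy, hy'⟩ := exists_of_mem_commutator hu hug
    apply (coq T).isCentral.inj
    rw [← hu', hy', map_one]
    refine Coc.Ext.ext' ?_ ?_
    · rw [hφa, Coc.incl_a, toAdd_ofAdd, map_sub, map_sub, Coc.one_a]
      have h1 : QuotientAddGroup.mk' T (Q.map S.j y) = 0 :=
        (QuotientAddGroup.eq_zero_iff _).2 (hJT y hy)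
      rw [h1, zero_sub]
      simp [univ, coq]
    · rw [hφg, Coc.incl_g, map_one, Coc.one_g]
  have h1 := Coc.incl_mem_commutator (coq T) hx
  rw [coq_lift] at h1
  have h2 := S.upper (coq T).isCentral t b ht hb hz hζ hG _ h1
  have h3 : QuotientAddGroup.mk' T x = 0 := h2
  have h4 : x ∈ T := (QuotientAddGroup.eq_zero_iff _).1 h3
  rw [hT, AddSubgroup.mem_sup] at h4
  obtain ⟨y', hy', w, hw, rfl⟩ := h4
  obtain ⟨y, hy, rfl⟩ := hy'
  obtain ⟨n, rfl⟩ := AddSubgroup.mem_zmultiples_iff.1 hw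
  exact ⟨y, hy, n, rfl⟩

theorem Stage.RJ {Z : Type} [AddCommGroup Z] (S : Stage ι Z G₀ G') (x : Q G₀) :
    Q.map S.ρ (Q.map S.j x) = x := by
  have : (Q.map S.ρ).comp (Q.map S.j) = AddMonoidHom.id _ :=
    Q.hom_ext (by intro a b; simp [S.ρj])
  exact DFunLike.congr_fun this x

/-- adding a boundary curve -/
theorem Stage.step_bd (S : Stage ι ℤ G₀ G') (hS : S.z0 = 1) :
    Nonempty (H G' ≃+ H G₀ × ZMod 2) := by
  obtain ⟨θ, hθ, hθ1⟩ := S.exists_theta_bd hS
  set ξ : Q G' := sym (S.j (S.t 0)) S.z - sym S.z (S.j (S.t 0)) with hξdef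
  have hρz : S.ρ S.z = 1 := by rw [S.z_eq]; exact S.ρe _
  have hξ : ξ ∈ H G' := by
    rw [H, AddMonoidHom.mem_ker, hξdef, map_sub]
    simp only [dQ, Q.lift_sym]
    rw [S.tz]
    abel
  have hRξ : Q.map S.ρ ξ = 0 := by
    rw [hξdef, map_sub, Q.map_sym, Q.map_sym, hρz, sym_one_right,
      sym_one_left (S.ρ (S.j (S.t 0))), sub_self]
  have h2ξ : (2 : ℤ) • ξ = 0 := by
    have hcomm : (⟨0, S.j (S.t 0)⟩ : (univ G').Ext) * ⟨0, S.z⟩ * (⟨0, S.j (S.t 0)⟩ : (univ G').Ext)⁻¹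
        * (⟨0, S.z⟩ : (univ G').Ext)⁻¹ = (univ G').incl (Multiplicative.ofAdd ξ) := by
      rw [mul_inv_eq_iff_eq_mul, mul_inv_eq_iff_eq_mul, mul_assoc]
      refine Coc.Ext.ext' ?_ ?_
      · simp only [Coc.mul_a, Coc.mul_g, Coc.incl_a, Coc.incl_g, toAdd_ofAdd, Coc.f_one_left]
        simp only [univ, hξdef]
        abel
      · simp only [Coc.mul_g, Coc.incl_g, one_mul]
        exact (S.tz _).symm
    have h := S.sq hS (univ G').isCentral (⟨0, S.j (S.t 0)⟩ : (univ G').Ext) ⟨0, S.z⟩ rfl rfl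
    rw [hcomm, ← map_pow, ← map_one (univ G').incl] at h
    have h2 := (univ G').isCentral.inj h
    have h3 : (2 : ℕ) • ξ = 0 := h2
    rw [two_zsmul, ← two_nsmul]
    exact h3
  refine iso_of (1 : ZMod 2) (fun a => ⟨a.val, by simp⟩) (Q.map S.j) (Q.map S.ρ)
    (Q.lift θ.f θ.coc) ξ hξ S.RJ (fun x hx => Q.map_mem_H _ hx) (fun x hx => Q.map_mem_H _ hx)
    ?_ hRξ ?_ ?_ ?_
  · intro x
    have : (Q.lift θ.f θ.coc).comp (Q.map S.j) = 0 :=
      Q.hom_ext (by intro a b; simp [hθ])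
    exact DFunLike.congr_fun this x
  · rw [hξdef, map_sub, Q.lift_sym, Q.lift_sym, hθ1]
  · intro n hn
    have h1 : ((n : ℤ) : ZMod 2) = 0 := by simpa using hn
    rw [ZMod.intCast_zmod_eq_zero_iff_dvd] at h1
    obtain ⟨m, rfl⟩ := h1
    rw [mul_comm, mul_smul]
    have : ((2 : ℕ) : ℤ) • ξ = 0 := by simpa using h2ξ
    rw [this, smul_zero]
  · set T := (H G₀).map (Q.map S.j) ⊔ AddSubgroup.zmultiples ξ with hT
    have hξT : QuotientAddGroup.mk' T ξ = 0 :=
      (QuotientAddGroup.eq_zero_iff _).2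
        ((le_sup_right : AddSubgroup.zmultiples ξ ≤ T) (AddSubgroup.mem_zmultiples ξ))
    have hwg : (coq T).proj (wz (fun k => (⟨0, S.j (S.t k)⟩ : (coq T).Ext)) ⟨0, S.P 1⟩) = S.z := by
      rw [map_wz]
      exact S.wz_eq
    refine S.gen_of ξ T hT (fun k => ⟨0, S.j (S.t k)⟩) ⟨0, S.P 1⟩ (fun k => rfl) rfl ?_ ?_
    · have hwg' : (wz (fun k => (⟨0, S.j (S.t k)⟩ : (coq T).Ext)) ⟨0, S.P 1⟩).g = S.z := hwg
      refine Coc.Ext.ext' ?_ ?_
      · simp only [Coc.mul_a, hwg']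
        have h5 : (coq T).f (S.j (S.t 0)) S.z = (coq T).f S.z (S.j (S.t 0)) := by
          exact coq_comm T ((le_sup_right : AddSubgroup.zmultiples ξ ≤ T)
            (AddSubgroup.mem_zmultiples ξ))
        rw [h5]
        abel
      · simp only [Coc.mul_g, hwg']
        exact S.tz _
    · refine ⟨zpowersHom _ (wz (fun k => (⟨0, S.j (S.t k)⟩ : (coq T).Ext)) ⟨0, S.P 1⟩), ?_, ?_⟩
      · intro m
        rw [zpowersHom_apply, map_zpow, hwg, S.z_eq, ← map_zpow, hS]
        congr 1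
        refine Prod.ext ?_ ?_
        · simp
        · show (Multiplicative.ofAdd (1 : ℤ)) ^ (Multiplicative.toAdd m) = m
          rw [← ofAdd_zsmul]
          simp
      · rw [zpowersHom_apply, hS]
        simp

/-- adding a puncture -/
theorem Stage.step_pt (S : Stage ι PUnit G₀ G') :
    Nonempty (H G' ≃+ H G₀ × ℤ) := by
  obtain ⟨θ, hθ, hθ1⟩ := S.exists_theta_pt
  have hz1 : S.z = 1 := by
    rw [S.z_eq]
    exact map_one S.e
  set t : Fin 5 → (univ G').Ext := fun k => ⟨0, S.j (S.t k)⟩ with htdef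
  set b : (univ G').Ext := ⟨0, S.P 1⟩ with hbdef
  have hwg : (wz t b).g = 1 := by
    have : (univ G').proj (wz t b) = S.z := by
      rw [map_wz]
      exact S.wz_eq
    rw [← hz1]
    exact this
  obtain ⟨ξ, hξ, hw⟩ := exists_of_mem_commutator (wz_mem_commutator t b) hwg
  have hRξ : Q.map S.ρ ξ = 0 := by
    let Φ : (univ G').Ext →* (univ G₀).Ext := Coc.map (univ G') (univ G₀) S.ρ (Q.map S.ρ) (by
      intro a b
      simp [univ])
    have h1 : Φ (wz t b) = 1 := by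
      rw [map_wz]
      apply wz_of_central
      intro x
      have hb1 : Φ b = (univ G₀).incl (Multiplicative.ofAdd (sym 1 1)) := by
        refine Coc.Ext.ext' ?_ ?_
        · show Q.map S.ρ 0 = _
          rw [map_zero, Coc.incl_a, toAdd_ofAdd]
          exact (sub_self _).symm
        · show S.ρ (S.P 1) = _
          rw [S.P_eq, S.ρe]
          rfl
      rw [hb1]
      exact ((univ G₀).isCentral.central _ _).symm
    rw [hw] at h1
    have h2 := congrArg Coc.Ext.a h1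
    have h3 : Q.map S.ρ (ξ - sym 1 1) = - sym 1 1 := h2
    rw [map_sub, Q.map_sym, map_one] at h3
    have h4 : Q.map S.ρ ξ = -sym 1 1 + sym 1 1 := by rw [← h3]; abel
    rw [h4]; abel
  have hmap : ∀ {A : Type} [AddCommGroup A] (c : Coc G' A),
      wz (fun k => (⟨0, S.j (S.t k)⟩ : c.Ext)) ⟨0, S.P 1⟩
        = c.incl (Multiplicative.ofAdd (Q.lift c.f c.coc ξ)) := by
    intro A _ c
    let Φ : (univ G').Ext →* c.Ext := Coc.map (univ G') c (MonoidHom.id G') (Q.lift c.f c.coc) (by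
      intro a b
      simp [univ])
    have h1 : Φ (wz t b) = wz (fun k => (⟨0, S.j (S.t k)⟩ : c.Ext)) ⟨0, S.P 1⟩ := by
      have e0 : ∀ g, Φ ⟨0, g⟩ = ⟨0, g⟩ := by
        intro g
        refine Coc.Ext.ext' ?_ rfl
        show Q.lift c.f c.coc 0 = 0
        exact map_zero _
      rw [map_wz, htdef, hbdef]
      simp only [e0]
    rw [← h1, hw]
    refine Coc.Ext.ext' ?_ rfl
    show Q.lift c.f c.coc (ξ - sym 1 1) = Q.lift c.f c.coc ξ - c.f 1 1
    rw [map_sub, Q.lift_sym]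
  refine iso_of (1 : ℤ) (fun a => ⟨a, by simp⟩) (Q.map S.j) (Q.map S.ρ)
    (Q.lift θ.f θ.coc) ξ hξ S.RJ (fun x hx => Q.map_mem_H _ hx) (fun x hx => Q.map_mem_H _ hx)
    ?_ hRξ ?_ ?_ ?_
  · intro x
    have : (Q.lift θ.f θ.coc).comp (Q.map S.j) = 0 :=
      Q.hom_ext (by intro a b; simp [hθ])
    exact DFunLike.congr_fun this x
  · have h1 := hmap θ
    rw [hθ1] at h1
    exact (θ.isCentral.inj h1).symm
  · intro n hn
    have h1 : n = 0 := by simpa using hn
    rw [h1, zero_zsmul]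
  · set T := (H G₀).map (Q.map S.j) ⊔ AddSubgroup.zmultiples ξ with hT
    have hξT : QuotientAddGroup.mk' T ξ = 0 :=
      (QuotientAddGroup.eq_zero_iff _).2
        ((le_sup_right : AddSubgroup.zmultiples ξ ≤ T) (AddSubgroup.mem_zmultiples ξ))
    have hw1 : wz (fun k => (⟨0, S.j (S.t k)⟩ : (coq T).Ext)) ⟨0, S.P 1⟩ = 1 := by
      rw [hmap (coq T), coq_lift, hξT]
      exact map_one (coq T).incl
    refine S.gen_of ξ T hT (fun k => ⟨0, S.j (S.t k)⟩) ⟨0, S.P 1⟩ (fun k => rfl) rfl ?_ ?_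
    · rw [hw1, one_mul, mul_one]
    · refine ⟨1, ?_, ?_⟩
      · intro m
        rw [MonoidHom.one_apply, map_one]
        have : (1, m) = (1 : FreeGroup (Fin 4 ⊕ ι) × Multiplicative PUnit) := rfl
        rw [this, map_one]
      · rw [hw1, MonoidHom.one_apply]

end MCG
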