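import Pool.Agent.H60.MCG.Base
import Pool.Agent.H60.MCG.Step
import Pool.Agent.H60.MCG.Model
import Pool.Agent.H60.MCG.H2E

namespace MCG

theorem H_congr {G G' : Type} [Group G] [Group G'] (e : G ≃* G') : Nonempty (H G ≃+ H G') := by
  have h1 : ∀ z, Q.map e.symm.toMonoidHom (Q.map e.toMonoidHom z) = z := by
    intro z
    have : (Q.map e.symm.toMonoidHom).comp (Q.map e.toMonoidHom) = AddMonoidHom.id _ :=
      Q.hom_ext (by intro a b; simp)
    exact DFunLike.congr_fun this z
  have h2 : ∀ z, Q.map e.toMonoidHom (Q.map e.symm.toMonoidHom z) = z := by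
    intro z
    have : (Q.map e.toMonoidHom).comp (Q.map e.symm.toMonoidHom) = AddMonoidHom.id _ :=
      Q.hom_ext (by intro a b; simp)
    exact DFunLike.congr_fun this z
  exact ⟨{ toFun := fun z => ⟨Q.map e.toMonoidHom z.1, Q.map_mem_H _ z.2⟩
           invFun := fun z => ⟨Q.map e.symm.toMonoidHom z.1, Q.map_mem_H _ z.2⟩
           left_inv := fun z => Subtype.ext (h1 _)
           right_inv := fun z => Subtype.ext (h2 _)
           map_add' := fun a b => Subtype.ext (map_add _ _ _) }⟩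

/-- splitting off the last coordinate -/
def snocEquiv (n : ℕ) (A : Type) [AddCommGroup A] : (Fin n → A) × A ≃+ (Fin (n + 1) → A) where
  toFun x := Fin.snoc x.1 x.2
  invFun f := (Fin.init f, f (Fin.last n))
  left_inv x := by simp
  right_inv f := by simp
  map_add' x y := by
    funext k
    refine Fin.lastCases ?_ (fun k => ?_) k
    · simp
    · simp

theorem H_PM_le (p r : ℕ) (hr : r ≤ p) :
    Nonempty (H (PM p r) ≃+ (Fin r → ℤ) × (Fin 1 → ZMod 2)) := by
  induction r with
  | zero =>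
    obtain ⟨e1⟩ := exists_PM_zero p
    obtain ⟨e2⟩ := H_congr e1
    obtain ⟨e3⟩ := exists_HW
    exact ⟨(e2.trans e3).trans ((AddEquiv.funUnique (Fin 1) (ZMod 2)).symm.trans
      (AddEquiv.uniqueProd (N := (Fin 0 → ℤ)) (M := (Fin 1 → ZMod 2))).symm)⟩
  | succ r ih =>
    obtain ⟨e1⟩ := ih (by omega)
    obtain ⟨S⟩ := exists_stage_pt p r (by omega)
    obtain ⟨e2⟩ := S.step_pt
    refine ⟨(e2.trans (e1.prodCongr (AddEquiv.refl ℤ))).trans ?_⟩
    exact { toFun := fun x => (Fin.snoc x.1.1 x.2, x.1.2)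
            invFun := fun f => ((Fin.init f.1, f.2), f.1 (Fin.last r))
            left_inv := fun x => by simp
            right_inv := fun f => by simp
            map_add' := fun x y => by
              refine Prod.ext ?_ rfl
              exact map_add (snocEquiv r ℤ) (x.1.1, x.2) (y.1.1, y.2) }

theorem H_PM_ge (p m : ℕ) :
    Nonempty (H (PM p (p + m)) ≃+ (Fin p → ℤ) × (Fin (m + 1) → ZMod 2)) := by
  induction m with
  | zero => exact H_PM_le p p le_rfl
  | succ m ih =>
    obtain ⟨e1⟩ := ih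
    obtain ⟨S, hS⟩ := exists_stage_bd p (p + m) (by omega)
    obtain ⟨e2⟩ := S.step_bd hS
    refine ⟨(e2.trans (e1.prodCongr (AddEquiv.refl _))).trans ?_⟩
    exact (AddEquiv.prodAssoc).trans ((AddEquiv.refl _).prodCongr (snocEquiv (m + 1) (ZMod 2)))

/-- the main theorem -/
theorem main (p b : ℕ) (hb : 1 ≤ b) :
    Nonempty ((groupHomology (Rep.trivial ℤ (PMod p b) ℤ) 2) ≃+
      (Fin p → ℤ) × (Fin b → ZMod 2)) := by
  obtain ⟨m, rfl⟩ : ∃ m, b = m + 1 := ⟨b - 1, by omega⟩
  obtain ⟨e1⟩ := exists_H2Equiv (G := PMod p (m + 1))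
  obtain ⟨e2⟩ := H_PM_ge p m
  exact ⟨e1.trans e2⟩

end MCG
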