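import Mathlib

/-!
The second integral homology of a group `G`, described by symbols `[a|b]`, and the central
extension attached to a two-cocycle.
-/

open Finsupp

namespace MCG

section symbols

variable (G : Type) [Group G]

/-- the boundary of the basic 3-chain `[a|b|c]` -/
noncomputable def bd3 (t : G × G × G) : G × G →₀ ℤ :=
  single (t.2.1, t.2.2) 1 - single (t.1 * t.2.1, t.2.2) 1
    + single (t.1, t.2.1 * t.2.2) 1 - single (t.1, t.2.1) 1

/-- the 2-boundaries -/
noncomputable def B2 : AddSubgroup (G × G →₀ ℤ) := AddSubgroup.closure (Set.range (bd3 G))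

/-- 2-chains modulo boundaries -/
abbrev Q : Type := (G × G →₀ ℤ) ⧸ B2 G

variable {G}

/-- the class of `[a|b]` -/
noncomputable def sym (a b : G) : Q G := QuotientAddGroup.mk (single (a, b) (1 : ℤ))

theorem sym_cocycle (a b c : G) : sym a b + sym (a * b) c = sym b c + sym a (b * c) := by
  have h : (QuotientAddGroup.mk (bd3 G (a, b, c)) : Q G) = 0 :=
    (QuotientAddGroup.eq_zero_iff _).2 (AddSubgroup.subset_closure ⟨(a, b, c), rfl⟩)
  have h2 : (QuotientAddGroup.mk (bd3 G (a, b, c)) : Q G)
      = sym b c - sym (a * b) c + sym a (b * c) - sym a b := rfl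
  rw [h2] at h
  have h3 : sym b c + sym a (b * c) - (sym a b + sym (a * b) c) = 0 := by
    rw [← h]; abel
  exact (sub_eq_zero.1 h3).symm

/-- additive maps out of `Q G` are two-cocycles -/
noncomputable def Q.lift {A : Type} [AddCommGroup A] (f : G → G → A)
    (hf : ∀ a b c, f a b + f (a * b) c = f b c + f a (b * c)) : Q G →+ A :=
  QuotientAddGroup.lift (B2 G)
    (Finsupp.liftAddHom (fun p : G × G => (zmultiplesHom A) (f p.1 p.2))) (by
      rw [B2, AddSubgroup.closure_le]
      rintro _ ⟨t, rfl⟩
      obtain ⟨a, b, c⟩ := t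
      have := hf a b c
      simp only [bd3, SetLike.mem_coe, AddMonoidHom.mem_ker, map_sub, map_add,
        Finsupp.liftAddHom_apply_single, zmultiplesHom_apply, one_smul]
      rw [sub_add_eq_add_sub, ← this]
      abel)

@[simp] theorem Q.lift_sym {A : Type} [AddCommGroup A] (f : G → G → A)
    (hf : ∀ a b c, f a b + f (a * b) c = f b c + f a (b * c)) (a b : G) :
    Q.lift f hf (sym a b) = f a b := by
  simp [Q.lift, sym]

theorem Q.hom_ext {A : Type} [AddCommGroup A] {f g : Q G →+ A}
    (h : ∀ a b, f (sym a b) = g (sym a b)) : f = g := by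
  refine QuotientAddGroup.addMonoidHom_ext _ (Finsupp.addHom_ext' ?_)
  rintro ⟨a, b⟩
  refine AddMonoidHom.ext_int ?_
  exact h a b

variable (G) in
/-- the boundary map to 1-chains -/
noncomputable def dQ : Q G →+ (G →₀ ℤ) :=
  Q.lift (fun a b => single b 1 - single (a * b) 1 + single a 1) (by
    intro a b c
    rw [mul_assoc]
    abel)

variable (G) in
/-- second homology as a group of classes of 2-cycles -/
noncomputable def H : AddSubgroup (Q G) := (dQ G).ker

/-- functoriality -/
noncomputable def Q.map {G' : Type} [Group G'] (f : G →* G') : Q G →+ Q G' :=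
  Q.lift (fun a b => sym (f a) (f b)) (by
    intro a b c; simp only [map_mul]; exact sym_cocycle _ _ _)

@[simp] theorem Q.map_sym {G' : Type} [Group G'] (f : G →* G') (a b : G) :
    Q.map f (sym a b) = sym (f a) (f b) := by
  simp [Q.map]

theorem Q.map_mem_H {G' : Type} [Group G'] (f : G →* G') {z : Q G} (hz : z ∈ H G) :
    Q.map f z ∈ H G' := by
  have h : (dQ G').comp (Q.map f) = (Finsupp.mapDomain.addMonoidHom f).comp (dQ G) :=
    Q.hom_ext (by
      intro a b
      simp [dQ, Finsupp.mapDomain_single, map_add, map_sub])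
  have h2 := DFunLike.congr_fun h z
  simp only [AddMonoidHom.comp_apply] at h2
  rw [H, AddMonoidHom.mem_ker] at hz ⊢
  rw [h2, hz, map_zero]

end symbols

/-- two-cocycles with trivial action -/
structure Coc (G A : Type) [Group G] [AddCommGroup A] where
  f : G → G → A
  coc : ∀ a b c, f a b + f (a * b) c = f b c + f a (b * c)

/-- the extension of `G` by `A` attached to a two-cocycle -/
structure Coc.Ext {G A : Type} [Group G] [AddCommGroup A] (c : Coc G A) where
  a : A
  g : G

namespace Coc

variable {G A : Type} [Group G] [AddCommGroup A] (c : Coc G A)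

theorem f_one_left (g : G) : c.f 1 g = c.f 1 1 := by
  have := c.coc 1 1 g
  simp only [one_mul, mul_one] at this
  exact (add_right_cancel (this.trans (add_comm _ _))).symm ▸ rfl

theorem f_one_right (g : G) : c.f g 1 = c.f 1 1 := by
  have := c.coc g 1 1
  simp only [mul_one] at this
  exact add_right_cancel this

variable {c} in
@[ext] theorem Ext.ext' {x y : c.Ext} (h1 : x.a = y.a) (h2 : x.g = y.g) : x = y := by
  cases x; cases y; simp_all

instance : Mul c.Ext := ⟨fun x y => ⟨x.a + y.a + c.f x.g y.g, x.g * y.g⟩⟩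
instance : One c.Ext := ⟨⟨- c.f 1 1, 1⟩⟩
instance : Inv c.Ext := ⟨fun x => ⟨- x.a - c.f x.g⁻¹ x.g - c.f 1 1, x.g⁻¹⟩⟩

@[simp] theorem mul_a (x y : c.Ext) : (x * y).a = x.a + y.a + c.f x.g y.g := rfl
@[simp] theorem mul_g (x y : c.Ext) : (x * y).g = x.g * y.g := rfl
@[simp] theorem one_a : (1 : c.Ext).a = - c.f 1 1 := rfl
@[simp] theorem one_g : (1 : c.Ext).g = 1 := rfl
@[simp] theorem inv_g (x : c.Ext) : (x⁻¹).g = x.g⁻¹ := rfl
theorem inv_a (x : c.Ext) : (x⁻¹).a = - x.a - c.f x.g⁻¹ x.g - c.f 1 1 := rfl

instance : Group c.Ext :=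
  Group.ofLeftAxioms
    (by
      intro x y z
      refine Ext.ext' ?_ (mul_assoc _ _ _)
      have := c.coc x.g y.g z.g
      simp only [mul_a, mul_g]
      have h : x.a + y.a + z.a + (c.f x.g y.g + c.f (x.g * y.g) z.g)
        = x.a + y.a + z.a + (c.f y.g z.g + c.f x.g (y.g * z.g)) := by rw [this]
      calc _ = _ := by abel
        _ = _ := h
        _ = _ := by abel)
    (by
      intro x
      refine Ext.ext' ?_ (one_mul _)
      simp [c.f_one_left])
    (by
      intro x
      refine Ext.ext' ?_ (inv_mul_cancel _)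
      simp only [mul_a, inv_a, one_a, inv_g]
      abel)

/-- projection -/
def proj : c.Ext →* G where
  toFun x := x.g
  map_one' := rfl
  map_mul' _ _ := rfl

/-- inclusion of the kernel -/
def incl : Multiplicative A →* c.Ext where
  toFun x := ⟨x.toAdd - c.f 1 1, 1⟩
  map_one' := by refine Ext.ext' ?_ rfl; simp
  map_mul' x y := by refine Ext.ext' ?_ (by simp); simp; abel

@[simp] theorem proj_apply (x : c.Ext) : c.proj x = x.g := rfl
@[simp] theorem incl_g (x : Multiplicative A) : (c.incl x).g = 1 := rfl
@[simp] theorem incl_a (x : Multiplicative A) : (c.incl x).a = x.toAdd - c.f 1 1 := rfl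

end Coc

/-- a central extension `K → E → G` -/
structure IsCentral {K E G : Type} [AddCommGroup K] [Group E] [Group G]
    (i : Multiplicative K →* E) (p : E →* G) : Prop where
  inj : Function.Injective i
  surj : Function.Surjective p
  exact : ∀ e, p e = 1 ↔ ∃ k, i k = e
  central : ∀ k e, i k * e = e * i k

theorem Coc.isCentral {G A : Type} [Group G] [AddCommGroup A] (c : Coc G A) :
    IsCentral c.incl c.proj where
  inj := by
    intro x y h
    have := congrArg Coc.Ext.a h
    simpa using this
  surj := fun g => ⟨⟨0, g⟩, rfl⟩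
  exact := by
    intro e
    constructor
    · intro h
      refine ⟨Multiplicative.ofAdd (e.a + c.f 1 1), Coc.Ext.ext' ?_ ?_⟩
      · simp
      · exact h.symm
    · rintro ⟨k, rfl⟩
      rfl
  central := by
    intro k e
    refine Coc.Ext.ext' ?_ (by simp)
    simp only [Coc.mul_a, Coc.incl_a, Coc.incl_g, c.f_one_left, c.f_one_right]
    abel

variable {G : Type} [Group G]

variable (G) in
/-- the universal cocycle -/
noncomputable def univ : Coc G (Q G) := ⟨sym, sym_cocycle⟩

end MCG
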