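import Pool.Agent.H60.MCG.Stage

namespace MCG

variable {ι Z G₀ G' : Type} [AddCommGroup Z] [Group G₀] [Group G'] (S : Stage ι Z G₀ G')

namespace Stage

/-- a linear combination of one equation -/
theorem lin1 {K : Type} [AddCommGroup K] {x y u v : K} (h : x = y) (e : u - v = x - y) : u = v := by
  rw [← sub_eq_zero, e, h, sub_self]

/-- conjugation on the kernel -/
abbrev cj (g : G') : S.N ≃* S.N := MulAut.conjNormal g

theorem cj_eq {g : G'} {n m : S.N} (h : g * (n : G') * g⁻¹ = m) : S.cj g n = m := by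
  ext
  rw [MulAut.conjNormal_apply]
  exact h

theorem cjP (i : Fin 5) (k : Fin 4) (h : (i : ℕ) + 1 < k ∨ (k : ℕ) + 1 < i ∨ (i : ℕ) = k) :
    S.cj (S.j (S.t i)) (S.nP k) = S.nP k :=
  S.cj_eq (S.tP i k h)

theorem cj01 : S.cj (S.j (S.t 0)) (S.nP 1) = (S.nP 0)⁻¹ * S.nP 1 := S.cj_eq S.t0P1
theorem cj10 : S.cj (S.j (S.t 1)) (S.nP 0) = S.nP 0 * S.nP 1 := S.cj_eq S.t1P0
theorem cj12 : S.cj (S.j (S.t 1)) (S.nP 2) = (S.nP 1)⁻¹ * S.nP 2 := S.cj_eq S.t1P2
theorem cj21 : S.cj (S.j (S.t 2)) (S.nP 1) = S.nP 1 * S.nP 2 := S.cj_eq S.t2P1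
theorem cj23 : S.cj (S.j (S.t 2)) (S.nP 3) = (S.nP 2)⁻¹ * S.nP 3 := S.cj_eq S.t2P3
theorem cj32 : S.cj (S.j (S.t 3)) (S.nP 2) = S.nP 2 * S.nP 3 := S.cj_eq S.t3P2
theorem cj43 : S.cj (S.j (S.t 4)) (S.nP 3) =
    (S.nP 2)⁻¹ * (S.nP 1)⁻¹ * (S.nP 0)⁻¹ * S.nP 1 * S.nP 3 * S.nz := S.cj_eq S.t4P3
theorem cjR (i : Fin 5) (k : ι) : S.cj (S.j (S.t i)) (S.nR k) = S.nR k := S.cj_eq (S.tR i k)
theorem cjz (g : G') : S.cj g S.nz = S.nz := S.cj_eq (by
  rw [S.nz_coe, ← S.tz, mul_assoc, mul_inv_cancel, mul_one])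
theorem cjh1 (k : ι) : S.cj (S.j (S.h k)) (S.nP 1) = S.nR k * S.nP 1 := S.cj_eq (S.hP1 k)
theorem cjh2 (k : ι) : S.cj (S.j (S.h k)) (S.nP 2) = S.nP 2 := S.cj_eq (S.hP2 k)
theorem cjh3 (k : ι) : S.cj (S.j (S.h k)) (S.nP 3) = S.nP 3 := S.cj_eq (S.hP3 k)

/-- every element of `G₀` conjugates `R l` as an element of the kernel does -/
theorem conj_R (g : G₀) (l : ι) : ∃ n : S.N, S.cj (S.j g) (S.nR l) = n * S.nR l * n⁻¹ := by
  have hg : g ∈ Subgroup.closure (Set.range S.t ∪ Set.range S.h) := by rw [S.gen]; trivial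
  induction hg using Subgroup.closure_induction with
  | mem x hx =>
    rcases hx with ⟨i, rfl⟩ | ⟨k, rfl⟩
    · exact ⟨1, by rw [S.cjR]; simp⟩
    · obtain ⟨n, hn, e⟩ := S.hR k l
      exact ⟨⟨n, hn⟩, S.cj_eq e⟩
  | one => exact ⟨1, by simp⟩
  | mul x y _ _ hx hy =>
    obtain ⟨n, hn⟩ := hx
    obtain ⟨m, hm⟩ := hy
    refine ⟨S.cj (S.j x) m * n, ?_⟩
    have : S.cj (S.j (x * y)) (S.nR l) = S.cj (S.j x) (S.cj (S.j y) (S.nR l)) := by
      simp [cj]
    rw [this, hm, map_mul, map_mul, map_inv, hn]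
    group
  | inv x _ hx =>
    obtain ⟨n, hn⟩ := hx
    refine ⟨S.cj (S.j x⁻¹) n⁻¹, ?_⟩
    have hh : ∀ m : S.N, S.cj (S.j x⁻¹) (S.cj (S.j x) m) = m := by
      intro m
      simp [cj]
    have e := congrArg (S.cj (S.j x⁻¹)) hn
    rw [hh] at e
    simp only [map_mul, map_inv] at e ⊢
    have key : ∀ a b c : S.N, a = c * b * c⁻¹ → b = c⁻¹ * a * c⁻¹⁻¹ := by
      intro a b c h
      rw [h]
      group
    exact key _ _ _ e

namespace Crossed

variable {S} {K : Type} [AddCommGroup K] (κ : S.Crossed K)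

/-- the value, additively -/
def kv (g : G') (n : S.N) : K := Multiplicative.toAdd (κ.k g n)

theorem kv_mul (g : G') (n m : S.N) : κ.kv g (n * m) = κ.kv g n + κ.kv g m := by
  simp [kv]

theorem kv_inv (g : G') (n : S.N) : κ.kv g n⁻¹ = - κ.kv g n := by
  simp [kv]

theorem kv_one (g : G') : κ.kv g 1 = 0 := by
  simp [kv]

theorem kv_comp (a b : G') (n : S.N) : κ.kv (a * b) n = κ.kv a (S.cj b n) + κ.kv b n := by
  simp [kv, κ.mul, cj]

theorem kv_inner (a : S.N) (n : S.N) : κ.kv a n = 0 := by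
  simp [kv, κ.inner]

theorem kv_eq_zero {g : G'} {n : S.N} : κ.kv g n = 0 ↔ κ.k g n = 1 := by
  simp [kv]

theorem kv_one_left (n : S.N) : κ.kv 1 n = 0 := by
  have := κ.kv_inner 1 n
  simpa using this

theorem kv_comm {a b : G₀} (h : a * b = b * a) (n : S.N) :
    κ.kv (S.j a) (S.cj (S.j b) n) + κ.kv (S.j b) n =
      κ.kv (S.j b) (S.cj (S.j a) n) + κ.kv (S.j a) n := by
  rw [← κ.kv_comp, ← κ.kv_comp, ← map_mul, ← map_mul, h]

theorem kv_braid {a b : G₀} (h : a * b * a = b * a * b) (n : S.N) :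
    κ.kv (S.j a) (S.cj (S.j b) (S.cj (S.j a) n)) + κ.kv (S.j b) (S.cj (S.j a) n) +
        κ.kv (S.j a) n =
      κ.kv (S.j b) (S.cj (S.j a) (S.cj (S.j b) n)) + κ.kv (S.j a) (S.cj (S.j b) n) +
        κ.kv (S.j b) n := by
  rw [← κ.kv_comp, ← κ.kv_comp, ← κ.kv_comp, ← κ.kv_comp, ← map_mul, ← map_mul, ← map_mul,
    ← map_mul, h]

/-- a hom from `G₀` -/
def homAt (m : S.N) (hm : ∀ (a b : G₀), κ.kv (S.j a) (S.cj (S.j b) m) = κ.kv (S.j a) m) :
    G₀ →* Multiplicative K where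
  toFun g := Multiplicative.ofAdd (κ.kv (S.j g) m)
  map_one' := by rw [map_one, κ.kv_one_left]; rfl
  map_mul' a b := by rw [map_mul, κ.kv_comp, hm]; rfl

theorem homAt_comm (m : S.N) (hm : ∀ (a b : G₀), κ.kv (S.j a) (S.cj (S.j b) m) = κ.kv (S.j a) m)
    {g : G₀} (hg : g ∈ commutator G₀) : κ.kv (S.j g) m = 0 := by
  have h1 : g ∈ (κ.homAt m hm).ker := Abelianization.commutator_subset_ker _ hg
  have h2 : κ.homAt m hm g = 1 := h1
  simpa [homAt] using h2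

theorem homAt_braid (m : S.N) (hm : ∀ (a b : G₀), κ.kv (S.j a) (S.cj (S.j b) m) = κ.kv (S.j a) m)
    {a b : G₀} (h : a * b * a = b * a * b) : κ.kv (S.j a) m = κ.kv (S.j b) m := by
  have h1 := congrArg (κ.homAt m hm) h
  rw [map_mul, map_mul, map_mul, map_mul] at h1
  have h2 : κ.kv (S.j a) m + κ.kv (S.j b) m + κ.kv (S.j a) m =
      κ.kv (S.j b) m + κ.kv (S.j a) m + κ.kv (S.j b) m := h1
  exact lin1 h2 (by abel)

theorem hmz (a b : G₀) : κ.kv (S.j a) (S.cj (S.j b) S.nz) = κ.kv (S.j a) S.nz := by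
  rw [S.cjz]

theorem hmR (l : ι) (a b : G₀) : κ.kv (S.j a) (S.cj (S.j b) (S.nR l)) = κ.kv (S.j a) (S.nR l) := by
  obtain ⟨n, hn⟩ := S.conj_R b l
  rw [hn, κ.kv_mul, κ.kv_mul, κ.kv_inv]
  abel

theorem all_of_zero (m : S.N)
    (hm : ∀ (a b : G₀), κ.kv (S.j a) (S.cj (S.j b) m) = κ.kv (S.j a) m) {i₀ : Fin 5}
    (h0 : κ.kv (S.j (S.t i₀)) m = 0) : ∀ i, κ.kv (S.j (S.t i)) m = 0 := by
  have e01 := κ.homAt_braid m hm S.rel.b01
  have e12 := κ.homAt_braid m hm S.rel.b12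
  have e23 := κ.homAt_braid m hm S.rel.b23
  have e34 := κ.homAt_braid m hm S.rel.b34
  have h : κ.kv (S.j (S.t 0)) m = 0 := by
    fin_cases i₀
    · exact h0
    · exact e01.trans h0
    · exact (e01.trans e12).trans h0
    · exact ((e01.trans e12).trans e23).trans h0
    · exact (((e01.trans e12).trans e23).trans e34).trans h0
  intro i
  fin_cases i
  · exact h
  · exact e01.symm.trans h
  · exact (e01.trans e12).symm.trans h
  · exact ((e01.trans e12).trans e23).symm.trans h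
  · exact (((e01.trans e12).trans e23).trans e34).symm.trans h

/-- the first twist on the first push -/
theorem a00 : κ.kv (S.j (S.t 0)) (S.nP 0) = κ.kv (S.j (S.t 0)) S.nz := by
  have h1 := κ.kv_comm S.rel.c02 (S.nP 3)
  rw [S.cj23, S.cjP 0 3 (by decide)] at h1
  simp only [kv_mul, kv_inv] at h1
  have h2 := κ.kv_comm S.rel.c04 (S.nP 3)
  rw [S.cj43, S.cjP 0 3 (by decide)] at h2
  simp only [kv_mul, kv_inv] at h2
  have h1' : κ.kv (S.j (S.t 0)) (S.nP 2) = 0 := lin1 h1.symm (by abel)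
  rw [h1'] at h2
  exact lin1 h2.symm (by abel)

theorem two_a00 : κ.kv (S.j (S.t 0)) (S.nP 0) + κ.kv (S.j (S.t 0)) (S.nP 0) = 0 := by
  have h1 := κ.kv_braid S.rel.b01 (S.nP 0)
  rw [S.cjP 0 0 (by decide), S.cj10, map_mul, S.cjP 0 0 (by decide), S.cj01] at h1
  simp only [kv_mul, kv_inv] at h1
  have h2 := κ.kv_braid S.rel.b01 (S.nP 1)
  rw [S.cjP 1 1 (by decide), S.cj01, map_mul, map_inv, S.cjP 1 1 (by decide), S.cj10] at h2
  simp only [kv_mul, kv_inv, mul_inv_rev] at h2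
  have h1' : κ.kv (S.j (S.t 0)) (S.nP 0) = κ.kv (S.j (S.t 1)) (S.nP 1) := lin1 h1 (by abel)
  have h2' : κ.kv (S.j (S.t 1)) (S.nP 1) = - κ.kv (S.j (S.t 0)) (S.nP 0) := lin1 h2.symm (by abel)
  rw [← h1'] at h2'
  exact lin1 h2' (by abel)

theorem zero_of_gen {g : G'} (hP : ∀ i, κ.kv g (S.nP i) = 0) (hR : ∀ l, κ.kv g (S.nR l) = 0)
    (hz : κ.kv g S.nz = 0) (n : S.N) : κ.kv g n = 0 := by
  obtain ⟨⟨w, m⟩, hwm⟩ := (S.ker n).1 n.2
  obtain ⟨q, hq⟩ := S.z0_gen (Multiplicative.toAdd m)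
  -- the free part
  have hfree : ∀ w : FreeGroup (Fin 4 ⊕ ι), κ.k g ⟨S.e (w, 1), S.ρe _⟩ = 1 := by
    intro w
    let f : FreeGroup (Fin 4 ⊕ ι) →* S.N :=
      { toFun := fun w => ⟨S.e (w, 1), S.ρe _⟩
        map_one' := by
          ext
          exact map_one S.e
        map_mul' := by
          intro a b
          ext
          change S.e (a * b, 1) = S.e (a, 1) * S.e (b, 1)
          rw [← map_mul]
          simp }
    have h : (κ.k g).comp f = 1 := by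
      ext x
      rcases x with i | l
      · have h1 := hP i
        rw [kv_eq_zero] at h1
        have h2 : f (FreeGroup.of (Sum.inl i)) = S.nP i := by
          ext
          exact (S.P_eq i).symm
        simp [h2, h1]
      · have h1 := hR l
        rw [kv_eq_zero] at h1
        have h2 : f (FreeGroup.of (Sum.inr l)) = S.nR l := by
          ext
          exact (S.R_eq l).symm
        simp [h2, h1]
    exact DFunLike.congr_fun h w
  have hn : n = ⟨S.e (w, 1), S.ρe _⟩ * S.nz ^ q := by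
    ext
    rw [Subgroup.coe_mul, Subgroup.coe_zpow, S.nz_coe, S.z_eq, ← map_zpow, ← map_mul]
    rw [← hwm]
    congr 1
    ext
    · simp
    · simp only [Prod.snd_mul, Prod.pow_snd, one_mul]
      rw [← ofAdd_zsmul, ← hq]
      rfl
  rw [kv_eq_zero, hn, map_mul, hfree, map_zpow, (κ.kv_eq_zero).1 hz]
  simp

end Crossed

end Stage

/-- A crossed homomorphism normalised on the generators vanishes. -/
theorem Stage.Crossed.eq_one {K : Type} [AddCommGroup K] (κ : S.Crossed K)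
    (h01 : κ.k (S.j (S.t 0)) (S.nP 1) = 1) (h10 : κ.k (S.j (S.t 1)) (S.nP 0) = 1)
    (h21 : κ.k (S.j (S.t 2)) (S.nP 1) = 1) (h32 : κ.k (S.j (S.t 3)) (S.nP 2) = 1)
    (h43 : κ.k (S.j (S.t 4)) (S.nP 3) = 1) (hh : ∀ l, κ.k (S.j (S.h l)) (S.nP 1) = 1)
    (hz : κ.k (S.j (S.t 0)) S.nz = 1) : ∀ g n, κ.k g n = 1 := by
  rw [← κ.kv_eq_zero] at h01 h10 h21 h32 h43 hz
  simp only [← κ.kv_eq_zero] at hh
  -- the central element
  have zz : ∀ i, κ.kv (S.j (S.t i)) S.nz = 0 := κ.all_of_zero _ κ.hmz hz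
  have zh : ∀ l, κ.kv (S.j (S.h l)) S.nz = 0 := fun l => κ.homAt_comm _ κ.hmz (S.hcomm l)
  -- the first twist
  have a00 : κ.kv (S.j (S.t 0)) (S.nP 0) = 0 := κ.a00.trans hz
  have a02 : κ.kv (S.j (S.t 0)) (S.nP 2) = 0 := by
    have h1 := κ.kv_comm S.rel.c02 (S.nP 3)
    rw [S.cj23, S.cjP 0 3 (by decide)] at h1
    simp only [kv_mul, kv_inv] at h1
    exact Stage.lin1 h1.symm (by abel)
  have a03 : κ.kv (S.j (S.t 0)) (S.nP 3) = 0 := by
    have h1 := κ.kv_comm S.rel.c03 (S.nP 2)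
    rw [S.cj32, S.cjP 0 2 (by decide)] at h1
    simp only [kv_mul, kv_inv] at h1
    exact Stage.lin1 h1 (by abel)
  -- zeros of other twists
  have a20 : κ.kv (S.j (S.t 2)) (S.nP 0) = 0 := by
    have h1 := κ.kv_comm S.rel.c02 (S.nP 1)
    rw [S.cj21, S.cj01] at h1
    simp only [kv_mul, kv_inv, a02] at h1
    exact Stage.lin1 h1 (by abel)
  have a30 : κ.kv (S.j (S.t 3)) (S.nP 0) = 0 := by
    have h1 := κ.kv_comm S.rel.c03 (S.nP 1)
    rw [S.cj01, S.cjP 3 1 (by decide)] at h1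
    simp only [kv_mul, kv_inv] at h1
    exact Stage.lin1 h1 (by abel)
  have a40 : κ.kv (S.j (S.t 4)) (S.nP 0) = 0 := by
    have h1 := κ.kv_comm S.rel.c04 (S.nP 1)
    rw [S.cj01, S.cjP 4 1 (by decide)] at h1
    simp only [kv_mul, kv_inv] at h1
    exact Stage.lin1 h1 (by abel)
  have a31 : κ.kv (S.j (S.t 3)) (S.nP 1) = 0 := by
    have h1 := κ.kv_comm S.rel.c13 (S.nP 0)
    rw [S.cj10, S.cjP 3 0 (by decide)] at h1
    simp only [kv_mul, kv_inv] at h1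
    exact Stage.lin1 h1.symm (by abel)
  have a13 : κ.kv (S.j (S.t 1)) (S.nP 3) = 0 := by
    have h1 := κ.kv_comm S.rel.c13 (S.nP 2)
    rw [S.cj12, S.cj32] at h1
    simp only [kv_mul, kv_inv, a31] at h1
    exact Stage.lin1 h1 (by abel)
  have a41 : κ.kv (S.j (S.t 4)) (S.nP 1) = 0 := by
    have h1 := κ.kv_comm S.rel.c14 (S.nP 0)
    rw [S.cj10, S.cjP 4 0 (by decide)] at h1
    simp only [kv_mul, kv_inv] at h1
    exact Stage.lin1 h1.symm (by abel)
  have a12 : κ.kv (S.j (S.t 1)) (S.nP 2) = 0 := by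
    have h1 := κ.kv_comm S.rel.c14 (S.nP 3)
    rw [S.cj43, S.cjP 1 3 (by decide)] at h1
    simp only [kv_mul, kv_inv, h10, zz, a13] at h1
    exact Stage.lin1 h1.symm (by abel)
  have a42 : κ.kv (S.j (S.t 4)) (S.nP 2) = 0 := by
    have h1 := κ.kv_comm S.rel.c24 (S.nP 1)
    rw [S.cj21, S.cjP 4 1 (by decide)] at h1
    simp only [kv_mul, kv_inv] at h1
    exact Stage.lin1 h1.symm (by abel)
  have a22 : κ.kv (S.j (S.t 2)) (S.nP 2) = 0 := by
    have h1 := κ.kv_comm S.rel.c24 (S.nP 3)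
    rw [S.cj43, S.cj23] at h1
    simp only [kv_mul, kv_inv, h21, zz, a20, a42] at h1
    exact Stage.lin1 h1.symm (by abel)
  have a11 : κ.kv (S.j (S.t 1)) (S.nP 1) = 0 := by
    have h1 := κ.kv_braid S.rel.b01 (S.nP 0)
    rw [S.cjP 0 0 (by decide), S.cj10, map_mul, S.cjP 0 0 (by decide), S.cj01] at h1
    simp only [kv_mul, kv_inv, a00, h01, h10] at h1
    exact Stage.lin1 h1.symm (by abel)
  have a23 : κ.kv (S.j (S.t 2)) (S.nP 3) = 0 := by
    have h1 := κ.kv_braid S.rel.b12 (S.nP 3)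
    rw [S.cjP 1 3 (by decide), S.cj23, map_mul, map_inv, S.cjP 1 3 (by decide), S.cj12] at h1
    simp only [kv_mul, kv_inv, mul_inv_rev, inv_inv, a11, a12, a13, a22, h21] at h1
    exact Stage.lin1 h1.symm (by abel)
  have a33 : κ.kv (S.j (S.t 3)) (S.nP 3) = 0 := by
    have h1 := κ.kv_braid S.rel.b23 (S.nP 3)
    rw [S.cjP 3 3 (by decide), S.cj23, map_mul, map_inv, S.cjP 3 3 (by decide), S.cj32] at h1
    simp only [kv_mul, kv_inv, mul_inv_rev, inv_inv, a22, a23, h32] at h1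
    exact Stage.lin1 h1.symm (by abel)
  -- the other basis elements
  have aR : ∀ i l, κ.kv (S.j (S.t i)) (S.nR l) = 0 := by
    intro i l
    refine κ.all_of_zero _ (κ.hmR l) (i₀ := 3) ?_ i
    have h1 := κ.kv_comm (S.ht3 l) (S.nP 1)
    rw [S.cjP 3 1 (by decide), S.cjh1] at h1
    simp only [kv_mul, kv_inv] at h1
    exact Stage.lin1 h1.symm (by abel)
  have at' : ∀ i n, κ.kv (S.j (S.t i)) n = 0 := by
    intro i n
    refine κ.zero_of_gen ?_ (aR i) (zz i) n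
    intro k
    fin_cases i <;> fin_cases k <;> assumption
  have hR : ∀ l m, κ.kv (S.j (S.h l)) (S.nR m) = 0 := fun l m =>
    κ.homAt_comm _ (κ.hmR m) (S.hcomm l)
  have ah : ∀ l n, κ.kv (S.j (S.h l)) n = 0 := by
    intro l n
    refine κ.zero_of_gen ?_ (hR l) (zh l) n
    intro k
    fin_cases k
    · have h1 := κ.kv_comm (S.ht0 l) (S.nP 1)
      rw [S.cj01, at', at'] at h1
      simp only [kv_mul, kv_inv] at h1
      exact Stage.lin1 h1.symm (by simp)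
    · exact hh l
    · have h1 := κ.kv_comm (S.ht2 l) (S.nP 3)
      rw [S.cj23, at', at'] at h1
      simp only [kv_mul, kv_inv] at h1
      exact Stage.lin1 h1.symm (by simp)
    · have h1 := κ.kv_comm (S.ht3 l) (S.nP 2)
      rw [S.cj32, at', at'] at h1
      simp only [kv_mul, kv_inv] at h1
      exact Stage.lin1 h1 (by simp)
  have all : ∀ g : G₀, ∀ n, κ.kv (S.j g) n = 0 := by
    intro g
    have hg : g ∈ Subgroup.closure (Set.range S.t ∪ Set.range S.h) := by rw [S.gen]; trivial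
    induction hg using Subgroup.closure_induction with
    | mem x hx =>
      rcases hx with ⟨i, rfl⟩ | ⟨k, rfl⟩
      · exact at' i
      · exact ah k
    | one => intro n; rw [map_one, κ.kv_one_left]
    | mul x y _ _ hx hy =>
      intro n
      rw [map_mul, κ.kv_comp, hx, hy, add_zero]
    | inv x _ hx =>
      intro n
      have h1 := κ.kv_comp (S.j x) (S.j x⁻¹) n
      rw [← map_mul, mul_inv_cancel, map_one, κ.kv_one_left, hx, zero_add] at h1
      exact h1.symm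
  intro g n
  rw [← κ.kv_eq_zero]
  have hN : S.ρ (g * (S.j (S.ρ g))⁻¹) = 1 := by
    rw [map_mul, map_inv, S.ρj, mul_inv_cancel]
  have h1 := κ.kv_comp (g * (S.j (S.ρ g))⁻¹) (S.j (S.ρ g)) n
  rw [inv_mul_cancel_right, all, add_zero] at h1
  rw [h1]
  exact κ.kv_inner ⟨_, hN⟩ _

/-- The value of a normalised crossed homomorphism on the first twist and `z` has order two. -/
theorem Stage.Crossed.sq {K : Type} [AddCommGroup K] (κ : S.Crossed K)
    (h01 : κ.k (S.j (S.t 0)) (S.nP 1) = 1) (h10 : κ.k (S.j (S.t 1)) (S.nP 0) = 1)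
    (h21 : κ.k (S.j (S.t 2)) (S.nP 1) = 1) (h32 : κ.k (S.j (S.t 3)) (S.nP 2) = 1)
    (h43 : κ.k (S.j (S.t 4)) (S.nP 3) = 1) :
    κ.k (S.j (S.t 0)) S.nz ^ 2 = 1 := by
  have h1 := κ.two_a00
  rw [κ.a00] at h1
  rw [pow_two]
  exact h1

end MCG
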