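import Pool.Agent.H60.MCG.LowW

namespace MCG

variable {ι G₀ G' : Type} [Group G₀] [Group G']

theorem cases_ik : ∀ (i : Fin 5) (k : Fin 4),
    ¬ ((i : ℕ) + 1 < k ∨ (k : ℕ) + 1 < i ∨ (i : ℕ) = k) →
    (i = 0 ∧ k = 1) ∨ (i = 1 ∧ k = 0) ∨ (i = 1 ∧ k = 2) ∨ (i = 2 ∧ k = 1) ∨
      (i = 2 ∧ k = 3) ∨ (i = 3 ∧ k = 2) ∨ (i = 4 ∧ k = 3) := by
  decide

section general

variable {Z : Type} [AddCommGroup Z] (S : Stage ι Z G₀ G')

/-- the group of pushes is a product -/
noncomputable def Stage.eN : FreeGroup (Fin 4 ⊕ ι) × Multiplicative Z ≃* S.N :=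
  MulEquiv.ofBijective (S.e.codRestrict S.N (fun n => S.ρe n)) (by
    constructor
    · intro x y h
      exact S.e_inj (congrArg Subtype.val h)
    · rintro ⟨x, hx⟩
      obtain ⟨n, hn⟩ := (S.ker x).1 hx
      exact ⟨n, Subtype.ext hn⟩)

theorem Stage.eN_coe (x : FreeGroup (Fin 4 ⊕ ι) × Multiplicative Z) :
    (S.eN x : G') = S.e x := rfl

theorem Stage.eN_P (i : Fin 4) : S.eN (FreeGroup.of (Sum.inl i), 1) = S.nP i :=
  Subtype.ext (by rw [S.eN_coe, Stage.nP_coe, S.P_eq])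

theorem Stage.eN_R (k : ι) : S.eN (FreeGroup.of (Sum.inr k), 1) = S.nR k :=
  Subtype.ext (by rw [S.eN_coe, Stage.nR_coe, S.R_eq])

theorem Stage.eN_z : S.eN (1, Multiplicative.ofAdd S.z0) = S.nz :=
  Subtype.ext (by rw [S.eN_coe, Stage.nz_coe, S.z_eq])

/-- homomorphisms out of the group of pushes -/
theorem Stage.homN_ext {L : Type} [Group L] {f g : S.N →* L} (hP : ∀ i, f (S.nP i) = g (S.nP i))
    (hR : ∀ k, f (S.nR k) = g (S.nR k)) (hz : f S.nz = g S.nz) : f = g := by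
  ext n
  obtain ⟨⟨x, m⟩, rfl⟩ := S.eN.surjective n
  have h1 : ((x, m) : FreeGroup (Fin 4 ⊕ ι) × Multiplicative Z) = (x, 1) * (1, m) := by simp
  have h2 : (f.comp S.eN.toMonoidHom).comp (MonoidHom.inl (FreeGroup (Fin 4 ⊕ ι)) (Multiplicative Z))
      = (g.comp S.eN.toMonoidHom).comp (MonoidHom.inl (FreeGroup (Fin 4 ⊕ ι)) (Multiplicative Z)) := by
    refine FreeGroup.ext_hom _ _ ?_
    rintro (i | k)
    · show f (S.eN (FreeGroup.of (Sum.inl i), 1)) = g (S.eN (FreeGroup.of (Sum.inl i), 1))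
      rw [S.eN_P, hP]
    · show f (S.eN (FreeGroup.of (Sum.inr k), 1)) = g (S.eN (FreeGroup.of (Sum.inr k), 1))
      rw [S.eN_R, hR]
  have h3 : f (S.eN (x, 1)) = g (S.eN (x, 1)) := DFunLike.congr_fun h2 x
  have h4 : f (S.eN (1, m)) = g (S.eN (1, m)) := by
    obtain ⟨n, hn⟩ := S.z0_gen (Multiplicative.toAdd m)
    have h5 : ((1, m) : FreeGroup (Fin 4 ⊕ ι) × Multiplicative Z)
        = (1, Multiplicative.ofAdd S.z0) ^ n := by
      refine Prod.ext ?_ ?_
      · simp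
      · show m = (Multiplicative.ofAdd S.z0) ^ n
        rw [← ofAdd_zsmul, ← hn, ofAdd_toAdd]
    rw [h5, map_zpow, S.eN_z, map_zpow, map_zpow, hz]
  rw [h1, map_mul, map_mul, map_mul, h3, h4]

/-- the abelianised push part of an element, general form -/
theorem Stage.exists_mu {M : Type} [AddCommGroup M] (A : W →* AddMonoid.End M)
    (u : Fin 4 → M) (uz : Z →+ M)
    (fixz : ∀ i, A (tw i) (uz S.z0) = uz S.z0)
    (fix : ∀ (i : Fin 5) (k : Fin 4), (i : ℕ) + 1 < k ∨ (k : ℕ) + 1 < i ∨ (i : ℕ) = k →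
      A (tw i) (u k) = u k)
    (a01 : A (tw 0) (u 1) = - u 0 + u 1)
    (a10 : A (tw 1) (u 0) = u 0 + u 1)
    (a12 : A (tw 1) (u 2) = - u 1 + u 2)
    (a21 : A (tw 2) (u 1) = u 1 + u 2)
    (a23 : A (tw 2) (u 3) = - u 2 + u 3)
    (a32 : A (tw 3) (u 2) = u 2 + u 3)
    (a43 : A (tw 4) (u 3) = - u 0 - u 2 + u 3 + uz S.z0) :
    ∃ μ : G' → M,
      (∀ a b, μ (a * b) = μ a + A (S.π (S.ρ a)) (μ b)) ∧ (∀ g, μ (S.j g) = 0) ∧
      (∀ i, μ (S.P i) = u i) ∧ μ S.z = uz S.z0 := by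
  let m : FreeGroup (Fin 4 ⊕ ι) × Multiplicative Z →* Multiplicative M :=
    MonoidHom.coprod
      (FreeGroup.lift (Sum.elim (fun i => Multiplicative.ofAdd (u i)) (fun _ => 1)))
      (AddMonoidHom.toMultiplicative uz)
  let mN : S.N →* Multiplicative M := m.comp S.eN.symm.toMonoidHom
  have mP : ∀ i, mN (S.nP i) = Multiplicative.ofAdd (u i) := by
    intro i
    show m (S.eN.symm (S.nP i)) = _
    rw [← S.eN_P, MulEquiv.symm_apply_apply]
    simp [m]
  have mR : ∀ k, mN (S.nR k) = 1 := by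
    intro k
    show m (S.eN.symm (S.nR k)) = _
    rw [← S.eN_R, MulEquiv.symm_apply_apply]
    simp [m]
  have mz : mN S.nz = Multiplicative.ofAdd (uz S.z0) := by
    show m (S.eN.symm S.nz) = _
    rw [← S.eN_z, MulEquiv.symm_apply_apply]
    simp [m]
  -- conjugation
  let T : G₀ → (Multiplicative M →* Multiplicative M) := fun g =>
    AddMonoidHom.toMultiplicative (A (S.π g))
  have hT : ∀ g x, T g (Multiplicative.ofAdd x) = Multiplicative.ofAdd (A (S.π g) x) :=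
    fun g x => rfl
  let good : G₀ → Prop := fun g => ∀ n : S.N, mN (MulAut.conjNormal (S.j g) n) = T g (mN n)
  have good_of : ∀ g, (∀ i, mN (MulAut.conjNormal (S.j g) (S.nP i)) = T g (mN (S.nP i))) →
      (∀ k, mN (MulAut.conjNormal (S.j g) (S.nR k)) = T g (mN (S.nR k))) → 
      (T g (mN S.nz) = mN S.nz) → good g := by
    intro g h1 h2 h3 n
    have h4 : mN.comp (MulAut.conjNormal (S.j g) : MulAut S.N).toMonoidHom = (T g).comp mN := by
      refine S.homN_ext h1 h2 ?_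
      show mN (MulAut.conjNormal (S.j g) S.nz) = T g (mN S.nz)
      rw [h3]
      congr 1
      refine Subtype.ext ?_
      rw [MulAut.conjNormal_apply]
      show S.j g * S.z * (S.j g)⁻¹ = S.z
      rw [← S.tz, mul_assoc, mul_inv_cancel, mul_one]
    exact DFunLike.congr_fun h4 n
  have good_t : ∀ i, good (S.t i) := by
    intro i
    have conj_eq : ∀ (k : Fin 4) (y : S.N), S.j (S.t i) * S.P k * (S.j (S.t i))⁻¹ = y →
        mN (MulAut.conjNormal (S.j (S.t i)) (S.nP k)) = mN y := by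
      intro k y h
      congr 1
      refine Subtype.ext ?_
      rw [MulAut.conjNormal_apply, ← h]
      rfl
    have hTi : ∀ x, T (S.t i) (Multiplicative.ofAdd x) = Multiplicative.ofAdd (A (tw i) x) := by
      intro x
      rw [hT, S.πt]
    refine good_of _ ?_ ?_ ?_
    · intro k
      by_cases hk : (i : ℕ) + 1 < k ∨ (k : ℕ) + 1 < i ∨ (i : ℕ) = k
      · rw [conj_eq k (S.nP k) (S.tP i k hk), mP, hTi, fix i k hk]
      · have hcases : (i = 0 ∧ k = 1) ∨ (i = 1 ∧ k = 0) ∨ (i = 1 ∧ k = 2) ∨ (i = 2 ∧ k = 1) ∨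
            (i = 2 ∧ k = 3) ∨ (i = 3 ∧ k = 2) ∨ (i = 4 ∧ k = 3) := cases_ik i k hk
        rcases hcases with ⟨rfl, rfl⟩ | ⟨rfl, rfl⟩ | ⟨rfl, rfl⟩ | ⟨rfl, rfl⟩ | ⟨rfl, rfl⟩ |
          ⟨rfl, rfl⟩ | ⟨rfl, rfl⟩
        · rw [conj_eq 1 ((S.nP 0)⁻¹ * S.nP 1) S.t0P1, map_mul, map_inv, mP, mP, hTi, a01]
          rfl
        · rw [conj_eq 0 (S.nP 0 * S.nP 1) S.t1P0, map_mul, mP, mP, hTi, a10]
          rfl
        · rw [conj_eq 2 ((S.nP 1)⁻¹ * S.nP 2) S.t1P2, map_mul, map_inv, mP, mP, hTi, a12]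
          rfl
        · rw [conj_eq 1 (S.nP 1 * S.nP 2) S.t2P1, map_mul, mP, mP, hTi, a21]
          rfl
        · rw [conj_eq 3 ((S.nP 2)⁻¹ * S.nP 3) S.t2P3, map_mul, map_inv, mP, mP, hTi, a23]
          rfl
        · rw [conj_eq 2 (S.nP 2 * S.nP 3) S.t3P2, map_mul, mP, mP, hTi, a32]
          rfl
        · rw [conj_eq 3 ((S.nP 2)⁻¹ * (S.nP 1)⁻¹ * (S.nP 0)⁻¹ * S.nP 1 * S.nP 3 * S.nz) S.t4P3]
          simp only [map_mul, map_inv, mP, mz, hTi, a43]
          rw [← ofAdd_neg, ← ofAdd_neg, ← ofAdd_neg, ← ofAdd_add, ← ofAdd_add, ← ofAdd_add,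
            ← ofAdd_add, ← ofAdd_add]
          congr 1
          abel
    · intro k
      have h1 : mN (MulAut.conjNormal (S.j (S.t i)) (S.nR k)) = mN (S.nR k) := by
        congr 1
        refine Subtype.ext ?_
        rw [MulAut.conjNormal_apply]
        exact S.tR i k
      rw [h1, mR, map_one]
    · rw [mz, hTi, fixz]
  have good_h : ∀ k, good (S.h k) := by
    intro k
    have hTk : ∀ x, T (S.h k) x = x := by
      intro x
      show Multiplicative.ofAdd (A (S.π (S.h k)) (Multiplicative.toAdd x)) = x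
      rw [S.πh, map_one]
      rfl
    have conj_eq : ∀ (x y : S.N), S.j (S.h k) * (x : G') * (S.j (S.h k))⁻¹ = y →
        mN (MulAut.conjNormal (S.j (S.h k)) x) = mN y := by
      intro x y h
      congr 1
      refine Subtype.ext ?_
      rw [MulAut.conjNormal_apply, ← h]
    refine good_of _ ?_ ?_ ?_
    · intro i
      rw [hTk]
      fin_cases i
      · show mN (MulAut.conjNormal (S.j (S.h k)) (S.nP 0)) = mN (S.nP 0)
        rw [conj_eq (S.nP 0) (S.nR k * S.nP 0 * (S.nR k)⁻¹) (S.hP0 k), map_mul, map_mul, map_inv, mR]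
        simp
      · show mN (MulAut.conjNormal (S.j (S.h k)) (S.nP 1)) = mN (S.nP 1)
        rw [conj_eq (S.nP 1) (S.nR k * S.nP 1) (S.hP1 k), map_mul, mR, one_mul]
      · exact conj_eq (S.nP 2) (S.nP 2) (S.hP2 k)
      · exact conj_eq (S.nP 3) (S.nP 3) (S.hP3 k)
    · intro l
      rw [hTk]
      obtain ⟨n, hn, hn'⟩ := S.hR k l
      rw [conj_eq (S.nR l) ((⟨n, hn⟩ : S.N) * S.nR l * (⟨n, hn⟩ : S.N)⁻¹) hn', map_mul, map_mul,
        map_inv, mR]
      simp
    · rw [hTk]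
  have good_mul : ∀ a b, good a → good b → good (a * b) := by
    intro a b ha hb n
    rw [map_mul, map_mul, MulAut.mul_apply, ha, hb]
    show Multiplicative.ofAdd (A (S.π a) (A (S.π b) (Multiplicative.toAdd (mN n)))) =
      Multiplicative.ofAdd (A (S.π (a * b)) (Multiplicative.toAdd (mN n)))
    rw [map_mul, map_mul]
    rfl
  have good_one : good 1 := by
    intro n
    show mN (MulAut.conjNormal (S.j 1) n) =
      Multiplicative.ofAdd (A (S.π 1) (Multiplicative.toAdd (mN n)))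
    rw [map_one, map_one, map_one, map_one]
    rfl
  have good_inv : ∀ a, good a → good a⁻¹ := by
    intro a ha n
    have h1 := ha (MulAut.conjNormal (S.j a⁻¹) n)
    rw [← MulAut.mul_apply, ← map_mul, ← map_mul, mul_inv_cancel, map_one, map_one,
      MulAut.one_apply] at h1
    rw [h1]
    show mN (MulAut.conjNormal (S.j a⁻¹) n) = Multiplicative.ofAdd (A (S.π a⁻¹) (A (S.π a)
      (Multiplicative.toAdd (mN (MulAut.conjNormal (S.j a⁻¹) n)))))
    have h2 : A (S.π a⁻¹) * A (S.π a) = 1 := by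
      rw [← map_mul, ← map_mul, inv_mul_cancel, map_one, map_one]
    have h3 : A (S.π a⁻¹) (A (S.π a) (Multiplicative.toAdd (mN (MulAut.conjNormal (S.j a⁻¹) n))))
      = Multiplicative.toAdd (mN (MulAut.conjNormal (S.j a⁻¹) n)) := by
      have := DFunLike.congr_fun h2 (Multiplicative.toAdd (mN (MulAut.conjNormal (S.j a⁻¹) n)))
      exact this
    rw [h3, ofAdd_toAdd]
  have good_all : ∀ g, good g := by
    intro g
    have hg : g ∈ Subgroup.closure (Set.range S.t ∪ Set.range S.h) := by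
      rw [S.gen]; trivial
    induction hg using Subgroup.closure_induction with
    | mem x hx =>
      rcases hx with ⟨i, rfl⟩ | ⟨k, rfl⟩
      · exact good_t i
      · exact good_h k
    | one => exact good_one
    | mul x y _ _ hx hy => exact good_mul _ _ hx hy
    | inv x _ hx => exact good_inv _ hx
  -- the push part
  have hpush : ∀ a, a * (S.j (S.ρ a))⁻¹ ∈ S.N := by
    intro a
    rw [MonoidHom.mem_ker, map_mul, map_inv, S.ρj, mul_inv_cancel]
  let μ : G' → M := fun a => Multiplicative.toAdd (mN ⟨a * (S.j (S.ρ a))⁻¹, hpush a⟩)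
  have μN : ∀ n : S.N, μ n = Multiplicative.toAdd (mN n) := by
    intro n
    show Multiplicative.toAdd (mN ⟨n * (S.j (S.ρ n))⁻¹, hpush n⟩) = _
    congr 2
    refine Subtype.ext ?_
    show (n : G') * (S.j (S.ρ n))⁻¹ = n
    have : S.ρ n = 1 := n.2
    rw [this, map_one, inv_one, mul_one]
  refine ⟨μ, ?_, ?_, ?_, ?_⟩
  · intro a b
    have h1 : (⟨a * b * (S.j (S.ρ (a * b)))⁻¹, hpush (a * b)⟩ : S.N)
        = ⟨a * (S.j (S.ρ a))⁻¹, hpush a⟩ *
          MulAut.conjNormal (S.j (S.ρ a)) ⟨b * (S.j (S.ρ b))⁻¹, hpush b⟩ := by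
      refine Subtype.ext ?_
      show a * b * (S.j (S.ρ (a * b)))⁻¹ = a * (S.j (S.ρ a))⁻¹ *
        (S.j (S.ρ a) * (b * (S.j (S.ρ b))⁻¹) * (S.j (S.ρ a))⁻¹)
      rw [map_mul, map_mul]
      group
    show Multiplicative.toAdd (mN ⟨a * b * (S.j (S.ρ (a * b)))⁻¹, hpush (a * b)⟩) = _
    rw [h1, map_mul, good_all (S.ρ a)]
    rfl
  · intro g
    have h1 : (⟨S.j g * (S.j (S.ρ (S.j g)))⁻¹, hpush (S.j g)⟩ : S.N) = 1 := by
      refine Subtype.ext ?_
      show S.j g * (S.j (S.ρ (S.j g)))⁻¹ = 1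
      rw [S.ρj, mul_inv_cancel]
    show Multiplicative.toAdd (mN ⟨S.j g * (S.j (S.ρ (S.j g)))⁻¹, hpush (S.j g)⟩) = 0
    rw [h1, map_one]
    rfl
  · intro i
    have := μN (S.nP i)
    rw [Stage.nP_coe, mP] at this
    exact this
  · have := μN S.nz
    rw [Stage.nz_coe, mz] at this
    exact this

end general

/-- the abelianised push part of an element, case of a boundary curve -/
theorem Stage.exists_mu_bd (S : Stage ι ℤ G₀ G') (hS : S.z0 = 1)
    (A : W →* AddMonoid.End (Fin 5 → ZMod 2)) (hA : ActBd A) :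
    ∃ μ : G' → (Fin 5 → ZMod 2),
      (∀ a b, μ (a * b) = μ a + A (S.π (S.ρ a)) (μ b)) ∧ (∀ g, μ (S.j g) = 0) ∧ μ S.z = ub 4 := by
  have neg2 : ∀ x : Fin 5 → ZMod 2, -x = x := by
    intro x
    funext k
    exact ZMod.neg_eq_self_mod_two _
  obtain ⟨μ, h1, h2, h3, h4⟩ := S.exists_mu A (fun k => ub (Fin.castSucc k))
    (zmultiplesHom _ (ub 4)) (by
      intro i
      rw [hS]
      simpa using hA.fix' i)
    (by
      intro i k h
      exact hA.fix i (Fin.castSucc k) h)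
    (by rw [neg2]; exact hA.a01) hA.a10 (by rw [neg2]; exact hA.a12) hA.a21
    (by rw [neg2]; exact hA.a23) hA.a32
    (by
      rw [neg2, sub_eq_add_neg, neg2, hS]
      simpa using hA.a43)
  refine ⟨μ, h1, h2, ?_⟩
  rw [h4, hS]
  simp

/-- the abelianised push part of an element, case of a puncture -/
theorem Stage.exists_mu_pt (S : Stage ι PUnit G₀ G')
    (A : W →* AddMonoid.End (Fin 4 → ℤ)) (hA : ActPt A) :
    ∃ μ : G' → (Fin 4 → ℤ),
      (∀ a b, μ (a * b) = μ a + A (S.π (S.ρ a)) (μ b)) ∧ (∀ g, μ (S.j g) = 0) ∧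
      (∀ i, μ (S.P i) = up i) := by
  obtain ⟨μ, h1, h2, h3, h4⟩ := S.exists_mu A up 0 (fun i => by simp) hA.fix hA.a01 hA.a10 hA.a12
    hA.a21 hA.a23 hA.a32 (by simpa using hA.a43)
  exact ⟨μ, h1, h2, h3⟩

end MCG
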