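import Pool.Agent.H60.MCG.LowMu

namespace MCG

variable {ι G₀ G' : Type} [Group G₀] [Group G']

/-- the cocycle obtained from a crossed homomorphism into the dual and a crossed homomorphism -/
def cocOf {M A' : Type} [AddCommGroup M] [AddCommGroup A'] (A : W →* AddMonoid.End M)
    (κ : W → M →+ A') (hκ : ∀ a b m, κ (a * b) m = κ a (A b m) + κ b m)
    (q : G' →* W) (μ : G' → M) (hμ : ∀ a b, μ (a * b) = μ a + A (q a) (μ b)) : Coc G' A' :=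
  ⟨fun a b => κ (q a) (μ b), by
    intro a b c
    rw [map_mul, hκ, hμ, map_add]
    abel⟩

/-- a cocycle detecting the new class in the case of a boundary curve -/
theorem Stage.exists_theta_bd (S : Stage ι ℤ G₀ G') (hS : S.z0 = 1) :
    ∃ θ : Coc G' (ZMod 2), (∀ a b, θ.f (S.j a) (S.j b) = 0) ∧
      θ.f (S.j (S.t 0)) S.z - θ.f S.z (S.j (S.t 0)) = 1 := by
  obtain ⟨A, κ, hA, hκ, h0⟩ := exists_crossed_bd
  obtain ⟨μ, hμ, hμj, hμz⟩ := S.exists_mu_bd hS A hA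
  refine ⟨cocOf A κ hκ (S.π.comp S.ρ) μ hμ, ?_, ?_⟩
  · intro a b
    show κ _ (μ (S.j b)) = 0
    rw [hμj, map_zero]
  · show κ (S.π (S.ρ (S.j (S.t 0)))) (μ S.z) - κ (S.π (S.ρ S.z)) (μ (S.j (S.t 0))) = 1
    rw [hμj, map_zero, S.ρj, S.πt, hμz, h0, sub_zero]

/-- a cocycle detecting the new class in the case of a puncture -/
theorem Stage.exists_theta_pt (S : Stage ι PUnit G₀ G') :
    ∃ θ : Coc G' ℤ, (∀ a b, θ.f (S.j a) (S.j b) = 0) ∧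
      wz (fun k => (⟨0, S.j (S.t k)⟩ : θ.Ext)) ⟨0, S.P 1⟩ = θ.incl (Multiplicative.ofAdd 1) := by
  obtain ⟨A, κ, hA, hκ, h0, h4⟩ := exists_crossed_pt
  obtain ⟨μ, hμ, hμj, hμP⟩ := S.exists_mu_pt A hA
  have hz1 : S.z = 1 := by
    rw [S.z_eq]
    exact map_one S.e
  have hμ1 : μ 1 = 0 := by
    have := hμj 1
    rwa [map_one] at this
  have hκ1 : κ 1 = 0 := by
    ext m
    have := hκ 1 1 (Pi.single m 1)
    rw [mul_one, map_one] at this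
    have h5 : κ 1 ((1 : AddMonoid.End (Fin 4 → ℤ)) (Pi.single m 1)) = κ 1 (Pi.single m 1) := rfl
    rw [h5] at this
    have h6 : κ 1 (Pi.single m 1) = 0 := by linarith
    simpa using h6
  let θ : Coc G' ℤ := cocOf A κ hκ (S.π.comp S.ρ) μ hμ
  have hf : ∀ a b, θ.f a b = κ (S.π (S.ρ a)) (μ b) := fun a b => rfl
  have f11 : θ.f 1 1 = 0 := by rw [hf, hμ1, map_zero]
  let s : G' → θ.Ext := fun g => ⟨0, g⟩
  have s1 : s 1 = 1 := by
    refine Coc.Ext.ext' ?_ rfl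
    show (0 : ℤ) = - θ.f 1 1
    rw [f11, neg_zero]
  have smul : ∀ a b, κ (S.π (S.ρ a)) = 0 → s (a * b) = s a * s b := by
    intro a b h
    refine Coc.Ext.ext' ?_ rfl
    show (0 : ℤ) = 0 + 0 + θ.f a b
    rw [hf, h]
    simp
  have hρP : ∀ i, S.ρ (S.P i) = 1 := fun i => by rw [S.P_eq]; exact S.ρe _
  -- elements over one
  have kP : ∀ g, S.ρ g = 1 → κ (S.π (S.ρ g)) = 0 := by
    intro g hg
    rw [hg, map_one, hκ1]
  have sinv : ∀ a, κ (S.π (S.ρ a)) = 0 → (s a)⁻¹ = s a⁻¹ := by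
    intro a h
    rw [inv_eq_iff_mul_eq_one, ← smul a a⁻¹ h, mul_inv_cancel, s1]
  have sconj : ∀ i : Fin 5, i ≠ 4 → ∀ n, S.ρ n = 1 →
      s (S.j (S.t i)) * s n * (s (S.j (S.t i)))⁻¹ = s (S.j (S.t i) * n * (S.j (S.t i))⁻¹) := by
    intro i hi n hn
    have hk : κ (S.π (S.ρ (S.j (S.t i)))) = 0 := by rw [S.ρj, S.πt, h0 i hi]
    have hc : S.ρ (S.j (S.t i) * n * (S.j (S.t i))⁻¹) = 1 := by
      rw [map_mul, map_mul, hn, mul_one, ← map_mul, mul_inv_cancel, map_one]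
    rw [mul_inv_eq_iff_eq_mul, ← smul _ _ hk, ← smul _ _ (kP _ hc)]
    congr 1
    group
  let t : Fin 5 → θ.Ext := fun k => s (S.j (S.t k))
  have e0 : w0 t (s (S.P 1)) = s (S.P 0) := by
    rw [w0]
    show s (S.P 1) * (s (S.j (S.t 0)) * s (S.P 1) * (s (S.j (S.t 0)))⁻¹)⁻¹ = _
    rw [sconj 0 (by decide) _ (hρP 1), S.t0P1, sinv _ (kP _ (by simp [hρP])),
      ← smul _ _ (kP _ (hρP 1))]
    congr 1
    group
  have e1 : w1 t (s (S.P 1)) = s (S.P 1) := by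
    rw [w1, e0]
    show (s (S.P 0))⁻¹ * (s (S.j (S.t 1)) * s (S.P 0) * (s (S.j (S.t 1)))⁻¹) = _
    rw [sconj 1 (by decide) _ (hρP 0), S.t1P0, sinv _ (kP _ (hρP 0)),
      ← smul _ _ (kP _ (by simp [hρP]))]
    congr 1
    group
  have e2 : w2 t (s (S.P 1)) = s (S.P 2) := by
    rw [w2, e1]
    show (s (S.P 1))⁻¹ * (s (S.j (S.t 2)) * s (S.P 1) * (s (S.j (S.t 2)))⁻¹) = _
    rw [sconj 2 (by decide) _ (hρP 1), S.t2P1, sinv _ (kP _ (hρP 1)),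
      ← smul _ _ (kP _ (by simp [hρP]))]
    congr 1
    group
  have e3 : w3 t (s (S.P 1)) = s (S.P 3) := by
    rw [w3, e2]
    show (s (S.P 2))⁻¹ * (s (S.j (S.t 3)) * s (S.P 2) * (s (S.j (S.t 3)))⁻¹) = _
    rw [sconj 3 (by decide) _ (hρP 2), S.t3P2, sinv _ (kP _ (hρP 2)),
      ← smul _ _ (kP _ (by simp [hρP]))]
    congr 1
    group
  refine ⟨θ, ?_, ?_⟩
  · intro a b
    rw [hf, hμj, map_zero]
  · show wz t (s (S.P 1)) = _
    rw [wz, e0, e1, e2, e3]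
    have hc : S.ρ (S.j (S.t 4) * S.P 3 * (S.j (S.t 4))⁻¹) = 1 := by
      rw [map_mul, map_mul, hρP, mul_one, ← map_mul, mul_inv_cancel, map_one]
    have h5 : s (S.j (S.t 4)) * s (S.P 3) * (s (S.j (S.t 4)))⁻¹
        = θ.incl (Multiplicative.ofAdd 1) * s (S.j (S.t 4) * S.P 3 * (S.j (S.t 4))⁻¹) := by
      rw [mul_inv_eq_iff_eq_mul, mul_assoc, ← smul _ _ (kP _ hc)]
      refine Coc.Ext.ext' ?_ ?_
      · rw [Coc.mul_a, Coc.mul_a, Coc.incl_a, Coc.incl_g, toAdd_ofAdd, f11]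
        show (0 : ℤ) + 0 + θ.f (S.j (S.t 4)) (S.P 3) = 1 - 0 + 0 + θ.f 1 _
        rw [hf, hf, S.ρj, S.πt, hμP, h4, map_one, map_one, hκ1]
        simp
      · rw [Coc.mul_g, Coc.mul_g, Coc.incl_g]
        show S.j (S.t 4) * S.P 3 = 1 * (S.j (S.t 4) * S.P 3 * (S.j (S.t 4))⁻¹ * S.j (S.t 4))
        group
    show (s (S.P 3))⁻¹ * (s (S.P 1))⁻¹ * s (S.P 0) * s (S.P 1) * s (S.P 2) *
      (s (S.j (S.t 4)) * s (S.P 3) * (s (S.j (S.t 4)))⁻¹) = _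
    rw [h5, sinv _ (kP _ (hρP 3)), sinv _ (kP _ (hρP 1)), ← smul _ _ (kP _ (by simp [hρP])),
      ← smul _ _ (kP _ (by simp [hρP])), ← smul _ _ (kP _ (by simp [hρP])),
      ← smul _ _ (kP _ (by simp [hρP])), ← mul_assoc, ← (θ.isCentral.central _ _), mul_assoc,
      ← smul _ _ (kP _ (by simp [hρP])), S.t4P3, hz1]
    have h6 : (S.P 3)⁻¹ * (S.P 1)⁻¹ * S.P 0 * S.P 1 * S.P 2 *
        ((S.P 2)⁻¹ * (S.P 1)⁻¹ * (S.P 0)⁻¹ * S.P 1 * S.P 3 * 1) = 1 := by group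
    rw [h6, s1, mul_one]

end MCG
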