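import Pool.Agent.H60.MCG.Stage

namespace MCG

/-- abbreviation for the basis vectors -/
def ub (i : Fin 5) : Fin 5 → ZMod 2 := Pi.single i 1
/-- abbreviation for the basis vectors -/
def up (i : Fin 4) : Fin 4 → ℤ := Pi.single i 1

/-- the action on the basis, case of a boundary curve (modulo two; number `4` is the fibre) -/
structure ActBd (A : W →* AddMonoid.End (Fin 5 → ZMod 2)) : Prop where
  fix : ∀ (i : Fin 5) (k : Fin 5), (i : ℕ) + 1 < k ∨ (k : ℕ) + 1 < i ∨ (i : ℕ) = k →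
    A (tw i) (ub k) = ub k
  fix' : ∀ i, A (tw i) (ub 4) = ub 4
  a01 : A (tw 0) (ub 1) = ub 0 + ub 1
  a10 : A (tw 1) (ub 0) = ub 0 + ub 1
  a12 : A (tw 1) (ub 2) = ub 1 + ub 2
  a21 : A (tw 2) (ub 1) = ub 1 + ub 2
  a23 : A (tw 2) (ub 3) = ub 2 + ub 3
  a32 : A (tw 3) (ub 2) = ub 2 + ub 3
  a43 : A (tw 4) (ub 3) = ub 0 + ub 2 + ub 3 + ub 4

/-- the action on the basis, case of a puncture -/
structure ActPt (A : W →* AddMonoid.End (Fin 4 → ℤ)) : Prop where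
  fix : ∀ (i : Fin 5) (k : Fin 4), (i : ℕ) + 1 < k ∨ (k : ℕ) + 1 < i ∨ (i : ℕ) = k →
    A (tw i) (up k) = up k
  a01 : A (tw 0) (up 1) = - up 0 + up 1
  a10 : A (tw 1) (up 0) = up 0 + up 1
  a12 : A (tw 1) (up 2) = - up 1 + up 2
  a21 : A (tw 2) (up 1) = up 1 + up 2
  a23 : A (tw 2) (up 3) = - up 2 + up 3
  a32 : A (tw 3) (up 2) = up 2 + up 3
  a43 : A (tw 4) (up 3) = - up 0 - up 2 + up 3

open Matrix

/-- pairs of an invertible matrix and a row vector, with the multiplication of crossed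
homomorphisms -/
structure LowWX (n : ℕ) (R : Type) [CommRing R] where
  A : (Matrix (Fin n) (Fin n) R)ˣ
  k : Fin n → R

namespace LowWX

variable {n : ℕ} {R : Type} [CommRing R]

theorem ext' {x y : LowWX n R} (h1 : x.A = y.A) (h2 : x.k = y.k) : x = y := by
  cases x; cases y; simp_all

instance : Mul (LowWX n R) := ⟨fun x y => ⟨x.A * y.A, x.k ᵥ* y.A.1 + y.k⟩⟩
instance : One (LowWX n R) := ⟨⟨1, 0⟩⟩
instance : Inv (LowWX n R) := ⟨fun x => ⟨x.A⁻¹, - (x.k ᵥ* (x.A⁻¹).1)⟩⟩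

theorem mul_A (x y : LowWX n R) : (x * y).A = x.A * y.A := rfl
theorem mul_k (x y : LowWX n R) : (x * y).k = x.k ᵥ* y.A.1 + y.k := rfl
theorem one_A : (1 : LowWX n R).A = 1 := rfl
theorem one_k : (1 : LowWX n R).k = 0 := rfl
theorem inv_A (x : LowWX n R) : (x⁻¹).A = x.A⁻¹ := rfl
theorem inv_k (x : LowWX n R) : (x⁻¹).k = - (x.k ᵥ* (x.A⁻¹).1) := rfl

instance : Group (LowWX n R) :=
  Group.ofLeftAxioms
    (by
      intro x y z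
      refine ext' (mul_assoc _ _ _) ?_
      simp only [mul_A, mul_k, Units.val_mul, Matrix.add_vecMul, Matrix.vecMul_vecMul, add_assoc])
    (by
      intro x
      refine ext' (one_mul _) ?_
      simp only [mul_k, one_k, Matrix.zero_vecMul, zero_add])
    (by
      intro x
      refine ext' (inv_mul_cancel _) ?_
      simp only [mul_k, inv_k, one_k, Matrix.neg_vecMul, Matrix.vecMul_vecMul]
      rw [← Units.val_mul, inv_mul_cancel, Units.val_one, Matrix.vecMul_one, neg_add_cancel])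

/-- the underlying pair of matrix and vector -/
def pr (x : LowWX n R) : Matrix (Fin n) (Fin n) R × (Fin n → R) := (x.A.1, x.k)

/-- multiplication of pairs -/
def pm (x y : Matrix (Fin n) (Fin n) R × (Fin n → R)) :
    Matrix (Fin n) (Fin n) R × (Fin n → R) := (x.1 * y.1, x.2 ᵥ* y.1 + y.2)

theorem pr_mul (x y : LowWX n R) : (x * y).pr = pm x.pr y.pr := rfl

theorem pr_inj {x y : LowWX n R} (h : x.pr = y.pr) : x = y :=
  ext' (Units.ext (congrArg Prod.fst h)) (congrArg Prod.snd h)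

/-- a homomorphism from the relations -/
theorem exists_hom (f : Fin 5 → LowWX n R)
    (hb : ∀ i j : Fin 5, (i : ℕ) + 1 = j → f i * f j * f i = f j * f i * f j)
    (hc : ∀ i j : Fin 5, (i : ℕ) + 1 < j → f i * f j = f j * f i)
    (hr : (f 0 * f 1 * f 2) ^ 4 * wWord f = f 4 * wWord f * f 4) :
    ∃ (A : W →* AddMonoid.End (Fin n → R)) (κ : W → (Fin n → R) →+ R),
      (∀ i m, A (tw i) m = (f i).A.1 *ᵥ m) ∧ (∀ i m, κ (tw i) m = (f i).k ⬝ᵥ m) ∧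
      (∀ a b m, κ (a * b) m = κ a (A b m) + κ b m) := by
  have hrel : ∀ r ∈ wRels, FreeGroup.lift f r = 1 := by
    rintro r ((⟨i, j, hij, rfl⟩ | ⟨i, j, hij, rfl⟩) | hr')
    · rw [map_mul, map_inv, mul_inv_eq_one]
      simpa using hb i j hij
    · rw [map_mul, map_inv, mul_inv_eq_one]
      simpa using hc i j hij
    · rw [Set.mem_singleton_iff] at hr'
      subst hr'
      rw [map_mul, map_inv, mul_inv_eq_one]
      have hw : FreeGroup.lift f (wWord FreeGroup.of) = wWord f := by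
        simp [wWord]
      rw [map_mul, map_mul, map_mul, map_inv, hw, eq_mul_inv_iff_mul_eq]
      simpa using hr
  let Φ : W →* LowWX n R := PresentedGroup.toGroup hrel
  have hΦ : ∀ i, Φ (tw i) = f i := fun i => PresentedGroup.toGroup.of hrel
  let A : W →* AddMonoid.End (Fin n → R) :=
    { toFun := fun w =>
        { toFun := fun m => (Φ w).A.1 *ᵥ m
          map_zero' := Matrix.mulVec_zero _
          map_add' := fun a b => Matrix.mulVec_add _ _ _ }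
      map_one' := by
        refine AddMonoidHom.ext fun m => ?_
        change (Φ 1).A.1 *ᵥ m = m
        rw [map_one, one_A, Units.val_one, Matrix.one_mulVec]
      map_mul' := by
        intro a b
        refine AddMonoidHom.ext fun m => ?_
        change (Φ (a * b)).A.1 *ᵥ m = (Φ a).A.1 *ᵥ ((Φ b).A.1 *ᵥ m)
        rw [map_mul, mul_A, Units.val_mul, Matrix.mulVec_mulVec] }
  refine ⟨A, fun w =>
    { toFun := fun m => (Φ w).k ⬝ᵥ m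
      map_zero' := dotProduct_zero _
      map_add' := fun a b => dotProduct_add _ _ _ }, ?_, ?_, ?_⟩
  · intro i m
    change (Φ (tw i)).A.1 *ᵥ m = _
    rw [hΦ]
  · intro i m
    change (Φ (tw i)).k ⬝ᵥ m = _
    rw [hΦ]
  · intro a b m
    change (Φ (a * b)).k ⬝ᵥ m = (Φ a).k ⬝ᵥ ((Φ b).A.1 *ᵥ m) + (Φ b).k ⬝ᵥ m
    rw [map_mul, mul_k, add_dotProduct, Matrix.dotProduct_mulVec]

end LowWX

/-- the matrices, case of a boundary curve -/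
def LowWMb : Fin 5 → Matrix (Fin 5) (Fin 5) (ZMod 2) :=
  ![!![1, 1, 0, 0, 0; 0, 1, 0, 0, 0; 0, 0, 1, 0, 0; 0, 0, 0, 1, 0; 0, 0, 0, 0, 1],
    !![1, 0, 0, 0, 0; 1, 1, 1, 0, 0; 0, 0, 1, 0, 0; 0, 0, 0, 1, 0; 0, 0, 0, 0, 1],
    !![1, 0, 0, 0, 0; 0, 1, 0, 0, 0; 0, 1, 1, 1, 0; 0, 0, 0, 1, 0; 0, 0, 0, 0, 1],
    !![1, 0, 0, 0, 0; 0, 1, 0, 0, 0; 0, 0, 1, 0, 0; 0, 0, 1, 1, 0; 0, 0, 0, 0, 1],
    !![1, 0, 0, 1, 0; 0, 1, 0, 0, 0; 0, 0, 1, 1, 0; 0, 0, 0, 1, 0; 0, 0, 0, 1, 1]]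

/-- the row vectors, case of a boundary curve -/
def LowWkb : Fin 5 → Fin 5 → ZMod 2 :=
  ![![1, 0, 0, 0, 1], ![1, 1, 0, 0, 1], ![0, 1, 1, 0, 1], ![0, 0, 0, 1, 1], ![0, 0, 0, 0, 1]]

theorem LowWMb_sq : ∀ i, LowWMb i * LowWMb i = 1 := by decide +kernel

/-- the generators, case of a boundary curve -/
def LowWfb (i : Fin 5) : LowWX 5 (ZMod 2) :=
  ⟨⟨LowWMb i, LowWMb i, LowWMb_sq i, LowWMb_sq i⟩, LowWkb i⟩

/-- the matrices, case of a puncture -/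
def LowWMp : Fin 5 → Matrix (Fin 4) (Fin 4) ℤ :=
  ![!![1, -1, 0, 0; 0, 1, 0, 0; 0, 0, 1, 0; 0, 0, 0, 1],
    !![1, 0, 0, 0; 1, 1, -1, 0; 0, 0, 1, 0; 0, 0, 0, 1],
    !![1, 0, 0, 0; 0, 1, 0, 0; 0, 1, 1, -1; 0, 0, 0, 1],
    !![1, 0, 0, 0; 0, 1, 0, 0; 0, 0, 1, 0; 0, 0, 1, 1],
    !![1, 0, 0, -1; 0, 1, 0, 0; 0, 0, 1, -1; 0, 0, 0, 1]]

/-- the inverse matrices, case of a puncture -/
def LowWMq : Fin 5 → Matrix (Fin 4) (Fin 4) ℤ :=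
  ![!![1, 1, 0, 0; 0, 1, 0, 0; 0, 0, 1, 0; 0, 0, 0, 1],
    !![1, 0, 0, 0; -1, 1, 1, 0; 0, 0, 1, 0; 0, 0, 0, 1],
    !![1, 0, 0, 0; 0, 1, 0, 0; 0, -1, 1, 1; 0, 0, 0, 1],
    !![1, 0, 0, 0; 0, 1, 0, 0; 0, 0, 1, 0; 0, 0, -1, 1],
    !![1, 0, 0, 1; 0, 1, 0, 0; 0, 0, 1, 1; 0, 0, 0, 1]]

/-- the row vectors, case of a puncture -/
def LowWkp : Fin 5 → Fin 4 → ℤ :=
  ![0, 0, 0, 0, ![0, 0, 0, 1]]

theorem LowWMp_inv : ∀ i, LowWMp i * LowWMq i = 1 := by decide +kernel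
theorem LowWMq_inv : ∀ i, LowWMq i * LowWMp i = 1 := by decide +kernel

/-- the generators, case of a puncture -/
def LowWfp (i : Fin 5) : LowWX 4 ℤ :=
  ⟨⟨LowWMp i, LowWMq i, LowWMp_inv i, LowWMq_inv i⟩, LowWkp i⟩

theorem LowWX.pow4 {n : ℕ} {R : Type} [CommRing R] (x : LowWX n R) :
    x ^ 4 = (x * x) * (x * x) := by
  rw [show (4 : ℕ) = 2 * 2 from rfl, pow_mul, pow_two, pow_two]

/-- intermediate product -/
def LowWfb_c1 : Matrix (Fin 5) (Fin 5) (ZMod 2) × (Fin 5 → ZMod 2) :=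
  (!![0, 1, 1, 0, 0; 1, 1, 1, 0, 0; 0, 0, 1, 0, 0; 0, 0, 0, 1, 0; 0, 0, 0, 0, 1],
    ![0, 1, 0, 0, 0])
/-- intermediate product -/
def LowWfb_c2 : Matrix (Fin 5) (Fin 5) (ZMod 2) × (Fin 5 → ZMod 2) :=
  (!![0, 0, 1, 1, 0; 1, 0, 1, 1, 0; 0, 1, 1, 1, 0; 0, 0, 0, 1, 0; 0, 0, 0, 0, 1],
    ![0, 0, 1, 0, 1])
/-- intermediate product -/
def LowWfb_c3 : Matrix (Fin 5) (Fin 5) (ZMod 2) × (Fin 5 → ZMod 2) :=
  (!![0, 1, 1, 0, 0; 0, 1, 0, 1, 0; 1, 1, 0, 1, 0; 0, 0, 0, 1, 0; 0, 0, 0, 0, 1],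
    ![0, 1, 0, 1, 0])
/-- intermediate product -/
def LowWfb_c4 : Matrix (Fin 5) (Fin 5) (ZMod 2) × (Fin 5 → ZMod 2) :=
  (!![1, 0, 0, 0, 0; 0, 1, 0, 0, 0; 0, 0, 1, 0, 0; 0, 0, 0, 1, 0; 0, 0, 0, 0, 1],
    ![0, 0, 0, 1, 0])
/-- intermediate product -/
def LowWfb_w1 : Matrix (Fin 5) (Fin 5) (ZMod 2) × (Fin 5 → ZMod 2) :=
  (!![1, 0, 0, 0, 0; 0, 1, 0, 0, 0; 0, 1, 1, 1, 0; 0, 1, 1, 0, 0; 0, 0, 0, 0, 1],
    ![0, 1, 1, 1, 0])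
/-- intermediate product -/
def LowWfb_w2 : Matrix (Fin 5) (Fin 5) (ZMod 2) × (Fin 5 → ZMod 2) :=
  (!![1, 0, 0, 0, 0; 1, 1, 1, 0, 0; 1, 1, 0, 1, 0; 1, 1, 0, 0, 0; 0, 0, 0, 0, 1],
    ![0, 0, 0, 1, 1])
/-- intermediate product -/
def LowWfb_w3 : Matrix (Fin 5) (Fin 5) (ZMod 2) × (Fin 5 → ZMod 2) :=
  (!![1, 1, 0, 0, 0; 1, 0, 1, 0, 0; 1, 0, 0, 1, 0; 1, 0, 0, 0, 0; 0, 0, 0, 0, 1],
    ![1, 0, 0, 1, 0])
/-- intermediate product -/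
def LowWfb_w4 : Matrix (Fin 5) (Fin 5) (ZMod 2) × (Fin 5 → ZMod 2) :=
  (!![1, 0, 0, 0, 0; 1, 1, 1, 0, 0; 1, 1, 0, 1, 0; 1, 1, 0, 0, 0; 0, 0, 0, 0, 1],
    ![0, 1, 0, 1, 1])
/-- intermediate product -/
def LowWfb_w5 : Matrix (Fin 5) (Fin 5) (ZMod 2) × (Fin 5 → ZMod 2) :=
  (!![1, 0, 0, 0, 0; 0, 1, 0, 0, 0; 0, 1, 1, 1, 0; 0, 1, 1, 0, 0; 0, 0, 0, 0, 1],
    ![0, 0, 1, 1, 0])
/-- intermediate product -/
def LowWfb_w6 : Matrix (Fin 5) (Fin 5) (ZMod 2) × (Fin 5 → ZMod 2) :=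
  (!![1, 0, 0, 0, 0; 0, 1, 0, 0, 0; 0, 0, 1, 0, 0; 0, 0, 1, 1, 0; 0, 0, 0, 0, 1],
    ![0, 0, 0, 0, 1])
/-- intermediate product -/
def LowWfb_w7 : Matrix (Fin 5) (Fin 5) (ZMod 2) × (Fin 5 → ZMod 2) :=
  (!![1, 0, 0, 0, 0; 0, 1, 0, 0, 0; 0, 0, 1, 0, 0; 0, 0, 0, 1, 0; 0, 0, 0, 0, 1],
    ![0, 0, 0, 1, 0])
/-- intermediate product -/
def LowWfb_r1 : Matrix (Fin 5) (Fin 5) (ZMod 2) × (Fin 5 → ZMod 2) :=
  (!![1, 0, 0, 1, 0; 0, 1, 0, 0, 0; 0, 0, 1, 1, 0; 0, 0, 0, 1, 0; 0, 0, 0, 1, 1],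
    ![0, 0, 0, 1, 1])
theorem LowWfb_c1_eq : LowWX.pm (LowWfb 0).pr (LowWfb 1).pr = LowWfb_c1 := by decide +kernel
theorem LowWfb_c2_eq : LowWX.pm LowWfb_c1 (LowWfb 2).pr = LowWfb_c2 := by decide +kernel
theorem LowWfb_c3_eq : LowWX.pm LowWfb_c2 LowWfb_c2 = LowWfb_c3 := by decide +kernel
theorem LowWfb_c4_eq : LowWX.pm LowWfb_c3 LowWfb_c3 = LowWfb_c4 := by decide +kernel
theorem LowWfb_w1_eq : LowWX.pm (LowWfb 3).pr (LowWfb 2).pr = LowWfb_w1 := by decide +kernel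
theorem LowWfb_w2_eq : LowWX.pm LowWfb_w1 (LowWfb 1).pr = LowWfb_w2 := by decide +kernel
theorem LowWfb_w3_eq : LowWX.pm LowWfb_w2 (LowWfb 0).pr = LowWfb_w3 := by decide +kernel
theorem LowWfb_w4_eq : LowWX.pm LowWfb_w3 (LowWfb 0).pr = LowWfb_w4 := by decide +kernel
theorem LowWfb_w5_eq : LowWX.pm LowWfb_w4 (LowWfb 1).pr = LowWfb_w5 := by decide +kernel
theorem LowWfb_w6_eq : LowWX.pm LowWfb_w5 (LowWfb 2).pr = LowWfb_w6 := by decide +kernel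
theorem LowWfb_w7_eq : LowWX.pm LowWfb_w6 (LowWfb 3).pr = LowWfb_w7 := by decide +kernel
theorem LowWfb_r1_eq : LowWX.pm (LowWfb 4).pr LowWfb_w7 = LowWfb_r1 := by decide +kernel
theorem LowWfb_final : LowWX.pm LowWfb_c4 LowWfb_w7 = LowWX.pm LowWfb_r1 (LowWfb 4).pr := by decide +kernel

theorem LowWfb_rel : (LowWfb 0 * LowWfb 1 * LowWfb 2) ^ 4 * wWord LowWfb = LowWfb 4 * wWord LowWfb * LowWfb 4 := by
  rw [LowWX.pow4]
  refine LowWX.pr_inj ?_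
  unfold wWord
  simp only [LowWX.pr_mul, LowWfb_c1_eq, LowWfb_c2_eq, LowWfb_c3_eq, LowWfb_c4_eq, LowWfb_w1_eq, LowWfb_w2_eq, LowWfb_w3_eq, LowWfb_w4_eq, LowWfb_w5_eq, LowWfb_w6_eq, LowWfb_w7_eq, LowWfb_r1_eq, LowWfb_final]

/-- intermediate product -/
def LowWfp_c1 : Matrix (Fin 4) (Fin 4) ℤ × (Fin 4 → ℤ) :=
  (!![0, -1, 1, 0; 1, 1, -1, 0; 0, 0, 1, 0; 0, 0, 0, 1],
    ![0, 0, 0, 0])
/-- intermediate product -/
def LowWfp_c2 : Matrix (Fin 4) (Fin 4) ℤ × (Fin 4 → ℤ) :=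
  (!![0, 0, 1, -1; 1, 0, -1, 1; 0, 1, 1, -1; 0, 0, 0, 1],
    ![0, 0, 0, 0])
/-- intermediate product -/
def LowWfp_c3 : Matrix (Fin 4) (Fin 4) ℤ × (Fin 4 → ℤ) :=
  (!![0, 1, 1, -2; 0, -1, 0, 1; 1, 1, 0, -1; 0, 0, 0, 1],
    ![0, 0, 0, 0])
/-- intermediate product -/
def LowWfp_c4 : Matrix (Fin 4) (Fin 4) ℤ × (Fin 4 → ℤ) :=
  (!![1, 0, 0, -2; 0, 1, 0, 0; 0, 0, 1, -2; 0, 0, 0, 1],
    ![0, 0, 0, 0])
/-- intermediate product -/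
def LowWfp_w1 : Matrix (Fin 4) (Fin 4) ℤ × (Fin 4 → ℤ) :=
  (!![1, 0, 0, 0; 0, 1, 0, 0; 0, 1, 1, -1; 0, 1, 1, 0],
    ![0, 0, 0, 0])
/-- intermediate product -/
def LowWfp_w2 : Matrix (Fin 4) (Fin 4) ℤ × (Fin 4 → ℤ) :=
  (!![1, 0, 0, 0; 1, 1, -1, 0; 1, 1, 0, -1; 1, 1, 0, 0],
    ![0, 0, 0, 0])
/-- intermediate product -/
def LowWfp_w3 : Matrix (Fin 4) (Fin 4) ℤ × (Fin 4 → ℤ) :=
  (!![1, -1, 0, 0; 1, 0, -1, 0; 1, 0, 0, -1; 1, 0, 0, 0],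
    ![0, 0, 0, 0])
/-- intermediate product -/
def LowWfp_w4 : Matrix (Fin 4) (Fin 4) ℤ × (Fin 4 → ℤ) :=
  (!![1, -2, 0, 0; 1, -1, -1, 0; 1, -1, 0, -1; 1, -1, 0, 0],
    ![0, 0, 0, 0])
/-- intermediate product -/
def LowWfp_w5 : Matrix (Fin 4) (Fin 4) ℤ × (Fin 4 → ℤ) :=
  (!![-1, -2, 2, 0; 0, -1, 0, 0; 0, -1, 1, -1; 0, -1, 1, 0],
    ![0, 0, 0, 0])
/-- intermediate product -/
def LowWfp_w6 : Matrix (Fin 4) (Fin 4) ℤ × (Fin 4 → ℤ) :=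
  (!![-1, 0, 2, -2; 0, -1, 0, 0; 0, 0, 1, -2; 0, 0, 1, -1],
    ![0, 0, 0, 0])
/-- intermediate product -/
def LowWfp_w7 : Matrix (Fin 4) (Fin 4) ℤ × (Fin 4 → ℤ) :=
  (!![-1, 0, 0, -2; 0, -1, 0, 0; 0, 0, -1, -2; 0, 0, 0, -1],
    ![0, 0, 0, 0])
/-- intermediate product -/
def LowWfp_r1 : Matrix (Fin 4) (Fin 4) ℤ × (Fin 4 → ℤ) :=
  (!![-1, 0, 0, -1; 0, -1, 0, 0; 0, 0, -1, -1; 0, 0, 0, -1],
    ![0, 0, 0, -1])
theorem LowWfp_c1_eq : LowWX.pm (LowWfp 0).pr (LowWfp 1).pr = LowWfp_c1 := by decide +kernel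
theorem LowWfp_c2_eq : LowWX.pm LowWfp_c1 (LowWfp 2).pr = LowWfp_c2 := by decide +kernel
theorem LowWfp_c3_eq : LowWX.pm LowWfp_c2 LowWfp_c2 = LowWfp_c3 := by decide +kernel
theorem LowWfp_c4_eq : LowWX.pm LowWfp_c3 LowWfp_c3 = LowWfp_c4 := by decide +kernel
theorem LowWfp_w1_eq : LowWX.pm (LowWfp 3).pr (LowWfp 2).pr = LowWfp_w1 := by decide +kernel
theorem LowWfp_w2_eq : LowWX.pm LowWfp_w1 (LowWfp 1).pr = LowWfp_w2 := by decide +kernel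
theorem LowWfp_w3_eq : LowWX.pm LowWfp_w2 (LowWfp 0).pr = LowWfp_w3 := by decide +kernel
theorem LowWfp_w4_eq : LowWX.pm LowWfp_w3 (LowWfp 0).pr = LowWfp_w4 := by decide +kernel
theorem LowWfp_w5_eq : LowWX.pm LowWfp_w4 (LowWfp 1).pr = LowWfp_w5 := by decide +kernel
theorem LowWfp_w6_eq : LowWX.pm LowWfp_w5 (LowWfp 2).pr = LowWfp_w6 := by decide +kernel
theorem LowWfp_w7_eq : LowWX.pm LowWfp_w6 (LowWfp 3).pr = LowWfp_w7 := by decide +kernel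
theorem LowWfp_r1_eq : LowWX.pm (LowWfp 4).pr LowWfp_w7 = LowWfp_r1 := by decide +kernel
theorem LowWfp_final : LowWX.pm LowWfp_c4 LowWfp_w7 = LowWX.pm LowWfp_r1 (LowWfp 4).pr := by decide +kernel

theorem LowWfp_rel : (LowWfp 0 * LowWfp 1 * LowWfp 2) ^ 4 * wWord LowWfp = LowWfp 4 * wWord LowWfp * LowWfp 4 := by
  rw [LowWX.pow4]
  refine LowWX.pr_inj ?_
  unfold wWord
  simp only [LowWX.pr_mul, LowWfp_c1_eq, LowWfp_c2_eq, LowWfp_c3_eq, LowWfp_c4_eq, LowWfp_w1_eq, LowWfp_w2_eq, LowWfp_w3_eq, LowWfp_w4_eq, LowWfp_w5_eq, LowWfp_w6_eq, LowWfp_w7_eq, LowWfp_r1_eq, LowWfp_final]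

theorem LowWfb_braid : ∀ i j : Fin 5, (i : ℕ) + 1 = j →
    LowWX.pm (LowWX.pm (LowWfb i).pr (LowWfb j).pr) (LowWfb i).pr =
      LowWX.pm (LowWX.pm (LowWfb j).pr (LowWfb i).pr) (LowWfb j).pr := by decide +kernel
theorem LowWfb_comm : ∀ i j : Fin 5, (i : ℕ) + 1 < j →
    LowWX.pm (LowWfb i).pr (LowWfb j).pr = LowWX.pm (LowWfb j).pr (LowWfb i).pr := by
  decide +kernel
theorem LowWfp_braid : ∀ i j : Fin 5, (i : ℕ) + 1 = j →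
    LowWX.pm (LowWX.pm (LowWfp i).pr (LowWfp j).pr) (LowWfp i).pr =
      LowWX.pm (LowWX.pm (LowWfp j).pr (LowWfp i).pr) (LowWfp j).pr := by decide +kernel
theorem LowWfp_comm : ∀ i j : Fin 5, (i : ℕ) + 1 < j →
    LowWX.pm (LowWfp i).pr (LowWfp j).pr = LowWX.pm (LowWfp j).pr (LowWfp i).pr := by
  decide +kernel

/-- crossed homomorphism detecting the new class, case of a boundary curve -/
theorem exists_crossed_bd : ∃ (A : W →* AddMonoid.End (Fin 5 → ZMod 2))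
    (κ : W → (Fin 5 → ZMod 2) →+ ZMod 2), ActBd A ∧
      (∀ a b m, κ (a * b) m = κ a (A b m) + κ b m) ∧ κ (tw 0) (ub 4) = 1 := by
  obtain ⟨A, κ, h1, h2, h3⟩ := LowWX.exists_hom LowWfb
    (fun i j hij => LowWX.pr_inj (LowWfb_braid i j hij))
    (fun i j hij => LowWX.pr_inj (LowWfb_comm i j hij)) LowWfb_rel
  have h1' : ∀ i m, A (tw i) m = LowWMb i *ᵥ m := h1
  refine ⟨A, κ, ?_, h3, ?_⟩
  · constructor
    · intro i k hik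
      rw [h1']
      revert i k
      decide +kernel
    · intro i
      rw [h1']
      revert i
      decide +kernel
    all_goals
      rw [h1']
      decide +kernel
  · rw [h2]
    change LowWkb 0 ⬝ᵥ ub 4 = 1
    decide +kernel

/-- crossed homomorphism detecting the new class, case of a puncture -/
theorem exists_crossed_pt : ∃ (A : W →* AddMonoid.End (Fin 4 → ℤ))
    (κ : W → (Fin 4 → ℤ) →+ ℤ), ActPt A ∧
      (∀ a b m, κ (a * b) m = κ a (A b m) + κ b m) ∧ (∀ i, i ≠ 4 → κ (tw i) = 0) ∧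
      κ (tw 4) (up 3) = 1 := by
  obtain ⟨A, κ, h1, h2, h3⟩ := LowWX.exists_hom LowWfp
    (fun i j hij => LowWX.pr_inj (LowWfp_braid i j hij))
    (fun i j hij => LowWX.pr_inj (LowWfp_comm i j hij)) LowWfp_rel
  have h1' : ∀ i m, A (tw i) m = LowWMp i *ᵥ m := h1
  refine ⟨A, κ, ?_, h3, ?_, ?_⟩
  · constructor
    · intro i k hik
      rw [h1']
      revert i k
      decide +kernel
    all_goals
      rw [h1']
      decide +kernel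
  · intro i hi
    refine AddMonoidHom.ext fun m => ?_
    rw [h2]
    change LowWkp i ⬝ᵥ m = 0
    have : LowWkp i = 0 := by
      revert i
      decide +kernel
    rw [this, zero_dotProduct]
  · rw [h2]
    change LowWkp 4 ⬝ᵥ up 3 = 1
    decide +kernel

end MCG
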