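import Pool.Agent.H60.MCG.Stage

/-!
Pushes of the point number `r` along the loops of the free basis (explicit formulas).
-/

namespace MCG

/-- pushes of the point `r` along `c 0, c 1, c 2, c 3` -/
def pu0 (p r : ℕ) : MulAut Fr := h p r
/-- pushes of the point `r` along `c 0, c 1, c 2, c 3` -/
def pu1 (p r : ℕ) : MulAut Fr := T 1 * pu0 p r * (T 1)⁻¹ * (pu0 p r)⁻¹
/-- pushes of the point `r` along `c 0, c 1, c 2, c 3` -/
def pu2 (p r : ℕ) : MulAut Fr := T 2 * pu1 p r * (T 2)⁻¹ * (pu1 p r)⁻¹
/-- pushes of the point `r` along `c 0, c 1, c 2, c 3` -/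
def pu3 (p r : ℕ) : MulAut Fr := T 3 * pu2 p r * (T 3)⁻¹ * (pu2 p r)⁻¹
/-- pushes of the point `r` along `c 0, c 1, c 2, c 3` -/
def Pu (p r : ℕ) : Fin 4 → MulAut Fr := ![pu0 p r, pu1 p r, pu2 p r, pu3 p r]
/-- push of the point `r` around the point `k` -/
def Ru (p r k : ℕ) : MulAut Fr := (pu1 p r)⁻¹ * h p k * pu1 p r * (h p k)⁻¹

/-- positions of the first ends of the four loops at the base point -/
def st : Fin 4 → ℕ := ![1, 2, 4, 6]
/-- positions of the second ends of the four loops at the base point -/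
def en : Fin 4 → ℕ := ![3, 5, 7, 8]

/-- the factor that an end of a loop at position `q` acquires -/
def fac (r : ℕ) (b : Fin 4) (q : ℕ) : Fr :=
  if q < st b then cmt (X r) (C b) else if q ≤ en b then X r else 1

/-- explicit formula for the pushes along `c b` -/
def pushFun (p r : ℕ) (b : Fin 4) : Letter → Fr
  | .c i => fac r b (st i) * C i * (fac r b (en i))⁻¹
  | .x k => if k = r then X r * C b * X r * (X r * C b)⁻¹
      else if k < r then cmt (X r) (C b) * X k * (cmt (X r) (C b))⁻¹ else X k
  | .y k => if k < p then Y k else if k = r then X r * C b * Y r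
      else if k < r then cmt (X r) (C b) * Y k else Y k

/-- explicit formula for the push around the point `l` (for `l < r`) -/
def RFun (p r l : ℕ) : Letter → Fr
  | .c i => C i
  | .x k => if k = r then X r * X l * X r * (X r * X l)⁻¹ else if k = l then X r * X l * (X r)⁻¹
      else if l < k ∧ k < r then cmt (X r) (X l) * X k * (cmt (X r) (X l))⁻¹ else X k
  | .y k => if k < p then Y k else if k = r then X r * X l * (X r)⁻¹ * Y r
      else if k = l then X r * Y l
      else if l < k ∧ k < r then cmt (X r) (X l) * Y k else Y k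

/-- the twist along the boundary curve number `r` (trivial for a puncture) -/
def zFun (p r : ℕ) : Letter → Fr
  | .y k => if k = r ∧ p ≤ r then X r * Y r else Y k
  | l => FreeGroup.of l

/-- its inverse -/
def zInv (p r : ℕ) : Letter → Fr
  | .y k => if k = r ∧ p ≤ r then (X r)⁻¹ * Y r else Y k
  | l => FreeGroup.of l

theorem z_inv_comp (p r : ℕ) :
    (FreeGroup.lift (zInv p r)).comp (FreeGroup.lift (zFun p r)) = MonoidHom.id Fr := by
  ext l
  rcases l with k | k | k
  · simp [zFun, zInv]
  · simp [zFun, zInv]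
  · by_cases hk : k = r ∧ p ≤ r
    · obtain ⟨rfl, hp⟩ := hk
      simp [zFun, zInv, X, Y, hp]
    · simp [zFun, zInv, Y, hk]

theorem z_comp_inv (p r : ℕ) :
    (FreeGroup.lift (zFun p r)).comp (FreeGroup.lift (zInv p r)) = MonoidHom.id Fr := by
  ext l
  rcases l with k | k | k
  · simp [zFun, zInv]
  · simp [zFun, zInv]
  · by_cases hk : k = r ∧ p ≤ r
    · obtain ⟨rfl, hp⟩ := hk
      simp [zFun, zInv, X, Y, hp]
    · simp [zFun, zInv, Y, hk]

/-- the twist along the boundary curve number `r` (trivial for a puncture) -/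
def Zt (p r : ℕ) : MulAut Fr :=
  MonoidHom.toMulEquiv (FreeGroup.lift (zFun p r)) (FreeGroup.lift (zInv p r))
    (z_inv_comp p r) (z_comp_inv p r)

@[simp] theorem T_of (i : Fin 5) (l : Letter) : T i (FreeGroup.of l) = twFun i l := by
  simp [T]
@[simp] theorem h_of (p j : ℕ) (l : Letter) : h p j (FreeGroup.of l) = hFun p j l := by
  simp [h]
@[simp] theorem Zt_of (p j : ℕ) (l : Letter) : Zt p j (FreeGroup.of l) = zFun p j l := by
  simp [Zt]

/-- killing the letter `x r` -/
def kill (r : ℕ) : Fr →* Fr :=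
  FreeGroup.lift (fun l => if l = Letter.x r then 1 else FreeGroup.of l)

/-- the letters `c`, and `x k`, `k < r` -/
def incl (r : ℕ) : FreeGroup (Fin 4 ⊕ Fin r) →* Fr :=
  FreeGroup.lift (Sum.elim C (fun k => X k))

/-- the group of pushes -/
def eP (p r : ℕ) : FreeGroup (Fin 4 ⊕ Fin r) →* MulAut Fr :=
  FreeGroup.lift (Sum.elim (fun b => (Pu p r b)⁻¹) (fun k => (Ru p r k)⁻¹))

end MCG
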