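import Pool.Agent.H60.MCG.MDefs

set_option linter.unusedSimpArgs false

namespace MCG

/-- values of `pushFun` on `c` letters -/
theorem pushFun_c (p r : ℕ) (b i : Fin 4) :
    pushFun p r b (.c i) = fac r b (st i) * C i * (fac r b (en i))⁻¹ := rfl

theorem conj_aut (A B : MulAut Fr) (φ : Fr →* Fr)
    (h : ∀ l, φ (B (A (FreeGroup.of l))) = A (B (FreeGroup.of l))) (w : Fr) :
    (A * B * A⁻¹ * B⁻¹) w = φ w := by
  have h1 : (φ.comp B.toMonoidHom).comp A.toMonoidHom = (A.toMonoidHom).comp B.toMonoidHom :=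
    FreeGroup.ext_hom _ _ h
  have h2 := DFunLike.congr_fun h1 (A⁻¹ (B⁻¹ w))
  have h3 : φ (B (A (A⁻¹ (B⁻¹ w)))) = A (B (A⁻¹ (B⁻¹ w))) := h2
  rw [MulAut.apply_inv_self, MulAut.apply_inv_self] at h3
  exact h3.symm

theorem conj_aut' (A B : MulAut Fr) (φ : Fr →* Fr)
    (h : ∀ l, A (φ (B (FreeGroup.of l))) = B (A (FreeGroup.of l))) (w : Fr) :
    (A⁻¹ * B * A * B⁻¹) w = φ w := by
  have h1 : (A.toMonoidHom.comp φ).comp B.toMonoidHom = (B.toMonoidHom).comp A.toMonoidHom :=
    FreeGroup.ext_hom _ _ h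
  have h2 := DFunLike.congr_fun h1 (B⁻¹ w)
  have h3 : A (φ (B (B⁻¹ w))) = B (A (B⁻¹ w)) := h2
  rw [MulAut.apply_inv_self] at h3
  have h4 : (A⁻¹ * B * A * B⁻¹) w = A⁻¹ (B (A (B⁻¹ w))) := rfl
  rw [h4, ← h3, MulAut.inv_apply_self]

@[simp] theorem pu0_of (p r : ℕ) (l : Letter) :
    pu0 p r (FreeGroup.of l) = pushFun p r 0 l := by
  rcases l with i | k | k
  · fin_cases i <;> simp [pu0, hFun, pushFun, fac, st, en, C, X]
  · simp [pu0, hFun, pushFun]
  · simp [pu0, hFun, pushFun]

@[simp] theorem pu1_of (p r : ℕ) (l : Letter) :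
    pu1 p r (FreeGroup.of l) = pushFun p r 1 l := by
  rw [pu1, conj_aut _ _ (FreeGroup.lift (pushFun p r 1)), FreeGroup.lift_apply_of]
  clear l
  intro l
  rcases l with i | k | k
  · fin_cases i <;>
      simp [twFun, pushFun, fac, st, en, C, X, cmt] <;> group
  · rcases lt_trichotomy k r with hk | hk | hk
    · simp [twFun, pushFun, fac, st, en, C, X, cmt, hk, hk.ne]; group
    · subst hk; simp [twFun, pushFun, fac, st, en, C, X, cmt]; group
    · simp [twFun, pushFun, fac, st, en, C, X, cmt, hk.ne', hk.not_gt]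
  · by_cases hp : k < p
    · simp [twFun, pushFun, Y, hp]
    rcases lt_trichotomy k r with hk | hk | hk
    · simp [twFun, pushFun, fac, st, en, C, X, Y, cmt, hk, hk.ne, hp]; group
    · subst hk; simp [twFun, pushFun, fac, st, en, C, X, Y, cmt, hp]; group
    · simp [twFun, pushFun, fac, st, en, C, X, Y, cmt, hk.ne', hk.not_gt, hp]

@[simp] theorem pu2_of (p r : ℕ) (l : Letter) :
    pu2 p r (FreeGroup.of l) = pushFun p r 2 l := by
  rw [pu2, conj_aut _ _ (FreeGroup.lift (pushFun p r 2)), FreeGroup.lift_apply_of]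
  clear l
  intro l
  rcases l with i | k | k
  · fin_cases i <;>
      simp [twFun, pushFun, fac, st, en, C, X, cmt] <;> group
  · rcases lt_trichotomy k r with hk | hk | hk
    · simp [twFun, pushFun, fac, st, en, C, X, cmt, hk, hk.ne]; group
    · subst hk; simp [twFun, pushFun, fac, st, en, C, X, cmt]; group
    · simp [twFun, pushFun, fac, st, en, C, X, cmt, hk.ne', hk.not_gt]
  · by_cases hp : k < p
    · simp [twFun, pushFun, Y, hp]
    rcases lt_trichotomy k r with hk | hk | hk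
    · simp [twFun, pushFun, fac, st, en, C, X, Y, cmt, hk, hk.ne, hp]; group
    · subst hk; simp [twFun, pushFun, fac, st, en, C, X, Y, cmt, hp]; group
    · simp [twFun, pushFun, fac, st, en, C, X, Y, cmt, hk.ne', hk.not_gt, hp]

@[simp] theorem pu3_of (p r : ℕ) (l : Letter) :
    pu3 p r (FreeGroup.of l) = pushFun p r 3 l := by
  rw [pu3, conj_aut _ _ (FreeGroup.lift (pushFun p r 3)), FreeGroup.lift_apply_of]
  clear l
  intro l
  rcases l with i | k | k
  · fin_cases i <;>
      simp [twFun, pushFun, fac, st, en, C, X, cmt] <;> group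
  · rcases lt_trichotomy k r with hk | hk | hk
    · simp [twFun, pushFun, fac, st, en, C, X, cmt, hk, hk.ne]; group
    · subst hk; simp [twFun, pushFun, fac, st, en, C, X, cmt]; group
    · simp [twFun, pushFun, fac, st, en, C, X, cmt, hk.ne', hk.not_gt]
  · by_cases hp : k < p
    · simp [twFun, pushFun, Y, hp]
    rcases lt_trichotomy k r with hk | hk | hk
    · simp [twFun, pushFun, fac, st, en, C, X, Y, cmt, hk, hk.ne, hp]; group
    · subst hk; simp [twFun, pushFun, fac, st, en, C, X, Y, cmt, hp]; group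
    · simp [twFun, pushFun, fac, st, en, C, X, Y, cmt, hk.ne', hk.not_gt, hp]

theorem Pu_of (p r : ℕ) (b : Fin 4) (l : Letter) :
    Pu p r b (FreeGroup.of l) = pushFun p r b l := by
  fin_cases b
  · exact pu0_of p r l
  · exact pu1_of p r l
  · exact pu2_of p r l
  · exact pu3_of p r l

theorem Ru_of (p r k : ℕ) (hk : k < r) (l : Letter) :
    Ru p r k (FreeGroup.of l) = RFun p r k l := by
  rw [Ru, conj_aut' _ _ (FreeGroup.lift (RFun p r k)), FreeGroup.lift_apply_of]
  clear l
  intro l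
  rcases l with i | m | m
  · fin_cases i <;>
      simp [hFun, RFun, pushFun, fac, st, en, C, X, cmt, hk, hk.ne, hk.ne', hk.not_gt, hk.ne', hk.not_gt] <;> group
  · rcases lt_trichotomy m k with hm | hm | hm
    · have hr := hm.trans hk
      simp [hFun, RFun, pushFun, fac, st, en, C, X, cmt, hm, hm.ne, hr, hr.ne, hk, hk.ne, hk.ne', hk.not_gt, hm.not_gt]
      group
    · subst hm
      simp [hFun, RFun, pushFun, fac, st, en, C, X, cmt, hk, hk.ne, hk.ne', hk.not_gt, hk.ne', hk.not_gt]; group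
    · rcases lt_trichotomy m r with hr | hr | hr
      · simp [hFun, RFun, pushFun, fac, st, en, C, X, cmt, hm, hm.ne', hm.not_gt, hr, hr.ne, hk, hk.ne, hk.ne', hk.not_gt, hk.ne', hk.not_gt]
        group
      · subst hr
        simp [hFun, RFun, pushFun, fac, st, en, C, X, cmt, hm, hm.ne', hm.not_gt, hk, hk.ne, hk.ne', hk.not_gt, hk.ne', hk.not_gt]
        group
      · simp [hFun, RFun, pushFun, fac, st, en, C, X, cmt, hm, hm.ne', hm.not_gt, hr, hr.ne', hr.not_gt, hk, hk.ne, hk.ne', hk.not_gt, hk.ne', hk.not_gt]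
  · by_cases hp : m < p
    · simp [hFun, RFun, pushFun, Y, hp]
    rcases lt_trichotomy m k with hm | hm | hm
    · have hr := hm.trans hk
      simp [hFun, RFun, pushFun, fac, st, en, C, X, Y, cmt, hm, hm.ne, hr, hr.ne, hk, hk.ne, hk.ne', hk.not_gt, hm.not_gt, hp]
      group
    · subst hm
      simp [hFun, RFun, pushFun, fac, st, en, C, X, Y, cmt, hk, hk.ne, hk.ne', hk.not_gt, hp]; group
    · rcases lt_trichotomy m r with hr | hr | hr
      · simp [hFun, RFun, pushFun, fac, st, en, C, X, Y, cmt, hm, hm.ne', hm.not_gt, hr, hr.ne, hk, hk.ne, hk.ne', hk.not_gt, hp]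
        group
      · subst hr
        simp [hFun, RFun, pushFun, fac, st, en, C, X, Y, cmt, hm, hm.ne', hm.not_gt, hk, hk.ne, hk.ne', hk.not_gt, hp]
        group
      · simp [hFun, RFun, pushFun, fac, st, en, C, X, Y, cmt, hm, hm.ne', hm.not_gt, hr, hr.ne', hr.not_gt, hk, hk.ne, hk.ne', hk.not_gt, hp]

end MCG
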