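import Pool.Agent.H60.MCG.MDefs

namespace MCG

theorem aut_ext {f g : MulAut Fr} (h : ∀ l, f (FreeGroup.of l) = g (FreeGroup.of l)) : f = g := by
  have h1 : f.toMonoidHom = g.toMonoidHom := FreeGroup.ext_hom _ _ h
  ext x
  exact DFunLike.congr_fun h1 x

theorem T0c0 : T 0 (C 0) = C 0 := by simp [C, twFun]
theorem T0c1 : T 0 (C 1) = (C 0)⁻¹ * C 1 := by simp [C, twFun]
theorem T0c2 : T 0 (C 2) = C 2 := by simp [C, twFun]
theorem T0c3 : T 0 (C 3) = C 3 := by simp [C, twFun]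
theorem T1c0 : T 1 (C 0) = C 0 * C 1 := by simp [C, twFun]
theorem T1c1 : T 1 (C 1) = C 1 := by simp [C, twFun]
theorem T1c2 : T 1 (C 2) = (C 1)⁻¹ * C 2 := by simp [C, twFun]
theorem T1c3 : T 1 (C 3) = C 3 := by simp [C, twFun]
theorem T2c0 : T 2 (C 0) = C 0 := by simp [C, twFun]
theorem T2c1 : T 2 (C 1) = C 1 * C 2 := by simp [C, twFun]
theorem T2c2 : T 2 (C 2) = C 2 := by simp [C, twFun]
theorem T2c3 : T 2 (C 3) = (C 2)⁻¹ * C 3 := by simp [C, twFun]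
theorem T3c0 : T 3 (C 0) = C 0 := by simp [C, twFun]
theorem T3c1 : T 3 (C 1) = C 1 := by simp [C, twFun]
theorem T3c2 : T 3 (C 2) = C 2 * C 3 := by simp [C, twFun]
theorem T3c3 : T 3 (C 3) = C 3 := by simp [C, twFun]
theorem T4c0 : T 4 (C 0) = C 0 := by simp [C, twFun]
theorem T4c1 : T 4 (C 1) = C 1 := by simp [C, twFun]
theorem T4c2 : T 4 (C 2) = C 2 := by simp [C, twFun]
theorem T4c3 : T 4 (C 3) = (C 2)⁻¹ * (C 1)⁻¹ * (C 0)⁻¹ * C 1 * C 3 := by simp [C, twFun]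

theorem Tx (i : Fin 5) (k : ℕ) : T i (X k) = X k := by
  fin_cases i <;> simp [X, twFun]
theorem Ty (i : Fin 5) (k : ℕ) : T i (Y k) = Y k := by
  fin_cases i <;> simp [Y, twFun]

theorem aut_ext' {f g : MulAut Fr} (h0 : f (C 0) = g (C 0)) (h1 : f (C 1) = g (C 1))
    (h2 : f (C 2) = g (C 2)) (h3 : f (C 3) = g (C 3)) (hx : ∀ k, f (X k) = g (X k))
    (hy : ∀ k, f (Y k) = g (Y k)) : f = g := by
  refine aut_ext ?_
  rintro (k | k | k)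
  · fin_cases k
    · exact h0
    · exact h1
    · exact h2
    · exact h3
  · exact hx k
  · exact hy k

theorem T_rel : TRel T := by
  constructor <;> refine aut_ext' ?_ ?_ ?_ ?_ (fun k => ?_) (fun k => ?_) <;>
  simp only [MulAut.mul_apply, Tx, Ty, map_mul, map_inv, T0c0, T0c1, T0c2, T0c3, T1c0, T1c1, T1c2,
    T1c3, T2c0, T2c1, T2c2, T2c3, T3c0, T3c1, T3c2, T3c3, T4c0, T4c1, T4c2, T4c3] <;> group

/-- auxiliary product -/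
def pA : MulAut Fr := T 0 * T 1 * T 2
/-- auxiliary product -/
def pA2 : MulAut Fr := pA * pA
/-- auxiliary product -/
def pA4 : MulAut Fr := pA2 * pA2
/-- auxiliary product -/
def pw1 : MulAut Fr := T 3 * T 2 * T 1 * T 0
/-- auxiliary product -/
def pw2 : MulAut Fr := T 0 * T 1 * T 2 * T 3
/-- auxiliary product -/
def pw : MulAut Fr := pw1 * pw2

theorem A_c0 : (pA) (C 0) =
    C 1 := by
  simp only [MulAut.mul_apply, map_mul, map_inv, mul_inv_rev, inv_inv, pA, T0c0, T0c1, T0c2, T0c3, T1c0, T1c1, T1c2, T1c3, T2c0,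
    T2c1, T2c2, T2c3, T3c0, T3c1, T3c2, T3c3, T4c0, T4c1, T4c2, T4c3] <;> group

theorem A_c1 : (pA) (C 1) =
    C 2 := by
  simp only [MulAut.mul_apply, map_mul, map_inv, mul_inv_rev, inv_inv, pA, T0c0, T0c1, T0c2, T0c3, T1c0, T1c1, T1c2, T1c3, T2c0,
    T2c1, T2c2, T2c3, T3c0, T3c1, T3c2, T3c3, T4c0, T4c1, T4c2, T4c3] <;> group

theorem A_c2 : (pA) (C 2) =
    (C 1)⁻¹ * C 0 * C 2 := by
  simp only [MulAut.mul_apply, map_mul, map_inv, mul_inv_rev, inv_inv, pA, T0c0, T0c1, T0c2, T0c3, T1c0, T1c1, T1c2, T1c3, T2c0,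
    T2c1, T2c2, T2c3, T3c0, T3c1, T3c2, T3c3, T4c0, T4c1, T4c2, T4c3] <;> group

theorem A_c3 : (pA) (C 3) =
    (C 2)⁻¹ * (C 0)⁻¹ * C 1 * C 3 := by
  simp only [MulAut.mul_apply, map_mul, map_inv, mul_inv_rev, inv_inv, pA, T0c0, T0c1, T0c2, T0c3, T1c0, T1c1, T1c2, T1c3, T2c0,
    T2c1, T2c2, T2c3, T3c0, T3c1, T3c2, T3c3, T4c0, T4c1, T4c2, T4c3] <;> group

theorem A2_c0 : (pA2) (C 0) =
    C 2 := by
  simp only [MulAut.mul_apply, map_mul, map_inv, mul_inv_rev, inv_inv, pA2, A_c0, A_c1, A_c2, A_c3] <;> group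

theorem A2_c1 : (pA2) (C 1) =
    (C 1)⁻¹ * C 0 * C 2 := by
  simp only [MulAut.mul_apply, map_mul, map_inv, mul_inv_rev, inv_inv, pA2, A_c0, A_c1, A_c2, A_c3] <;> group

theorem A2_c2 : (pA2) (C 2) =
    (C 2)⁻¹ * C 0 * C 2 := by
  simp only [MulAut.mul_apply, map_mul, map_inv, mul_inv_rev, inv_inv, pA2, A_c0, A_c1, A_c2, A_c3] <;> group

theorem A2_c3 : (pA2) (C 3) =
    (C 2)⁻¹ * (C 0)⁻¹ * (C 0)⁻¹ * C 1 * C 3 := by
  simp only [MulAut.mul_apply, map_mul, map_inv, mul_inv_rev, inv_inv, pA2, A_c0, A_c1, A_c2, A_c3] <;> group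

theorem A4_c0 : (pA4) (C 0) =
    (C 2)⁻¹ * C 0 * C 2 := by
  simp only [MulAut.mul_apply, map_mul, map_inv, mul_inv_rev, inv_inv, pA4, A2_c0, A2_c1, A2_c2, A2_c3] <;> group

theorem A4_c1 : (pA4) (C 1) =
    (C 2)⁻¹ * (C 0)⁻¹ * C 1 * C 0 * C 2 := by
  simp only [MulAut.mul_apply, map_mul, map_inv, mul_inv_rev, inv_inv, pA4, A2_c0, A2_c1, A2_c2, A2_c3] <;> group

theorem A4_c2 : (pA4) (C 2) =
    (C 2)⁻¹ * (C 0)⁻¹ * C 2 * C 0 * C 2 := by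
  simp only [MulAut.mul_apply, map_mul, map_inv, mul_inv_rev, inv_inv, pA4, A2_c0, A2_c1, A2_c2, A2_c3] <;> group

theorem A4_c3 : (pA4) (C 3) =
    (C 2)⁻¹ * (C 0)⁻¹ * (C 2)⁻¹ * (C 1)⁻¹ * (C 0)⁻¹ * C 1 * C 3 := by
  simp only [MulAut.mul_apply, map_mul, map_inv, mul_inv_rev, inv_inv, pA4, A2_c0, A2_c1, A2_c2, A2_c3] <;> group

theorem w1_c0 : (pw1) (C 0) =
    C 0 * C 1 * C 2 * C 3 := by
  simp only [MulAut.mul_apply, map_mul, map_inv, mul_inv_rev, inv_inv, pw1, T0c0, T0c1, T0c2, T0c3, T1c0, T1c1, T1c2, T1c3, T2c0,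
    T2c1, T2c2, T2c3, T3c0, T3c1, T3c2, T3c3, T4c0, T4c1, T4c2, T4c3] <;> group

theorem w1_c1 : (pw1) (C 1) =
    (C 3)⁻¹ * (C 2)⁻¹ * (C 1)⁻¹ * (C 0)⁻¹ * C 1 * C 2 * C 3 := by
  simp only [MulAut.mul_apply, map_mul, map_inv, mul_inv_rev, inv_inv, pw1, T0c0, T0c1, T0c2, T0c3, T1c0, T1c1, T1c2, T1c3, T2c0,
    T2c1, T2c2, T2c3, T3c0, T3c1, T3c2, T3c3, T4c0, T4c1, T4c2, T4c3] <;> group

theorem w1_c2 : (pw1) (C 2) =
    (C 3)⁻¹ * (C 2)⁻¹ * (C 1)⁻¹ * C 2 * C 3 := by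
  simp only [MulAut.mul_apply, map_mul, map_inv, mul_inv_rev, inv_inv, pw1, T0c0, T0c1, T0c2, T0c3, T1c0, T1c1, T1c2, T1c3, T2c0,
    T2c1, T2c2, T2c3, T3c0, T3c1, T3c2, T3c3, T4c0, T4c1, T4c2, T4c3] <;> group

theorem w1_c3 : (pw1) (C 3) =
    (C 3)⁻¹ * (C 2)⁻¹ * C 3 := by
  simp only [MulAut.mul_apply, map_mul, map_inv, mul_inv_rev, inv_inv, pw1, T0c0, T0c1, T0c2, T0c3, T1c0, T1c1, T1c2, T1c3, T2c0,
    T2c1, T2c2, T2c3, T3c0, T3c1, T3c2, T3c3, T4c0, T4c1, T4c2, T4c3] <;> group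

theorem w2_c0 : (pw2) (C 0) =
    C 1 := by
  simp only [MulAut.mul_apply, map_mul, map_inv, mul_inv_rev, inv_inv, pw2, T0c0, T0c1, T0c2, T0c3, T1c0, T1c1, T1c2, T1c3, T2c0,
    T2c1, T2c2, T2c3, T3c0, T3c1, T3c2, T3c3, T4c0, T4c1, T4c2, T4c3] <;> group

theorem w2_c1 : (pw2) (C 1) =
    C 2 := by
  simp only [MulAut.mul_apply, map_mul, map_inv, mul_inv_rev, inv_inv, pw2, T0c0, T0c1, T0c2, T0c3, T1c0, T1c1, T1c2, T1c3, T2c0,
    T2c1, T2c2, T2c3, T3c0, T3c1, T3c2, T3c3, T4c0, T4c1, T4c2, T4c3] <;> group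

theorem w2_c2 : (pw2) (C 2) =
    C 3 := by
  simp only [MulAut.mul_apply, map_mul, map_inv, mul_inv_rev, inv_inv, pw2, T0c0, T0c1, T0c2, T0c3, T1c0, T1c1, T1c2, T1c3, T2c0,
    T2c1, T2c2, T2c3, T3c0, T3c1, T3c2, T3c3, T4c0, T4c1, T4c2, T4c3] <;> group

theorem w2_c3 : (pw2) (C 3) =
    (C 2)⁻¹ * (C 0)⁻¹ * C 1 * C 3 := by
  simp only [MulAut.mul_apply, map_mul, map_inv, mul_inv_rev, inv_inv, pw2, T0c0, T0c1, T0c2, T0c3, T1c0, T1c1, T1c2, T1c3, T2c0,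
    T2c1, T2c2, T2c3, T3c0, T3c1, T3c2, T3c3, T4c0, T4c1, T4c2, T4c3] <;> group

theorem w_c0 : (pw) (C 0) =
    (C 3)⁻¹ * (C 2)⁻¹ * (C 1)⁻¹ * (C 0)⁻¹ * C 1 * C 2 * C 3 := by
  simp only [MulAut.mul_apply, map_mul, map_inv, mul_inv_rev, inv_inv, pw, w1_c0, w1_c1, w1_c2, w1_c3, w2_c0, w2_c1, w2_c2, w2_c3] <;> group

theorem w_c1 : (pw) (C 1) =
    (C 3)⁻¹ * (C 2)⁻¹ * (C 1)⁻¹ * C 2 * C 3 := by
  simp only [MulAut.mul_apply, map_mul, map_inv, mul_inv_rev, inv_inv, pw, w1_c0, w1_c1, w1_c2, w1_c3, w2_c0, w2_c1, w2_c2, w2_c3] <;> group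

theorem w_c2 : (pw) (C 2) =
    (C 3)⁻¹ * (C 2)⁻¹ * C 3 := by
  simp only [MulAut.mul_apply, map_mul, map_inv, mul_inv_rev, inv_inv, pw, w1_c0, w1_c1, w1_c2, w1_c3, w2_c0, w2_c1, w2_c2, w2_c3] <;> group

theorem w_c3 : (pw) (C 3) =
    (C 3)⁻¹ * (C 2)⁻¹ * (C 0)⁻¹ * (C 3)⁻¹ * (C 2)⁻¹ * (C 1)⁻¹ * (C 0)⁻¹ * C 1 * C 3 := by
  simp only [MulAut.mul_apply, map_mul, map_inv, mul_inv_rev, inv_inv, pw, w1_c0, w1_c1, w1_c2, w1_c3, w2_c0, w2_c1, w2_c2, w2_c3] <;> group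

/-- auxiliary product -/
def pL : MulAut Fr := pA4 * pw
/-- auxiliary product -/
def pR1 : MulAut Fr := pw * T 4
/-- auxiliary product -/
def pR : MulAut Fr := T 4 * pR1

theorem L_c0 : (pL) (C 0) =
    (C 3)⁻¹ * (C 1)⁻¹ * (C 0)⁻¹ * C 1 * C 3 := by
  rw [pL, MulAut.mul_apply, w_c0]
  simp only [MulAut.mul_apply, map_mul, map_inv, mul_inv_rev, inv_inv, A4_c0, A4_c1, A4_c2, A4_c3] <;> group

theorem L_c1 : (pL) (C 1) =
    (C 3)⁻¹ * (C 1)⁻¹ * C 0 * (C 1)⁻¹ * (C 0)⁻¹ * C 1 * C 3 := by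
  rw [pL, MulAut.mul_apply, w_c1]
  simp only [MulAut.mul_apply, map_mul, map_inv, mul_inv_rev, inv_inv, A4_c0, A4_c1, A4_c2, A4_c3] <;> group

theorem L_c2 : (pL) (C 2) =
    (C 3)⁻¹ * (C 1)⁻¹ * C 0 * C 1 * (C 2)⁻¹ * (C 1)⁻¹ * (C 0)⁻¹ * C 1 * C 3 := by
  rw [pL, MulAut.mul_apply, w_c2]
  simp only [MulAut.mul_apply, map_mul, map_inv, mul_inv_rev, inv_inv, A4_c0, A4_c1, A4_c2, A4_c3] <;> group

theorem L_c3 : (pL) (C 3) =
    (C 3)⁻¹ * (C 1)⁻¹ * C 0 * C 1 * C 2 * (C 3)⁻¹ * (C 2)⁻¹ * (C 1)⁻¹ * (C 0)⁻¹ * C 1 * C 3 := by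
  rw [pL, MulAut.mul_apply, w_c3]
  simp only [MulAut.mul_apply, map_mul, map_inv, mul_inv_rev, inv_inv, A4_c0, A4_c1, A4_c2, A4_c3] <;> group

theorem R1_c0 : (pR1) (C 0) =
    (C 3)⁻¹ * (C 2)⁻¹ * (C 1)⁻¹ * (C 0)⁻¹ * C 1 * C 2 * C 3 := by
  rw [pR1, MulAut.mul_apply, T4c0]
  simp only [MulAut.mul_apply, map_mul, map_inv, mul_inv_rev, inv_inv, w_c0, w_c1, w_c2, w_c3] <;> group

theorem R1_c1 : (pR1) (C 1) =
    (C 3)⁻¹ * (C 2)⁻¹ * (C 1)⁻¹ * C 2 * C 3 := by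
  rw [pR1, MulAut.mul_apply, T4c1]
  simp only [MulAut.mul_apply, map_mul, map_inv, mul_inv_rev, inv_inv, w_c0, w_c1, w_c2, w_c3] <;> group

theorem R1_c2 : (pR1) (C 2) =
    (C 3)⁻¹ * (C 2)⁻¹ * C 3 := by
  rw [pR1, MulAut.mul_apply, T4c2]
  simp only [MulAut.mul_apply, map_mul, map_inv, mul_inv_rev, inv_inv, w_c0, w_c1, w_c2, w_c3] <;> group

theorem R1_c3 : (pR1) (C 3) =
    (C 3)⁻¹ * (C 3)⁻¹ * (C 2)⁻¹ * (C 1)⁻¹ * (C 0)⁻¹ * C 1 * C 3 := by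
  rw [pR1, MulAut.mul_apply, T4c3]
  simp only [MulAut.mul_apply, map_mul, map_inv, mul_inv_rev, inv_inv, w_c0, w_c1, w_c2, w_c3] <;> group

theorem R_c0 : (pR) (C 0) =
    (C 3)⁻¹ * (C 1)⁻¹ * (C 0)⁻¹ * C 1 * C 3 := by
  rw [pR, MulAut.mul_apply, R1_c0]
  simp only [MulAut.mul_apply, map_mul, map_inv, mul_inv_rev, inv_inv, T4c0, T4c1, T4c2, T4c3] <;> group

theorem R_c1 : (pR) (C 1) =
    (C 3)⁻¹ * (C 1)⁻¹ * C 0 * (C 1)⁻¹ * (C 0)⁻¹ * C 1 * C 3 := by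
  rw [pR, MulAut.mul_apply, R1_c1]
  simp only [MulAut.mul_apply, map_mul, map_inv, mul_inv_rev, inv_inv, T4c0, T4c1, T4c2, T4c3] <;> group

theorem R_c2 : (pR) (C 2) =
    (C 3)⁻¹ * (C 1)⁻¹ * C 0 * C 1 * (C 2)⁻¹ * (C 1)⁻¹ * (C 0)⁻¹ * C 1 * C 3 := by
  rw [pR, MulAut.mul_apply, R1_c2]
  simp only [MulAut.mul_apply, map_mul, map_inv, mul_inv_rev, inv_inv, T4c0, T4c1, T4c2, T4c3] <;> group

theorem R_c3 : (pR) (C 3) =
    (C 3)⁻¹ * (C 1)⁻¹ * C 0 * C 1 * C 2 * (C 3)⁻¹ * (C 2)⁻¹ * (C 1)⁻¹ * (C 0)⁻¹ * C 1 * C 3 := by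
  rw [pR, MulAut.mul_apply, R1_c3]
  simp only [MulAut.mul_apply, map_mul, map_inv, mul_inv_rev, inv_inv, T4c0, T4c1, T4c2, T4c3] <;> group

theorem A_x (k : ℕ) : pA (X k) = X k := by simp only [pA, MulAut.mul_apply, Tx]
theorem A_y (k : ℕ) : pA (Y k) = Y k := by simp only [pA, MulAut.mul_apply, Ty]

theorem T_chain' : (T 0 * T 1 * T 2) ^ 4 * wWord T = T 4 * wWord T * T 4 := by
  have h1 : (T 0 * T 1 * T 2) ^ 4 = pA4 := by
    rw [pA4, pA2, pA, pow_succ, pow_succ, pow_succ, pow_one]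
    simp only [mul_assoc]
  have h2 : wWord T = pw := by
    rw [wWord, pw, pw1, pw2]
    simp only [mul_assoc]
  have hx : ∀ k, pA4 (X k) = X k := by
    intro k
    simp only [pA4, pA2, MulAut.mul_apply, A_x]
  have hy : ∀ k, pA4 (Y k) = Y k := by
    intro k
    simp only [pA4, pA2, MulAut.mul_apply, A_y]
  have hx' : ∀ k, pw (X k) = X k := by
    intro k
    simp only [pw, pw1, pw2, MulAut.mul_apply, Tx]
  have hy' : ∀ k, pw (Y k) = Y k := by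
    intro k
    simp only [pw, pw1, pw2, MulAut.mul_apply, Ty]
  have h3 : T 4 * pw * T 4 = pR := by rw [pR, pR1, mul_assoc]
  rw [h1, h2, h3]
  change pL = pR
  refine aut_ext' ?_ ?_ ?_ ?_ (fun k => ?_) (fun k => ?_)
  · rw [L_c0, R_c0]
  · rw [L_c1, R_c1]
  · rw [L_c2, R_c2]
  · rw [L_c3, R_c3]
  · simp only [pL, pR, pR1, MulAut.mul_apply, hx, hx', Tx]
  · simp only [pL, pR, pR1, MulAut.mul_apply, hy, hy', Ty]

theorem T_chain : (T 0 * T 1 * T 2) ^ 4 = T 4 * wWord T * T 4 * (wWord T)⁻¹ := by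
  rw [← T_chain', mul_inv_cancel_right]

/-- the action of `W` on the free group -/
theorem exists_actW : ∃ f : W →* MulAut Fr, ∀ i, f (tw i) = T i := by
  have h : ∀ r ∈ wRels, FreeGroup.lift T r = 1 := by
    rintro r ((⟨i, j, hij, rfl⟩ | ⟨i, j, hij, rfl⟩) | hr)
    · simp only [map_mul, map_inv, FreeGroup.lift_apply_of]
      rw [mul_inv_eq_one]
      fin_cases i <;> fin_cases j <;> first
        | exact absurd hij (by decide)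
        | exact T_rel.b01
        | exact T_rel.b12
        | exact T_rel.b23
        | exact T_rel.b34
    · simp only [map_mul, map_inv, FreeGroup.lift_apply_of]
      rw [mul_inv_eq_one]
      fin_cases i <;> fin_cases j <;> first
        | exact absurd hij (by decide)
        | exact T_rel.c02
        | exact T_rel.c03
        | exact T_rel.c04
        | exact T_rel.c13
        | exact T_rel.c14
        | exact T_rel.c24
    · rw [Set.mem_singleton_iff] at hr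
      rw [hr, map_mul, map_inv, mul_inv_eq_one]
      have hw : FreeGroup.lift T (wWord FreeGroup.of) = wWord T := by
        simp only [wWord, map_mul, FreeGroup.lift_apply_of]
      simp only [map_mul, map_pow, map_inv, hw, FreeGroup.lift_apply_of]
      exact T_chain
  exact ⟨PresentedGroup.toGroup h, fun i => PresentedGroup.toGroup.of h⟩

end MCG
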