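import Pool.Agent.H60.MCG.Hom
import Pool.Agent.H60.MCG.Defs

/-!
Split extensions `1 → F × Z → G' → G₀ → 1` of the kind that occurs when one more puncture
(`Z` trivial) or boundary curve (`Z` infinite cyclic) is added.
-/

namespace MCG

/-- braid relations and commutations of five elements -/
structure TRel {G : Type} [Group G] (t : Fin 5 → G) : Prop where
  b01 : t 0 * t 1 * t 0 = t 1 * t 0 * t 1
  b12 : t 1 * t 2 * t 1 = t 2 * t 1 * t 2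
  b23 : t 2 * t 3 * t 2 = t 3 * t 2 * t 3
  b34 : t 3 * t 4 * t 3 = t 4 * t 3 * t 4
  c02 : t 0 * t 2 = t 2 * t 0
  c03 : t 0 * t 3 = t 3 * t 0
  c04 : t 0 * t 4 = t 4 * t 0
  c13 : t 1 * t 3 = t 3 * t 1
  c14 : t 1 * t 4 = t 4 * t 1
  c24 : t 2 * t 4 = t 4 * t 2

/-- The stage: `ι` indexes the points that are already present. -/
structure Stage (ι Z G₀ G' : Type) [AddCommGroup Z] [Group G₀] [Group G'] where
  t : Fin 5 → G₀
  h : ι → G₀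
  gen : Subgroup.closure (Set.range t ∪ Set.range h) = ⊤
  rel : TRel t
  ht0 : ∀ k, h k * t 0 = t 0 * h k
  ht2 : ∀ k, h k * t 2 = t 2 * h k
  ht3 : ∀ k, h k * t 3 = t 3 * h k
  ht4 : ∀ k, h k * t 4 = t 4 * h k
  hcomm : ∀ k, h k ∈ commutator G₀
  π : G₀ →* W
  πt : ∀ i, π (t i) = tw i
  πh : ∀ k, π (h k) = 1
  j : G₀ →* G'
  ρ : G' →* G₀
  ρj : ∀ g, ρ (j g) = g
  e : FreeGroup (Fin 4 ⊕ ι) × Multiplicative Z →* G'
  e_inj : Function.Injective e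
  ker : ∀ x, ρ x = 1 ↔ ∃ n, e n = x
  z0 : Z
  z0_gen : ∀ m : Z, ∃ n : ℤ, m = n • z0
  /-- pushes of the new point around the loops of the free basis -/
  P : Fin 4 → G'
  P_eq : ∀ i, P i = e (FreeGroup.of (Sum.inl i), 1)
  R : ι → G'
  R_eq : ∀ k, R k = e (FreeGroup.of (Sum.inr k), 1)
  z : G'
  z_eq : z = e (1, Multiplicative.ofAdd z0)
  tP : ∀ (i : Fin 5) (k : Fin 4), (i : ℕ) + 1 < k ∨ (k : ℕ) + 1 < i ∨ (i : ℕ) = k →
    j (t i) * P k * (j (t i))⁻¹ = P k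
  t0P1 : j (t 0) * P 1 * (j (t 0))⁻¹ = (P 0)⁻¹ * P 1
  t1P0 : j (t 1) * P 0 * (j (t 1))⁻¹ = P 0 * P 1
  t1P2 : j (t 1) * P 2 * (j (t 1))⁻¹ = (P 1)⁻¹ * P 2
  t2P1 : j (t 2) * P 1 * (j (t 2))⁻¹ = P 1 * P 2
  t2P3 : j (t 2) * P 3 * (j (t 2))⁻¹ = (P 2)⁻¹ * P 3
  t3P2 : j (t 3) * P 2 * (j (t 3))⁻¹ = P 2 * P 3
  t4P3 : j (t 4) * P 3 * (j (t 4))⁻¹ = (P 2)⁻¹ * (P 1)⁻¹ * (P 0)⁻¹ * P 1 * P 3 * z
  tR : ∀ i k, j (t i) * R k * (j (t i))⁻¹ = R k
  tz : ∀ g, z * g = g * z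
  hP0 : ∀ k, j (h k) * P 0 * (j (h k))⁻¹ = R k * P 0 * (R k)⁻¹
  hP1 : ∀ k, j (h k) * P 1 * (j (h k))⁻¹ = R k * P 1
  hP2 : ∀ k, j (h k) * P 2 * (j (h k))⁻¹ = P 2
  hP3 : ∀ k, j (h k) * P 3 * (j (h k))⁻¹ = P 3
  hR : ∀ k l, ∃ n, ρ n = 1 ∧ j (h k) * R l * (j (h k))⁻¹ = n * R l * n⁻¹

/-- The word expressing the central element `z` (or a kernel element of a central extension) -/
def w0 {E : Type} [Group E] (t : Fin 5 → E) (b : E) : E := b * (t 0 * b * (t 0)⁻¹)⁻¹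
/-- second word -/
def w1 {E : Type} [Group E] (t : Fin 5 → E) (b : E) : E :=
  (w0 t b)⁻¹ * (t 1 * w0 t b * (t 1)⁻¹)
/-- third word -/
def w2 {E : Type} [Group E] (t : Fin 5 → E) (b : E) : E :=
  (w1 t b)⁻¹ * (t 2 * w1 t b * (t 2)⁻¹)
/-- fourth word -/
def w3 {E : Type} [Group E] (t : Fin 5 → E) (b : E) : E :=
  (w2 t b)⁻¹ * (t 3 * w2 t b * (t 3)⁻¹)
/-- fifth word -/
def wz {E : Type} [Group E] (t : Fin 5 → E) (b : E) : E :=
  (w3 t b)⁻¹ * (w1 t b)⁻¹ * w0 t b * w1 t b * w2 t b * (t 4 * w3 t b * (t 4)⁻¹)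

namespace Stage

variable {ι Z G₀ G' : Type} [AddCommGroup Z] [Group G₀] [Group G'] (S : Stage ι Z G₀ G')

theorem ρe (n : FreeGroup (Fin 4 ⊕ ι) × Multiplicative Z) : S.ρ (S.e n) = 1 :=
  (S.ker _).2 ⟨n, rfl⟩

/-- The group of pushes, the kernel of `ρ`. -/
abbrev N : Subgroup G' := S.ρ.ker

/-- the basic pushes as elements of the kernel -/
def nP (i : Fin 4) : S.N := ⟨S.P i, by rw [S.P_eq]; exact S.ρe _⟩
/-- the basic pushes as elements of the kernel -/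
def nR (k : ι) : S.N := ⟨S.R k, by rw [S.R_eq]; exact S.ρe _⟩
/-- the central element as an element of the kernel -/
def nz : S.N := ⟨S.z, by rw [S.z_eq]; exact S.ρe _⟩

@[simp] theorem nP_coe (i : Fin 4) : (S.nP i : G') = S.P i := rfl
@[simp] theorem nR_coe (k : ι) : (S.nR k : G') = S.R k := rfl
@[simp] theorem nz_coe : (S.nz : G') = S.z := rfl

/-- crossed homomorphisms of `G'` into the dual of the abelianised kernel -/
structure Crossed (S : Stage ι Z G₀ G') (K : Type) [AddCommGroup K] where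
  k : G' → S.N →* Multiplicative K
  mul : ∀ a b n, k (a * b) n = k a (MulAut.conjNormal b n) * k b n
  inner : ∀ (a : S.N) n, k a n = 1

end Stage

end MCG
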